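import Pool.Agent.Helper76.Flat.Conn

set_option autoImplicit false

/-!
Area measures: locality.
-/

open Set Topology MeasureTheory Filter Metric

namespace Pool.Agent.Helper76.Flat

/-- An injective map which preserves measures locally preserves measures. -/
lemma measure_image_of_local {X Y : Type*} [TopologicalSpace X] [SecondCountableTopology X]
    [MeasurableSpace X] [BorelSpace X] [MeasurableSpace Y] {f : X → Y} {μ : Measure X}
    {ν : Measure Y} {U : Set X} (hinj : InjOn f U)
    (hloc : ∀ z ∈ U, ∃ V, IsOpen V ∧ z ∈ V ∧ ∀ A, A ⊆ V → A ⊆ U → MeasurableSet A →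
      MeasurableSet (f '' A) ∧ ν (f '' A) = μ A) {A : Set X} (hAU : A ⊆ U)
    (hA : MeasurableSet A) : MeasurableSet (f '' A) ∧ ν (f '' A) = μ A := by
  rcases A.eq_empty_or_nonempty with rfl | hne
  · simp
  choose! V hVo hzV hV using hloc
  obtain ⟨T, hTc, hT⟩ := TopologicalSpace.isOpen_iUnion_countable
    (fun z : A => V z) (fun z => hVo z (hAU z.2))
  have hTne : T.Nonempty := by
    by_contra h
    rw [Set.not_nonempty_iff_eq_empty] at h
    subst h
    obtain ⟨z, hz⟩ := hne
    have : z ∈ ⋃ i : A, V i := mem_iUnion.2 ⟨⟨z, hz⟩, hzV z (hAU hz)⟩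
    rw [← hT] at this
    simp at this
  obtain ⟨g, hg⟩ := hTc.exists_eq_range hTne
  set W : ℕ → Set X := fun n => V (g n : X) with hW
  have hWo : ∀ n, IsOpen (W n) := fun n => hVo _ (hAU (g n).2)
  have hcov : A ⊆ ⋃ n, W n := by
    intro z hz
    have : z ∈ ⋃ i : A, V i := mem_iUnion.2 ⟨⟨z, hz⟩, hzV z (hAU hz)⟩
    rw [← hT] at this
    simp only [mem_iUnion, exists_prop] at this
    obtain ⟨i, hi, hzi⟩ := this
    rw [hg] at hi
    obtain ⟨n, rfl⟩ := hi
    exact mem_iUnion.2 ⟨n, hzi⟩
  set D : ℕ → Set X := fun n => A ∩ disjointed W n with hD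
  have hDm : ∀ n, MeasurableSet (D n) := fun n =>
    hA.inter (MeasurableSet.disjointed (fun i => (hWo i).measurableSet) n)
  have hDd : Pairwise (Function.onFun Disjoint D) := fun i j hij =>
    ((disjoint_disjointed W) hij).mono inter_subset_right inter_subset_right
  have hDu : ⋃ n, D n = A := by
    rw [← inter_iUnion, iUnion_disjointed, inter_eq_left]
    exact hcov
  have hloc' : ∀ n, MeasurableSet (f '' D n) ∧ ν (f '' D n) = μ (D n) := fun n =>
    hV _ (hAU (g n).2) (D n) (inter_subset_right.trans (disjointed_subset W n))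
      (inter_subset_left.trans hAU) (hDm n)
  have himg : f '' A = ⋃ n, f '' D n := by rw [← image_iUnion, hDu]
  have hdis : Pairwise (Function.onFun Disjoint fun n => f '' D n) := by
    intro i j hij
    rw [Function.onFun, Set.disjoint_left]
    rintro _ ⟨x, hx, rfl⟩ ⟨y, hy, hxy⟩
    have : y = x := hinj (hAU hy.1) (hAU hx.1) hxy
    subst this
    exact Set.disjoint_left.1 (hDd hij) hx hy
  refine ⟨?_, ?_⟩
  · rw [himg]
    exact MeasurableSet.iUnion fun n => (hloc' n).1
  · rw [himg, measure_iUnion hdis fun n => (hloc' n).1]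
    simp_rw [fun n => (hloc' n).2]
    rw [← measure_iUnion hDd hDm, hDu]

lemma measurableSet_preimage_oph {X Y : Type*} [TopologicalSpace X] [TopologicalSpace Y]
    [MeasurableSpace X] [BorelSpace X] [MeasurableSpace Y] [BorelSpace Y]
    (φ : OpenPartialHomeomorph X Y) {B : Set Y} (hB : MeasurableSet B) :
    MeasurableSet (φ.source ∩ φ ⁻¹' B) := by
  have h1 : Continuous (fun x : φ.source => φ x) :=
    continuousOn_iff_continuous_domRestrict.1 φ.continuousOn
  have h2 : MeasurableSet ((fun x : φ.source => φ x) ⁻¹' B) := h1.measurable hB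
  have h3 := MeasurableSet.subtype_image φ.open_source.measurableSet h2
  convert h3 using 1
  ext x
  simp [and_comm]

lemma measurableSet_image_oph {X Y : Type*} [TopologicalSpace X] [TopologicalSpace Y]
    [MeasurableSpace X] [BorelSpace X] [MeasurableSpace Y] [BorelSpace Y]
    (φ : OpenPartialHomeomorph X Y) {A : Set X} (hA : MeasurableSet A) (hAs : A ⊆ φ.source) :
    MeasurableSet (φ '' A) := by
  have h := measurableSet_preimage_oph φ.symm hA
  convert h using 1
  ext y
  simp only [mem_image, mem_inter_iff, mem_preimage, φ.symm_source]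
  constructor
  · rintro ⟨x, hx, rfl⟩
    exact ⟨φ.map_source (hAs hx), by rwa [φ.left_inv (hAs hx)]⟩
  · rintro ⟨hy, hx⟩
    exact ⟨_, hx, φ.right_inv hy⟩

lemma volume_image_mul_add {lam c : ℂ} (hlam : ‖lam‖ = 1) (A : Set ℂ) :
    volume ((fun z => lam * z + c) '' A) = volume A := by
  have h0 : lam ≠ 0 := by rintro rfl; simp at hlam
  have h1 : (fun z : ℂ => lam * z + c) '' A = (fun z => z + c) '' ((fun z => lam • z) '' A) := by
    rw [← image_comp]; rfl
  rw [h1]
  have h2 : ((fun z : ℂ => z + c) '' ((fun z => lam • z) '' A)) =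
      (fun z => z + (-c)) ⁻¹' ((fun z => lam • z) '' A) := by
    rw [image_add_right]
  rw [h2, measure_preimage_add_right]
  set e : ℂ ≃ₗᵢ[ℝ] ℂ := rotation (⟨lam, by simpa [Submonoid.unitSphere] using hlam⟩ : Circle) with he
  have h3 : MeasurePreserving (e.symm.toHomeomorph.toMeasurableEquiv : ℂ ≃ᵐ ℂ) volume volume :=
    e.symm.measurePreserving
  have h4 : (fun z : ℂ => lam • z) '' A = (e.symm.toHomeomorph.toMeasurableEquiv : ℂ ≃ᵐ ℂ) ⁻¹' A := by
    have h5 : (fun z : ℂ => lam • z) '' A = e '' A := rfl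
    rw [h5]
    ext z
    simp only [mem_image, mem_preimage]
    constructor
    · rintro ⟨w, hw, rfl⟩
      have : e.symm.toHomeomorph.toMeasurableEquiv (e w) = w := e.symm_apply_apply w
      rwa [this]
    · intro hz
      exact ⟨_, hz, e.apply_symm_apply z⟩
  rw [h4, h3.measure_preimage_equiv]

variable {S : Type*} [TopologicalSpace S]

namespace TranslationStructure

variable {M : TranslationStructure S}

/-- area measures, with instance arguments -/
def IsAM (M : TranslationStructure S) [MeasurableSpace S] [BorelSpace S] (μ : Measure S) : Prop :=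
  μ M.sing = 0 ∧ ∀ φ ∈ M.charts, ∀ W : Set S, W ⊆ φ.source → MeasurableSet W →
    μ W = volume (φ '' W)

lemma IsAM.image_sec [MeasurableSpace S] [BorelSpace S] {μ : Measure S} (hμ : M.IsAM μ)
    {lam : ℂ} (hlam : ‖lam‖ = 1) {U : Set ℂ} (hU : IsOpen U) {E : ℂ → S} (hE : M.IsSec lam U E)
    (hinj : InjOn E U) {A : Set ℂ} (hAU : A ⊆ U) (hA : MeasurableSet A) :
    MeasurableSet (E '' A) ∧ μ (E '' A) = volume A := by
  refine measure_image_of_local hinj ?_ hAU hA
  intro z hz
  obtain ⟨φ, hφ, hx⟩ := M.exists_chart (hE.2 z hz).1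
  obtain ⟨c, hc⟩ := (hE.2 z hz).2 φ hφ hx
  have hs : ∀ᶠ w in 𝓝 z, E w ∈ φ.source :=
    (hE.continuousAt hU hz).eventually (φ.open_source.mem_nhds hx)
  obtain ⟨V, hV, hVo, hzV⟩ := _root_.eventually_nhds_iff.1 (hc.and hs)
  refine ⟨V, hVo, hzV, fun B hBV hBU hB => ?_⟩
  have h1 : (fun w => lam * w + c) '' B ⊆ φ.target := by
    rintro _ ⟨w, hw, rfl⟩
    have h2 := hV w (hBV hw)
    show lam * w + c ∈ φ.target
    rw [← h2.1]
    exact φ.map_source h2.2
  have h2 : E '' B = φ.symm '' ((fun w => lam * w + c) '' B) := by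
    rw [← image_comp]
    refine image_congr fun w hw => ?_
    have h2 := hV w (hBV hw)
    rw [Function.comp_apply, ← h2.1, φ.left_inv h2.2]
  have h0 : lam ≠ 0 := by rintro rfl; simp at hlam
  have h3 : MeasurableSet ((fun w => lam * w + c) '' B) := by
    have : (fun w => lam * w + c) =
        ((Homeomorph.mulLeft₀ lam h0).trans (Homeomorph.addRight c) : ℂ → ℂ) := by
      ext w; simp
    rw [this]
    exact ((Homeomorph.mulLeft₀ lam h0).trans (Homeomorph.addRight c)).measurableEmbedding.measurableSet_image.2 hB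
  have h4 : MeasurableSet (E '' B) := by
    rw [h2]
    exact measurableSet_image_oph φ.symm h3 h1
  refine ⟨h4, ?_⟩
  have h5 : E '' B ⊆ φ.source := by
    rintro _ ⟨w, hw, rfl⟩
    exact (hV w (hBV hw)).2
  rw [hμ.2 φ hφ _ h5 h4]
  have h6 : φ '' (E '' B) = (fun w => lam * w + c) '' B := by
    rw [← image_comp]
    exact image_congr fun w hw => (hV w (hBV hw)).1
  rw [h6, volume_image_mul_add hlam]

end TranslationStructure

end Pool.Agent.Helper76.Flat
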