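import Pool.Agent.Helper76.Flat.Area

set_option autoImplicit false
set_option linter.style.haveILetI false

/-!
Existence of the area measure, scaling, comparison.
-/

open Set Topology MeasureTheory Filter Metric Pointwise

namespace Pool.Agent.Helper76.Flat

variable {S : Type*} [TopologicalSpace S]

namespace TranslationStructure

variable {M : TranslationStructure S}

/-- transition maps preserve the area -/
lemma volume_image_charts {φ ψ : OpenPartialHomeomorph S ℂ} (hφ : φ ∈ M.charts)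
    (hψ : ψ ∈ M.charts) [MeasurableSpace S] [BorelSpace S] {W : Set S} (hW : W ⊆ φ.source)
    (hW' : W ⊆ ψ.source) (hWm : MeasurableSet W) : volume (ψ '' W) = volume (φ '' W) := by
  have hA : MeasurableSet (φ '' W) := measurableSet_image_oph φ hWm hW
  have hU : φ '' W ⊆ φ '' (φ.source ∩ ψ.source) := image_mono fun x hx => ⟨hW hx, hW' hx⟩
  have key := measure_image_of_local (f := ψ ∘ φ.symm) (μ := volume) (ν := volume)
    (U := φ '' (φ.source ∩ ψ.source)) ?_ ?_ hU hA
  · have h2 : (ψ ∘ φ.symm) '' (φ '' W) = ψ '' W := by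
      rw [← image_comp]
      refine image_congr fun x hx => ?_
      simp only [Function.comp_apply]
      rw [φ.left_inv (hW hx)]
    rw [h2] at key
    exact key.2
  · rintro _ ⟨x, ⟨hx1, hx2⟩, rfl⟩ _ ⟨y, ⟨hy1, hy2⟩, rfl⟩ hxy
    simp only [Function.comp_apply] at hxy
    rw [φ.left_inv hx1, φ.left_inv hy1] at hxy
    rw [ψ.injOn hx2 hy2 hxy]
  · rintro _ ⟨x, ⟨hx1, hx2⟩, rfl⟩
    obtain ⟨c, hc⟩ := M.translation φ hφ ψ hψ x ⟨hx1, hx2⟩
    have hcs : Tendsto φ.symm (𝓝 (φ x)) (𝓝 x) := by
      have := (φ.continuousAt_symm (φ.map_source hx1)).tendsto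
      rwa [φ.left_inv hx1] at this
    have h1 : ∀ᶠ z in 𝓝 (φ x), ψ (φ.symm z) = z + c := by
      filter_upwards [hcs.eventually hc, φ.open_target.mem_nhds (φ.map_source hx1)] with z hz hz'
      rw [hz, φ.right_inv hz']
    obtain ⟨V, hV, hVo, hxV⟩ := _root_.eventually_nhds_iff.1 h1
    refine ⟨V, hVo, hxV, fun A hAV _ hAm => ?_⟩
    have h2 : (ψ ∘ φ.symm) '' A = (fun z => 1 * z + c) '' A := by
      refine image_congr fun z hz => ?_
      rw [Function.comp_apply, hV z (hAV hz), one_mul]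
    rw [h2]
    refine ⟨?_, volume_image_mul_add norm_one A⟩
    have : (fun z : ℂ => 1 * z + c) = (Homeomorph.addRight c : ℂ → ℂ) := by
      ext w; simp
    rw [this]
    exact (Homeomorph.addRight c).measurableEmbedding.measurableSet_image.2 hAm

/-- the area measure exists -/
theorem exists_am [SecondCountableTopology S] [MeasurableSpace S] [BorelSpace S]
    (M : TranslationStructure S) : ∃ μ : Measure S, M.IsAM μ := by
  rcases M.charts.eq_empty_or_nonempty with he | hne
  · refine ⟨0, rfl, fun φ hφ => ?_⟩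
    rw [he] at hφ
    exact absurd hφ (notMem_empty _)
  haveI : Nonempty M.charts := hne.to_subtype
  obtain ⟨T, hTc, hT⟩ := TopologicalSpace.isOpen_iUnion_countable
    (fun φ : M.charts => (φ : OpenPartialHomeomorph S ℂ).source) (fun φ => φ.1.open_source)
  have hTcov : ∀ x ∉ M.sing, ∃ φ ∈ T, x ∈ (φ : OpenPartialHomeomorph S ℂ).source := by
    intro x hx
    obtain ⟨φ, hφ, hxφ⟩ := M.exists_chart hx
    have h1 : x ∈ ⋃ φ : M.charts, (φ : OpenPartialHomeomorph S ℂ).source :=
      mem_iUnion.2 ⟨⟨φ, hφ⟩, hxφ⟩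
    rw [← hT] at h1
    simpa using h1
  obtain ⟨g, hg⟩ : ∃ g : ℕ → M.charts, ∀ x ∉ M.sing, ∃ n, x ∈ (g n : OpenPartialHomeomorph S ℂ).source := by
    rcases T.eq_empty_or_nonempty with h | h
    · refine ⟨fun _ => Classical.arbitrary _, fun x hx => ?_⟩
      obtain ⟨φ, hφ, _⟩ := hTcov x hx
      rw [h] at hφ
      exact absurd hφ (notMem_empty _)
    · obtain ⟨g, hg⟩ := hTc.exists_eq_range h
      refine ⟨g, fun x hx => ?_⟩
      obtain ⟨φ, hφ, hxφ⟩ := hTcov x hx
      rw [hg] at hφ
      obtain ⟨n, rfl⟩ := hφ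
      exact ⟨n, hxφ⟩
  set Q : ℕ → Set S := fun n => (g n : OpenPartialHomeomorph S ℂ).source with hQ
  have hQo : ∀ n, IsOpen (Q n) := fun n => (g n).1.open_source
  set P : ℕ → Set S := disjointed Q with hP
  have hPm : ∀ n, MeasurableSet (P n) := fun n => MeasurableSet.disjointed (fun i => (hQo i).measurableSet) n
  have hPQ : ∀ n, P n ⊆ Q n := fun n => disjointed_subset Q n
  have hPd : Pairwise (Function.onFun Disjoint P) := disjoint_disjointed Q
  have hPu : ⋃ n, P n = M.singᶜ := by
    rw [hP, iUnion_disjointed]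
    ext x
    simp only [mem_iUnion, mem_compl_iff]
    constructor
    · rintro ⟨n, hn⟩
      exact notMem_sing (g n).2 hn
    · exact hg x
  set μn : ℕ → Measure S := fun n =>
    (Measure.map (g n).1.symm (volume.restrict (g n).1.target)).restrict (P n) with hμn
  have hval : ∀ n, ∀ W : Set S, MeasurableSet W → μn n W = volume ((g n).1 '' (W ∩ P n)) := by
    intro n W hW
    rw [hμn]
    simp only
    rw [Measure.restrict_apply hW, Measure.map_apply_of_aemeasurable _ (hW.inter (hPm n))]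
    · rw [Measure.restrict_apply' (g n).1.open_target.measurableSet]
      congr 1
      ext z
      constructor
      · rintro ⟨h1, h2⟩
        exact ⟨_, h1, (g n).1.right_inv h2⟩
      · rintro ⟨x, hx, rfl⟩
        have hxs : x ∈ (g n).1.source := hPQ n hx.2
        refine ⟨?_, (g n).1.map_source hxs⟩
        show (g n).1.symm ((g n).1 x) ∈ W ∩ P n
        rwa [(g n).1.left_inv hxs]
    · exact (g n).1.continuousOn_symm.aemeasurable (g n).1.open_target.measurableSet
  refine ⟨Measure.sum μn, ?_, ?_⟩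
  · rw [Measure.sum_apply _ M.isClosed_sing.measurableSet]
    simp only [ENNReal.tsum_eq_zero]
    intro n
    rw [hval n _ M.isClosed_sing.measurableSet]
    have : M.sing ∩ P n = ∅ := by
      rw [eq_empty_iff_forall_notMem]
      rintro x ⟨hx1, hx2⟩
      exact notMem_sing (g n).2 (hPQ n hx2) hx1
    rw [this, image_empty, measure_empty]
  · intro φ hφ W hWs hWm
    rw [Measure.sum_apply _ hWm]
    have h1 : ∀ n, μn n W = volume (φ '' (W ∩ P n)) := by
      intro n
      rw [hval n W hWm]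
      exact (volume_image_charts (g n).2 hφ (fun x hx => hPQ n hx.2) (fun x hx => hWs hx.1)
        (hWm.inter (hPm n))).symm
    simp_rw [h1]
    rw [← measure_iUnion]
    · congr 1
      rw [← image_iUnion, ← inter_iUnion, hPu, inter_eq_left.2]
      intro x hx
      exact notMem_sing hφ (hWs hx)
    · intro i j hij
      rw [Function.onFun, Set.disjoint_left]
      rintro _ ⟨x, hx, rfl⟩ ⟨y, hy, hxy⟩
      have : y = x := φ.injOn (hWs hy.1) (hWs hx.1) hxy
      subst this
      exact Set.disjoint_left.1 (hPd hij) hx.2 hy.2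
    · intro n
      exact measurableSet_image_oph φ (hWm.inter (hPm n)) fun x hx => hWs hx.1

lemma volume_smul_real {r : ℝ} (A : Set ℂ) :
    volume ((fun z : ℂ => (r : ℂ) * z) '' A) = ENNReal.ofReal (r ^ 2) * volume A := by
  have h1 : (fun z : ℂ => (r : ℂ) * z) '' A = r • A := by
    ext z
    simp only [mem_image, Set.mem_smul_set, Complex.real_smul]
  rw [h1, Measure.addHaar_smul, Complex.finrank_real_complex, abs_of_nonneg (sq_nonneg r)]

/-- area of the image of a section, general multiplier -/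
lemma IsAM.image_sec' [MeasurableSpace S] [BorelSpace S] {μ : Measure S} (hμ : M.IsAM μ)
    {lam : ℂ} (hlam : lam ≠ 0) {U : Set ℂ} (hU : IsOpen U) {E : ℂ → S} (hE : M.IsSec lam U E)
    (hinj : InjOn E U) {A : Set ℂ} (hAU : A ⊆ U) (hA : MeasurableSet A) :
    MeasurableSet (E '' A) ∧ μ (E '' A) = ENNReal.ofReal (‖lam‖ ^ 2) * volume A := by
  have hn : ‖lam‖ ≠ 0 := norm_ne_zero_iff.2 hlam
  have hn' : (‖lam‖ : ℂ) ≠ 0 := by exact_mod_cast hn
  set a : ℂ := (‖lam‖ : ℂ)⁻¹ with ha
  have ha0 : a ≠ 0 := inv_ne_zero hn'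
  have h1 := hE.comp_mul_add (a := a) (b := 0)
  simp only [add_zero] at h1
  have hcont : Continuous fun z : ℂ => a * z := by fun_prop
  have h2 : ‖lam * a‖ = 1 := by
    rw [norm_mul, ha, norm_inv, Complex.norm_real, norm_norm, mul_inv_cancel₀ hn]
  have h3 : InjOn (fun z => E (a * z)) ((fun z => a * z) ⁻¹' U) := by
    intro z hz w hw hzw
    exact mul_left_cancel₀ ha0 (hinj hz hw hzw)
  have h4 : (fun z : ℂ => (‖lam‖ : ℂ) * z) '' A ⊆ (fun z => a * z) ⁻¹' U := by
    rintro _ ⟨z, hz, rfl⟩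
    show a * ((‖lam‖ : ℂ) * z) ∈ U
    rw [← mul_assoc, ha, inv_mul_cancel₀ hn', one_mul]
    exact hAU hz
  have h5 : MeasurableSet ((fun z : ℂ => (‖lam‖ : ℂ) * z) '' A) := by
    have : (fun z : ℂ => (‖lam‖ : ℂ) * z) = (Homeomorph.mulLeft₀ (‖lam‖ : ℂ) hn' : ℂ → ℂ) := by
      ext w; simp
    rw [this]
    exact (Homeomorph.mulLeft₀ (‖lam‖ : ℂ) hn').measurableEmbedding.measurableSet_image.2 hA
  have h6 := hμ.image_sec h2 (hU.preimage hcont) h1 h3 h4 h5
  have h7 : (fun z => E (a * z)) '' ((fun z : ℂ => (‖lam‖ : ℂ) * z) '' A) = E '' A := by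
    rw [← image_comp]
    refine image_congr fun z _ => ?_
    simp only [Function.comp_apply]
    rw [← mul_assoc, ha, inv_mul_cancel₀ hn', one_mul]
  rw [h7, volume_smul_real] at h6
  exact h6

/-- two translation structures which agree on an open set have the same area there -/
lemma IsAM.eq_of_agree [SecondCountableTopology S] [MeasurableSpace S] [BorelSpace S]
    {N : TranslationStructure S} {μ ν : Measure S} (hμ : M.IsAM μ) (hν : N.IsAM ν) {O : Set S}
    (hsing : M.sing = N.sing)
    (hag : ∀ x ∈ O, x ∉ M.sing → ∃ φ ∈ M.charts, ∃ ψ ∈ N.charts, x ∈ φ.source ∧ x ∈ ψ.source ∧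
      ∃ c : ℂ, ∀ᶠ y in 𝓝 x, ψ y = φ y + c) {W : Set S} (hW : W ⊆ O)
    (hWm : MeasurableSet W) : ν W = μ W := by
  have h1 : ∀ W' ⊆ O \ M.sing, MeasurableSet W' → ν W' = μ W' := by
    intro W' hW' hWm'
    have key := measure_image_of_local (f := (id : S → S)) (μ := μ) (ν := ν) (U := O \ M.sing)
      (injOn_id _) ?_ hW' hWm'
    · simpa using key.2
    · intro x hx
      obtain ⟨φ, hφ, ψ, hψ, hxφ, hxψ, c, hc⟩ := hag x hx.1 hx.2
      obtain ⟨V, hV, hVo, hxV⟩ := _root_.eventually_nhds_iff.1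
        ((hc.and (φ.open_source.mem_nhds hxφ)).and (ψ.open_source.mem_nhds hxψ))
      refine ⟨V, hVo, hxV, fun A hAV _ hAm => ?_⟩
      rw [image_id]
      refine ⟨hAm, ?_⟩
      rw [hμ.2 φ hφ A (fun y hy => (hV y (hAV hy)).1.2) hAm,
        hν.2 ψ hψ A (fun y hy => (hV y (hAV hy)).2) hAm]
      have h2 : ψ '' A = (fun z => 1 * z + c) '' (φ '' A) := by
        rw [← image_comp]
        refine image_congr fun y hy => ?_
        rw [Function.comp_apply, (hV y (hAV hy)).1.1, one_mul]
      rw [h2, volume_image_mul_add norm_one]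
  have h2 : W = (W \ M.sing) ∪ (W ∩ M.sing) := (sdiff_union_inter W M.sing).symm
  have hdis : Disjoint (W \ M.sing) (W ∩ M.sing) := disjoint_sdiff_inter
  have hm2 : MeasurableSet (W ∩ M.sing) := hWm.inter M.isClosed_sing.measurableSet
  rw [h2, measure_union hdis hm2, measure_union hdis hm2,
    h1 _ (sdiff_subset_sdiff_left hW) (hWm.diff M.isClosed_sing.measurableSet)]
  congr 1
  rw [measure_mono_null inter_subset_right hμ.1]
  refine measure_mono_null inter_subset_right ?_
  rw [hsing]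
  exact hν.1

/-- finiteness of the area with instance arguments -/
lemma finiteArea_of_isAM [hm : MeasurableSpace S] [hb : BorelSpace S] {μ : Measure S}
    (hμ : M.IsAM μ) (hfin : μ univ < ⊤) : M.FiniteArea := by
  obtain rfl : hm = borel S := hb.measurable_eq
  exact ⟨μ, hμ, hfin⟩

lemma FiniteArea.exists_isAM [hm : MeasurableSpace S] [hb : BorelSpace S]
    (h : M.FiniteArea) : ∃ μ : Measure S, M.IsAM μ ∧ μ univ < ⊤ := by
  obtain rfl : hm = borel S := hb.measurable_eq
  obtain ⟨μ, hμ, hfin⟩ := h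
  exact ⟨μ, hμ, hfin⟩

end TranslationStructure

end Pool.Agent.Helper76.Flat
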