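import Pool.Agent.Helper76.Flat.RotFG

set_option autoImplicit false
set_option linter.style.haveILetI false

/-!
A translation surface of finite area and infinite type has a finite isometry group.
-/

open Set Topology MeasureTheory Filter Metric ComplexConjugate unitInterval

namespace Pool.Agent.Helper76.Flat

variable {S : Type*} [TopologicalSpace S]

/-- the charted space attached to a choice of charts -/
noncomputable def chartedSpaceOf (h : ∀ x : S, ∃ φ : OpenPartialHomeomorph S ℂ, x ∈ φ.source) :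
    ChartedSpace ℂ S where
  atlas := univ
  chartAt x := (h x).choose
  mem_chart_source x := (h x).choose_spec
  chart_mem_atlas _ := mem_univ _

lemma locallyPathConnectedSpace_of_charts
    (h : ∀ x : S, ∃ φ : OpenPartialHomeomorph S ℂ, x ∈ φ.source) : LocallyPathConnectedSpace S :=
  letI := chartedSpaceOf h
  ChartedSpace.locallyPathConnectedSpace ℂ S

lemma locallyCompactSpace_of_charts
    (h : ∀ x : S, ∃ φ : OpenPartialHomeomorph S ℂ, x ∈ φ.source) : LocallyCompactSpace S :=
  letI := chartedSpaceOf h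
  ChartedSpace.locallyCompactSpace ℂ S

namespace TranslationStructure

variable {M : TranslationStructure S}

theorem fg_of_commuting_rotations [T2Space S] [ConnectedSpace S] {h : ℕ → S ≃ₜ S} {lam : ℕ → ℂ}
    (hlam : ∀ k, ‖lam k‖ = 1) (haff : ∀ k, M.IsAffine (lam k) (h k))
    (hl1 : Tendsto lam atTop (𝓝 1)) (hne : ∀ k, lam k ≠ 1)
    (hcomm : ∀ j k, h j * h k = h k * h j) {x0 : S} (hx0 : x0 ∉ M.sing)
    (hpt : Tendsto (fun k => h k x0) atTop (𝓝 x0)) :
    ∃ x, Group.FG (FundamentalGroup S x) := by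
  classical
  have hall : ∀ y, y ∉ M.sing → Tendsto (fun k => h k y) atTop (𝓝 y) := fun y hy =>
    tendsto_id_of_one hlam haff hl1 hx0 hpt hy
  have hex : ∀ y, ∃ w, y ∉ M.sing → M.IsCenter h lam y w := by
    intro y
    by_cases hy : y ∈ M.sing
    · exact ⟨0, fun h => absurd hy h⟩
    · obtain ⟨w, hw⟩ := exists_center hlam haff hl1 hne hcomm hy (hall y hy)
      exact ⟨w, fun _ => hw⟩
  choose f hf using hex
  have hdev : M.IsDevFun f := by
    intro r E hr hE hinj z hz
    have h0 := (hE.2 0 (mem_ball_self hr)).1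
    have hz' := (hE.2 z (ball_subset_ball (by linarith) hz)).1
    exact (hf _ hz').unique hl1 hne hz'
      ((hf _ h0).move hlam haff hl1 hr hE hinj (hall _ h0) hz)
  have hequiv : ∀ k y, y ∉ M.sing → f (h k y) = lam k * f y := by
    intro k y hy
    have hy' : h k y ∉ M.sing := fun hh => hy ((mem_sing_iff_image (haff k).1).1 hh)
    exact (hf _ hy').unique hl1 hne hy' ((hf _ hy).map hlam haff hl1 hcomm hy k)
  have hlam0 : ∀ k, lam k ≠ 0 := by
    intro k h0
    have := hlam k
    rw [h0] at this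
    simp at this
  have hP := isolatedCharted_excSet hdev
  set P : Set S := M.excSet f with hPdef
  obtain ⟨x1, hx1⟩ := hP.dense_compl.nonempty
  haveI : ConnectedSpace (Pᶜ : Set S) := by
    rw [← isConnected_iff_connectedSpace]
    exact ⟨⟨x1, hx1⟩, hP.isPreconnected_compl⟩
  have hpres : ∀ k x, x ∈ Pᶜ ↔ h k x ∈ Pᶜ := by
    intro k x
    rw [mem_compl_iff, mem_compl_iff, notMem_excSet, notMem_excSet,
      mem_sing_iff_image (haff k).1]
    constructor
    · rintro ⟨h1, h2⟩
      exact ⟨h1, by rw [hequiv k x h1]; exact mul_ne_zero (hlam0 k) h2⟩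
    · rintro ⟨h1, h2⟩
      refine ⟨h1, fun h3 => h2 ?_⟩
      rw [hequiv k x h1, h3, mul_zero]
  let H : ℕ → ((Pᶜ : Set S) ≃ₜ (Pᶜ : Set S)) := fun k => (h k).subtype (hpres k)
  have hHv : ∀ k (x : (Pᶜ : Set S)), (H k x : S) = h k x := fun k x => rfl
  have hHaff : ∀ k, (logStructure hdev).IsAffine 1 (H k) := by
    intro k
    refine ⟨image_empty _, ?_⟩
    intro φ hφ ψ hψ x hx hx'
    obtain ⟨c, hc0, hc⟩ := hφ x hx
    obtain ⟨c', hc0', hc'⟩ := hψ _ hx'
    have hcont : ContinuousAt (fun y => ψ (H k y) - φ y) x :=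
      ((ψ.continuousAt hx').comp (H k).continuous.continuousAt).sub (φ.continuousAt hx)
    have h1 : ∀ᶠ y in 𝓝 x, Complex.exp (ψ (H k y) - φ y) = lam k * c / c' := by
      filter_upwards [hc, (H k).continuous.continuousAt.eventually hc'] with y hy hy'
      rw [Complex.exp_sub, div_eq_div_iff (Complex.exp_ne_zero _) hc0']
      rw [hHv, hequiv k y (notMem_excSet.1 y.2).1, hy] at hy'
      linear_combination -hy'
    refine ⟨ψ (H k x) - φ x, ?_⟩
    filter_upwards [eventually_const_of_exp hcont h1] with y hy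
    rw [← hy]
    ring
  have hHne : ∀ k, H k ≠ 1 := by
    intro k hk
    apply hne k
    have h1 : ∀ x : (Pᶜ : Set S), h k x = x := by
      intro x
      rw [← hHv, hk]
      rfl
    have h2 := hequiv k x1 (notMem_excSet.1 hx1).1
    rw [h1 ⟨x1, hx1⟩] at h2
    have h3 : (lam k - 1) * f x1 = 0 := by linear_combination -h2
    rcases mul_eq_zero.1 h3 with h4 | h4
    · exact sub_eq_zero.1 h4
    · exact absurd h4 (notMem_excSet.1 hx1).2
  have hHt : Tendsto (fun k => H k ⟨x1, hx1⟩) atTop (𝓝 ⟨x1, hx1⟩) := by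
    rw [tendsto_subtype_rng]
    exact hall x1 (notMem_excSet.1 hx1).1
  have hfg := fg_of_small_translations (M := logStructure hdev) hHaff hHne
    (x0 := ⟨x1, hx1⟩) (notMem_empty _) hHt ⟨x1, hx1⟩
  exact ⟨x1, fg_of_compl hP ⟨x1, hx1⟩ hfg⟩

/-- commutators of isometries near the identity are near the identity -/
lemma commutator_tendsto [T2Space S] {h : ℕ → S ≃ₜ S} {lam : ℕ → ℂ}
    (hlam : ∀ k, ‖lam k‖ = 1) (haff : ∀ k, M.IsAffine (lam k) (h k)) {x0 : S}
    (hx0 : x0 ∉ M.sing) (hpt : Tendsto (fun k => h k x0) atTop (𝓝 x0)) {j k : ℕ → ℕ}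
    (hj : Tendsto j atTop atTop) (hk : Tendsto k atTop atTop) :
    Tendsto (fun n => (h (j n) * h (k n) * (h (j n))⁻¹ * (h (k n))⁻¹) x0) atTop (𝓝 x0) := by
  obtain ⟨r, hr, E, hE, hinj, rfl⟩ := M.exists_isSec hx0
  obtain ⟨b, hb, hev⟩ := normal_form hlam haff hr hE hinj hpt
  have hlam0 : ∀ k, lam k ≠ 0 := by
    intro k h0
    have := hlam k
    rw [h0] at this
    simp at this
  have hsmall : ∀ᶠ k in atTop, ‖b k‖ < r / 16 := by
    filter_upwards [hb.eventually (ball_mem_nhds 0 (show 0 < r / 16 by positivity))] with k hk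
    simpa using hk
  have hinvf : ∀ᶠ k in atTop, ∀ w : ℂ, ‖w‖ < r / 4 →
      (h k)⁻¹ (E w) = E ((lam k)⁻¹ * (w - b k)) := by
    filter_upwards [hev, hsmall] with k hk1 hk2 w hw
    have h1 : (lam k)⁻¹ * (w - b k) ∈ ball (0 : ℂ) (r / 2) := by
      simp only [mem_ball, dist_zero_right, norm_mul, norm_inv, hlam, inv_one, one_mul]
      linarith [norm_sub_le w (b k)]
    have h2 := hk1.2 _ h1
    have h3 : lam k * ((lam k)⁻¹ * (w - b k)) + b k = w := by
      field_simp [hlam0 k]
      ring
    rw [h3] at h2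
    rw [← h2]
    exact (h k).symm_apply_apply _
  have hfor : ∀ᶠ k in atTop, ∀ w : ℂ, ‖w‖ < r / 4 → h k (E w) = E (lam k * w + b k) := by
    filter_upwards [hev] with k hk1 w hw
    exact hk1.2 w (by simp only [mem_ball, dist_zero_right]; linarith)
  set v : ℕ → ℂ := fun n => lam (j n) * (lam (k n) * ((lam (j n))⁻¹ *
    ((lam (k n))⁻¹ * (0 - b (k n)) - b (j n))) + b (k n)) + b (j n) with hv
  have hvn : ∀ n, ‖v n‖ ≤ 2 * ‖b (k n)‖ + 2 * ‖b (j n)‖ := by
    intro n
    have e1 : ‖(lam (k n))⁻¹ * (0 - b (k n))‖ = ‖b (k n)‖ := by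
      rw [norm_mul, norm_inv, hlam, zero_sub, norm_neg]; simp
    have e2 : ‖(lam (j n))⁻¹ * ((lam (k n))⁻¹ * (0 - b (k n)) - b (j n))‖ ≤
        ‖b (k n)‖ + ‖b (j n)‖ := by
      rw [norm_mul, norm_inv, hlam, inv_one, one_mul]
      refine (norm_sub_le _ _).trans ?_
      rw [e1]
    have e3 : ‖lam (k n) * ((lam (j n))⁻¹ * ((lam (k n))⁻¹ * (0 - b (k n)) - b (j n))) +
        b (k n)‖ ≤ ‖b (k n)‖ + ‖b (j n)‖ + ‖b (k n)‖ := by
      refine (norm_add_le _ _).trans ?_
      rw [norm_mul, hlam, one_mul]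
      linarith
    calc ‖v n‖ ≤ ‖lam (k n) * ((lam (j n))⁻¹ * ((lam (k n))⁻¹ * (0 - b (k n)) - b (j n))) +
        b (k n)‖ + ‖b (j n)‖ := by
          rw [hv]
          refine (norm_add_le _ _).trans ?_
          rw [norm_mul, hlam, one_mul]
      _ ≤ _ := by linarith
  have hvt : Tendsto v atTop (𝓝 0) := by
    rw [tendsto_zero_iff_norm_tendsto_zero]
    refine squeeze_zero (fun n => norm_nonneg _) hvn ?_
    have h1 := (tendsto_zero_iff_norm_tendsto_zero.1 (hb.comp hk)).const_mul 2
    have h2 := (tendsto_zero_iff_norm_tendsto_zero.1 (hb.comp hj)).const_mul 2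
    have h3 := h1.add h2
    simpa using h3
  have hEv : Tendsto (fun n => E (v n)) atTop (𝓝 (E 0)) :=
    (hE.continuousAt isOpen_ball (mem_ball_self hr)).tendsto.comp hvt
  refine hEv.congr' ?_
  filter_upwards [hj.eventually hinvf, hk.eventually hinvf, hj.eventually hfor,
    hk.eventually hfor, hj.eventually hsmall, hk.eventually hsmall] with n i1 i2 f1 f2 s1 s2
  rw [Homeomorph.mul_apply, Homeomorph.mul_apply, Homeomorph.mul_apply, i2 0 (by
    rw [norm_zero]; positivity)]
  have e1 : ‖(lam (k n))⁻¹ * (0 - b (k n))‖ = ‖b (k n)‖ := by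
    rw [norm_mul, norm_inv, hlam, zero_sub, norm_neg]; simp
  have e2 : ‖(lam (j n))⁻¹ * ((lam (k n))⁻¹ * (0 - b (k n)) - b (j n))‖ ≤
      ‖b (k n)‖ + ‖b (j n)‖ := by
    rw [norm_mul, norm_inv, hlam, inv_one, one_mul]
    refine (norm_sub_le _ _).trans ?_
    rw [e1]
  have e3 : ‖lam (k n) * ((lam (j n))⁻¹ * ((lam (k n))⁻¹ * (0 - b (k n)) - b (j n))) +
      b (k n)‖ ≤ ‖b (k n)‖ + ‖b (j n)‖ + ‖b (k n)‖ := by
    refine (norm_add_le _ _).trans ?_
    rw [norm_mul, hlam, one_mul]
    linarith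
  rw [i1 _ (by rw [e1]; linarith), f2 _ (by linarith), f1 _ (by linarith)]

/-- **Finiteness of the isometry group**: a connected translation surface of finite area whose
fundamental group is not finitely generated has a finite isometry group. -/
theorem finite_isom [T2Space S] [ConnectedSpace S] (hinf : InfiniteType S)
    (hfin : M.FiniteArea) : Finite M.Isom := by
  by_contra hcon
  rw [not_finite_iff_infinite] at hcon
  suffices hx : ∃ x, Group.FG (FundamentalGroup S x) by
    obtain ⟨x, hx⟩ := hx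
    obtain ⟨y, hy⟩ := hinf
    apply hy
    haveI : LocallyPathConnectedSpace S := locallyPathConnectedSpace_of_charts fun z => by
      by_cases hz : z ∈ M.sing
      · obtain ⟨k, -, h, hph, -⟩ := M.cone z hz
        exact ⟨h, hph⟩
      · obtain ⟨φ, -, hφ⟩ := M.exists_chart hz
        exact ⟨φ, hφ⟩
    haveI : PathConnectedSpace S := PathConnectedSpace.of_locallyPathConnectedSpace
    haveI := hx
    exact Group.fg_of_surjective
      (f := (FundamentalGroup.fundamentalGroupMulEquivOfPathConnected x y).toMonoidHom)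
      (FundamentalGroup.fundamentalGroupMulEquivOfPathConnected x y).surjective
  obtain ⟨x0, hx0⟩ := M.exists_reg
  obtain ⟨r, hr, E, hE, hinj, rfl⟩ := M.exists_isSec hx0
  have hn : ∀ n : ℕ, (0 : ℝ) < 1 / (n + 1) := fun n => by positivity
  choose h hne lam hlam haff hlam1 c hc1 hc2 hc using
    fun n : ℕ => exists_near_id hfin hcon hr hE hinj (hn n)
  have hl1 : Tendsto lam atTop (𝓝 1) := by
    rw [tendsto_iff_norm_sub_tendsto_zero]
    exact squeeze_zero (fun n => norm_nonneg _) (fun n => (hlam1 n).le)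
      tendsto_one_div_add_atTop_nhds_zero_nat
  have hc0 : Tendsto c atTop (𝓝 0) := by
    rw [tendsto_zero_iff_norm_tendsto_zero]
    exact squeeze_zero (fun n => norm_nonneg _) (fun n => (hc1 n).le)
      tendsto_one_div_add_atTop_nhds_zero_nat
  have hpt : Tendsto (fun k => h k (E 0)) atTop (𝓝 (E 0)) := by
    have h1 : Tendsto (fun k => E (c k)) atTop (𝓝 (E 0)) :=
      (hE.continuousAt isOpen_ball (mem_ball_self hr)).tendsto.comp hc0
    exact h1.congr fun k => (hc k).symm
  by_cases hA : ∃ᶠ k in atTop, lam k = 1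
  · obtain ⟨φ, hφ, hφ1⟩ := extraction_of_frequently_atTop hA
    refine ⟨E 0, fg_of_small_translations (t := fun k => h (φ k)) (fun k => ?_)
      (fun k => hne _) hx0 (hpt.comp hφ.tendsto_atTop) _⟩
    rw [← hφ1 k]
    exact haff _
  · rw [not_frequently] at hA
    by_cases hB : ∀ N : ℕ, ∃ j k, N ≤ j ∧ N ≤ k ∧ h j * h k ≠ h k * h j
    · choose j k hj hk hjk using hB
      have hjt : Tendsto j atTop atTop := tendsto_atTop_mono hj tendsto_id
      have hkt : Tendsto k atTop atTop := tendsto_atTop_mono hk tendsto_id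
      refine ⟨E 0, fg_of_small_translations
        (t := fun n => h (j n) * h (k n) * (h (j n))⁻¹ * (h (k n))⁻¹) (fun n => ?_)
        (fun n hn => hjk n ?_) hx0 (commutator_tendsto hlam haff hx0 hpt hjt hkt) _⟩
      · have hlam0 : ∀ k, lam k ≠ 0 := by
          intro k h0
          have := hlam k
          rw [h0] at this
          simp at this
        have h1 := (((haff (j n)).mul (haff (k n))).mul ((haff (j n)).inv (hlam0 _))).mul
          ((haff (k n)).inv (hlam0 _))
        have h2 : lam (j n) * lam (k n) * (lam (j n))⁻¹ * (lam (k n))⁻¹ = 1 := by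
          have := hlam0 (j n)
          have := hlam0 (k n)
          field_simp
        rwa [h2] at h1
      · have h1 : h (j n) * h (k n) * (h (j n))⁻¹ * (h (k n))⁻¹ = 1 := hn
        rw [mul_inv_eq_one, mul_inv_eq_iff_eq_mul] at h1
        exact h1
    · push Not at hB
      obtain ⟨N, hN⟩ := hB
      obtain ⟨K, hK⟩ := eventually_atTop.1 hA
      set L := max N K with hL
      exact fg_of_commuting_rotations (h := fun k => h (k + L)) (lam := fun k => lam (k + L))
        (fun k => hlam _) (fun k => haff _) (hl1.comp (tendsto_add_atTop_nat L))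
        (fun k => hK _ (by omega)) (fun j k => hN _ _ (by omega) (by omega)) hx0
        (hpt.comp (tendsto_add_atTop_nat L))

end TranslationStructure

end Pool.Agent.Helper76.Flat
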