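import Pool.Agent.Helper76.Flat.PathInd
import Pool.Agent.Helper76.Flat.Finite

set_option autoImplicit false
set_option linter.style.haveILetI false

/-!
Compact surfaces have finitely generated fundamental groups.
-/

open Set Topology Filter Metric unitInterval

namespace Pool.Agent.Helper76.Flat

variable {S : Type*} [TopologicalSpace S]

/-- any two paths in `D` with the same ends are homotopic in `S` -/
def HT (D : Set S) : Prop :=
  ∀ (x y : S) (p q : Path x y), range p ⊆ D → range q ⊆ D → p.Homotopic q

lemma HT.mono {D D' : Set S} (h : HT D) (hD : D' ⊆ D) : HT D' :=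
  fun x y p q hp hq => h x y p q (hp.trans hD) (hq.trans hD)

lemma HT.eq {D : Set S} (h : HT D) {x y : S} {p q : Path x y} (hp : range p ⊆ D)
    (hq : range q ⊆ D) : Path.Homotopic.Quotient.mk p = Path.Homotopic.Quotient.mk q :=
  Path.Homotopic.Quotient.eq.2 (h x y p q hp hq)

lemma range_trans_subset {D : Set S} {x y z : S} {p : Path x y} {q : Path y z}
    (hp : range p ⊆ D) (hq : range q ⊆ D) : range (p.trans q) ⊆ D := by
  rw [Path.trans_range]
  exact union_subset hp hq

lemma range_symm_subset {D : Set S} {x y : S} {p : Path x y}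
    (hp : range p ⊆ D) : range p.symm ⊆ D := by
  rw [Path.symm_range]
  exact hp

/-- the main argument -/
theorem fg_of_cover {ι : Type*} [Finite ι] {B : ι → Set S} {x : ι → S}
    (hBo : ∀ i, IsOpen (B i)) (hBc : ∀ i, ∀ y ∈ B i, ∃ p : Path (x i) y, range p ⊆ B i)
    (hcov : ∀ y, ∃ i, y ∈ B i)
    (hHT : ∀ i j, (B i ∩ B j).Nonempty → HT (B i ∪ B j))
    (x0 : S) (hjoin : ∀ i, Nonempty (Path x0 (x i))) :
    Group.FG (FundamentalGroup S x0) := by
  classical
  choose s hs using hBc
  have τ : ∀ i, Path x0 (x i) := fun i => (hjoin i).some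
  -- classes
  let c : ∀ (i : ι) (y : S), y ∈ B i → Path.Homotopic.Quotient x0 y := fun i y h =>
    (Path.Homotopic.Quotient.mk (τ i)).trans (Path.Homotopic.Quotient.mk (s i y h))
  have F1 : ∀ (i j : ι) (y z : S) (hy : y ∈ B i) (hy' : y ∈ B j) (hz : z ∈ B i) (hz' : z ∈ B j),
      (c i y hy).trans (c j y hy').symm = (c i z hz).trans (c j z hz').symm := by
    intro i j y z hy hy' hz hz'
    have h1 : (Path.Homotopic.Quotient.mk ((s i y hy).trans (s j y hy').symm)) =
        Path.Homotopic.Quotient.mk ((s i z hz).trans (s j z hz').symm) := by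
      refine (hHT i j ⟨y, hy, hy'⟩).eq ?_ ?_
      · exact range_trans_subset ((hs i y hy).trans subset_union_left)
          (range_symm_subset ((hs j y hy').trans subset_union_right))
      · exact range_trans_subset ((hs i z hz).trans subset_union_left)
          (range_symm_subset ((hs j z hz').trans subset_union_right))
    simp only [Path.Homotopic.Quotient.mk_trans, Path.Homotopic.Quotient.mk_symm] at h1
    have h2 : ∀ (y : S) (hy : y ∈ B i) (hy' : y ∈ B j), (c i y hy).trans (c j y hy').symm =
        (Path.Homotopic.Quotient.mk (τ i)).trans (((Path.Homotopic.Quotient.mk (s i y hy)).trans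
          (Path.Homotopic.Quotient.mk (s j y hy')).symm).trans
          (Path.Homotopic.Quotient.mk (τ j)).symm) := by
      intro y hy hy'
      simp only [c, ← Path.Homotopic.Quotient.mk_trans, ← Path.Homotopic.Quotient.mk_symm,
        Path.trans_symm]
      simp only [Path.Homotopic.Quotient.mk_trans, Path.Homotopic.Quotient.mk_symm,
        Path.Homotopic.Quotient.trans_assoc]
    rw [h2, h2, h1]
  let gen : ι × ι → FundamentalGroup S x0 := fun ij =>
    if h : (B ij.1 ∩ B ij.2).Nonempty then
      (c ij.1 h.some h.some_mem.1).trans (c ij.2 h.some h.some_mem.2).symm else Path.Homotopic.Quotient.refl x0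
  set N : Subgroup (FundamentalGroup S x0) := Subgroup.closure (range gen) with hN
  have hNfg : N.FG := (Subgroup.fg_iff _).2 ⟨range gen, rfl, finite_range gen⟩
  have F1N : ∀ (i j : ι) (y : S) (hy : y ∈ B i) (hy' : y ∈ B j),
      ((c i y hy).trans (c j y hy').symm : FundamentalGroup S x0) ∈ N := by
    intro i j y hy hy'
    have h : (B i ∩ B j).Nonempty := ⟨y, hy, hy'⟩
    have h1 : (c i y hy).trans (c j y hy').symm = gen (i, j) := by
      show _ = if h : (B i ∩ B j).Nonempty then
        (c i h.some h.some_mem.1).trans (c j h.some h.some_mem.2).symm else Path.Homotopic.Quotient.refl x0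
      rw [dif_pos h]
      exact F1 i j y _ hy hy' _ _
    rw [h1]
    exact Subgroup.subset_closure ⟨_, rfl⟩
  have hmul : ∀ a b : Path.Homotopic.Quotient x0 x0, (a : FundamentalGroup S x0) ∈ N →
      (b : FundamentalGroup S x0) ∈ N → (a.trans b : FundamentalGroup S x0) ∈ N := by
    intro a b ha hb
    exact N.mul_mem hb ha
  choose k hk using hcov
  have key : ∀ (y z : S) (p : Path y z), ∀ (i j : ι) (hy : y ∈ B i) (hz : z ∈ B j),
      ((c i y hy).trans ((Path.Homotopic.Quotient.mk p).trans (c j z hz).symm) :
        FundamentalGroup S x0) ∈ N := by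
    intro y z p
    refine path_induction (S := S)
      (fun {y z} (a : Path.Homotopic.Quotient y z) => ∀ (i j : ι) (hy : y ∈ B i) (hz : z ∈ B j),
        ((c i y hy).trans (a.trans (c j z hz).symm) : FundamentalGroup S x0) ∈ N)
      ?_ ?_ (D := fun y => B (k y)) (fun y => hBo _) (fun y => hk y) ?_ p
    · intro y i j hy hz
      simp only [Path.Homotopic.Quotient.refl_trans]
      exact F1N i j y hy hz
    · intro y y' y'' a b ha hb i j hy hz
      have h1 := hmul _ _ (ha i (k y') hy (hk y')) (hb (k y') j (hk y') hz)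
      have h2 : ((c i y hy).trans (a.trans (c (k y') y' (hk y')).symm)).trans
          ((c (k y') y' (hk y')).trans (b.trans (c j y'' hz).symm)) =
          (c i y hy).trans ((a.trans b).trans (c j y'' hz).symm) := by
        simp only [Path.Homotopic.Quotient.trans_assoc]
        congr 2
        rw [← Path.Homotopic.Quotient.trans_assoc, Path.Homotopic.Quotient.symm_trans,
          Path.Homotopic.Quotient.refl_trans]
      rw [h2] at h1
      exact h1
    · intro y0 y y' p hp i j hy hz
      set l := k y0 with hl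
      have hyl : y ∈ B l := by
        have := hp ⟨0, rfl⟩
        rwa [p.source] at this
      have hyl' : y' ∈ B l := by
        have := hp ⟨1, rfl⟩
        rwa [p.target] at this
      have h0 : (c l y hyl).trans (Path.Homotopic.Quotient.mk p) = c l y' hyl' := by
        have h1 : Path.Homotopic.Quotient.mk ((s l y hyl).trans p) =
            Path.Homotopic.Quotient.mk (s l y' hyl') := by
          have hne : (B l ∩ B l).Nonempty := ⟨y, hyl, hyl⟩
          refine (hHT l l hne).eq ?_ ((hs _ _ _).trans subset_union_left)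
          exact (range_trans_subset (hs _ _ _) hp).trans subset_union_left
        rw [Path.Homotopic.Quotient.mk_trans] at h1
        simp only [c, Path.Homotopic.Quotient.trans_assoc]
        rw [h1]
      have h1 := hmul _ _ (F1N i l y hy hyl) (F1N l j y' hyl' hz)
      have h2 : ((c i y hy).trans (c l y hyl).symm).trans ((c l y' hyl').trans (c j y' hz).symm) =
          (c i y hy).trans ((Path.Homotopic.Quotient.mk p).trans (c j y' hz).symm) := by
        rw [← h0]
        simp only [Path.Homotopic.Quotient.trans_assoc]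
        congr 1
        rw [← Path.Homotopic.Quotient.trans_assoc, Path.Homotopic.Quotient.symm_trans,
          Path.Homotopic.Quotient.refl_trans]
      rw [h2] at h1
      exact h1
  have htop : N = ⊤ := by
    rw [eq_top_iff]
    intro b _
    set i0 := k x0 with hi0
    set w : FundamentalGroup S x0 := c i0 x0 (hk x0) with hw
    have h1 : ∀ a : FundamentalGroup S x0, w⁻¹ * a * w ∈ N := by
      intro a
      obtain ⟨p, rfl⟩ := Path.Homotopic.Quotient.mk_surjective a
      have := key x0 x0 p i0 i0 (hk x0) (hk x0)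
      exact this
    have h2 := h1 (w * b * w⁻¹)
    have h3 : w⁻¹ * (w * b * w⁻¹) * w = b := by group
    rwa [h3] at h2
  rw [Group.fg_def, ← htop]
  exact hNfg

/-- chart discs are homotopically trivial -/
lemma HT_disc (φ : OpenPartialHomeomorph S ℂ) {c : ℂ} {r : ℝ} (h : ball c r ⊆ φ.target) :
    HT (φ.symm '' ball c r) := by
  intro x y p q hp hq
  have hφ : ∀ z ∈ φ.symm '' ball c r, z ∈ φ.source ∧ φ z ∈ ball c r ∧ φ.symm (φ z) = z := by
    rintro _ ⟨w, hw, rfl⟩
    refine ⟨φ.map_target (h hw), ?_, ?_⟩
    · rwa [φ.right_inv (h hw)]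
    · rw [φ.right_inv (h hw)]
  refine homotopic_of_convex (convex_ball c r) (φ.continuousOn_symm.mono h) p q
    (fun t => φ (p t)) (fun t => φ (q t)) ?_ ?_ (fun t => (hφ _ (hp ⟨t, rfl⟩)).2.1)
    (fun t => (hφ _ (hq ⟨t, rfl⟩)).2.1) (fun t => (hφ _ (hp ⟨t, rfl⟩)).2.2.symm)
    (fun t => (hφ _ (hq ⟨t, rfl⟩)).2.2.symm) (by simp) (by simp)
  · exact φ.continuousOn.comp_continuous p.continuous fun t => (hφ _ (hp ⟨t, rfl⟩)).1
  · exact φ.continuousOn.comp_continuous q.continuous fun t => (hφ _ (hq ⟨t, rfl⟩)).1

/-- compact surfaces have finitely generated fundamental group -/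
theorem fg_of_compact [T2Space S] [CompactSpace S] [SecondCountableTopology S] [ConnectedSpace S]
    (hch : ∀ x : S, ∃ φ : OpenPartialHomeomorph S ℂ, x ∈ φ.source) (x0 : S) :
    Group.FG (FundamentalGroup S x0) := by
  haveI := locallyPathConnectedSpace_of_charts hch
  haveI : PathConnectedSpace S := PathConnectedSpace.of_locallyPathConnectedSpace
  letI : MetricSpace S := TopologicalSpace.metrizableSpaceMetric S
  choose φ hφ using hch
  have hr : ∀ s, ∃ r > 0, ball (φ s s) r ⊆ (φ s).target := fun s =>
    Metric.isOpen_iff.1 (φ s).open_target _ ((φ s).map_source (hφ s))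
  choose r hr0 hr using hr
  set D : S → Set S := fun s => (φ s).symm '' ball (φ s s) (r s) with hD
  have hDo : ∀ s, IsOpen (D s) := fun s =>
    (φ s).symm.isOpen_image_of_subset_source isOpen_ball (hr s)
  have hDs : ∀ s, s ∈ D s := fun s => ⟨φ s s, mem_ball_self (hr0 s), (φ s).left_inv (hφ s)⟩
  obtain ⟨δ, hδ, hleb⟩ := lebesgue_number_lemma_of_metric (isCompact_univ (X := S)) hDo
    (fun s _ => mem_iUnion.2 ⟨s, hDs s⟩)
  set B0 : S → Set S := fun s => pathComponentIn (ball s (δ / 4)) s with hB0
  have hB0o : ∀ s, IsOpen (B0 s) := fun s => isOpen_ball.pathComponentIn s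
  have hB0s : ∀ s, s ∈ B0 s := fun s => mem_pathComponentIn_self (mem_ball_self (by positivity))
  obtain ⟨t, ht⟩ := (isCompact_univ (X := S)).elim_finite_subcover B0 hB0o
    (fun s _ => mem_iUnion.2 ⟨s, hB0s s⟩)
  refine fg_of_cover (ι := t) (B := fun i => B0 i) (x := fun i => (i : S)) (fun i => hB0o i) ?_ ?_
    ?_ x0 (fun i => ⟨PathConnectedSpace.somePath _ _⟩)
  · intro i y hy
    have h1 : IsPathConnected (B0 i) :=
      isPathConnected_pathComponentIn (mem_ball_self (by positivity))
    obtain ⟨p, hp⟩ := h1.joinedIn i (hB0s i) y hy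
    exact ⟨p, by rintro _ ⟨t, rfl⟩; exact hp t⟩
  · intro y
    have := ht (mem_univ y)
    simp only [mem_iUnion, exists_prop] at this
    obtain ⟨i, hi, hy⟩ := this
    exact ⟨⟨i, hi⟩, hy⟩
  · rintro i j ⟨z, hz1, hz2⟩
    obtain ⟨s, hs⟩ := hleb (i : S) (mem_univ _)
    refine (HT_disc (φ s) (hr s)).mono (subset_trans ?_ hs)
    have hB : ∀ s, B0 s ⊆ ball s (δ / 4) := fun s => pathComponentIn_subset
    have d1 := mem_ball.1 (hB _ hz1)
    have d2 := mem_ball.1 (hB _ hz2)
    rintro y (hy | hy)
    · have := mem_ball.1 (hB _ hy)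
      rw [mem_ball]
      linarith
    · have h3 := mem_ball.1 (hB _ hy)
      rw [mem_ball]
      have h4 := dist_triangle y (j : S) z
      have h5 := dist_triangle y z (i : S)
      rw [dist_comm (j : S) z] at h4
      linarith

end Pool.Agent.Helper76.Flat
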