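import Pool.Agent.Helper76.Flat.Sec

set_option autoImplicit false

/-!
Connectedness of complements of discrete sets, identity theorem for affine maps.
-/

open Set Topology MeasureTheory Filter Metric

namespace Pool.Agent.Helper76.Flat

lemma isPathConnected_annulus_exp {a b : ℝ} (hab : a < b) :
    IsPathConnected {z : ℂ | Real.exp a < ‖z‖ ∧ ‖z‖ < Real.exp b} := by
  have h1 : IsPathConnected {w : ℂ | a < w.re ∧ w.re < b} := by
    have hc : Convex ℝ {w : ℂ | a < w.re ∧ w.re < b} := by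
      have : {w : ℂ | a < w.re ∧ w.re < b} = {w : ℂ | a < w.re} ∩ {w : ℂ | w.re < b} := rfl
      rw [this]
      exact (convex_halfSpace_re_gt a).inter (convex_halfSpace_re_lt b)
    refine hc.isPathConnected ⟨(((a + b) / 2 : ℝ) : ℂ), ?_⟩
    simp only [mem_ofPred_eq, Complex.ofReal_re]
    constructor <;> linarith
  have h2 := h1.image Complex.continuous_exp
  convert h2 using 1
  ext z
  simp only [mem_ofPred_eq, mem_image]
  constructor
  · rintro ⟨h1, h2⟩
    have hz : z ≠ 0 := by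
      rintro rfl
      rw [norm_zero] at h1
      exact absurd h1 (not_lt.2 (Real.exp_pos a).le)
    refine ⟨Complex.log z, ?_, Complex.exp_log hz⟩
    rw [Complex.log_re]
    exact ⟨(Real.lt_log_iff_exp_lt (norm_pos_iff.2 hz)).2 h1,
      (Real.log_lt_iff_lt_exp (norm_pos_iff.2 hz)).2 h2⟩
  · rintro ⟨w, ⟨h1, h2⟩, rfl⟩
    rw [Complex.norm_exp]
    exact ⟨Real.exp_lt_exp.2 h1, Real.exp_lt_exp.2 h2⟩

lemma isPathConnected_ball_diff (c : ℂ) {r : ℝ} (hr : 0 < r) :
    IsPathConnected (ball c r \ {c}) := by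
  have h1 : IsPathConnected {w : ℂ | w.re < Real.log r} := by
    refine (convex_halfSpace_re_lt _).isPathConnected ⟨((Real.log r - 1 : ℝ) : ℂ), ?_⟩
    simp only [mem_ofPred_eq, Complex.ofReal_re]
    linarith
  have h2 := h1.image (f := fun w => c + Complex.exp w) (by fun_prop)
  convert h2 using 1
  ext z
  simp only [mem_ofPred_eq, mem_image, Set.mem_sdiff, mem_ball, mem_singleton_iff, dist_eq_norm]
  constructor
  · rintro ⟨h1, h2⟩
    have hz : z - c ≠ 0 := sub_ne_zero.2 h2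
    refine ⟨Complex.log (z - c), ?_, ?_⟩
    · rw [Complex.log_re]
      exact Real.log_lt_log (norm_pos_iff.2 hz) h1
    · rw [Complex.exp_log hz]; ring
  · rintro ⟨w, h1, rfl⟩
    rw [add_sub_cancel_left, Complex.norm_exp]
    refine ⟨?_, ?_⟩
    · rw [← Real.exp_log hr]
      exact Real.exp_lt_exp.2 h1
    · intro h
      exact Complex.exp_ne_zero w (by simp at h)

lemma nonempty_ball_diff (c : ℂ) {r : ℝ} (hr : 0 < r) : (ball c r \ {c}).Nonempty :=
  (isPathConnected_ball_diff c hr).nonempty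

variable {S : Type*} [TopologicalSpace S]

/-- removing a closed discrete set with punctured neighbourhoods connected keeps connectedness -/
lemma isPreconnected_compl_of_discrete [PreconnectedSpace S] {P : Set S} (hPc : IsClosed P)
    (hP : ∀ p ∈ P, ∃ V : Set S, IsOpen V ∧ p ∈ V ∧ V ∩ P = {p} ∧ IsPreconnected (V \ {p}) ∧
      (V \ {p}).Nonempty) : IsPreconnected Pᶜ := by
  intro u v hu hv hcov hnu hnv
  by_contra hcon
  rw [Set.not_nonempty_iff_eq_empty] at hcon
  choose! V hVo hpV hVP hVc hVn using hP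
  have hsubP : ∀ p ∈ P, V p \ {p} ⊆ Pᶜ := by
    intro p hp x hx hxP
    have : x ∈ V p ∩ P := ⟨hx.1, hxP⟩
    rw [hVP p hp] at this
    exact hx.2 this
  have hnot : ∀ x, x ∈ Pᶜ → x ∈ u → x ∈ v → False := by
    intro x h1 h2 h3
    have : x ∈ Pᶜ ∩ (u ∩ v) := ⟨h1, h2, h3⟩
    rw [hcon] at this
    exact this
  have hdich : ∀ p ∈ P, V p \ {p} ⊆ u ∨ V p \ {p} ⊆ v := by
    intro p hp
    by_contra hh
    push Not at hh
    obtain ⟨h1, h2⟩ := hh
    obtain ⟨x, hx, hxu⟩ := Set.not_subset.1 h1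
    obtain ⟨y, hy, hyv⟩ := Set.not_subset.1 h2
    have hxv : x ∈ v := (hcov (hsubP p hp hx)).resolve_left hxu
    have hyu : y ∈ u := (hcov (hsubP p hp hy)).resolve_right hyv
    obtain ⟨z, hz, hzu, hzv⟩ := hVc p hp u v hu hv ((hsubP p hp).trans hcov) ⟨y, hy, hyu⟩
      ⟨x, hx, hxv⟩
    exact hnot z (hsubP p hp hz) hzu hzv
  set A : Set S := (Pᶜ ∩ u) ∪ ⋃ p ∈ {p ∈ P | V p \ {p} ⊆ u}, V p with hA
  set B : Set S := (Pᶜ ∩ v) ∪ ⋃ p ∈ {p ∈ P | V p \ {p} ⊆ v}, V p with hB
  have hAo : IsOpen A := (hPc.isOpen_compl.inter hu).union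
    (isOpen_biUnion fun p hp => hVo p hp.1)
  have hBo : IsOpen B := (hPc.isOpen_compl.inter hv).union
    (isOpen_biUnion fun p hp => hVo p hp.1)
  have hABu : (univ : Set S) ⊆ A ∪ B := by
    intro x _
    by_cases hxP : x ∈ P
    · rcases hdich x hxP with h | h
      · left; right
        exact mem_biUnion (x := x) ⟨hxP, h⟩ (hpV x hxP)
      · right; right
        exact mem_biUnion (x := x) ⟨hxP, h⟩ (hpV x hxP)
    · rcases hcov hxP with h | h
      · left; left; exact ⟨hxP, h⟩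
      · right; left; exact ⟨hxP, h⟩
  have hmix : ∀ p ∈ P, V p \ {p} ⊆ u → ∀ q ∈ P, V q \ {q} ⊆ v → ∀ x, x ∈ V p → x ∈ V q →
      False := by
    intro p hp hpu q hq hqv x hxp hxq
    by_cases h1 : x = p
    · subst h1
      have : x ∈ V q ∩ P := ⟨hxq, hp⟩
      rw [hVP q hq] at this
      have hxq' : x = q := this
      subst hxq'
      obtain ⟨y, hy⟩ := hVn x hp
      exact hnot y (hsubP x hp hy) (hpu hy) (hqv hy)
    · by_cases h2 : x = q
      · subst h2
        have : x ∈ V p ∩ P := ⟨hxp, hq⟩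
        rw [hVP p hp] at this
        exact h1 this
      · exact hnot x (hsubP p hp ⟨hxp, h1⟩) (hpu ⟨hxp, h1⟩) (hqv ⟨hxq, h2⟩)
  obtain ⟨x, -, hxA, hxB⟩ := (isPreconnected_univ (α := S)) A B hAo hBo hABu
    (by obtain ⟨x, hx⟩ := hnu; exact ⟨x, mem_univ _, Or.inl hx⟩)
    (by obtain ⟨x, hx⟩ := hnv; exact ⟨x, mem_univ _, Or.inl hx⟩)
  rcases hxA with hxA | hxA
  · rcases hxB with hxB | hxB
    · exact hnot x hxA.1 hxA.2 hxB.2
    · simp only [mem_iUnion, exists_prop] at hxB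
      obtain ⟨q, ⟨hq, hqv⟩, hxq⟩ := hxB
      have hne : x ≠ q := fun h => hxA.1 (h ▸ hq)
      exact hnot x hxA.1 hxA.2 (hqv ⟨hxq, hne⟩)
  · simp only [mem_iUnion, exists_prop] at hxA
    obtain ⟨p, ⟨hp, hpu⟩, hxp⟩ := hxA
    rcases hxB with hxB | hxB
    · have hne : x ≠ p := fun h => hxB.1 (h ▸ hp)
      exact hnot x hxB.1 (hpu ⟨hxp, hne⟩) hxB.2
    · simp only [mem_iUnion, exists_prop] at hxB
      obtain ⟨q, ⟨hq, hqv⟩, hxq⟩ := hxB
      exact hmix p hp hpu q hq hqv x hxp hxq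

/-- a chart around `p` gives small neighbourhoods as needed above -/
lemma exists_nhd_of_chart {P : Set S} {p : S} (h : OpenPartialHomeomorph S ℂ)
    (hp : p ∈ h.source) (hP : ∃ U ∈ 𝓝 p, U ∩ P = {p}) {W : Set S} (hW : W ∈ 𝓝 p) :
    ∃ V : Set S, IsOpen V ∧ p ∈ V ∧ V ∩ P = {p} ∧ V ⊆ W ∧ V ⊆ h.source ∧
      ∃ r > 0, ball (h p) r ⊆ h.target ∧ V = h.symm '' ball (h p) r ∧
      V \ {p} = h.symm '' (ball (h p) r \ {h p}) := by
  obtain ⟨U, hU, hUP⟩ := hP
  have hn : h.symm ⁻¹' (U ∩ W) ∩ h.target ∈ 𝓝 (h p) := by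
    refine inter_mem ?_ (h.open_target.mem_nhds (h.map_source hp))
    refine (h.continuousAt_symm (h.map_source hp)).preimage_mem_nhds ?_
    rw [h.left_inv hp]
    exact inter_mem hU hW
  obtain ⟨r, hr, hb⟩ := Metric.mem_nhds_iff.1 hn
  have hbt : ball (h p) r ⊆ h.target := fun z hz => (hb hz).2
  have hpV : p ∈ h.symm '' ball (h p) r := ⟨h p, mem_ball_self hr, h.left_inv hp⟩
  refine ⟨h.symm '' ball (h p) r, ?_, hpV, ?_, ?_, ?_, r, hr, hbt, rfl, ?_⟩
  · exact h.symm.isOpen_image_of_subset_source isOpen_ball hbt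
  · apply subset_antisymm
    · rintro _ ⟨⟨z, hz, rfl⟩, hzP⟩
      rw [← hUP]
      exact ⟨(hb hz).1.1, hzP⟩
    · rintro x rfl
      refine ⟨hpV, ?_⟩
      have : x ∈ ({x} : Set S) := rfl
      rw [← hUP] at this
      exact this.2
  · rintro _ ⟨z, hz, rfl⟩
    exact (hb hz).1.2
  · rintro _ ⟨z, hz, rfl⟩
    exact h.map_target (hbt hz)
  · ext x
    simp only [Set.mem_sdiff, mem_image, mem_singleton_iff]
    constructor
    · rintro ⟨⟨z, hz, rfl⟩, hne⟩
      refine ⟨z, ⟨hz, ?_⟩, rfl⟩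
      rintro rfl
      exact hne (h.left_inv hp)
    · rintro ⟨z, ⟨hz, hne⟩, rfl⟩
      refine ⟨⟨z, hz, rfl⟩, ?_⟩
      intro he
      apply hne
      rw [← he, h.right_inv (hbt hz)]

/-- every point of `P` is in the source of some chart and isolated in `P` -/
def IsolatedCharted (P : Set S) : Prop :=
  IsClosed P ∧ ∀ p ∈ P, (∃ U ∈ 𝓝 p, U ∩ P = {p}) ∧ ∃ h : OpenPartialHomeomorph S ℂ, p ∈ h.source

lemma IsolatedCharted.exists_nhd {P : Set S} (hP : IsolatedCharted P) {p : S} (hp : p ∈ P)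
    {W : Set S} (hW : W ∈ 𝓝 p) :
    ∃ V : Set S, IsOpen V ∧ p ∈ V ∧ V ∩ P = {p} ∧ V ⊆ W ∧ IsPathConnected (V \ {p}) := by
  obtain ⟨h1, h, hph⟩ := hP.2 p hp
  obtain ⟨V, hVo, hpV, hVP, hVW, -, r, hr, hbt, hVe, hVd⟩ := exists_nhd_of_chart h hph h1 hW
  refine ⟨V, hVo, hpV, hVP, hVW, ?_⟩
  rw [hVd]
  exact (isPathConnected_ball_diff (h p) hr).image' (h.continuousOn_symm.mono
    (sdiff_subset.trans hbt))

lemma IsolatedCharted.isPreconnected_compl [PreconnectedSpace S] {P : Set S}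
    (hP : IsolatedCharted P) : IsPreconnected Pᶜ := by
  refine isPreconnected_compl_of_discrete hP.1 fun p hp => ?_
  obtain ⟨V, h1, h2, h3, -, h4⟩ := hP.exists_nhd hp univ_mem
  exact ⟨V, h1, h2, h3, h4.isConnected.isPreconnected, h4.nonempty⟩

lemma IsolatedCharted.dense_compl {P : Set S} (hP : IsolatedCharted P) : Dense Pᶜ := by
  intro x
  by_cases hx : x ∈ P
  · rw [mem_closure_iff_nhds]
    intro W hW
    obtain ⟨V, h1, h2, h3, h5, h4⟩ := hP.exists_nhd hx hW
    obtain ⟨y, hy⟩ := h4.nonempty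
    refine ⟨y, h5 hy.1, fun hyP => ?_⟩
    have : y ∈ V ∩ P := ⟨hy.1, hyP⟩
    rw [h3] at this
    exact hy.2 this
  · exact subset_closure hx

namespace TranslationStructure

variable (M : TranslationStructure S)

lemma isolatedCharted_sing : IsolatedCharted M.sing := by
  refine ⟨M.isClosed_sing, fun p hp => ⟨M.discrete_sing p hp, ?_⟩⟩
  obtain ⟨k, -, h, hph, -⟩ := M.cone p hp
  exact ⟨h, hph⟩

lemma isOpen_reg : IsOpen M.singᶜ := M.isClosed_sing.isOpen_compl

lemma exists_reg [Nonempty S] : ∃ x, x ∉ M.sing :=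
  M.isolatedCharted_sing.dense_compl.nonempty

variable {M}

/-- an affine map sends a section through `x` to the section through `f x` -/
lemma IsAffine.eqOn_sec [T2Space S] {lam mu b : ℂ} {U U' : Set ℂ} {E E' : ℂ → S}
    (hU : IsOpen U) (hU' : IsOpen U') (h : M.IsSec lam U E)
    (h' : M.IsSec (mu * lam) U' E') {f : S ≃ₜ S} (hf : M.IsAffine mu f)
    (hc : IsPreconnected (U ∩ (fun z => z + b) ⁻¹' U')) {z0 : ℂ} (hz0 : z0 ∈ U)
    (hz0' : z0 + b ∈ U') (he : f (E z0) = E' (z0 + b)) :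
    ∀ z ∈ U, z + b ∈ U' → f (E z) = E' (z + b) := by
  have h1 := (h.comp_affine hU hf).mono (V := U ∩ (fun z => z + b) ⁻¹' U') inter_subset_left
  have h2 := (h'.comp_add (b := b)).mono (V := U ∩ (fun z => z + b) ⁻¹' U') inter_subset_right
  have h3 := h1.eqOn (hU.inter (hU'.preimage (by fun_prop))) hc h2 ⟨hz0, hz0'⟩ he
  exact fun z hz hz' => h3 ⟨hz, hz'⟩

/-- identity theorem -/
lemma IsAffine.eq_of_eq [T2Space S] [PreconnectedSpace S] {mu : ℂ} {f g : S ≃ₜ S}
    (hf : M.IsAffine mu f) (hg : M.IsAffine mu g) {x : S} (hx : x ∉ M.sing) (he : f x = g x) :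
    f = g := by
  have hcl : IsClosed {y | f y = g y} := isClosed_eq f.continuous g.continuous
  have hloc : ∀ y, y ∉ M.sing → f y = g y → ∀ᶠ w in 𝓝 y, f w = g w := by
    intro y hy hyy
    obtain ⟨r, hr, E, hE, -, hE0⟩ := M.exists_isSec hy
    have h1 := hE.comp_affine isOpen_ball hf
    have h2 := hE.comp_affine isOpen_ball hg
    have h3 := h1.eqOn isOpen_ball isPreconnected_ball h2 (mem_ball_self hr)
      (by simp only [Function.comp_apply, hE0, hyy])
    rw [← hE0, ← hE.map_nhds one_ne_zero isOpen_ball (mem_ball_self hr), eventually_map]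
    filter_upwards [isOpen_ball.mem_nhds (mem_ball_self hr)] with w hw using h3 hw
  have hop : IsOpen ({y | f y = g y} ∩ M.singᶜ) := by
    rw [isOpen_iff_mem_nhds]
    rintro y ⟨hy, hys⟩
    exact inter_mem (hloc y hys hy) (M.isOpen_reg.mem_nhds hys)
  have hsub : M.singᶜ ⊆ {y | f y = g y} ∩ M.singᶜ := by
    refine M.isolatedCharted_sing.isPreconnected_compl.subset_of_closure_inter_subset hop
      ⟨x, hx, he, hx⟩ ?_
    rintro y ⟨hy, hys⟩
    refine ⟨?_, hys⟩
    exact (closure_minimal inter_subset_left hcl) hy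
  ext y
  have : y ∈ closure {y | f y = g y} := by
    have hd := M.isolatedCharted_sing.dense_compl y
    exact closure_mono (fun z hz => (hsub hz).1) hd
  rwa [hcl.closure_eq] at this

end TranslationStructure

end Pool.Agent.Helper76.Flat
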