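import Pool.Agent.Helper76.Flat.Oph

set_option autoImplicit false
set_option linter.style.haveILetI false

/-!
A surface with a complete direction is a quotient of a strip by translations.
-/

open Set Topology MeasureTheory Filter Metric ComplexConjugate unitInterval

namespace Pool.Agent.Helper76.Flat

lemma isOpen_imStrip (a b : ℝ) : IsOpen {z : ℂ | a < z.im ∧ z.im < b} :=
  (isOpen_lt continuous_const Complex.continuous_im).and
    (isOpen_lt Complex.continuous_im continuous_const)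

lemma convex_imStrip (a b : ℝ) : Convex ℝ {z : ℂ | a < z.im ∧ z.im < b} :=
  (convex_halfSpace_im_gt a).inter (convex_halfSpace_im_lt b)

variable {S : Type*} [TopologicalSpace S]

/-- paths which are images of paths in a convex set with the same ends are homotopic -/
lemma homotopic_of_convex {Ω : Set ℂ} (hΩ : Convex ℝ Ω) {E : ℂ → S} (hE : ContinuousOn E Ω)
    {x y : S} (p q : Path x y) (γ γ' : I → ℂ) (hγ : Continuous γ) (hγ' : Continuous γ')
    (hγΩ : ∀ t, γ t ∈ Ω) (hγΩ' : ∀ t, γ' t ∈ Ω) (hp : ∀ t, p t = E (γ t))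
    (hq : ∀ t, q t = E (γ' t)) (h0 : γ 0 = γ' 0) (h1 : γ 1 = γ' 1) : p.Homotopic q := by
  have hmem : ∀ s t : I, (1 - (s : ℝ)) • γ t + (s : ℝ) • γ' t ∈ Ω := fun s t =>
    hΩ (hγΩ t) (hγΩ' t) (by linarith [s.2.2]) s.2.1 (by ring)
  have hcont : Continuous fun st : I × I => E ((1 - (st.1 : ℝ)) • γ st.2 + (st.1 : ℝ) • γ' st.2) := by
    refine hE.comp_continuous (by fun_prop) fun st => hmem _ _
  refine ⟨{ toFun := fun st => E ((1 - (st.1 : ℝ)) • γ st.2 + (st.1 : ℝ) • γ' st.2)
            continuous_toFun := hcont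
            map_zero_left := ?_
            map_one_left := ?_
            prop' := ?_ }⟩
  · intro t
    simp [hp]
  · intro t
    simp [hq]
  · intro s t ht
    rcases ht with rfl | ht
    · show E ((1 - (s : ℝ)) • γ 0 + (s : ℝ) • γ' 0) = p 0
      rw [← h0, ← add_smul, sub_add_cancel, one_smul, hp]
    · rw [mem_singleton_iff] at ht
      subst ht
      show E ((1 - (s : ℝ)) • γ 1 + (s : ℝ) • γ' 1) = p 1
      rw [← h1, ← add_smul, sub_add_cancel, one_smul, hp]

namespace TranslationStructure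

variable {M : TranslationStructure S}

/-- Data of a maximal strip. -/
structure MaxStrip (M : TranslationStructure S) (u : ℂ) (x0 : S) where
  Ω : Set ℂ
  E : ℂ → S
  isOpen : IsOpen Ω
  convex : Convex ℝ Ω
  zero_mem : (0 : ℂ) ∈ Ω
  isSec : M.IsSec u Ω E
  map_zero : E 0 = x0
  maximal : ∀ (a b : ℝ), a < 0 → 0 < b → ∀ F : ℂ → S, M.IsSec u {z | a < z.im ∧ z.im < b} F →
    F 0 = x0 → {z : ℂ | a < z.im ∧ z.im < b} ⊆ Ω
  exists_strip : ∀ z ∈ Ω, ∃ a b : ℝ, a < 0 ∧ 0 < b ∧ a < z.im ∧ z.im < b ∧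
    {z : ℂ | a < z.im ∧ z.im < b} ⊆ Ω

lemma exists_maxStrip [T2Space S] {u : ℂ} {x0 : S}
    (hstrip : ∃ ε > 0, ∃ E : ℂ → S, M.IsSec u {z | |z.im| < ε} E ∧ E 0 = x0) :
    Nonempty (MaxStrip M u x0) := by
  classical
  haveI : Nonempty S := ⟨x0⟩
  set ι := {ab : ℝ × ℝ // ab.1 < 0 ∧ 0 < ab.2 ∧ ∃ F : ℂ → S,
    M.IsSec u {z | ab.1 < z.im ∧ z.im < ab.2} F ∧ F 0 = x0} with hι
  choose F hF using fun i : ι => i.2.2.2
  obtain ⟨E, h1, h2⟩ := glue_sec (M := M) (lam := u)
    (V := fun i : ι => {z : ℂ | i.1.1 < z.im ∧ z.im < i.1.2}) (E := F)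
    (fun i => isOpen_imStrip _ _) (fun i => (hF i).1) (by
      intro i j z hz
      exact ((hF i).1.mono inter_subset_left).eqOn
        ((isOpen_imStrip _ _).inter (isOpen_imStrip _ _))
        ((convex_imStrip _ _).inter (convex_imStrip _ _)).isPreconnected
        ((hF j).1.mono inter_subset_right) (z0 := 0)
        ⟨⟨i.2.1, i.2.2.1⟩, ⟨j.2.1, j.2.2.1⟩⟩ ((hF i).2.trans (hF j).2.symm) hz)
  obtain ⟨ε, hε, E0, hE0, hE00⟩ := hstrip
  have hi0 : ∃ i : ι, True := by
    refine ⟨⟨(-ε, ε), by simpa using hε, hε, E0, hE0.mono ?_, hE00⟩, trivial⟩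
    intro z hz
    exact abs_lt.2 hz
  obtain ⟨i0, -⟩ := hi0
  refine ⟨⟨⋃ i : ι, {z : ℂ | i.1.1 < z.im ∧ z.im < i.1.2}, E, ?_, ?_, ?_, h2, ?_, ?_, ?_⟩⟩
  · exact isOpen_iUnion fun i => isOpen_imStrip _ _
  · intro z hz w hw s t hs ht hst
    obtain ⟨i, hi1, hi2⟩ := mem_iUnion.1 hz
    obtain ⟨j, hj1, hj2⟩ := mem_iUnion.1 hw
    have him : (s • z + t • w).im = s * z.im + t * w.im := by simp
    rcases le_total 0 (s * z.im + t * w.im) with hv | hv
    · -- nonnegative height
      rcases le_total z.im w.im with hzw | hzw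
      · refine mem_iUnion.2 ⟨j, ?_, ?_⟩
        · rw [him]; exact lt_of_lt_of_le j.2.1 hv
        · rw [him]
          calc s * z.im + t * w.im ≤ s * w.im + t * w.im := by gcongr
            _ = w.im := by rw [← add_mul, hst, one_mul]
            _ < _ := hj2
      · refine mem_iUnion.2 ⟨i, ?_, ?_⟩
        · rw [him]; exact lt_of_lt_of_le i.2.1 hv
        · rw [him]
          calc s * z.im + t * w.im ≤ s * z.im + t * z.im := by gcongr
            _ = z.im := by rw [← add_mul, hst, one_mul]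
            _ < _ := hi2
    · rcases le_total z.im w.im with hzw | hzw
      · refine mem_iUnion.2 ⟨i, ?_, ?_⟩
        · rw [him]
          calc i.1.1 < z.im := hi1
            _ = s * z.im + t * z.im := by rw [← add_mul, hst, one_mul]
            _ ≤ s * z.im + t * w.im := by gcongr
        · rw [him]; exact lt_of_le_of_lt hv i.2.2.1
      · refine mem_iUnion.2 ⟨j, ?_, ?_⟩
        · rw [him]
          calc j.1.1 < w.im := hj1
            _ = s * w.im + t * w.im := by rw [← add_mul, hst, one_mul]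
            _ ≤ s * z.im + t * w.im := by gcongr
        · rw [him]; exact lt_of_le_of_lt hv j.2.2.1
  · exact mem_iUnion.2 ⟨i0, i0.2.1, i0.2.2.1⟩
  · rw [h1 i0 (show (0 : ℂ) ∈ _ from ⟨i0.2.1, i0.2.2.1⟩)]
    exact (hF i0).2
  · intro a b ha hb G hG hG0 z hz
    exact mem_iUnion.2 ⟨⟨(a, b), ha, hb, G, hG, hG0⟩, hz⟩
  · intro z hz
    obtain ⟨i, hi1, hi2⟩ := mem_iUnion.1 hz
    exact ⟨i.1.1, i.1.2, i.2.1, i.2.2.1, hi1, hi2, fun w hw => mem_iUnion.2 ⟨i, hw⟩⟩

namespace MaxStrip

variable {u : ℂ} {x0 : S}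

/-- the key extension property -/
lemma extend [T2Space S] (W : MaxStrip M u x0) {ε : ℝ} {F : ℂ → S}
    (hF : M.IsSec u {z | |z.im| < ε} F) {z w : ℂ} (hz : z ∈ W.Ω) (hw : |w.im| < ε)
    (he : W.E z = F w) {ζ : ℂ} (hζ : |(w + ζ).im| < ε) :
    z + ζ ∈ W.Ω ∧ W.E (z + ζ) = F (w + ζ) := by
  classical
  haveI : Nonempty S := ⟨x0⟩
  obtain ⟨a, b, ha, hb, haz, hzb, hab⟩ := W.exists_strip z hz
  set a' : ℝ := z.im - w.im - ε with ha'
  set b' : ℝ := z.im - w.im + ε with hb'
  rw [abs_lt] at hw hζ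
  have hza' : a' < z.im := by rw [ha']; linarith
  have hzb' : z.im < b' := by rw [hb']; linarith
  set G : ℂ → S := fun z' => F (z' + (w - z)) with hG
  have hGs : M.IsSec u {z | a' < z.im ∧ z.im < b'} G := by
    refine (hF.comp_add (b := w - z)).mono ?_
    rintro z' ⟨h1, h2⟩
    show |(z' + (w - z)).im| < ε
    rw [abs_lt, Complex.add_im, Complex.sub_im]
    rw [ha'] at h1
    rw [hb'] at h2
    constructor <;> linarith
  have hEs : M.IsSec u {z | a < z.im ∧ z.im < b} W.E := W.isSec.mono hab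
  have hagree := (hEs.mono (V := {z | a < z.im ∧ z.im < b} ∩ {z | a' < z.im ∧ z.im < b'})
    inter_subset_left).eqOn ((isOpen_imStrip _ _).inter (isOpen_imStrip _ _))
    ((convex_imStrip _ _).inter (convex_imStrip _ _)).isPreconnected
    (hGs.mono inter_subset_right) (z0 := z) ⟨⟨haz, hzb⟩, ⟨hza', hzb'⟩⟩ (by simp [hG, he])
  -- glue
  obtain ⟨H, hH1, hH2⟩ := glue_sec (M := M) (lam := u)
    (V := fun i : Bool => if i then {z : ℂ | a < z.im ∧ z.im < b} else {z | a' < z.im ∧ z.im < b'})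
    (E := fun i : Bool => if i then W.E else G)
    (by intro i; cases i <;> simp [isOpen_imStrip])
    (by intro i; cases i <;> simp [hEs, hGs])
    (by
      intro i j z hz
      cases i <;> cases j <;> simp only [Bool.false_eq_true, if_true, if_false] at hz ⊢
      · exact (hagree ⟨hz.2, hz.1⟩).symm
      · exact hagree hz)
  have hHt : EqOn H W.E {z : ℂ | a < z.im ∧ z.im < b} := by simpa using hH1 true
  have hHf : EqOn H G {z : ℂ | a' < z.im ∧ z.im < b'} := by simpa using hH1 false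
  have hunion : {z : ℂ | min a a' < z.im ∧ z.im < max b b'} ⊆
      ⋃ i : Bool, (if i then {z : ℂ | a < z.im ∧ z.im < b} else {z | a' < z.im ∧ z.im < b'}) := by
    rintro z' ⟨h1, h2⟩
    rw [min_lt_iff] at h1
    rw [lt_max_iff] at h2
    by_cases hc : a < z'.im ∧ z'.im < b
    · exact mem_iUnion.2 ⟨true, by simpa using hc⟩
    · refine mem_iUnion.2 ⟨false, ?_⟩
      simp only [Bool.false_eq_true, if_false, mem_ofPred_eq]
      rw [not_and_or, not_lt, not_lt] at hc
      rcases hc with hc | hc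
      · exact ⟨h1.resolve_left (not_lt.2 hc), by linarith⟩
      · exact ⟨by linarith, h2.resolve_left (not_lt.2 hc)⟩
  have hHs := hH2.mono hunion
  have hH0 : H 0 = x0 := by rw [hHt (show (0 : ℂ) ∈ _ from ⟨ha, hb⟩), W.map_zero]
  have hsub := W.maximal _ _ (lt_of_le_of_lt (min_le_left a a') ha)
    (lt_of_lt_of_le hb (le_max_left b b')) H hHs hH0
  have hmem' : z + ζ ∈ {z : ℂ | a' < z.im ∧ z.im < b'} := by
    simp only [mem_ofPred_eq, Complex.add_im] at hζ ⊢
    rw [ha', hb']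
    constructor <;> linarith [hζ.1, hζ.2]
  have hmem : z + ζ ∈ {z : ℂ | min a a' < z.im ∧ z.im < max b b'} :=
    ⟨lt_of_le_of_lt (min_le_right _ _) hmem'.1, lt_of_lt_of_le hmem'.2 (le_max_right _ _)⟩
  refine ⟨hsub hmem, ?_⟩
  have h3 := (W.isSec.mono hsub).eqOn (isOpen_imStrip _ _) (convex_imStrip _ _).isPreconnected hHs
    (z0 := 0) ⟨lt_of_le_of_lt (min_le_left a a') ha, lt_of_lt_of_le hb (le_max_left b b')⟩
    (by rw [W.map_zero, hH0]) hmem
  rw [h3, hHf hmem', hG]
  simp only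
  congr 1
  ring

/-- fibre points act by translations -/
lemma period [T2Space S] (W : MaxStrip M u x0) {b : ℂ} (hb : b ∈ W.Ω) (hbx : W.E b = x0) :
    (-b ∈ W.Ω ∧ W.E (-b) = x0) ∧ ∀ z ∈ W.Ω, z + b ∈ W.Ω → W.E (z + b) = W.E z := by
  have key : ∀ z, z + b ∈ W.Ω → z ∈ W.Ω ∧ W.E z = W.E (z + b) := by
    intro z hz
    -- a strip around 0 and z inside Ω - b
    obtain ⟨a1, b1, ha1, hb1, haz, hzb, hab⟩ := W.exists_strip (z + b) hz
    obtain ⟨a2, b2, ha2, hb2, haz2, hzb2, hab2⟩ := W.exists_strip b hb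
    have hsub : {w : ℂ | min a1 a2 - b.im < w.im ∧ w.im < max b1 b2 - b.im} ⊆
        (fun w => w + b) ⁻¹' W.Ω := by
      rintro w ⟨h1, h2⟩
      show w + b ∈ W.Ω
      have h3 : min a1 a2 < (w + b).im := by rw [Complex.add_im]; linarith
      have h4 : (w + b).im < max b1 b2 := by rw [Complex.add_im]; linarith
      rw [min_lt_iff] at h3
      rw [lt_max_iff] at h4
      by_cases hc : a1 < (w + b).im ∧ (w + b).im < b1
      · exact hab hc
      · apply hab2
        rw [not_and_or, not_lt, not_lt] at hc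
        rcases hc with hc | hc
        · exact ⟨h3.resolve_left (not_lt.2 hc), by linarith⟩
        · exact ⟨by linarith, h4.resolve_left (not_lt.2 hc)⟩
    have hs := (W.isSec.comp_add (b := b)).mono hsub
    have h0 : min a1 a2 - b.im < 0 := by
      have := lt_of_le_of_lt (min_le_right a1 a2) haz2
      linarith
    have h0' : 0 < max b1 b2 - b.im := by
      have := lt_of_lt_of_le hzb2 (le_max_right b1 b2)
      linarith
    have hval : (fun z => W.E (z + b)) 0 = x0 := by simp [hbx]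
    have hsub' := W.maximal _ _ h0 h0' _ hs hval
    have hzm : z ∈ {w : ℂ | min a1 a2 - b.im < w.im ∧ w.im < max b1 b2 - b.im} := by
      have h1 := lt_of_le_of_lt (min_le_left a1 a2) haz
      have h2 := lt_of_lt_of_le hzb (le_max_left b1 b2)
      rw [Complex.add_im] at h1 h2
      exact ⟨by linarith, by linarith⟩
    refine ⟨hsub' hzm, ?_⟩
    exact (W.isSec.mono hsub').eqOn (isOpen_imStrip _ _) (convex_imStrip _ _).isPreconnected hs
      (z0 := 0) ⟨h0, h0'⟩ (by rw [W.map_zero]; exact hval.symm) hzm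
  have h1 := key (-b) (by rw [neg_add_cancel]; exact W.zero_mem)
  refine ⟨⟨h1.1, by rw [h1.2, neg_add_cancel, W.map_zero]⟩, fun z _ hz => (key z hz).2.symm⟩

lemma period_mem [T2Space S] (W : MaxStrip M u x0) {b : ℂ} (hb : b ∈ W.Ω) (hbx : W.E b = x0)
    {z : ℂ} (hz : z ∈ W.Ω) : z + b ∈ W.Ω := by
  obtain ⟨⟨hb', hbx'⟩, -⟩ := W.period hb hbx
  -- apply key with -b
  have key : ∀ z, z + -b ∈ W.Ω → z ∈ W.Ω := by
    intro z hz
    obtain ⟨a1, b1, ha1, hb1, haz, hzb, hab⟩ := W.exists_strip (z + -b) hz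
    obtain ⟨a2, b2, ha2, hb2, haz2, hzb2, hab2⟩ := W.exists_strip (-b) hb'
    have hsub : {w : ℂ | min a1 a2 - (-b).im < w.im ∧ w.im < max b1 b2 - (-b).im} ⊆
        (fun w => w + -b) ⁻¹' W.Ω := by
      rintro w ⟨h1, h2⟩
      show w + -b ∈ W.Ω
      have h3 : min a1 a2 < (w + -b).im := by rw [Complex.add_im]; linarith
      have h4 : (w + -b).im < max b1 b2 := by rw [Complex.add_im]; linarith
      rw [min_lt_iff] at h3
      rw [lt_max_iff] at h4
      by_cases hc : a1 < (w + -b).im ∧ (w + -b).im < b1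
      · exact hab hc
      · apply hab2
        rw [not_and_or, not_lt, not_lt] at hc
        rcases hc with hc | hc
        · exact ⟨h3.resolve_left (not_lt.2 hc), by linarith⟩
        · exact ⟨by linarith, h4.resolve_left (not_lt.2 hc)⟩
    have hs := (W.isSec.comp_add (b := -b)).mono hsub
    have h0 : min a1 a2 - (-b).im < 0 := by
      have := lt_of_le_of_lt (min_le_right a1 a2) haz2
      linarith
    have h0' : 0 < max b1 b2 - (-b).im := by
      have := lt_of_lt_of_le hzb2 (le_max_right b1 b2)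
      linarith
    have hsub' := W.maximal _ _ h0 h0' _ hs (by simp [hbx'])
    apply hsub'
    have h1 := lt_of_le_of_lt (min_le_left a1 a2) haz
    have h2 := lt_of_lt_of_le hzb (le_max_left b1 b2)
    rw [Complex.add_im] at h1 h2
    exact ⟨by linarith, by linarith⟩
  apply key
  rwa [add_neg_cancel_right]

end MaxStrip

end TranslationStructure

end Pool.Agent.Helper76.Flat
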