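import Mathlib

/-!
Translation structures (translation surfaces) on a topological space, area, isometry group,
Riemann surface structures.
-/

open Set Topology MeasureTheory Filter

namespace Pool.Agent.Helper76.Flat

/-- The fundamental group is not finitely generated. -/
def InfiniteType (S : Type*) [TopologicalSpace S] : Prop :=
  ∃ x : S, ¬ Group.FG (FundamentalGroup S x)

/-- A translation structure on `S`: a closed discrete set `sing` of cone points and an atlas of
`S \ sing` with values in the plane `ℂ` all of whose transition maps are (locally) translations,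
such that every `p ∈ sing` is a cone point of angle `2 π k` with `k ≥ 2`: there is a homeomorphism
`h` of a neighbourhood of `p` onto a neighbourhood of `0` in `ℂ` such that away from `p` every chart
is locally `h ^ k` up to a translation. -/
structure TranslationStructure (S : Type*) [TopologicalSpace S] where
  sing : Set S
  charts : Set (OpenPartialHomeomorph S ℂ)
  isClosed_sing : IsClosed sing
  discrete_sing : ∀ p ∈ sing, ∃ U ∈ 𝓝 p, U ∩ sing = {p}
  cover : ⋃ φ ∈ charts, φ.source = singᶜ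
  translation : ∀ φ ∈ charts, ∀ ψ ∈ charts, ∀ x ∈ φ.source ∩ ψ.source,
    ∃ c : ℂ, ∀ᶠ y in 𝓝 x, ψ y = φ y + c
  cone : ∀ p ∈ sing, ∃ k : ℕ, 2 ≤ k ∧ ∃ h : OpenPartialHomeomorph S ℂ,
    p ∈ h.source ∧ h p = 0 ∧ h.source ∩ sing = {p} ∧
    ∀ φ ∈ charts, ∀ x ∈ φ.source ∩ h.source, ∃ c : ℂ, ∀ᶠ y in 𝓝 x, φ y = h y ^ k + c

/-- A Riemann surface structure on `S`: an atlas with values in `ℂ` and holomorphic transition
maps. -/
structure RiemannSurfaceStructure (S : Type*) [TopologicalSpace S] where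
  charts : Set (OpenPartialHomeomorph S ℂ)
  cover : ⋃ φ ∈ charts, φ.source = univ
  holomorphic : ∀ φ ∈ charts, ∀ ψ ∈ charts,
    DifferentiableOn ℂ (ψ ∘ φ.symm) (φ.target ∩ φ.symm ⁻¹' ψ.source)

variable {S : Type*} [TopologicalSpace S]

/-- `f` is holomorphic for the Riemann surface structure. -/
def RiemannSurfaceStructure.IsHolomorphic (X : RiemannSurfaceStructure S) (f : S → S) : Prop :=
  Continuous f ∧ ∀ φ ∈ X.charts, ∀ ψ ∈ X.charts,
    DifferentiableOn ℂ (ψ ∘ f ∘ φ.symm) (φ.target ∩ φ.symm ⁻¹' (f ⁻¹' ψ.source))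

namespace TranslationStructure

/-- `μ` is the area measure of the translation structure: the Borel measure which is Lebesgue
measure in every chart and gives measure `0` to the set of cone points. -/
def IsAreaMeasure (M : TranslationStructure S) (μ : @Measure S (borel S)) : Prop :=
  μ M.sing = 0 ∧ ∀ φ ∈ M.charts, ∀ W : Set S, W ⊆ φ.source → MeasurableSet[borel S] W →
    μ W = volume (φ '' W)

/-- The area is finite. -/
def FiniteArea (M : TranslationStructure S) : Prop :=
  ∃ μ : @Measure S (borel S), M.IsAreaMeasure μ ∧ μ univ < ⊤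

/-- `f` preserves the set of cone points and is locally of the form `z ↦ lam * z + c` in
translation charts. -/
def IsAffine (M : TranslationStructure S) (lam : ℂ) (f : S ≃ₜ S) : Prop :=
  f '' M.sing = M.sing ∧ ∀ φ ∈ M.charts, ∀ ψ ∈ M.charts, ∀ x ∈ φ.source, f x ∈ ψ.source →
    ∃ c : ℂ, ∀ᶠ y in 𝓝 x, ψ (f y) = lam * φ y + c

variable {M : TranslationStructure S}

lemma mem_sing_iff_image {f : S ≃ₜ S} (hf : f '' M.sing = M.sing) {x : S} :
    f x ∈ M.sing ↔ x ∈ M.sing := by
  constructor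
  · intro h
    rw [← hf] at h
    obtain ⟨y, hy, hxy⟩ := h
    rwa [← f.injective hxy]
  · intro h
    rw [← hf]
    exact ⟨x, h, rfl⟩

lemma exists_chart (M : TranslationStructure S) {x : S} (hx : x ∉ M.sing) :
    ∃ φ ∈ M.charts, x ∈ φ.source := by
  have : x ∈ ⋃ φ ∈ M.charts, φ.source := by rw [M.cover]; exact hx
  simpa using this

lemma notMem_sing {φ : OpenPartialHomeomorph S ℂ} (hφ : φ ∈ M.charts) {x : S}
    (hx : x ∈ φ.source) : x ∉ M.sing := by
  have : x ∈ ⋃ φ ∈ M.charts, φ.source := by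
    simp only [mem_iUnion]
    exact ⟨φ, hφ, hx⟩
  rw [M.cover] at this
  exact this

lemma isAffine_one : M.IsAffine 1 1 := by
  refine ⟨image_id _, fun φ hφ ψ hψ x hx hx' => ?_⟩
  obtain ⟨c, hc⟩ := M.translation φ hφ ψ hψ x ⟨hx, hx'⟩
  refine ⟨c, ?_⟩
  filter_upwards [hc] with y hy
  rw [Homeomorph.one_apply, hy, one_mul]

lemma IsAffine.mul {lam mu : ℂ} {f g : S ≃ₜ S} (hf : M.IsAffine lam f) (hg : M.IsAffine mu g) :
    M.IsAffine (lam * mu) (f * g) := by
  refine ⟨?_, fun φ hφ ψ hψ x hx hx' => ?_⟩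
  · rw [show ((f * g : S ≃ₜ S) : S → S) = f ∘ g from rfl, image_comp, hg.1, hf.1]
  · rw [Homeomorph.mul_apply] at hx'
    have h1 : g x ∉ M.sing := fun h => notMem_sing hψ hx' ((mem_sing_iff_image hf.1).2 h)
    obtain ⟨χ, hχ, hgx⟩ := M.exists_chart h1
    obtain ⟨c, hc⟩ := hg.2 φ hφ χ hχ x hx hgx
    obtain ⟨d, hd⟩ := hf.2 χ hχ ψ hψ (g x) hgx hx'
    refine ⟨lam * c + d, ?_⟩
    filter_upwards [hc, g.continuous.continuousAt.eventually hd] with y hy hy'
    rw [Homeomorph.mul_apply, hy', hy]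
    ring

lemma IsAffine.inv {lam : ℂ} (h0 : lam ≠ 0) {f : S ≃ₜ S} (hf : M.IsAffine lam f) :
    M.IsAffine lam⁻¹ f⁻¹ := by
  refine ⟨?_, fun φ hφ ψ hψ x hx hx' => ?_⟩
  · have h1 : (f⁻¹ : S ≃ₜ S) '' (f '' M.sing) = M.sing := by
      rw [← image_comp]
      have : ((f⁻¹ : S ≃ₜ S) : S → S) ∘ f = id := by
        ext y
        exact f.symm_apply_apply y
      rw [this, image_id]
    rwa [hf.1] at h1
  · have hfx : f ((f⁻¹ : S ≃ₜ S) x) = x := f.apply_symm_apply x
    obtain ⟨c, hc⟩ := hf.2 ψ hψ φ hφ ((f⁻¹ : S ≃ₜ S) x) hx' (by rwa [hfx])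
    refine ⟨-(lam⁻¹ * c), ?_⟩
    filter_upwards [(f⁻¹ : S ≃ₜ S).continuous.continuousAt.eventually hc] with y hy
    have hfy : f ((f⁻¹ : S ≃ₜ S) y) = y := f.apply_symm_apply y
    rw [hfy] at hy
    rw [hy]
    field_simp
    ring

/-- The group of (orientation preserving) isometries of the translation structure which are affine
in charts. -/
def Isom (M : TranslationStructure S) : Subgroup (S ≃ₜ S) where
  carrier := {f | ∃ lam : ℂ, ‖lam‖ = 1 ∧ M.IsAffine lam f}
  mul_mem' := by
    rintro f g ⟨a, ha, hf⟩ ⟨b, hb, hg⟩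
    exact ⟨a * b, by rw [norm_mul, ha, hb, one_mul], hf.mul hg⟩
  one_mem' := ⟨1, norm_one, isAffine_one⟩
  inv_mem' := by
    rintro f ⟨a, ha, hf⟩
    exact ⟨a⁻¹, by rw [norm_inv, ha, inv_one], hf.inv (by rintro rfl; simp at ha)⟩

end TranslationStructure

end Pool.Agent.Helper76.Flat
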