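import Pool.Agent.Helper76.Flat.Push
import Pool.Agent.Helper76.Flat.Conn

set_option autoImplicit false
set_option linter.style.haveILetI false

/-!
Nested unbounded connected sets in a noncompact surface, and the equivariant push-off.
-/

open Set Topology Filter Metric

namespace Pool.Agent.Helper76.Flat

variable {S : Type*} [TopologicalSpace S]

/-- removing isolated points from a connected open set -/
lemma IsolatedCharted.isPreconnected_diff {P : Set S} (hP : IsolatedCharted P) {O : Set S}
    (hO : IsOpen O) (hOc : IsPreconnected O) : IsPreconnected (O \ P) := by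
  haveI : PreconnectedSpace O := Subtype.preconnectedSpace hOc
  have h1 : IsPreconnected ((Subtype.val ⁻¹' P : Set O)ᶜ) := by
    refine isPreconnected_compl_of_discrete (hP.1.preimage continuous_subtype_val) ?_
    rintro ⟨p, hpO⟩ hp
    obtain ⟨V, hVo, hpV, hVP, hVO, hVc⟩ := hP.exists_nhd hp (hO.mem_nhds hpO)
    have hval : Subtype.val '' ((Subtype.val ⁻¹' V : Set O) \ {⟨p, hpO⟩}) = V \ {p} := by
      ext x
      constructor
      · rintro ⟨y, ⟨hy1, hy2⟩, rfl⟩
        exact ⟨hy1, fun h => hy2 (Subtype.ext h)⟩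
      · rintro ⟨hx1, hx2⟩
        exact ⟨⟨x, hVO hx1⟩, ⟨hx1, fun h => hx2 (congrArg Subtype.val h)⟩, rfl⟩
    refine ⟨Subtype.val ⁻¹' V, hVo.preimage continuous_subtype_val, hpV, ?_, ?_, ?_⟩
    · ext x
      constructor
      · intro hx
        have : x.1 ∈ V ∩ P := hx
        rw [hVP, mem_singleton_iff] at this
        exact Subtype.ext this
      · rintro rfl
        exact ⟨hpV, hp⟩
    · rw [← IsInducing.subtypeVal.isPreconnected_image, hval]
      exact hVc.isConnected.isPreconnected
    · obtain ⟨x, hx⟩ := hVc.nonempty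
      rw [← hval] at hx
      obtain ⟨y, hy, -⟩ := hx
      exact ⟨y, hy⟩
  have h2 : O \ P = Subtype.val '' ((Subtype.val ⁻¹' P : Set O)ᶜ) := by
    ext x
    constructor
    · rintro ⟨hx1, hx2⟩
      exact ⟨⟨x, hx1⟩, hx2, rfl⟩
    · rintro ⟨y, hy, rfl⟩
      exact ⟨y.2, hy⟩
  rw [h2]
  exact h1.image _ continuous_subtype_val.continuousOn

/-- not contained in a compact set -/
def Unb (A : Set S) : Prop := ∀ K, IsCompact K → ¬ A ⊆ K

/-- an unbounded component contains an unbounded component of the complement of a larger compact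
set. -/
lemma exists_unb [T2Space S] [ConnectedSpace S] [LocallyConnectedSpace S] [LocallyCompactSpace S]
    [NoncompactSpace S] {L K : Set S} (hK : IsCompact K) (hLK : L ⊆ K) {x : S}
    (hx : Unb (connectedComponentIn Lᶜ x)) :
    ∃ y ∈ connectedComponentIn Lᶜ x, Unb (connectedComponentIn Kᶜ y) := by
  by_contra hcon
  push Not at hcon
  have hb : ∀ y ∈ connectedComponentIn Lᶜ x, ∃ M, IsCompact M ∧ connectedComponentIn Kᶜ y ⊆ M := by
    intro y hy
    have := hcon y hy
    rw [Unb] at this
    push Not at this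
    exact this
  obtain ⟨K', hK', hKK'⟩ := exists_compact_superset hK
  have hKc : IsOpen Kᶜ := hK.isClosed.isOpen_compl
  have hfr : IsCompact (frontier K') := hK'.of_isClosed_subset isClosed_frontier
    hK'.isClosed.frontier_subset
  have hfrK : frontier K' ⊆ Kᶜ := by
    intro y hy hyK
    exact hy.2 (hKK' hyK)
  obtain ⟨t, ht⟩ := hfr.elim_finite_subcover (fun y : S => connectedComponentIn Kᶜ y)
    (fun y => hKc.connectedComponentIn)
    (fun y hy => mem_iUnion.2 ⟨y, mem_connectedComponentIn (hfrK hy)⟩)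
  choose! M hM hMs using hb
  classical
  set A := connectedComponentIn Lᶜ x with hA
  set t' := t.filter (fun y => y ∈ A) with ht'
  refine hx (K' ∪ ⋃ y ∈ t', M y) (hK'.union (t'.isCompact_biUnion fun y hy =>
    hM y (Finset.mem_filter.1 hy).2)) ?_
  intro z hz
  by_cases hzK' : z ∈ K'
  · exact Or.inl hzK'
  have hzK : z ∈ Kᶜ := fun h => hzK' (interior_subset (hKK' h))
  set U := connectedComponentIn Kᶜ z with hU
  have hzU : z ∈ U := mem_connectedComponentIn hzK
  -- `U` meets the frontier
  have hUfr : (U ∩ frontier K').Nonempty := by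
    by_contra hemp
    rw [not_nonempty_iff_eq_empty] at hemp
    have h1 : U ⊆ K'ᶜ := by
      have hcov : U ⊆ interior K' ∪ K'ᶜ := by
        intro y hy
        by_cases h : y ∈ K'
        · left
          by_contra h2
          have : y ∈ U ∩ frontier K' := ⟨hy, subset_closure h, h2⟩
          rw [hemp] at this
          exact this
        · exact Or.inr h
      rcases isPreconnected_connectedComponentIn.subset_or_subset isOpen_interior
        hK'.isClosed.isOpen_compl (disjoint_compl_right.mono_left interior_subset) hcov with h | h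
      · exact absurd (interior_subset (h hzU)) hzK'
      · exact h
    have h2 : closure U ⊆ Kᶜ := by
      have h3 : closure U ⊆ (interior K')ᶜ := by
        refine closure_minimal (fun y hy h => h1 hy (interior_subset h)) ?_
        exact isOpen_interior.isClosed_compl
      exact fun y hy hyK => h3 hy (hKK' hyK)
    have h3 : closure U ⊆ U :=
      isPreconnected_connectedComponentIn.closure.subset_connectedComponentIn
        (subset_closure hzU) h2
    have h4 : IsClopen U := ⟨isClosed_of_closure_subset h3, hKc.connectedComponentIn⟩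
    have h5 : U = univ := h4.eq_univ ⟨z, hzU⟩
    have h6 := hMs z hz
    rw [← hU, h5, univ_subset_iff] at h6
    exact noncompact_univ S (h6 ▸ hM z hz)
  obtain ⟨y, hyU, hyf⟩ := hUfr
  obtain ⟨y', hy't, hyy'⟩ : ∃ y' ∈ t, y ∈ connectedComponentIn Kᶜ y' := by
    simpa using ht hyf
  have e1 : connectedComponentIn Kᶜ z = connectedComponentIn Kᶜ y := connectedComponentIn_eq hyU
  have e2 : connectedComponentIn Kᶜ y' = connectedComponentIn Kᶜ y := connectedComponentIn_eq hyy'
  have hy'K : y' ∈ Kᶜ := by
    by_contra h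
    rw [connectedComponentIn_eq_empty h] at hyy'
    exact hyy'
  have hy'U : y' ∈ U := by
    rw [hU, e1, ← e2]
    exact mem_connectedComponentIn hy'K
  have hUA : U ⊆ A := by
    have h7 : A = connectedComponentIn Lᶜ z := connectedComponentIn_eq hz
    rw [h7]
    exact isPreconnected_connectedComponentIn.subset_connectedComponentIn hzU
      ((connectedComponentIn_subset _ _).trans (compl_subset_compl.2 hLK))
  right
  refine mem_biUnion (x := y') (Finset.mem_filter.2 ⟨hy't, hUA hy'U⟩) ?_
  apply hMs y' (hUA hy'U)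
  rw [e2, ← e1]
  exact hzU

/-- nested unbounded components -/
lemma exists_nested [T2Space S] [ConnectedSpace S] [LocallyConnectedSpace S]
    [LocallyCompactSpace S] [NoncompactSpace S] {K : ℕ → Set S} (hK : ∀ n, IsCompact (K n))
    (hKm : ∀ n, K n ⊆ K (n + 1)) (hK0 : K 0 = ∅) :
    ∃ O : ℕ → Set S, O 0 = univ ∧ (∀ n, IsOpen (O n)) ∧ (∀ n, IsPreconnected (O n)) ∧
      (∀ n, O n ⊆ (K n)ᶜ) ∧ (∀ n, O (n + 1) ⊆ O n) ∧ ∀ n, (O n).Nonempty := by
  have hstep : ∀ n x, Unb (connectedComponentIn (K n)ᶜ x) → ∃ y ∈ connectedComponentIn (K n)ᶜ x,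
      Unb (connectedComponentIn (K (n + 1))ᶜ y) := fun n x hx => exists_unb (hK (n + 1)) (hKm n) hx
  choose! F hF1 hF2 using hstep
  obtain ⟨x0⟩ : Nonempty S := inferInstance
  have hunb0 : Unb (connectedComponentIn (K 0)ᶜ x0) := by
    rw [hK0, compl_empty, connectedComponentIn_univ, PreconnectedSpace.connectedComponent_eq_univ]
    intro L hL hsub
    rw [univ_subset_iff] at hsub
    exact noncompact_univ S (hsub ▸ hL)
  set x : ℕ → S := fun n => Nat.rec x0 (fun n y => F n y) n with hx
  have hxs : ∀ n, x (n + 1) = F n (x n) := fun n => rfl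
  have hunb : ∀ n, Unb (connectedComponentIn (K n)ᶜ (x n)) := by
    intro n
    induction n with
    | zero => exact hunb0
    | succ n ih =>
      rw [hxs]
      exact hF2 n _ ih
  have hmem : ∀ n, x (n + 1) ∈ connectedComponentIn (K n)ᶜ (x n) := fun n => hF1 n _ (hunb n)
  refine ⟨fun n => connectedComponentIn (K n)ᶜ (x n), ?_, ?_, ?_, ?_, ?_, ?_⟩
  · simp only
    rw [hK0, compl_empty, connectedComponentIn_univ, PreconnectedSpace.connectedComponent_eq_univ]
  · exact fun n => (hK n).isClosed.isOpen_compl.connectedComponentIn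
  · exact fun n => isPreconnected_connectedComponentIn
  · exact fun n => connectedComponentIn_subset _ _
  · intro n
    simp only
    rw [connectedComponentIn_eq (hmem n)]
    exact connectedComponentIn_mono _ (compl_subset_compl.2 (hKm n))
  · intro n
    by_contra h
    rw [not_nonempty_iff_eq_empty] at h
    exact hunb n ∅ isCompact_empty h.subset

/-- the equivariant push-off on a noncompact surface -/
theorem exists_pushOff [T2Space S] [ConnectedSpace S] [LocallyConnectedSpace S]
    [LocallyCompactSpace S] [SecondCountableTopology S] [NoncompactSpace S]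
    {G : Type*} [Group G] [Finite G] {ρ : G →* (S ≃ₜ S)} {Z : Set S} (hZ : IsolatedCharted Z)
    (hfree : ∀ x, x ∉ Z → ∀ W ∈ 𝓝 x, ∃ u : OpenPartialHomeomorph S ℂ,
      FreeDisc ρ u ∧ x ∈ u.source ∧ u.source ⊆ W)
    {u0 : OpenPartialHomeomorph S ℂ} (hu0 : FreeDisc ρ u0) (hu0Z : u0.source ⊆ Zᶜ)
    {C : Set S} (hC : IsCompact C) (hCu : C ⊆ u0.source) :
    ∃ e : S → S, IsOpenEmbedding e ∧ (∀ g x, e (ρ g x) = ρ g (e x)) ∧
      ∀ x, ∀ g, e x ∉ ρ g '' C := by
  haveI : SigmaCompactSpace S := sigmaCompactSpace_of_locallyCompact_secondCountable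
  set E : CompactExhaustion S := default with hE
  set K : ℕ → Set S := fun n => Nat.casesOn n ∅ (fun n => ⋃ g : G, ρ g '' E n) with hK
  have hK0 : K 0 = ∅ := rfl
  have hKs : ∀ n, K (n + 1) = ⋃ g : G, ρ g '' E n := fun n => rfl
  have hKc : ∀ n, IsCompact (K n) := by
    intro n
    cases n with
    | zero => exact isCompact_empty
    | succ n =>
      rw [hKs]
      exact isCompact_iUnion fun g => (E.isCompact n).image (ρ g).continuous
  have hKm : ∀ n, K n ⊆ K (n + 1) := by
    intro n
    cases n with
    | zero => exact empty_subset _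
    | succ n =>
      rw [hKs, hKs]
      exact iUnion_mono fun g => image_mono (E.subset_succ n)
  have hEK : ∀ n, E n ⊆ K (n + 1) := by
    intro n x hx
    rw [hKs]
    refine mem_iUnion.2 ⟨1, x, hx, ?_⟩
    rw [map_one]; rfl
  have hKx : ∀ x, ∃ n, x ∈ interior (K n) := by
    intro x
    have : x ∈ ⋃ n, E n := by
      have := E.iUnion_eq
      rw [this]; exact mem_univ _
    obtain ⟨n, hn⟩ := mem_iUnion.1 this
    exact ⟨n + 2, interior_mono (hEK (n + 1)) (E.subset_interior_succ n hn)⟩
  have hKinv : ∀ n g x, ρ g x ∈ K n → x ∈ K n := by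
    intro n g x hx
    cases n with
    | zero => exact hx
    | succ n =>
      rw [hKs] at hx ⊢
      obtain ⟨g', y, hy, he⟩ := mem_iUnion.1 hx
      refine mem_iUnion.2 ⟨g⁻¹ * g', y, hy, ?_⟩
      rw [map_mul, map_inv, Homeomorph.mul_apply, he]
      exact (ρ g).symm_apply_apply x
  obtain ⟨O, hO0, hOo, hOc, hOK, hOm, hOn⟩ := exists_nested hKc hKm hK0
  refine exists_push (K := K) (O := fun n => O n \ Z) hKm hKx hKinv
    (fun n => hZ.isPreconnected_diff (hOo n) (hOc n))
    (fun n => sdiff_subset.trans (hOK n)) (fun n => sdiff_subset_sdiff_left (hOm n)) ?_ ?_ hu0 ?_ hC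
    hCu
  · intro n x hx
    exact hfree x hx.2 _ (((hOo n).sdiff hZ.1).mem_nhds hx)
  · intro n
    obtain ⟨x, hx1, hx2⟩ := hZ.dense_compl.inter_open_nonempty (O n) (hOo n) (hOn n)
    exact ⟨x, hx1, hx2⟩
  · intro x hx
    exact ⟨by rw [hO0]; exact mem_univ _, hu0Z hx⟩

end Pool.Agent.Helper76.Flat
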