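import Pool.Agent.Helper76.Flat.Surgery

set_option autoImplicit false
set_option linter.style.haveILetI false

/-!
Area bounds and exactness of the isometry group after the surgery.
-/

open Set Topology MeasureTheory Filter Metric

namespace Pool.Agent.Helper76.Flat

open Planar

lemma convex_preim {s : Set ℂ} (hs : Convex ℝ s) (a b : ℂ) :
    Convex ℝ ((fun z : ℂ => a * z + b) ⁻¹' s) := by
  intro x hx y hy t u ht hu htu
  have h1 := hs hx hy ht hu htu
  have h2 : a * (t • x + u • y) + b = t • (a * x + b) + u • (a * y + b) := by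
    have h3 : ((t : ℂ) + u) = 1 := by rw [← Complex.ofReal_add, htu, Complex.ofReal_one]
    simp only [Complex.real_smul]
    linear_combination b * (-h3)
  show a * (t • x + u • y) + b ∈ s
  rw [h2]
  exact h1

lemma convex_im_neg : Convex ℝ {z : ℂ | z.im < 0} := by
  intro x hx y hy t u ht hu htu
  show (t • x + u • y).im < 0
  have h1 : x.im < 0 := hx
  have h2 : y.im < 0 := hy
  simp only [Complex.add_im, Complex.real_smul, Complex.mul_im, Complex.ofReal_re,
    Complex.ofReal_im, zero_mul, add_zero]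
  rcases ht.eq_or_lt with h | h
  · subst h
    have : u = 1 := by linarith
    subst this
    linarith
  · have h3 := mul_neg_of_pos_of_neg h h1
    have h4 := mul_nonpos_of_nonneg_of_nonpos hu h2.le
    linarith

lemma volume_mul_image {lam : ℂ} (hlam : lam ≠ 0) (A : Set ℂ) :
    volume ((fun z : ℂ => lam * z) '' A) = ENNReal.ofReal (‖lam‖ ^ 2) * volume A := by
  have hn : ‖lam‖ ≠ 0 := norm_ne_zero_iff.2 hlam
  have hn' : (‖lam‖ : ℂ) ≠ 0 := by exact_mod_cast hn
  have h1 : (fun z : ℂ => lam * z) '' A =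
      (fun z => (‖lam‖ : ℂ) * z) '' ((fun z => (lam / ‖lam‖) * z + 0) '' A) := by
    rw [← image_comp]
    refine image_congr fun z _ => ?_
    simp only [Function.comp_apply]
    field_simp
    ring
  rw [h1, TranslationStructure.volume_smul_real, volume_image_mul_add]
  rw [norm_div, Complex.norm_real, norm_norm, div_self hn]

variable {S : Type*} [TopologicalSpace S]

namespace Slot

variable {M : TranslationStructure S} {G : Type*} [Group G] [Finite G] {ρ : G →* (S ≃ₜ S)}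
variable (σ : Slot M ρ) {α : ℝ} (h1 : α < Real.pi / 2) (h0 : 0 < α)

/-- the union of the big half discs -/
def GF : Set S := {x | ∃ g, ∃ w ∈ ball (-3 : ℂ) 4, (Phi h1 w).im < 0 ∧ σ.j g w = x}

def A1 (α : ℝ) : Set ℂ := RW α ∩ {W | 0 < W.im}
def A2 (α : ℝ) : Set ℂ := RW α ∩ {W | |W.im| < Real.pi / 2}
def A3 (α : ℝ) : Set ℂ := RW α ∩ {W | W.im < α}

section
include h1
lemma isOpen_A1 : IsOpen (A1 α) :=
  (isOpen_RW h1).inter (isOpen_lt continuous_const Complex.continuous_im)
lemma isOpen_A2 : IsOpen (A2 α) :=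
  (isOpen_RW h1).inter (isOpen_lt (by fun_prop) continuous_const)
lemma isOpen_A3 : IsOpen (A3 α) :=
  (isOpen_RW h1).inter (isOpen_lt Complex.continuous_im continuous_const)
end

section
include h0
lemma injOn_A1 : InjOn E (A1 α) := by
  refine injOn_E h0 inter_subset_left fun W hW W' hW' => ?_
  have a1 : 0 < W.im := hW.2
  have a2 : 0 < W'.im := hW'.2
  have a3 := hW.1.1.2
  have a4 := hW'.1.1.2
  rw [abs_lt]
  constructor <;> linarith [Real.pi_pos]
lemma injOn_A2 : InjOn E (A2 α) := by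
  refine injOn_E h0 inter_subset_left fun W hW W' hW' => ?_
  have a1 : |W.im| < Real.pi / 2 := hW.2
  have a2 : |W'.im| < Real.pi / 2 := hW'.2
  rw [abs_lt] at *
  constructor <;> linarith [Real.pi_pos, a1.1, a1.2, a2.1, a2.2]
lemma injOn_A3 : InjOn E (A3 α) := by
  refine injOn_E h0 inter_subset_left fun W hW W' hW' => ?_
  have a1 : W.im < α := hW.2
  have a2 : W'.im < α := hW'.2
  have a3 := hW.1.1.1
  have a4 := hW'.1.1.1
  rw [abs_lt]
  constructor <;> linarith [Real.pi_pos]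
end

lemma E_A1 (h0 : 0 < α) : E '' A1 α ⊆ ball (-3) 4 := by
  rintro _ ⟨W, hW, rfl⟩
  have : 0 < W.im := hW.2
  exact E_mem_ball h0 hW.1 (by linarith [Real.pi_pos])

lemma E_A2 (h0 : 0 < α) : E '' A2 α ⊆ ball (-3) 4 := by
  rintro _ ⟨W, hW, rfl⟩
  have : |W.im| < Real.pi / 2 := hW.2
  rw [abs_lt] at this
  exact E_mem_ball h0 hW.1 this.1.le

lemma E_A3 (h0 : 0 < α) (h1 : α < Real.pi / 2) : E '' A3 α ⊆ ball (x0 α) (rho α) := by
  rintro _ ⟨W, hW, rfl⟩
  exact E_mem_disc h0 h1 hW.1.1.1 hW.2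

section area

variable [MeasurableSpace S] [BorelSpace S] {ν : Measure S}

/-- area of the pieces -/
lemma measure_piece (hν : (σ.surg h1 h0).IsAM ν) (g : G) {A : Set ℂ} (hA : IsOpen A)
    (hAR : A ⊆ RW α) (hinj : InjOn E A) {B : Set ℂ} (hB : E '' A ⊆ B) :
    ν {x | ∃ w ∈ ball (-3 : ℂ) 4, Phi h1 w ∈ A ∧ σ.j g w = x} ≤
      ENNReal.ofReal (‖σ.lam‖ ^ 2) * volume B := by
  have h2 : {x | ∃ w ∈ ball (-3 : ℂ) 4, Phi h1 w ∈ A ∧ σ.j g w = x} =
      (σ.ch h1 h0 g hA hAR hinj).source := by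
    ext x
    exact (σ.mem_ch_source h1 h0 g hA hAR hinj).symm
  rw [h2, hν.2 _ (σ.compat_ch h1 h0 g hA hAR hinj) _ subset_rfl
    (σ.ch h1 h0 g hA hAR hinj).open_source.measurableSet, ← volume_mul_image σ.lam_ne]
  refine measure_mono ?_
  rintro _ ⟨x, hx, rfl⟩
  rw [mem_ch_source] at hx
  obtain ⟨w, hw, hwA, rfl⟩ := hx
  rw [ch_apply _ _ _ _ _ _ _ hw]
  exact ⟨_, hB ⟨_, hwA, rfl⟩, rfl⟩

/-- bound of the area of the part outside the big half discs -/
noncomputable def bd (μ : Measure S) : ENNReal :=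
  μ univ + ((Nat.card G : ENNReal) * (ENNReal.ofReal (‖σ.lam‖ ^ 2) * volume (ball (-3 : ℂ) 4)) +
    (Nat.card G : ENNReal) * (ENNReal.ofReal (‖σ.lam‖ ^ 2) * volume (ball (-3 : ℂ) 4)))

omit [BorelSpace S] in
lemma bd_lt_top {μ : Measure S} (hμ : μ univ < ⊤) : σ.bd μ < ⊤ := by
  have h2 : (Nat.card G : ENNReal) * (ENNReal.ofReal (‖σ.lam‖ ^ 2) * volume (ball (-3 : ℂ) 4)) < ⊤ :=
    ENNReal.mul_lt_top (ENNReal.natCast_lt_top _)
      (ENNReal.mul_lt_top ENNReal.ofReal_lt_top measure_ball_lt_top)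
  exact ENNReal.add_lt_top.2 ⟨hμ, ENNReal.add_lt_top.2 ⟨h2, h2⟩⟩

omit [MeasurableSpace S] [BorelSpace S] in
lemma measure_iUnion_fin_le {X : Type*} [MeasurableSpace X] {ν : Measure X} {P : G → Set X}
    {b : ENNReal} (h : ∀ g, ν (P g) ≤ b) : ν (⋃ g, P g) ≤ (Nat.card G : ENNReal) * b := by
  haveI := Fintype.ofFinite G
  refine (measure_iUnion_fintype_le ν P).trans ?_
  refine (Finset.sum_le_sum fun g _ => h g).trans ?_
  rw [Finset.sum_const, Finset.card_univ, nsmul_eq_mul, Nat.card_eq_fintype_card]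

variable [SecondCountableTopology S]

lemma measure_compl_GF {μ : Measure S} (hμ : M.IsAM μ) (hν : (σ.surg h1 h0).IsAM ν) :
    ν (σ.GF h1)ᶜ ≤ σ.bd μ := by
  have hsub : (σ.GF h1)ᶜ ⊆ σ.Cᶜ ∪
      ((⋃ g, {x | ∃ w ∈ ball (-3 : ℂ) 4, Phi h1 w ∈ A1 α ∧ σ.j g w = x}) ∪
      (⋃ g, {x | ∃ w ∈ ball (-3 : ℂ) 4, Phi h1 w ∈ A2 α ∧ σ.j g w = x})) := by
    intro x hx
    by_cases hC : x ∈ σ.C
    · right
      obtain ⟨g, w, hw, rfl⟩ := σ.exists_of_mem_C hC
      have h2 : Phi h1 w ∈ RW α := (Phi h1).map_source hw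
      have h3 : ¬ (Phi h1 w).im < 0 := fun h => hx ⟨g, w, hw, h, rfl⟩
      push Not at h3
      rcases h3.lt_or_eq with h | h
      · left
        exact mem_iUnion.2 ⟨g, w, hw, ⟨h2, h⟩, rfl⟩
      · right
        refine mem_iUnion.2 ⟨g, w, hw, ⟨h2, ?_⟩, rfl⟩
        show |(Phi h1 w).im| < Real.pi / 2
        rw [← h, abs_zero]
        exact half_pos Real.pi_pos
    · exact Or.inl hC
  refine (measure_mono hsub).trans ?_
  refine (measure_union_le _ _).trans ?_
  rw [bd]
  refine add_le_add ?_ ((measure_union_le _ _).trans (add_le_add ?_ ?_))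
  · rw [hμ.eq_of_agree hν (O := σ.Cᶜ) rfl ?_ subset_rfl σ.isClosed_C.isOpen_compl.measurableSet]
    · exact measure_mono (subset_univ _)
    · intro x hx hs
      obtain ⟨φ, hφ, hxφ⟩ := M.exists_chart hs
      refine ⟨φ, hφ, _, σ.compat_restr h1 hφ, hxφ, ?_, 0, ?_⟩
      · rw [OpenPartialHomeomorph.restrOpen_source]
        exact ⟨hxφ, hx⟩
      · exact Eventually.of_forall fun y => (add_zero _).symm
  · exact measure_iUnion_fin_le fun g => σ.measure_piece h1 h0 hν g (isOpen_A1 h1)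
      inter_subset_left (injOn_A1 h0) (E_A1 h0)
  · exact measure_iUnion_fin_le fun g => σ.measure_piece h1 h0 hν g (isOpen_A2 h1)
      inter_subset_left (injOn_A2 h0) (E_A2 h0)

lemma measure_univ_lt_top {μ : Measure S} (hμ : M.IsAM μ) (hfin : μ univ < ⊤)
    (hν : (σ.surg h1 h0).IsAM ν) : ν univ < ⊤ := by
  have hsub : univ ⊆ (σ.GF h1)ᶜ ∪
      (⋃ g, {x | ∃ w ∈ ball (-3 : ℂ) 4, Phi h1 w ∈ A3 α ∧ σ.j g w = x}) := by
    intro x _
    by_cases hx : x ∈ σ.GF h1
    · right
      obtain ⟨g, w, hw, him, rfl⟩ := hx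
      refine mem_iUnion.2 ⟨g, w, hw, ⟨(Phi h1).map_source hw, ?_⟩, rfl⟩
      show (Phi h1 w).im < α
      linarith
    · exact Or.inl hx
  refine lt_of_le_of_lt (measure_mono hsub) (lt_of_le_of_lt (measure_union_le _ _) ?_)
  refine ENNReal.add_lt_top.2 ⟨lt_of_le_of_lt (σ.measure_compl_GF h1 h0 hμ hν) (σ.bd_lt_top hfin), ?_⟩
  refine lt_of_le_of_lt (measure_iUnion_fin_le fun g => σ.measure_piece h1 h0 hν g (isOpen_A3 h1)
      inter_subset_left (injOn_A3 h0) (E_A3 h0 h1)) ?_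
  exact ENNReal.mul_lt_top (ENNReal.natCast_lt_top _)
      (ENNReal.mul_lt_top ENNReal.ofReal_lt_top measure_ball_lt_top)

lemma surg_finiteArea {μ : Measure S} (hμ : M.IsAM μ) (hfin : μ univ < ⊤) :
    (σ.surg h1 h0).FiniteArea := by
  obtain ⟨ν, hν⟩ := (σ.surg h1 h0).exists_am
  exact TranslationStructure.finiteArea_of_isAM hν (σ.measure_univ_lt_top h1 h0 hμ hfin hν)

end area

/-- the big discs -/
noncomputable def big (g : G) (z : ℂ) : S := σ.j g ((Phi h1).symm (lg z))

omit [Finite G] in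
lemma big_smul (g g' : G) (z : ℂ) : ρ g (σ.big h1 g' z) = σ.big h1 (g * g') z := by
  rw [big, big, j, j, map_mul]; rfl

include h0 in
lemma big_isSec (g : G) : (σ.surg h1 h0).IsSec σ.lam (ball (x0 α) (rho α)) (σ.big h1 g) := by
  refine σ.surg_isSec h1 h0 g isOpen_ball ?_ ?_ ?_
  · exact (Phi h1).continuousOn_symm.comp (continuousOn_lg h0 h1) fun z hz => lg_mem_RW h0 h1 hz
  · exact fun z hz => (Phi h1).map_target (lg_mem_RW h0 h1 hz)
  · intro z hz
    rw [dev, (Phi h1).right_inv (lg_mem_RW h0 h1 hz), E_lg h0 h1 hz]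

include h0 in
omit [Finite G] in
lemma big_inj (g : G) : InjOn (σ.big h1 g) (ball (x0 α) (rho α)) := by
  intro z hz z' hz' h
  have h2 := (σ.j_eq ((Phi h1).map_target (lg_mem_RW h0 h1 hz))
    ((Phi h1).map_target (lg_mem_RW h0 h1 hz')) h).2
  have h3 := (Phi h1).symm.injOn (lg_mem_RW h0 h1 hz) (lg_mem_RW h0 h1 hz') h2
  rw [← E_lg h0 h1 hz, h3, E_lg h0 h1 hz']

include h0 in
omit [Finite G] in
/-- the big disc does not extend across its lower boundary arc -/
lemma no_conv [T2Space S] {w : ℕ → ℂ} (hw : ∀ n, w n ∈ ball (x0 α) (rho α)) {q : ℂ}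
    (hq : Tendsto w atTop (𝓝 q)) (hqd : dist q (x0 α) = rho α) (hqi : q.im ≤ 0) {y : S}
    (hy : Tendsto (fun n => σ.big h1 1 (w n)) atTop (𝓝 y)) : False := by
  set k : ℕ → ℂ := fun n => (Phi h1).symm (lg (w n)) with hk
  have hkD : ∀ n, k n ∈ ball (-3 : ℂ) 4 := fun n => (Phi h1).map_target (lg_mem_RW h0 h1 (hw n))
  have hkK : ∀ n, k n ∈ KK := by
    intro n
    have h2 := lg_im_mem h0 h1 (hw n)
    exact mem_KK (hkD n) (Phi_symm_mem_K h1 (lg_mem_RW h0 h1 (hw n)) (by linarith))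
  have hcl : IsClosed (σ.j 1 '' KK) := by
    have : σ.j 1 '' KK = ρ 1 '' (σ.ι '' KK) := by rw [← image_comp]; rfl
    rw [this]
    exact (ρ 1).isClosedMap _ σ.closed
  have hyC : y ∈ σ.j 1 '' KK :=
    hcl.mem_of_tendsto hy (Eventually.of_forall fun n => ⟨k n, hkK n, rfl⟩)
  obtain ⟨k', hk', rfl⟩ := hyC
  have hk'D := KK_subset hk'
  set J := (σ.j_sec 1).oph σ.lam_ne isOpen_ball (σ.j_inj 1) with hJ
  have hJt : σ.j 1 k' ∈ J.target := ⟨k', hk'D, rfl⟩
  have hk2 : Tendsto k atTop (𝓝 k') := by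
    have h2 : Tendsto (fun n => J.symm (σ.big h1 1 (w n))) atTop (𝓝 (J.symm (σ.j 1 k'))) :=
      (J.symm.continuousAt hJt).tendsto.comp hy
    have h3 : J.symm (σ.j 1 k') = k' := J.left_inv hk'D
    rw [h3] at h2
    refine h2.congr fun n => ?_
    exact J.left_inv (hkD n)
  have hW : Phi h1 k' ∈ RW α := (Phi h1).map_source hk'D
  have hlg : Tendsto (fun n => lg (w n)) atTop (𝓝 (Phi h1 k')) := by
    have h2 : Tendsto (fun n => Phi h1 (k n)) atTop (𝓝 (Phi h1 k')) :=
      ((Phi h1).continuousAt hk'D).tendsto.comp hk2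
    refine h2.congr fun n => ?_
    exact (Phi h1).right_inv (lg_mem_RW h0 h1 (hw n))
  have hEq : E (Phi h1 k') = q := by
    have h2 : Tendsto (fun n => E (lg (w n))) atTop (𝓝 (E (Phi h1 k'))) :=
      (((continuousOn_E h0).continuousAt ((isOpen_RW h1).mem_nhds hW)).tendsto).comp hlg
    refine tendsto_nhds_unique h2 ?_
    refine hq.congr fun n => ?_
    exact (E_lg h0 h1 (hw n)).symm
  have him : (Phi h1 k').im ≤ α := by
    have h2 : Tendsto (fun n => (lg (w n)).im) atTop (𝓝 (Phi h1 k').im) :=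
      (Complex.continuous_im.tendsto _).comp hlg
    exact le_of_tendsto h2 (Eventually.of_forall fun n => (lg_im_mem h0 h1 (hw n)).2.le)
  have h2 := no_limit h0 h1 hW him (by rw [hEq]; exact hqd)
  rw [hEq] at h2
  linarith

/-- key alternative -/
lemma key [T2Space S] {f : S ≃ₜ S} {mu : ℂ} (hmu : ‖mu‖ = 1)
    (hf : (σ.surg h1 h0).IsAffine mu f) {z0 p : ℂ} (hz0 : z0 ∈ ball (x0 α) (rho α))
    (hp : p ∈ ball (x0 α) (rho α)) (hpi : p.im < 0) (he : f (σ.big h1 1 z0) = σ.big h1 1 p) :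
    (mu * (x0 α - z0) + p = x0 α ∧ ∀ z ∈ ball (x0 α) (rho α),
      f (σ.big h1 1 z) = σ.big h1 1 (mu * (z - x0 α) + x0 α)) ∨
    0 < (mu * (x0 α - z0) + p).im := by
  set B := ball (x0 α) (rho α) with hB
  set b : ℂ := p - mu * z0 with hb
  have hmu0 : mu ≠ 0 := by rintro rfl; simp at hmu
  have hdist : ∀ z z' : ℂ, dist (mu * z + b) (mu * z' + b) = dist z z' := by
    intro z z'
    rw [dist_eq_norm, dist_eq_norm]
    have : mu * z + b - (mu * z' + b) = mu * (z - z') := by ring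
    rw [this, norm_mul, hmu, one_mul]
  set v : ℂ := mu * x0 α + b with hv
  have hv' : mu * (x0 α - z0) + p = v := by rw [hv, hb]; ring
  rw [hv']
  have hmem : ∀ z, z ∈ B ↔ mu * z + b ∈ ball v (rho α) := by
    intro z
    rw [hB, mem_ball, mem_ball, hv, hdist]
  have hpz : mu * z0 + b = p := by rw [hb]; ring
  have hpv : p ∈ ball v (rho α) := by rw [← hpz]; exact (hmem z0).1 hz0
  have hE1 := (σ.big_isSec h1 h0 1).comp_affine isOpen_ball hf
  have hE2 := (σ.big_isSec h1 h0 1).comp_mul_add (a := mu) (b := b)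
  rw [mul_comm σ.lam mu] at hE2
  have hcont : Continuous fun z : ℂ => mu * z + b := by fun_prop
  -- agreement on `C0`
  have hag : ∀ z ∈ B, mu * z + b ∈ B → (mu * z + b).im < 0 →
      f (σ.big h1 1 z) = σ.big h1 1 (mu * z + b) := by
    set C0 : Set ℂ := B ∩ ((fun z => mu * z + b) ⁻¹' (B ∩ {z | z.im < 0})) with hC0
    have hC0c : Convex ℝ C0 :=
      (convex_ball _ _).inter (convex_preim ((convex_ball _ _).inter convex_im_neg) mu b)
    have hC0o : IsOpen C0 := isOpen_ball.inter ((isOpen_ball.inter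
      (isOpen_lt Complex.continuous_im continuous_const)).preimage hcont)
    have h3 := (hE1.mono (V := C0) inter_subset_left).eqOn hC0o hC0c.isPreconnected
      (hE2.mono (V := C0) fun z hz => hz.2.1) (z0 := z0)
      ⟨hz0, by rw [mem_preimage, hpz]; exact ⟨hp, hpi⟩⟩ (by
        show f (σ.big h1 1 z0) = σ.big h1 1 (mu * z0 + b)
        rw [hpz, he])
    exact fun z hz hz1 hz2 => h3 ⟨hz, hz1, hz2⟩
  -- the lower arc is avoided
  have havoid : ∀ x : ℂ, dist x (x0 α) = rho α → x.im ≤ 0 → x ∉ ball v (rho α) := by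
    intro x hxd hxi hxv
    set t : ℕ → ℝ := fun n => 1 / ((n : ℝ) + 1) / 2 with ht
    have ht0 : ∀ n, 0 < t n := fun n => by rw [ht]; positivity
    have ht1 : ∀ n, t n < 1 := by
      intro n
      have : 1 / ((n : ℝ) + 1) ≤ 1 := by
        rw [div_le_one (by positivity)]
        linarith [n.cast_nonneg (α := ℝ)]
      rw [ht]
      simp only
      linarith
    have htl : Tendsto t atTop (𝓝 0) := by
      have := (tendsto_one_div_add_atTop_nhds_zero_nat (𝕜 := ℝ)).div_const 2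
      simpa [ht] using this
    set w : ℕ → ℂ := fun n => x + (t n : ℂ) * (p - x) with hw
    have hwl : Tendsto w atTop (𝓝 x) := by
      have h3 : Tendsto (fun n => (t n : ℂ)) atTop (𝓝 ((0 : ℝ) : ℂ)) :=
        (Complex.continuous_ofReal.tendsto 0).comp htl
      have h4 : Tendsto w atTop (𝓝 (x + ((0 : ℝ) : ℂ) * (p - x))) :=
        tendsto_const_nhds.add (h3.mul_const _)
      simpa using h4
    have hwB : ∀ n, w n ∈ B := by
      intro n
      rw [hB, mem_ball, dist_eq_norm]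
      have h3 : w n - x0 α = ((1 - t n : ℝ) : ℂ) * (x - x0 α) + (t n : ℂ) * (p - x0 α) := by
        rw [hw]; push_cast; ring
      have h4 : ‖x - x0 α‖ = rho α := by rw [← dist_eq_norm]; exact hxd
      have h5 : ‖p - x0 α‖ < rho α := by rw [← dist_eq_norm]; exact hp
      rw [h3]
      refine lt_of_le_of_lt (norm_add_le _ _) ?_
      rw [norm_mul, norm_mul, Complex.norm_real, Complex.norm_real, Real.norm_eq_abs,
        Real.norm_eq_abs, abs_of_pos (ht0 n), abs_of_pos (by linarith [ht1 n]), h4]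
      nlinarith [ht0 n, ht1 n]
    have hwv : ∀ n, w n ∈ ball v (rho α) := by
      intro n
      have h3 := (convex_ball v (rho α)) hxv hpv (sub_nonneg.2 (ht1 n).le) (ht0 n).le
        (sub_add_cancel 1 (t n))
      have h4 : (1 - t n) • x + t n • p = w n := by
        simp only [Complex.real_smul, hw]; push_cast; ring
      rwa [h4] at h3
    have hwi : ∀ n, (w n).im < 0 := by
      intro n
      have h3 : (w n).im = (1 - t n) * x.im + t n * p.im := by
        rw [hw]
        simp only [Complex.add_im, Complex.mul_im, Complex.ofReal_re, Complex.ofReal_im,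
          Complex.sub_im, zero_mul, add_zero]
        ring
      rw [h3]
      have h4 := mul_neg_of_pos_of_neg (ht0 n) hpi
      have h5 : (1 - t n) * x.im ≤ 0 :=
        mul_nonpos_of_nonneg_of_nonpos (by linarith [ht1 n]) hxi
      linarith
    set A' : ℂ → ℂ := fun y => mu⁻¹ * (y - b) with hA'
    have hAA' : ∀ y, mu * A' y + b = y := by
      intro y
      rw [hA']
      simp only
      rw [← mul_assoc, mul_inv_cancel₀ hmu0]
      ring
    have hA'B : ∀ y ∈ ball v (rho α), A' y ∈ B := by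
      intro y hy
      rw [hmem, hAA']
      exact hy
    have hA'c : Continuous A' := by rw [hA']; fun_prop
    have h3 : ∀ n, f (σ.big h1 1 (A' (w n))) = σ.big h1 1 (w n) := by
      intro n
      have := hag (A' (w n)) (hA'B _ (hwv n)) (by rw [hAA']; exact hwB n) (by rw [hAA']; exact hwi n)
      rwa [hAA'] at this
    have h4 : Tendsto (fun n => σ.big h1 1 (w n)) atTop (𝓝 (f (σ.big h1 1 (A' x)))) := by
      have h5 : ContinuousAt (fun z => f (σ.big h1 1 z)) (A' x) :=
        f.continuous.continuousAt.comp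
          ((σ.big_isSec h1 h0 1).continuousAt isOpen_ball (hA'B x hxv))
      have h6 : Tendsto (fun n => f (σ.big h1 1 (A' (w n)))) atTop (𝓝 (f (σ.big h1 1 (A' x)))) :=
        h5.tendsto.comp ((hA'c.tendsto x).comp hwl)
      exact h6.congr h3
    exact σ.no_conv h1 h0 hwB hwl hxd hxi h4
  rcases planar_lemma h0 h1 hpv hp havoid with h | h
  · left
    refine ⟨h, fun z hz => ?_⟩
    have h3 : ∀ z, mu * (z - x0 α) + x0 α = mu * z + b := by
      intro z
      have : b = x0 α - mu * x0 α := by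
        have := h
        rw [hv] at this
        linear_combination this
      rw [this]; ring
    rw [h3]
    have h4 : B ⊆ (fun z => mu * z + b) ⁻¹' B := by
      intro z hz
      have := (hmem z).1 hz
      rwa [h] at this
    have h5 := hE1.eqOn isOpen_ball isPreconnected_ball (hE2.mono h4) (z0 := z0) hz0 (by
        show f (σ.big h1 1 z0) = σ.big h1 1 (mu * z0 + b)
        rw [hpz, he])
    exact h5 hz
  · exact Or.inr h

end Slot

end Pool.Agent.Helper76.Flat
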