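import Pool.Agent.Helper76.Flat.Exact

set_option autoImplicit false
set_option linter.style.haveILetI false

/-!
Exactness of the isometry group after the surgery.
-/

open Set Topology MeasureTheory Filter Metric

namespace Pool.Agent.Helper76.Flat

open Planar

namespace Planar

variable {α : ℝ}

/-- the upper arc of the big circle -/
lemma lg_of_sphere (h0 : 0 < α) (h1 : α < Real.pi / 2) {q : ℂ} (hq : dist q (x0 α) = rho α)
    (hqi : 0 < q.im) : (lg q).im = α ∧ ContinuousAt lg q := by
  have hne : 1 - q ≠ 0 := by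
    intro h
    have : q = 1 := (sub_eq_zero.1 h).symm
    rw [this] at hqi
    simp at hqi
  have hne' : 1 + q ≠ 0 := by
    intro h
    have : q = -1 := by linear_combination h
    rw [this] at hqi
    simp at hqi
  have hp := normSq_pos' hne
  have hs := sin_pos h0 h1
  have him : 0 < ((1 + q) / (1 - q)).im := by
    rw [u_im hne]
    positivity
  have heq : ((1 + q) / (1 - q)).im * Real.cos α = ((1 + q) / (1 - q)).re * Real.sin α := by
    rw [mem_sphere_iff' h0 h1] at hq
    rw [u_re hne, u_im hne, div_mul_eq_mul_div, div_mul_eq_mul_div]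
    congr 1
    have e2 : (q.re ^ 2 + q.im ^ 2 + 2 * q.im * (Real.cos α / Real.sin α)) * Real.sin α =
        (q.re ^ 2 + q.im ^ 2) * Real.sin α + 2 * q.im * Real.cos α := by
      field_simp
    rw [hq] at e2
    linarith
  have hexp : Complex.exp (lg q) = (1 + q) / (1 - q) := Complex.exp_log (div_ne_zero hne' hne)
  have hsin : Real.sin ((lg q).im - α) = 0 := by
    have h2 := sin_sub_exp (α := α) (lg q)
    rw [hexp, heq, sub_self] at h2
    have h3 := Real.exp_pos (lg q).re
    rcases mul_eq_zero.1 h2.symm with h | h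
    · exact absurd h h3.ne'
    · exact h
  have harg : 0 < (lg q).im ∧ (lg q).im < Real.pi := by
    rw [lg, Complex.log_im]
    constructor
    · have h2 : 0 ≤ ((1 + q) / (1 - q)).arg := Complex.arg_nonneg_iff.2 him.le
      rcases h2.lt_or_eq with h | h
      · exact h
      · exfalso
        have := (Complex.arg_eq_zero_iff.1 h.symm).2
        linarith
    · rcases (Complex.arg_le_pi ((1 + q) / (1 - q))).lt_or_eq with h | h
      · exact h
      · exfalso
        have := (Complex.arg_eq_pi_iff.1 h).2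
        linarith
  refine ⟨?_, ?_⟩
  · have h2 := (Real.sin_eq_zero_iff_of_lt_of_lt (x := (lg q).im - α) (by linarith)
      (by linarith [Real.pi_pos])).1 hsin
    linarith
  · unfold lg
    refine ContinuousAt.clog (ContinuousAt.div (by fun_prop) (by fun_prop) hne) ?_
    rw [Complex.mem_slitPlane_iff]
    exact Or.inr him.ne'

end Planar

variable {S : Type*} [TopologicalSpace S]

namespace Slot

variable {M : TranslationStructure S} {G : Type*} [Group G] [Finite G] {ρ : G →* (S ≃ₜ S)}
variable (σ : Slot M ρ) {α : ℝ} (h1 : α < Real.pi / 2) (h0 : 0 < α)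

include h0 in
/-- the rotation about the centre of the big disc is trivial -/
lemma rot [T2Space S] {f : S ≃ₜ S} {mu : ℂ} (hmu : ‖mu‖ = 1)
    (hf : ∀ z ∈ ball (x0 α) (rho α),
      f (σ.big h1 1 z) = σ.big h1 1 (mu * (z - x0 α) + x0 α)) : mu = 1 := by
  have hρ := rho_pos h0 h1
  have hc := cos_pos h0 h1
  have hs := sin_pos h0 h1
  have hc1 : Real.cos α < 1 := by
    have := Real.sin_sq_add_cos_sq α
    nlinarith
  have hx0im : (x0 α).im = -(rho α * Real.cos α) := by
    show -(Real.cos α / Real.sin α) = _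
    rw [rho]
    ring
  refine rotation_lemma hmu hc hc1 fun e he hec => ?_
  by_contra hcon
  push Not at hcon
  set q : ℂ := x0 α + rho α * e with hq
  have hqd : dist q (x0 α) = rho α := by
    rw [dist_eq_norm, hq, add_sub_cancel_left, norm_mul, he, mul_one, Complex.norm_real,
      Real.norm_eq_abs, abs_of_pos hρ]
  have him : ∀ e' : ℂ, (x0 α + rho α * e').im = rho α * (e'.im - Real.cos α) := by
    intro e'
    rw [Complex.add_im, Complex.im_ofReal_mul, hx0im]
    ring
  have hqi : 0 < q.im := by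
    rw [hq, him]
    exact mul_pos hρ (by linarith)
  obtain ⟨hlgim, hlgc⟩ := lg_of_sphere h0 h1 hqd hqi
  have hlgRW : lg q ∈ RW α := strip_subset_RW h1 (by rw [hlgim]; linarith [Real.pi_pos])
    (by rw [hlgim]; exact h1.le)
  set q' : ℂ := x0 α + rho α * (mu * e) with hq'
  have hqd' : dist q' (x0 α) = rho α := by
    rw [dist_eq_norm, hq', add_sub_cancel_left, norm_mul, norm_mul, hmu, he, mul_one, mul_one,
      Complex.norm_real, Real.norm_eq_abs, abs_of_pos hρ]
  have hqi' : q'.im ≤ 0 := by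
    rw [hq', him]
    exact mul_nonpos_of_nonneg_of_nonpos hρ.le (by linarith)
  -- approximating sequence
  set t : ℕ → ℝ := fun n => 1 / ((n : ℝ) + 1) with ht
  have ht0 : ∀ n, 0 < t n := fun n => by rw [ht]; positivity
  have ht1 : ∀ n, t n ≤ 1 := by
    intro n
    rw [ht]
    simp only
    rw [div_le_one (by positivity)]
    linarith [n.cast_nonneg (α := ℝ)]
  have htl : Tendsto t atTop (𝓝 0) := tendsto_one_div_add_atTop_nhds_zero_nat (𝕜 := ℝ)
  have hseq : ∀ e' : ℂ, ‖e'‖ = 1 → (∀ n, x0 α + ((1 - t n : ℝ) : ℂ) * (rho α * e') ∈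
      ball (x0 α) (rho α)) ∧ Tendsto (fun n => x0 α + ((1 - t n : ℝ) : ℂ) * (rho α * e')) atTop
      (𝓝 (x0 α + rho α * e')) := by
    intro e' he'
    constructor
    · intro n
      rw [mem_ball, dist_eq_norm, add_sub_cancel_left, norm_mul, norm_mul, he', mul_one,
        Complex.norm_real, Complex.norm_real, Real.norm_eq_abs, Real.norm_eq_abs, abs_of_pos hρ,
        abs_of_nonneg (by linarith [ht1 n])]
      have := mul_pos (ht0 n) hρ
      nlinarith
    · have h3 : Tendsto (fun n => ((1 - t n : ℝ) : ℂ)) atTop (𝓝 ((1 : ℝ) : ℂ)) := by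
        have : Tendsto (fun n => 1 - t n) atTop (𝓝 (1 - 0)) := tendsto_const_nhds.sub htl
        rw [sub_zero] at this
        exact (Complex.continuous_ofReal.tendsto 1).comp this
      have h4 := (tendsto_const_nhds (x := x0 α)).add (h3.mul_const (rho α * e'))
      simpa using h4
  obtain ⟨hw1, hw2⟩ := hseq e he
  obtain ⟨hw1', hw2'⟩ := hseq (mu * e) (by rw [norm_mul, hmu, he, mul_one])
  set w : ℕ → ℂ := fun n => x0 α + ((1 - t n : ℝ) : ℂ) * (rho α * e) with hw
  set w' : ℕ → ℂ := fun n => x0 α + ((1 - t n : ℝ) : ℂ) * (rho α * (mu * e)) with hw'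
  have hww' : ∀ n, mu * (w n - x0 α) + x0 α = w' n := by
    intro n
    rw [hw, hw']
    simp only
    ring
  have hlim : Tendsto (fun n => σ.big h1 1 (w n)) atTop (𝓝 (σ.big h1 1 q)) := by
    have h3 : ContinuousAt (Phi h1).symm (lg q) := (Phi h1).symm.continuousAt hlgRW
    have h4 : ContinuousAt (σ.j 1) ((Phi h1).symm (lg q)) :=
      (σ.j_sec 1).continuousAt isOpen_ball ((Phi h1).map_target hlgRW)
    have h5 : ContinuousAt (fun z => (Phi h1).symm (lg z)) q :=
      ContinuousAt.comp (f := lg) (g := (Phi h1).symm) h3 hlgc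
    have h6 : ContinuousAt (fun z => σ.big h1 1 z) q :=
      ContinuousAt.comp (f := fun z => (Phi h1).symm (lg z)) (g := σ.j 1) h4 h5
    exact h6.tendsto.comp hw2
  have hlim' : Tendsto (fun n => σ.big h1 1 (w' n)) atTop (𝓝 (f (σ.big h1 1 q))) := by
    have h3 : Tendsto (fun n => f (σ.big h1 1 (w n))) atTop (𝓝 (f (σ.big h1 1 q))) :=
      (f.continuous.tendsto _).comp hlim
    refine h3.congr fun n => ?_
    rw [hf _ (hw1 n), hww']
  exact σ.no_conv h1 h0 hw1' hw2' hqd' hqi' hlim'

/-- if the big disc is large enough, all isometries come from `G`. -/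
theorem exact [T2Space S] [ConnectedSpace S] [SecondCountableTopology S] [MeasurableSpace S]
    [BorelSpace S] {μ : Measure S} (hμ : M.IsAM μ)
    (hbig : σ.bd μ < ENNReal.ofReal (‖σ.lam‖ ^ 2) * volume (ball (0 : ℂ) (rho α / 2)))
    {f : S ≃ₜ S} {mu : ℂ} (hmu : ‖mu‖ = 1) (hf : (σ.surg h1 h0).IsAffine mu f) :
    ∃ g, f = ρ g := by
  have hmu0 : mu ≠ 0 := by rintro rfl; simp at hmu
  have hρ := rho_pos h0 h1
  set B := ball (x0 α) (rho α) with hB
  by_contra hcon
  push Not at hcon
  -- no point of the half disc is sent into the big half discs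
  have hno : ∀ z ∈ B, 0 < (mu * (z - x0 α)).im → f (σ.big h1 1 z) ∉ σ.GF h1 := by
    rintro z hz hzi ⟨g, w, hw, hwi, hgw⟩
    have hRW : Phi h1 w ∈ RW α := (Phi h1).map_source hw
    set p := E (Phi h1 w) with hp
    have hpB : p ∈ B := E_mem_disc h0 h1 hRW.1.1 (by linarith)
    have hlgp : lg p = Phi h1 w := log_E h0 h1 hRW.1.1 (by linarith [Real.pi_pos])
    have hpi : p.im < 0 := by
      rw [← lg_im_neg_iff (ne_one_of_mem_disc h0 h1 hpB), hlgp]
      exact hwi
    have hbig' : σ.big h1 g p = f (σ.big h1 1 z) := by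
      rw [big, hlgp, (Phi h1).left_inv hw, hgw]
    set f' : S ≃ₜ S := ρ g⁻¹ * f with hf'
    have hf'a : (σ.surg h1 h0).IsAffine mu f' := by
      have := (σ.surg_isAffine h1 h0 g⁻¹).mul hf
      rwa [one_mul] at this
    have he : f' (σ.big h1 1 z) = σ.big h1 1 p := by
      rw [hf', Homeomorph.mul_apply, ← hbig', big_smul, inv_mul_cancel]
    rcases σ.key h1 h0 hmu hf'a hz hpB hpi he with ⟨h2, h3⟩ | h2
    · have hmu1 := σ.rot h1 h0 hmu h3
      have h4 : f' = 1 := by
        rw [hmu1] at hf'a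
        have hcen : x0 α ∈ B := mem_ball_self hρ
        refine hf'a.eq_of_eq (x := σ.big h1 1 (x0 α)) TranslationStructure.isAffine_one
          ((σ.big_isSec h1 h0 1).2 _ hcen).1 ?_
        rw [h3 _ hcen, hmu1]
        simp
      apply hcon g
      rw [hf', map_inv] at h4
      rw [inv_mul_eq_one] at h4
      exact h4.symm
    · have h5 : (mu * (x0 α - z) + p).im = -(mu * (z - x0 α)).im + p.im := by
        have : mu * (x0 α - z) + p = -(mu * (z - x0 α)) + p := by ring
        rw [this, Complex.add_im, Complex.neg_im]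
      rw [h5] at h2
      linarith
  -- the disc in the half disc
  set z1 : ℂ := x0 α + mu⁻¹ * (Complex.I * (rho α / 2 : ℝ)) with hz1
  have hsub : ball z1 (rho α / 2) ⊆ B := by
    intro z hz
    rw [mem_ball] at hz
    rw [hB, mem_ball]
    have h2 : dist z1 (x0 α) = rho α / 2 := by
      rw [dist_eq_norm, hz1, add_sub_cancel_left, norm_mul, norm_mul, norm_inv, hmu, Complex.norm_I,
        Complex.norm_real, Real.norm_eq_abs, abs_of_pos (by positivity)]
      ring
    have := dist_triangle z z1 (x0 α)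
    linarith
  have hhalf : ∀ z ∈ ball z1 (rho α / 2), 0 < (mu * (z - x0 α)).im := by
    intro z hz
    rw [mem_ball, dist_eq_norm] at hz
    have h2 : mu * (z - x0 α) = mu * (z - z1) + Complex.I * (rho α / 2 : ℝ) := by
      rw [hz1]
      have h3 : mu * (z - (x0 α + mu⁻¹ * (Complex.I * (rho α / 2 : ℝ)))) =
          mu * (z - x0 α) - mu * mu⁻¹ * (Complex.I * (rho α / 2 : ℝ)) := by ring
      rw [h3, mul_inv_cancel₀ hmu0]
      ring
    have h4 : |(mu * (z - z1)).im| ≤ ‖mu * (z - z1)‖ := Complex.abs_im_le_norm _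
    rw [norm_mul, hmu, one_mul] at h4
    have h5 := abs_le.1 h4
    have h6 : (Complex.I * ((rho α / 2 : ℝ) : ℂ)).im = rho α / 2 := by
      rw [mul_comm, Complex.im_ofReal_mul, Complex.I_im, mul_one]
    rw [h2, Complex.add_im, h6]
    linarith [h5.1]
  obtain ⟨ν, hν⟩ := (σ.surg h1 h0).exists_am
  have hsec := (σ.big_isSec h1 h0 1).comp_affine isOpen_ball hf
  have hinj : InjOn (f ∘ σ.big h1 1) B := fun z hz z' hz' h =>
    σ.big_inj h1 h0 1 hz hz' (f.injective h)
  have harea := hν.image_sec' (mul_ne_zero hmu0 σ.lam_ne) isOpen_ball hsec hinj hsub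
    measurableSet_ball
  rw [norm_mul, hmu, one_mul] at harea
  have hle : ν ((f ∘ σ.big h1 1) '' ball z1 (rho α / 2)) ≤ σ.bd μ := by
    refine le_trans (measure_mono ?_) (σ.measure_compl_GF h1 h0 hμ hν)
    rintro _ ⟨z, hz, rfl⟩
    exact hno z (hsub hz) (hhalf z hz)
  rw [harea.2] at hle
  have hvol : volume (ball z1 (rho α / 2)) = volume (ball (0 : ℂ) (rho α / 2)) := by
    rw [Measure.addHaar_ball_center]
  rw [hvol] at hle
  exact absurd hle (not_le.2 hbig)

/-- For a slot in a finite area structure there is a finite area structure whose isometry group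
is exactly `G`. -/
theorem exists_structure [T2Space S] [ConnectedSpace S] [SecondCountableTopology S]
    (σ : Slot M ρ) (hfin : M.FiniteArea) :
    ∃ N : TranslationStructure S, N.FiniteArea ∧ N.Isom = ρ.range := by
  letI : MeasurableSpace S := borel S
  haveI : BorelSpace S := ⟨rfl⟩
  obtain ⟨μ, hμ, hμfin⟩ := hfin.exists_isAM
  -- choose `α` small
  have hb := σ.bd_lt_top hμfin
  have hlam : 0 < ‖σ.lam‖ ^ 2 := by
    have := norm_pos_iff.2 σ.lam_ne
    positivity
  have hlim : ∃ α : ℝ, 0 < α ∧ α < Real.pi / 2 ∧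
      σ.bd μ < ENNReal.ofReal (‖σ.lam‖ ^ 2) * volume (ball (0 : ℂ) (rho α / 2)) := by
    -- choose the radius
    obtain ⟨R, hR0, hR⟩ : ∃ R : ℝ, 1 < R ∧
        (σ.bd μ).toReal < ‖σ.lam‖ ^ 2 * R ^ 2 := by
      obtain ⟨n, hn⟩ := exists_nat_gt ((σ.bd μ).toReal / ‖σ.lam‖ ^ 2)
      refine ⟨n + 2, by linarith [n.cast_nonneg (α := ℝ)], ?_⟩
      rw [div_lt_iff₀ hlam] at hn
      have h2 : (n : ℝ) ≤ ((n : ℝ) + 2) ^ 2 := by nlinarith [n.cast_nonneg (α := ℝ)]
      nlinarith
    refine ⟨Real.arcsin (1 / (2 * R)), ?_, ?_, ?_⟩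
    · exact Real.arcsin_pos.2 (by positivity)
    · rw [Real.arcsin_lt_pi_div_two, div_lt_one (by positivity)]
      linarith
    · have h2 : rho (Real.arcsin (1 / (2 * R))) = 2 * R := by
        rw [rho, Real.sin_arcsin]
        · rw [one_div_one_div]
        · have : 0 < 1 / (2 * R) := by positivity
          linarith
        · rw [div_le_one (by positivity)]
          linarith
      rw [h2, Complex.volume_ball]
      have h3 : 2 * R / 2 = R := by ring
      rw [h3]
      have h4 : σ.bd μ = ENNReal.ofReal ((σ.bd μ).toReal) := (ENNReal.ofReal_toReal hb.ne).symm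
      rw [h4]
      have h5 : ENNReal.ofReal R ^ 2 * (NNReal.pi : ENNReal) = ENNReal.ofReal (R ^ 2 * Real.pi) := by
        rw [ENNReal.ofReal_mul (by positivity), ENNReal.ofReal_pow (by linarith)]
        congr 1
        exact (ENNReal.ofReal_eq_coe_nnreal NNReal.pi.2).symm
      rw [h5, ← ENNReal.ofReal_mul hlam.le]
      apply ENNReal.ofReal_lt_ofReal_iff'.2
      have hpi := Real.pi_gt_three
      have hR2 : 0 < R ^ 2 := by positivity
      refine ⟨?_, by positivity⟩
      nlinarith [mul_pos hlam hR2]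
  obtain ⟨α, h0, h1, hbig⟩ := hlim
  refine ⟨σ.surg h1 h0, σ.surg_finiteArea h1 h0 hμ hμfin, ?_⟩
  ext f
  constructor
  · rintro ⟨mu, hmu, hf⟩
    obtain ⟨g, rfl⟩ := σ.exact h1 h0 hμ hbig hmu hf
    exact ⟨g, rfl⟩
  · rintro ⟨g, rfl⟩
    exact ⟨1, norm_one, σ.surg_isAffine h1 h0 g⟩

end Slot

end Pool.Agent.Helper76.Flat
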