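import Pool.Agent.Helper76.Flat.OfForm
import Pool.Agent.Helper76.Flat.Compact
import Pool.Agent.Helper23.Flat.Target

set_option autoImplicit false
set_option linter.style.haveILetI false

/-!
Existence of a finite area translation structure with prescribed isometry group.
-/

open Set Topology Filter Metric MeasureTheory

namespace Pool.Agent.Helper76.Flat

variable {S : Type*} [TopologicalSpace S]

open RiemannSurfaceStructure HoloForm

/-! ### Connectedness of the complement of discs -/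

lemma isPreconnected_annulus (c : ℂ) {r R : ℝ} (hr : 0 < r) (hrR : r < R) :
    IsPreconnected (ball c R \ closedBall c r) ∧ (ball c R \ closedBall c r).Nonempty := by
  have hR : 0 < R := hr.trans hrR
  have h1 := isPathConnected_annulus_exp (Real.log_lt_log hr hrR)
  rw [Real.exp_log hr, Real.exp_log hR] at h1
  have h2 := h1.image (f := fun z => c + z) (by fun_prop)
  have h3 : (fun z => c + z) '' {z : ℂ | r < ‖z‖ ∧ ‖z‖ < R} = ball c R \ closedBall c r := by
    ext z
    simp only [mem_image, mem_ofPred_eq, Set.mem_sdiff, mem_ball, mem_closedBall, dist_eq_norm,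
      not_le]
    constructor
    · rintro ⟨w, ⟨h4, h5⟩, rfl⟩
      rw [add_sub_cancel_left]
      exact ⟨h5, h4⟩
    · rintro ⟨h4, h5⟩
      exact ⟨z - c, ⟨h5, h4⟩, by ring⟩
  rw [h3] at h2
  exact ⟨h2.isConnected.isPreconnected, h2.nonempty⟩

/-- removing a free orbit of closed discs keeps connectedness -/
lemma isPreconnected_compl_discs [T2Space S] [PreconnectedSpace S] {G : Type*} [Group G]
    [Finite G] {ρ : G →* (S ≃ₜ S)} {κ : OpenPartialHomeomorph S ℂ} {c : ℂ} {r R : ℝ} (hr : 0 < r)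
    (hrR : r < R) (hR : ball c R ⊆ κ.target)
    (hdisj : ∀ g : G, g ≠ 1 → Disjoint (ρ g '' (κ.symm '' ball c R)) (κ.symm '' ball c R)) :
    IsPreconnected (⋃ g, ρ g '' (κ.symm '' closedBall c r))ᶜ := by
  set D : Set S := κ.symm '' ball c R with hD
  set B : Set S := κ.symm '' closedBall c r with hB
  have hBsub : closedBall c r ⊆ ball c R := fun z hz => by
    rw [mem_closedBall] at hz
    rw [mem_ball]
    linarith
  have hBD : B ⊆ D := image_mono hBsub
  have hDo : IsOpen D := κ.symm.isOpen_image_of_subset_source isOpen_ball hR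
  have hDdis : ∀ g g' : G, ∀ x, x ∈ ρ g '' D → x ∈ ρ g' '' D → g = g' := by
    rintro g g' x ⟨y, hy, rfl⟩ ⟨y', hy', h⟩
    by_contra hne
    have h1 : g⁻¹ * g' ≠ 1 := fun h2 => hne (inv_mul_eq_one.1 h2)
    refine Set.disjoint_left.1 (hdisj _ h1) ⟨y', hy', rfl⟩ ?_
    rw [map_mul, map_inv, Homeomorph.mul_apply]
    show (ρ g).symm (ρ g' y') ∈ D
    rw [h, Homeomorph.symm_apply_apply]
    exact hy
  have hann : IsPreconnected (D \ B) ∧ (D \ B).Nonempty := by
    obtain ⟨h1, h2⟩ := isPreconnected_annulus c hr hrR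
    have h3 : D \ B = κ.symm '' (ball c R \ closedBall c r) := by
      ext x
      constructor
      · rintro ⟨⟨z, hz, rfl⟩, hx⟩
        exact ⟨z, ⟨hz, fun h => hx ⟨z, h, rfl⟩⟩, rfl⟩
      · rintro ⟨z, ⟨hz1, hz2⟩, rfl⟩
        refine ⟨⟨z, hz1, rfl⟩, ?_⟩
        rintro ⟨w, hw, hwz⟩
        rw [κ.symm.injOn (hR (hBsub hw)) (hR hz1) hwz] at hw
        exact hz2 hw
    rw [h3]
    exact ⟨h1.image _ (κ.continuousOn_symm.mono (sdiff_subset.trans hR)), h2.image _⟩
  set An : G → Set S := fun g => ρ g '' (D \ B) with hAn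
  have hAnc : ∀ g, IsPreconnected (An g) := fun g => hann.1.image _ (ρ g).continuous.continuousOn
  have hAnn : ∀ g, (An g).Nonempty := fun g => hann.2.image _
  set U : Set S := (⋃ g, ρ g '' B)ᶜ with hU
  have hUo : IsOpen U := by
    rw [hU, isOpen_compl_iff]
    refine isClosed_iUnion_of_finite fun g => ?_
    refine (((isCompact_closedBall c r).image_of_continuousOn ?_).image (ρ g).continuous).isClosed
    exact κ.continuousOn_symm.mono (hBsub.trans hR)
  have hAnU : ∀ g, An g ⊆ U := by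
    rintro g _ ⟨y, hy, rfl⟩ h
    obtain ⟨g', y', hy', he⟩ := mem_iUnion.1 h
    obtain rfl := hDdis g g' (ρ g y) ⟨y, hy.1, rfl⟩ ⟨y', hBD hy', he⟩
    rw [(ρ g).injective he] at hy'
    exact hy.2 hy'
  have hUD : ∀ g x, x ∈ U → x ∈ ρ g '' D → x ∈ An g := by
    rintro g _ hx ⟨y, hy, rfl⟩
    exact ⟨y, ⟨hy, fun h => hx (mem_iUnion.2 ⟨g, y, h, rfl⟩)⟩, rfl⟩
  intro u v hu hv hcov hnu hnv
  by_contra hcon
  rw [Set.not_nonempty_iff_eq_empty] at hcon
  have hnot : ∀ x, x ∈ U → x ∈ u → x ∈ v → False := by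
    intro x h1 h2 h3
    have : x ∈ U ∩ (u ∩ v) := ⟨h1, h2, h3⟩
    rw [hcon] at this
    exact this
  have hdich : ∀ g, An g ⊆ u ∨ An g ⊆ v := by
    intro g
    by_contra hh
    push Not at hh
    obtain ⟨h1, h2⟩ := hh
    obtain ⟨x, hx, hxu⟩ := Set.not_subset.1 h1
    obtain ⟨y, hy, hyv⟩ := Set.not_subset.1 h2
    have hxv : x ∈ v := (hcov (hAnU g hx)).resolve_left hxu
    have hyu : y ∈ u := (hcov (hAnU g hy)).resolve_right hyv
    obtain ⟨z, hz, hzu, hzv⟩ := hAnc g u v hu hv ((hAnU g).trans hcov) ⟨y, hy, hyu⟩ ⟨x, hx, hxv⟩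
    exact hnot z (hAnU g hz) hzu hzv
  set A : Set S := (U ∩ u) ∪ ⋃ g ∈ {g | An g ⊆ u}, ρ g '' D with hA
  set A' : Set S := (U ∩ v) ∪ ⋃ g ∈ {g | An g ⊆ v}, ρ g '' D with hA'
  have hAo : IsOpen A := (hUo.inter hu).union (isOpen_biUnion fun g _ => (ρ g).isOpenMap _ hDo)
  have hAo' : IsOpen A' := (hUo.inter hv).union (isOpen_biUnion fun g _ => (ρ g).isOpenMap _ hDo)
  have hABu : (univ : Set S) ⊆ A ∪ A' := by
    intro x _
    by_cases hxU : x ∈ U
    · rcases hcov hxU with h | h
      · left; left; exact ⟨hxU, h⟩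
      · right; left; exact ⟨hxU, h⟩
    · rw [hU, mem_compl_iff, not_not] at hxU
      obtain ⟨g, hg⟩ := mem_iUnion.1 hxU
      have hgD : x ∈ ρ g '' D := image_mono hBD hg
      rcases hdich g with h | h
      · left; right
        exact mem_biUnion (x := g) h hgD
      · right; right
        exact mem_biUnion (x := g) h hgD
  obtain ⟨x, -, hxA, hxB⟩ := (isPreconnected_univ (α := S)) A A' hAo hAo' hABu
    (by obtain ⟨x, hx⟩ := hnu; exact ⟨x, mem_univ _, Or.inl hx⟩)
    (by obtain ⟨x, hx⟩ := hnv; exact ⟨x, mem_univ _, Or.inl hx⟩)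
  rcases hxA with hxA | hxA
  · rcases hxB with hxB | hxB
    · exact hnot x hxA.1 hxA.2 hxB.2
    · simp only [mem_iUnion, exists_prop] at hxB
      obtain ⟨g, hg, hxg⟩ := hxB
      exact hnot x hxA.1 hxA.2 (hg (hUD g x hxA.1 hxg))
  · simp only [mem_iUnion, exists_prop] at hxA
    obtain ⟨g, hg, hxg⟩ := hxA
    rcases hxB with hxB | hxB
    · exact hnot x hxB.1 (hg (hUD g x hxB.1 hxg)) hxB.2
    · simp only [mem_iUnion, exists_prop] at hxB
      obtain ⟨g', hg', hxg'⟩ := hxB
      obtain rfl := hDdis g g' x hxg hxg'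
      obtain ⟨y, hy⟩ := hAnn g
      exact hnot y (hAnU g hy) (hg hy) (hg' hy)

/-! ### The identity theorem for forms -/

section ident

variable {X : RiemannSurfaceStructure S} {U : Set S} {ω : HoloForm X U}

lemma zero_dichotomy (hU : IsOpen U) {x : S} (hx : x ∈ U) : (∀ᶠ y in 𝓝 x, ω.IsZero y) ∨
    ∀ᶠ y in 𝓝 x, y ≠ x → ¬ ω.IsZero y := by
  obtain ⟨φ, hφ, hxφ⟩ := X.exists_chart x
  have hmem : φ x ∈ φ.target ∩ φ.symm ⁻¹' U := ⟨φ.map_source hxφ, by
    rw [mem_preimage, φ.left_inv hxφ]; exact hx⟩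
  have han : AnalyticAt ℂ (ω.coeff φ) (φ x) :=
    (ω.holo φ hφ).analyticAt ((isOpen_chart hU φ).mem_nhds hmem)
  rcases han.eventually_eq_zero_or_eventually_ne_zero with h | h
  · left
    filter_upwards [(φ.continuousAt hxφ).eventually h, φ.open_source.mem_nhds hxφ] with y h1 h2
    exact ⟨φ, hφ, h2, h1⟩
  · right
    have h1 := eventually_nhdsWithin_iff.1 h
    filter_upwards [(φ.continuousAt hxφ).eventually h1, φ.open_source.mem_nhds hxφ,
      hU.mem_nhds hx] with y h2 h3 h4 hyx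
    rw [isZero_iff h4 hφ h3]
    exact h2 fun h5 => hyx (φ.injOn h3 hxφ h5)

lemma not_locally_zero (hU : IsOpen U) (hUc : IsPreconnected U) {x0 : S} (hx0 : x0 ∈ U)
    (hx0z : ¬ ω.IsZero x0) {x : S} (hx : x ∈ U) : ¬ ∀ᶠ y in 𝓝 x, ω.IsZero y := by
  intro hxz
  set A : Set S := {x | ∀ᶠ y in 𝓝 x, ω.IsZero y} with hA
  have hAo : IsOpen A := by
    rw [isOpen_iff_mem_nhds]
    intro y hy
    exact eventually_eventually_nhds.2 hy
  have hsub : U ⊆ A := by
    refine hUc.subset_of_closure_inter_subset hAo ⟨x, hx, hxz⟩ ?_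
    rintro y ⟨hy, hyU⟩
    rcases zero_dichotomy (ω := ω) hU hyU with h | h
    · exact h
    · obtain ⟨z, hz1, hz2⟩ := mem_closure_iff_nhds.1 hy _ h
      by_cases hzy : z = y
      · rwa [hzy] at hz2
      · exact absurd hz2.self_of_nhds (hz1 hzy)
  exact hx0z (hsub hx0).self_of_nhds

end ident

/-! ### The existence theorem -/

theorem exists_structure_of_action [T2Space S] [ConnectedSpace S] [SecondCountableTopology S]
    (hinf : InfiniteType S) (X : RiemannSurfaceStructure S) {G : Type*} [Group G] [Finite G]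
    (ρ : G →* (S ≃ₜ S)) (hinj : Function.Injective ρ) (hρ : ∀ g, X.IsHolomorphic (ρ g)) :
    ∃ N : TranslationStructure S, N.FiniteArea ∧ N.Isom = ρ.range := by
  have hch : ∀ x : S, ∃ φ : OpenPartialHomeomorph S ℂ, x ∈ φ.source := fun x => by
    obtain ⟨φ, -, h⟩ := X.exists_chart x
    exact ⟨φ, h⟩
  haveI := locallyPathConnectedSpace_of_charts hch
  haveI := locallyCompactSpace_of_charts hch
  haveI : LocallyConnectedSpace S := inferInstance
  haveI : NoncompactSpace S := by
    rw [← not_compactSpace_iff]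
    intro hc
    obtain ⟨x0, hx0⟩ := hinf
    exact hx0 (fg_of_compact hch x0)
  letI : MeasurableSpace S := borel S
  haveI : BorelSpace S := ⟨rfl⟩
  have hZ := isolatedCharted_fixSet hρ hinj
  -- the disc
  obtain ⟨p, hp⟩ : ∃ p, p ∉ fixSet ρ := hZ.dense_compl.nonempty
  obtain ⟨κ, hκ, hpκ⟩ := X.exists_chart p
  obtain ⟨V, hVo, hpV, hV⟩ := exists_free_nhds hp
  set c := κ p with hc
  have hn : κ.symm ⁻¹' (V ∩ (fixSet ρ)ᶜ) ∩ κ.target ∈ 𝓝 c := by
    refine inter_mem ?_ (κ.open_target.mem_nhds (κ.map_source hpκ))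
    refine (κ.continuousAt_symm (κ.map_source hpκ)).preimage_mem_nhds ?_
    rw [κ.left_inv hpκ]
    exact inter_mem (hVo.mem_nhds hpV) (hZ.1.isOpen_compl.mem_nhds hp)
  obtain ⟨R', hR', hb⟩ := Metric.mem_nhds_iff.1 hn
  have hbt : ball c R' ⊆ κ.target := fun z hz => (hb hz).2
  have hbV : κ.symm '' ball c R' ⊆ V := by
    rintro _ ⟨z, hz, rfl⟩
    exact (hb hz).1.1
  have hbZ : κ.symm '' ball c R' ⊆ (fixSet ρ)ᶜ := by
    rintro _ ⟨z, hz, rfl⟩
    exact (hb hz).1.2
  have hfree : ∀ g : G, g ≠ 1 → Disjoint (ρ g '' (κ.symm '' ball c R')) (κ.symm '' ball c R') :=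
    fun g hg => (hV g hg).mono (image_mono hbV) hbV
  set R := 2 * R' / 3 with hR
  set r := R' / 3 with hr
  have hr0 : 0 < r := by positivity
  have hrR : r < R := by rw [hr, hR]; linarith
  have hRR' : R < R' := by rw [hR]; linarith
  have hcR : closedBall c R ⊆ ball c R' := fun z hz => by
    rw [mem_closedBall] at hz
    rw [mem_ball]
    linarith
  have hcr : closedBall c r ⊆ ball c R := fun z hz => by
    rw [mem_closedBall] at hz
    rw [mem_ball]
    linarith
  -- push off
  have hs := discChart_source κ c hR' hbt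
  have hu0 : FreeDisc ρ (discChart κ c R') := ⟨discChart_target κ c hR' hbt, by
    rw [hs]; exact hfree⟩
  set C : Set S := κ.symm '' closedBall c R with hC
  have hCc : IsCompact C :=
    (isCompact_closedBall c R).image_of_continuousOn (κ.continuousOn_symm.mono (hcR.trans hbt))
  obtain ⟨e, he, hequi, hmiss⟩ := exists_pushOff hZ
    (fun x hx W hW => exists_freeDisc hch hx hW) hu0 (by rw [hs]; exact hbZ) hCc
    (by rw [hs]; exact image_mono hcR)
  -- the form
  have hform := Pool.Agent.Helper23.Flat.exists_holoForm X ρ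
    hρ hκ c hr0 hrR (hcR.trans hbt) (fun g hg => (hfree g hg).mono
      (image_mono (image_mono hcR)) (image_mono hcR))
  set U : Set S := (⋃ g, ρ g '' (κ.symm '' closedBall c r))ᶜ with hU
  obtain ⟨ω, hinv, hL2, x1, hx1, φ1, hφ1, hx1φ, hnz1⟩ := hform
  have hUo : IsOpen U := by
    rw [hU, isOpen_compl_iff]
    refine isClosed_iUnion_of_finite fun g => ?_
    refine (((isCompact_closedBall c r).image_of_continuousOn ?_).image (ρ g).continuous).isClosed
    exact κ.continuousOn_symm.mono (hcr.trans (ball_subset_closedBall.trans (hcR.trans hbt)))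
  have hUc : IsPreconnected U := isPreconnected_compl_discs hr0 (hrR.trans hRR') hbt hfree
  have hx1z : ¬ ω.IsZero x1 := by
    rw [isZero_iff hx1 hφ1 hx1φ]
    exact hnz1
  have hnzU : ∀ x ∈ U, ¬ ∀ᶠ y in 𝓝 x, ω.IsZero y := fun x hx =>
    not_locally_zero hUo hUc hx1 hx1z hx
  have heU : ∀ x, e x ∈ U := by
    intro x hx
    obtain ⟨g, hg⟩ := mem_iUnion.1 hx
    exact hmiss x g (image_mono (image_mono (hcr.trans ball_subset_closedBall)) hg)
  -- the closure of the range avoids the open discs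
  set D : Set S := ⋃ g, ρ g '' (κ.symm '' ball c R) with hD
  have hDo : IsOpen D := isOpen_iUnion fun g => (ρ g).isOpenMap _
    (κ.symm.isOpen_image_of_subset_source isOpen_ball
      (ball_subset_closedBall.trans (hcR.trans hbt)))
  have hclD : closure (range e) ⊆ Dᶜ := by
    refine closure_minimal ?_ hDo.isClosed_compl
    rintro _ ⟨x, rfl⟩ hx
    obtain ⟨g, hg⟩ := mem_iUnion.1 hx
    exact hmiss x g (image_mono (image_mono ball_subset_closedBall) hg)
  have hclU : closure (range e) ⊆ U := by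
    intro x hx hx'
    apply hclD hx
    obtain ⟨g, hg⟩ := mem_iUnion.1 hx'
    exact mem_iUnion.2 ⟨g, image_mono (image_mono hcr) hg⟩
  -- a good frontier point
  obtain ⟨a0, ha0f, ha0⟩ : ∃ a0 ∈ frontier (range e), a0 ∉ fixSet ρ ∧ ¬ ω.IsZero a0 := by
    by_contra hcon
    push Not at hcon
    have hP : IsolatedCharted (frontier (range e)) := by
      refine ⟨isClosed_frontier, fun a ha => ⟨?_, hch a⟩⟩
      have haU : a ∈ U := hclU ha.1
      have h1 : ∀ᶠ y in 𝓝 a, y ≠ a → ¬ ω.IsZero y :=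
        (zero_dichotomy (ω := ω) hUo haU).resolve_left (hnzU a haU)
      have h2 : ∀ᶠ y in 𝓝 a, y ≠ a → y ∉ fixSet ρ := by
        by_cases haZ : a ∈ fixSet ρ
        · obtain ⟨W, hW, hWZ⟩ := (hZ.2 a haZ).1
          filter_upwards [hW] with y hy hya hyZ
          have : y ∈ W ∩ fixSet ρ := ⟨hy, hyZ⟩
          rw [hWZ] at this
          exact hya this
        · filter_upwards [hZ.1.isOpen_compl.mem_nhds haZ] with y hy _
          exact hy
      refine ⟨{y | (y ≠ a → ¬ ω.IsZero y) ∧ (y ≠ a → y ∉ fixSet ρ)}, h1.and h2, ?_⟩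
      ext y
      constructor
      · rintro ⟨⟨h3, h4⟩, hy⟩
        by_contra hya
        exact h3 hya (hcon y hy (h4 hya))
      · intro hy
        rw [mem_singleton_iff] at hy
        subst hy
        exact ⟨⟨fun h => absurd rfl h, fun h => absurd rfl h⟩, ha⟩
    have hPc := hP.isPreconnected_compl
    have hsub : (frontier (range e))ᶜ ⊆ range e ∪ (closure (range e))ᶜ := by
      intro x hx
      by_cases h : x ∈ closure (range e)
      · left
        by_contra h2
        apply hx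
        rw [he.isOpen_range.frontier_eq]
        exact ⟨h, h2⟩
      · exact Or.inr h
    have hne1 : ((frontier (range e))ᶜ ∩ range e).Nonempty := by
      refine ⟨e p, ?_, ⟨p, rfl⟩⟩
      rw [he.isOpen_range.frontier_eq]
      exact fun h => h.2 ⟨p, rfl⟩
    have hpD : p ∈ D := by
      refine mem_iUnion.2 ⟨1, p, ⟨c, mem_ball_self (by positivity), κ.left_inv hpκ⟩, ?_⟩
      rw [map_one]; rfl
    have hpcl : p ∉ closure (range e) := fun h => hclD h hpD
    have hne2 : ((frontier (range e))ᶜ ∩ (closure (range e))ᶜ).Nonempty :=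
      ⟨p, fun h => hpcl h.1, hpcl⟩
    obtain ⟨x, -, hx1, hx2⟩ := hPc _ _ he.isOpen_range isClosed_closure.isOpen_compl hsub hne1 hne2
    exact hx2 (subset_closure hx1)
  -- assembly
  obtain ⟨σ⟩ := exists_slot (hU := hUo) (he := he) (heU := heU)
    (hnz := fun x => hnzU _ (heU x)) hρ hinv hequi (hclU ha0f.1) ha0.2 ha0f ha0.1
  exact σ.exists_structure (pull_finiteArea hL2)

end Pool.Agent.Helper76.Flat
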