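import Pool.Agent.Helper76.Flat.Defs

set_option autoImplicit false

/-!
Holomorphic 1-forms on open subsets of a Riemann surface.
-/

open Set Topology MeasureTheory Filter Metric

namespace Pool.Agent.Helper76.Flat

variable {S : Type*} [TopologicalSpace S]

/-- A holomorphic 1-form on `U`: its coefficient `coeff φ` in each chart `φ` is holomorphic on
`φ (U ∩ φ.source)`, and the coefficients transform like those of a 1-form. -/
structure HoloForm (X : RiemannSurfaceStructure S) (U : Set S) where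
  coeff : OpenPartialHomeomorph S ℂ → ℂ → ℂ
  holo : ∀ φ ∈ X.charts, DifferentiableOn ℂ (coeff φ) (φ.target ∩ φ.symm ⁻¹' U)
  trans : ∀ φ ∈ X.charts, ∀ ψ ∈ X.charts, ∀ x ∈ U, x ∈ φ.source → x ∈ ψ.source →
    coeff φ (φ x) = coeff ψ (ψ x) * deriv (ψ ∘ φ.symm) (φ x)

/-- invariance of a form under a holomorphic map -/
def HoloForm.Invariant {X : RiemannSurfaceStructure S} {U : Set S} (ω : HoloForm X U)
    (f : S → S) : Prop :=
  ∀ φ ∈ X.charts, ∀ ψ ∈ X.charts, ∀ x ∈ U, f x ∈ U → x ∈ φ.source → f x ∈ ψ.source →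
    ω.coeff φ (φ x) = ω.coeff ψ (ψ (f x)) * deriv (ψ ∘ f ∘ φ.symm) (φ x)

/-- the `L²` norm of the form on `U` is finite -/
def HoloForm.IsL2 [MeasurableSpace S] {X : RiemannSurfaceStructure S} {U : Set S}
    (ω : HoloForm X U) : Prop :=
  ∃ μ : Measure S, (∀ φ ∈ X.charts, ∀ W : Set S, W ⊆ φ.source ∩ U → MeasurableSet W →
    μ W = ∫⁻ z in φ '' W, ‖ω.coeff φ z‖ₑ ^ 2) ∧ μ U < ⊤

/- TARGET (helper23): the `L²` harmonic projection.

theorem exists_holoForm [T2Space S] [SecondCountableTopology S] [MeasurableSpace S] [BorelSpace S]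
    (X : RiemannSurfaceStructure S) {G : Type*} [Group G] [Finite G] (ρ : G →* (S ≃ₜ S))
    (hρ : ∀ g, X.IsHolomorphic (ρ g)) {κ : OpenPartialHomeomorph S ℂ} (hκ : κ ∈ X.charts)
    (c : ℂ) {r R : ℝ} (hr : 0 < r) (hrR : r < R) (hR : closedBall c R ⊆ κ.target)
    (hdisj : ∀ g : G, g ≠ 1 →
      Disjoint (ρ g '' (κ.symm '' closedBall c R)) (κ.symm '' closedBall c R)) :
    ∃ ω : HoloForm X (⋃ g, ρ g '' (κ.symm '' closedBall c r))ᶜ,
      (∀ g, ω.Invariant (ρ g)) ∧ ω.IsL2 ∧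
      ∃ x ∈ (⋃ g, ρ g '' (κ.symm '' closedBall c r))ᶜ, ∃ φ ∈ X.charts, x ∈ φ.source ∧
        ω.coeff φ (φ x) ≠ 0
-/

end Pool.Agent.Helper76.Flat
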