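import Pool.Agent.Helper76.Flat.Cover

set_option autoImplicit false
set_option linter.style.haveILetI false

/-!
Path lifting to the maximal strip and finite generation of the fundamental group.
-/

open Set Topology MeasureTheory Filter Metric ComplexConjugate unitInterval

namespace Pool.Agent.Helper76.Flat

namespace TranslationStructure

variable {S : Type*} [TopologicalSpace S] {M : TranslationStructure S}

namespace MaxStrip

variable {u : ℂ} {x0 : S}

lemma path_lift [T2Space S] (hu : u ≠ 0) (W : MaxStrip M u x0)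
    (hall : ∀ y : S, ∃ ε > 0, ∃ F : ℂ → S, M.IsSec u {z | |z.im| < ε} F ∧ F 0 = y)
    (p : I → S) (hp : Continuous p) (hp0 : p 0 = x0) :
    ∃ γ : I → ℂ, Continuous γ ∧ (∀ t, γ t ∈ W.Ω) ∧ γ 0 = 0 ∧ ∀ t, W.E (γ t) = p t := by
  classical
  choose ε hε F hF hF0 using hall
  have hopen : ∀ y, IsOpen {z : ℂ | |z.im| < ε y} := fun y =>
    isOpen_lt (by fun_prop) continuous_const
  have hinj : ∀ y, ∃ ρ > 0, ball (0 : ℂ) ρ ⊆ {z : ℂ | |z.im| < ε y} ∧ InjOn (F y) (ball 0 ρ) :=
    fun y => (hF y).injOn_nhds hu (hopen y) (by simpa using hε y)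
  choose ρ hρ hρs hρi using hinj
  have hc : ∀ y, IsOpen (p ⁻¹' (F y '' ball 0 (ρ y))) := fun y =>
    ((hF y).isOpen_image hu (hopen y) isOpen_ball (hρs y)).preimage hp
  have hcov : univ ⊆ ⋃ y, p ⁻¹' (F y '' ball 0 (ρ y)) := by
    intro t _
    exact mem_iUnion.2 ⟨p t, ⟨0, mem_ball_self (hρ _), hF0 _⟩⟩
  obtain ⟨t, ht0, htm, ⟨n, hn⟩, hsub⟩ := exists_monotone_Icc_subset_open_cover_unitInterval hc hcov
  have key : ∀ m : ℕ, ∃ γ : I → ℂ, ContinuousOn γ (Icc 0 (t m)) ∧ (∀ s ∈ Icc 0 (t m), γ s ∈ W.Ω) ∧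
      γ 0 = 0 ∧ ∀ s ∈ Icc 0 (t m), W.E (γ s) = p s := by
    intro m
    induction m with
    | zero =>
      refine ⟨fun _ => 0, continuousOn_const, fun _ _ => W.zero_mem, rfl, ?_⟩
      intro s hs
      rw [ht0, Icc_self, mem_singleton_iff] at hs
      rw [W.map_zero, hs, hp0]
    | succ m ih =>
      obtain ⟨γ, hγc, hγΩ, hγ0, hγE⟩ := ih
      obtain ⟨y, hy⟩ := hsub m
      have htm' : t m ≤ t (m + 1) := htm (Nat.le_succ m)
      have hinvc : ContinuousOn ((hF y).mono (hρs y) |>.oph hu isOpen_ball (hρi y)).symm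
          (F y '' ball 0 (ρ y)) :=
        ((hF y).mono (hρs y) |>.oph hu isOpen_ball (hρi y)).continuousOn_symm
      set inv : S → ℂ := ⇑((hF y).mono (hρs y) |>.oph hu isOpen_ball (hρi y)).symm with hinv
      have hinvr : ∀ x ∈ F y '' ball 0 (ρ y), F y (inv x) = x := fun x hx =>
        ((hF y).mono (hρs y) |>.oph hu isOpen_ball (hρi y)).right_inv hx
      have hinvm : ∀ x ∈ F y '' ball 0 (ρ y), inv x ∈ ball (0 : ℂ) (ρ y) := fun x hx =>
        ((hF y).mono (hρs y) |>.oph hu isOpen_ball (hρi y)).map_target hx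
      have htm0 : t m ∈ Icc 0 (t m) := ⟨bot_le, le_rfl⟩
      have hpm : p (t m) ∈ F y '' ball 0 (ρ y) := hy ⟨le_rfl, htm'⟩
      set z := γ (t m) with hz
      set w := inv (p (t m)) with hw
      have hzw : W.E z = F y w := by rw [hz, hγE _ htm0, hw, hinvr _ hpm]
      have hwε : |w.im| < ε y := hρs y (hinvm _ hpm)
      set γ' : I → ℂ := fun s => if s ≤ t m then γ s else z + (inv (p s) - w) with hγ'
      have hext : ∀ s ∈ Icc (t m) (t (m + 1)), z + (inv (p s) - w) ∈ W.Ω ∧
          W.E (z + (inv (p s) - w)) = p s := by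
        intro s hs
        have hps : p s ∈ F y '' ball 0 (ρ y) := hy hs
        have h1 := W.extend (hF y) (hγΩ _ htm0) hwε hzw (ζ := inv (p s) - w) (by
          rw [add_sub_cancel]
          exact hρs y (hinvm _ hps))
        rw [add_sub_cancel, hinvr _ hps] at h1
        exact h1
      have hIcc : Icc 0 (t (m + 1)) = Icc 0 (t m) ∪ Icc (t m) (t (m + 1)) :=
        (Icc_union_Icc_eq_Icc bot_le htm').symm
      have hE1 : EqOn γ' γ (Icc 0 (t m)) := fun s hs => by
        simp only [hγ', if_pos hs.2]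
      have hE2 : EqOn γ' (fun s => z + (inv (p s) - w)) (Icc (t m) (t (m + 1))) := by
        intro s hs
        rcases eq_or_lt_of_le hs.1 with h | h
        · simp only [hγ', ← h, le_refl, if_true]
          rw [← hw]; ring
        · simp only [hγ', if_neg (not_le.2 h)]
      refine ⟨γ', ?_, ?_, ?_, ?_⟩
      · rw [hIcc]
        refine ContinuousOn.union_of_isClosed (hγc.congr hE1) ?_ isClosed_Icc isClosed_Icc
        refine ContinuousOn.congr ?_ hE2
        refine continuousOn_const.add (ContinuousOn.sub ?_ continuousOn_const)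
        exact hinvc.comp hp.continuousOn hy
      · rw [hIcc]
        rintro s (hs | hs)
        · rw [hE1 hs]; exact hγΩ s hs
        · rw [hE2 hs]; exact (hext s hs).1
      · rw [hE1 ⟨le_rfl, bot_le⟩, hγ0]
      · rw [hIcc]
        rintro s (hs | hs)
        · rw [hE1 hs]; exact hγE s hs
        · rw [hE2 hs]; exact (hext s hs).2
  obtain ⟨γ, hγc, hγΩ, hγ0, hγE⟩ := key n
  have h1 : Icc (0 : I) (t n) = univ := by
    rw [hn n le_rfl]
    ext s
    simp only [mem_Icc, mem_univ, iff_true]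
    exact ⟨bot_le, le_top⟩
  rw [h1] at hγc hγΩ hγE
  exact ⟨γ, continuousOn_univ.1 hγc, fun s => hγΩ s (mem_univ s), hγ0, fun s => hγE s (mem_univ s)⟩

/-- the fibre of the base point is a discrete group of translations -/
noncomputable def Γ [T2Space S] (W : MaxStrip M u x0) : AddSubgroup ℂ where
  carrier := {b | b ∈ W.Ω ∧ W.E b = x0}
  zero_mem' := ⟨W.zero_mem, W.map_zero⟩
  add_mem' := by
    rintro a b ⟨ha, hax⟩ ⟨hb, hbx⟩
    have h1 := W.period_mem hb hbx ha
    exact ⟨h1, by rw [(W.period hb hbx).2 a ha h1, hax]⟩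
  neg_mem' := by
    rintro b ⟨hb, hbx⟩
    exact (W.period hb hbx).1

lemma mem_Γ [T2Space S] (W : MaxStrip M u x0) {b : ℂ} : b ∈ W.Γ ↔ b ∈ W.Ω ∧ W.E b = x0 := Iff.rfl

lemma fg_Γ [T2Space S] (hu : u ≠ 0) (W : MaxStrip M u x0) : AddGroup.FG W.Γ := by
  obtain ⟨r, hr, hrs, hri⟩ := W.isSec.injOn_nhds hu W.isOpen W.zero_mem
  have hdisc : DiscreteTopology W.Γ := by
    rw [discreteTopology_iff_isOpen_singleton_zero]
    have h1 : ({0} : Set W.Γ) = Subtype.val ⁻¹' ball (0 : ℂ) r := by
      ext b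
      simp only [mem_singleton_iff, mem_preimage]
      constructor
      · rintro rfl
        exact mem_ball_self hr
      · intro hb
        apply Subtype.ext
        exact hri hb (mem_ball_self hr) (b.2.2.trans W.map_zero.symm)
    rw [h1]
    exact isOpen_ball.preimage continuous_subtype_val
  set L : Submodule ℤ ℂ := AddSubgroup.toIntSubmodule W.Γ with hL
  haveI : DiscreteTopology L := hdisc
  have h2 : Module.Finite ℤ L := inferInstance
  exact Module.Finite.iff_addGroup_fg.1 h2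

lemma fg_fundamentalGroup [T2Space S] (hu : u ≠ 0) (W : MaxStrip M u x0)
    (hall : ∀ y : S, ∃ ε > 0, ∃ F : ℂ → S, M.IsSec u {z | |z.im| < ε} F ∧ F 0 = y) :
    Group.FG (FundamentalGroup S x0) := by
  classical
  have hsegΩ : ∀ b ∈ W.Ω, ∀ t : I, (t : ℝ) • b ∈ W.Ω := by
    intro b hb t
    have := W.convex W.zero_mem hb (a := 1 - (t : ℝ)) (b := t) (by linarith [t.2.2]) t.2.1 (by ring)
    simpa using this
  -- the loop attached to a fibre point
  let loop : W.Γ → Path x0 x0 := fun b =>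
    { toFun := fun t => W.E ((t : ℝ) • (b : ℂ))
      continuous_toFun := W.isSec.1.comp_continuous (by fun_prop) (fun t => hsegΩ _ b.2.1 t)
      source' := by simp [W.map_zero]
      target' := by simp [b.2.2] }
  have hone : (Path.Homotopic.Quotient.mk (loop 0) : Path.Homotopic.Quotient x0 x0) =
      Path.Homotopic.Quotient.refl x0 := by
    rw [← Path.Homotopic.Quotient.mk_refl]
    congr 1
    ext t
    show W.E ((t : ℝ) • ((0 : W.Γ) : ℂ)) = x0
    simp [W.map_zero]
  have hmul : ∀ a b : W.Γ, (loop (a + b)).Homotopic ((loop b).trans (loop a)) := by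
    intro a b
    refine homotopic_of_convex W.convex W.isSec.1 _ _ (fun t => (t : ℝ) • ((a : ℂ) + b))
      (fun t => if (t : ℝ) ≤ 1 / 2 then (2 * (t : ℝ)) • (b : ℂ) else
        (2 * (t : ℝ) - 1) • (a : ℂ) + b) (by fun_prop) ?_ ?_ ?_ ?_ ?_ ?_ ?_
    · refine Continuous.if_le (by fun_prop) (by fun_prop) (by fun_prop) (by fun_prop) ?_
      intro t ht
      rw [ht]
      norm_num
    · intro t
      exact hsegΩ _ (a + b).2.1 t
    · intro t
      split_ifs with h
      · exact hsegΩ _ b.2.1 ⟨2 * t, by linarith [t.2.1], by linarith⟩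
      · exact W.period_mem b.2.1 b.2.2
          (hsegΩ _ a.2.1 ⟨2 * t - 1, by linarith, by linarith [t.2.2]⟩)
    · intro t
      rfl
    · intro t
      rw [Path.trans_apply]
      split_ifs with h
      · rfl
      · have h1 := hsegΩ _ a.2.1 ⟨2 * t - 1, by linarith, by linarith [t.2.2]⟩
        exact ((W.period b.2.1 b.2.2).2 _ h1 (W.period_mem b.2.1 b.2.2 h1)).symm
    · simp
    · norm_num
  let f : Multiplicative W.Γ →* FundamentalGroup S x0 :=
    { toFun := fun b => (Path.Homotopic.Quotient.mk (loop (Multiplicative.toAdd b)))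
      map_one' := hone
      map_mul' := fun a b => Path.Homotopic.Quotient.eq.2 (hmul _ _) }
  haveI := W.fg_Γ hu
  haveI : Group.FG (Multiplicative W.Γ) := inferInstance
  refine Group.fg_of_surjective (f := f) ?_
  intro q
  obtain ⟨p, rfl⟩ := Path.Homotopic.Quotient.mk_surjective q
  obtain ⟨γ, hγc, hγΩ, hγ0, hγE⟩ := W.path_lift hu hall p p.continuous p.source
  have hb : γ 1 ∈ W.Γ := ⟨hγΩ 1, by rw [hγE 1, p.target]⟩
  refine ⟨Multiplicative.ofAdd ⟨γ 1, hb⟩, ?_⟩
  refine Path.Homotopic.Quotient.eq.2 ?_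
  refine homotopic_of_convex W.convex W.isSec.1 _ _ (fun t => (t : ℝ) • γ 1) γ (by fun_prop) hγc
    ?_ hγΩ ?_ (fun t => (hγE t).symm) (by simp [hγ0]) (by simp)
  · intro t
    exact hsegΩ _ (hγΩ 1) t
  · intro t
    rfl

end MaxStrip

/-- Small nontrivial translations converging to the identity force a finitely generated
fundamental group. -/
theorem fg_of_small_translations [T2Space S] [ConnectedSpace S] {t : ℕ → S ≃ₜ S}
    (haff : ∀ k, M.IsAffine 1 (t k)) (hne : ∀ k, t k ≠ 1) {x0 : S} (hx0 : x0 ∉ M.sing)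
    (hpt : Tendsto (fun k => t k x0) atTop (𝓝 x0)) (x : S) :
    Group.FG (FundamentalGroup S x) := by
  obtain ⟨u, hu, hstrip⟩ := exists_strip haff hne hx0 hpt
  have hs := sing_eq_empty_of_strip hu hstrip
  have hall : ∀ y : S, ∃ ε > 0, ∃ F : ℂ → S, M.IsSec u {z | |z.im| < ε} F ∧ F 0 = y :=
    fun y => hstrip y (by rw [hs]; exact notMem_empty y)
  obtain ⟨W⟩ := exists_maxStrip (hall x)
  exact W.fg_fundamentalGroup (by rintro rfl; simp at hu) hall

end TranslationStructure

end Pool.Agent.Helper76.Flat
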