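import Pool.Agent.Helper76.Flat.Area

set_option autoImplicit false
set_option linter.style.haveILetI false

/-!
Finite area and infinitely many isometries: nontrivial isometries near the identity.
-/

open Set Topology MeasureTheory Filter Metric

namespace Pool.Agent.Helper76.Flat

namespace TranslationStructure

variable {S : Type*} [TopologicalSpace S] {M : TranslationStructure S}

lemma convex_ball_inter_preimage (lam b : ℂ) (r r' : ℝ) (c c' : ℂ) :
    Convex ℝ (ball c r ∩ (fun z : ℂ => lam * z + b) ⁻¹' ball c' r') := by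
  refine (convex_ball c r).inter ?_
  intro x hx y hy s t hs ht hst
  have h1 := (convex_ball c' r') hx hy hs ht hst
  have h2 : lam * (s • x + t • y) + b = s • (lam * x + b) + t • (lam * y + b) := by
    have h3 : ((s : ℂ) + t) = 1 := by rw [← Complex.ofReal_add, hst, Complex.ofReal_one]
    simp only [Complex.real_smul]
    linear_combination b * (-h3)
  show lam * (s • x + t • y) + b ∈ ball c' r'
  rw [h2]
  exact h1

/-- local formula of an affine map in a section disc -/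
lemma IsAffine.local_formula [T2Space S] {lam : ℂ} {r : ℝ} {E : ℂ → S}
    (hE : M.IsSec 1 (ball 0 r) E) {f : S ≃ₜ S} (hf : M.IsAffine lam f) {z1 w1 : ℂ}
    (hz1 : z1 ∈ ball (0 : ℂ) r) (hw1 : w1 ∈ ball (0 : ℂ) r) (he : f (E z1) = E w1) {z : ℂ}
    (hz : z ∈ ball (0 : ℂ) r) (hz' : lam * z + (w1 - lam * z1) ∈ ball (0 : ℂ) r) :
    f (E z) = E (lam * z + (w1 - lam * z1)) := by
  have h1 := hE.comp_affine isOpen_ball hf
  have h2 := hE.comp_mul_add (a := lam) (b := w1 - lam * z1)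
  rw [mul_one] at h1
  rw [one_mul] at h2
  set U := ball (0 : ℂ) r ∩ (fun z : ℂ => lam * z + (w1 - lam * z1)) ⁻¹' ball 0 r with hU
  have hUo : IsOpen U := isOpen_ball.inter (isOpen_ball.preimage (by fun_prop))
  have h3 := (h1.mono (V := U) inter_subset_left).eqOn hUo
    (convex_ball_inter_preimage _ _ _ _ _ _).isPreconnected (h2.mono inter_subset_right)
    (z0 := z1) ⟨hz1, by simpa using hw1⟩ (by simp [he])
  exact h3 ⟨hz, hz'⟩

lemma exists_near_id [T2Space S] [ConnectedSpace S] (hfin : M.FiniteArea)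
    (hinf : Infinite M.Isom) {r : ℝ} (hr : 0 < r) {E : ℂ → S} (hE : M.IsSec 1 (ball 0 r) E)
    (hinj : InjOn E (ball 0 r)) {ε : ℝ} (hε : 0 < ε) :
    ∃ f : S ≃ₜ S, f ≠ 1 ∧ ∃ lam : ℂ, ‖lam‖ = 1 ∧ M.IsAffine lam f ∧ ‖lam - 1‖ < ε ∧
      ∃ c : ℂ, ‖c‖ < ε ∧ ‖c‖ < r ∧ f (E 0) = E c := by
  letI : MeasurableSpace S := borel S
  haveI : BorelSpace S := ⟨rfl⟩
  obtain ⟨μ, hμ, hμf⟩ := hfin
  have hμ' : M.IsAM μ := hμ
  choose lam hlam haff using fun f : M.Isom => f.2
  obtain ⟨t, ht, hcov⟩ := Metric.totallyBounded_iff.1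
    (isCompact_sphere (0 : ℂ) 1).totallyBounded (ε / 2) (by positivity)
  have hy : ∀ f : M.Isom, ∃ y ∈ t, lam f ∈ ball y (ε / 2) := by
    intro f
    have h1 := hcov (show lam f ∈ sphere (0 : ℂ) 1 by simpa using hlam f)
    simpa using h1
  choose y hyt hyb using hy
  haveI : Finite t := ht
  obtain ⟨⟨y0, hy0⟩, hinf'⟩ := Finite.exists_infinite_fiber (fun f : M.Isom => (⟨y f, hyt f⟩ : t))
  set F : Set M.Isom := (fun f : M.Isom => (⟨y f, hyt f⟩ : t)) ⁻¹' {⟨y0, hy0⟩} with hF
  have hFy : ∀ f : F, y f.1 = y0 := by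
    intro f
    have h1 : (⟨y f.1, hyt f.1⟩ : t) = ⟨y0, hy0⟩ := f.2
    exact congrArg Subtype.val h1
  set ρ : ℝ := min ε r / 4 with hρ
  have hmin : 0 < min ε r := lt_min hε hr
  have hρ0 : 0 < ρ := by positivity
  have hρε : 4 * ρ ≤ ε := by rw [hρ]; linarith [min_le_left ε r]
  have hρr : 4 * ρ ≤ r := by rw [hρ]; linarith [min_le_right ε r]
  have hsub : ball (0 : ℂ) ρ ⊆ ball 0 r := ball_subset_ball (by linarith)
  have hmeas : ∀ f : F, MeasurableSet ((f.1.1 ∘ E) '' ball (0 : ℂ) ρ) ∧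
      μ ((f.1.1 ∘ E) '' ball (0 : ℂ) ρ) = volume (ball (0 : ℂ) ρ) := by
    intro f
    refine hμ'.image_sec (lam := lam f.1) (hlam f.1) isOpen_ball ?_ ?_ hsub measurableSet_ball
    · have := hE.comp_affine isOpen_ball (haff f.1)
      rwa [mul_one] at this
    · intro a ha b hb hab
      exact hinj ha hb (f.1.1.injective hab)
  have hlt : μ univ < ∑' f : F, μ ((f.1.1 ∘ E) '' ball (0 : ℂ) ρ) := by
    simp_rw [fun f => (hmeas f).2]
    rw [ENNReal.tsum_const_eq_top_of_ne_zero]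
    · exact hμf
    · exact (measure_ball_pos volume _ hρ0).ne'
  obtain ⟨f, g, hfg, x, ⟨z, hz, hzx⟩, ⟨w, hw, hwx⟩⟩ :=
    exists_nonempty_inter_of_measure_univ_lt_tsum_measure μ (fun f => (hmeas f).1.nullMeasurableSet) hlt
  have hne : (g.1.1)⁻¹ * f.1.1 ≠ 1 := by
    intro h
    apply hfg
    apply Subtype.ext
    apply Subtype.ext
    have := inv_mul_eq_one.1 h
    exact this.symm
  have hg0 : lam g.1 ≠ 0 := by
    intro h
    have := hlam g.1
    rw [h] at this
    simp at this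
  have haffh := (haff g.1).inv hg0 |>.mul (haff f.1)
  have hval : ((g.1.1)⁻¹ * f.1.1 : S ≃ₜ S) (E z) = E w := by
    rw [Homeomorph.mul_apply]
    have h1 : f.1.1 (E z) = g.1.1 (E w) := by
      simp only [Function.comp_apply] at hzx hwx
      rw [hzx, hwx]
    rw [h1]
    exact g.1.1.symm_apply_apply (E w)
  set l := (lam g.1)⁻¹ * lam f.1 with hl
  have hl1 : ‖l‖ = 1 := by rw [hl, norm_mul, norm_inv, hlam, hlam]; norm_num
  have hb : ‖w - l * z‖ < 2 * ρ := by
    have h1 : ‖w‖ < ρ := by simpa using hw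
    have h2 : ‖z‖ < ρ := by simpa using hz
    calc ‖w - l * z‖ ≤ ‖w‖ + ‖l * z‖ := norm_sub_le _ _
      _ = ‖w‖ + ‖z‖ := by rw [norm_mul, hl1, one_mul]
      _ < 2 * ρ := by linarith
  refine ⟨_, hne, l, hl1, haffh, ?_, w - l * z, ?_, ?_, ?_⟩
  · have h1 : l - 1 = (lam g.1)⁻¹ * (lam f.1 - lam g.1) := by
      rw [hl]; field_simp
    rw [h1, norm_mul, norm_inv, hlam, inv_one, one_mul]
    have h2 := hyb f.1
    have h3 := hyb g.1
    rw [hFy] at h2 h3
    have h4 : dist (lam f.1) (lam g.1) < ε := by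
      calc dist (lam f.1) (lam g.1) ≤ dist (lam f.1) y0 + dist (lam g.1) y0 :=
            dist_triangle_right _ _ _
        _ < ε := by
            rw [mem_ball] at h2 h3
            linarith
    rwa [dist_eq_norm] at h4
  · linarith
  · linarith
  · have h1 := haffh.local_formula hE (hsub hz) (hsub hw) hval (mem_ball_self hr)
      (by rw [mul_zero, zero_add]; simp only [mem_ball, dist_zero_right]; linarith)
    rwa [mul_zero, zero_add] at h1

end TranslationStructure

end Pool.Agent.Helper76.Flat
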