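import Pool.Agent.Helper76.Flat.Prim
import Pool.Agent.Helper76.Flat.Exact2

set_option autoImplicit false
set_option linter.style.haveILetI false

/-!
The translation structure of a holomorphic 1-form pulled back by an open embedding.
-/

open Set Topology Filter Metric MeasureTheory

namespace Pool.Agent.Helper76.Flat

variable {S : Type*} [TopologicalSpace S]

open RiemannSurfaceStructure HoloForm

variable {X : RiemannSurfaceStructure S} {U : Set S}

namespace HoloForm

variable (ω : HoloForm X U)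

/-- charts of the pulled back structure -/
def Good (e : S → S) (ψ : OpenPartialHomeomorph S ℂ) : Prop :=
  ∀ x ∈ ψ.source, ¬ ω.IsZero (e x) ∧ ∃ g : S → ℂ, ω.PrimAt g (e x) ∧ ∀ᶠ y in 𝓝 x, ψ y = g (e y)

variable {ω}

lemma good_trans [Nonempty S] {e : S → S} (he : IsOpenEmbedding e)
    {F : OpenPartialHomeomorph S ℂ} (hF : ∀ y ∈ F.source, ¬ ω.IsZero y ∧ ω.PrimAt F y) :
    ω.Good e ((he.toOpenPartialHomeomorph e).trans F) := by
  intro x hx
  have hx' : e x ∈ F.source := by
    rw [OpenPartialHomeomorph.trans_source] at hx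
    exact hx.2
  exact ⟨(hF _ hx').1, F, (hF _ hx').2, Eventually.of_forall fun y => rfl⟩

lemma mem_trans_source [Nonempty S] {e : S → S} (he : IsOpenEmbedding e)
    {F : OpenPartialHomeomorph S ℂ} {x : S} :
    x ∈ ((he.toOpenPartialHomeomorph e).trans F).source ↔ e x ∈ F.source := by
  rw [OpenPartialHomeomorph.trans_source, IsOpenEmbedding.toOpenPartialHomeomorph_source,
    univ_inter]
  rfl

/-- the translation structure of the pulled back form -/
noncomputable def pull (ω : HoloForm X U) (hU : IsOpen U) {e : S → S} (he : IsOpenEmbedding e)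
    (heU : ∀ x, e x ∈ U) (hnz : ∀ x, ¬ ∀ᶠ y in 𝓝 (e x), ω.IsZero y) :
    TranslationStructure S where
  sing := {x | ω.IsZero (e x)}
  charts := {ψ | ω.Good e ψ}
  isClosed_sing := by
    rw [← isOpen_compl_iff, isOpen_iff_mem_nhds]
    intro x hx
    obtain ⟨F, hxF, -, -, hF⟩ := exists_prim_oph (ω := ω) hU (heU x) hx univ_mem
    filter_upwards [he.continuous.continuousAt.preimage_mem_nhds (F.open_source.mem_nhds hxF)]
      with y hy
    exact (hF _ hy).1
  discrete_sing := by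
    intro p hp
    obtain ⟨k, hk, h, hph, hp0, hhU, hhz, -⟩ := exists_cone hU (heU p) hp (hnz p)
    refine ⟨e ⁻¹' h.source, he.continuous.continuousAt.preimage_mem_nhds
      (h.open_source.mem_nhds hph), ?_⟩
    ext y
    constructor
    · rintro ⟨hy1, hy2⟩
      by_contra hne
      exact hhz (e y) hy1 (fun h => hne (he.injective h)) hy2
    · intro h
      rw [mem_singleton_iff] at h
      subst h
      exact ⟨hph, hp⟩
  cover := by
    ext x
    simp only [mem_iUnion, mem_compl_iff, exists_prop]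
    constructor
    · rintro ⟨ψ, hψ, hx⟩
      exact (hψ x hx).1
    · intro hx
      haveI : Nonempty S := ⟨x⟩
      obtain ⟨F, hxF, -, -, hF⟩ := exists_prim_oph (ω := ω) hU (heU x) hx univ_mem
      exact ⟨_, good_trans he hF, (mem_trans_source he).2 hxF⟩
  translation := by
    rintro ψ hψ ψ' hψ' x ⟨hx, hx'⟩
    obtain ⟨-, g, hg, hgψ⟩ := hψ x hx
    obtain ⟨-, g', hg', hgψ'⟩ := hψ' x hx'
    obtain ⟨c, hc⟩ := hg.sub hg'
    refine ⟨c, ?_⟩
    filter_upwards [hgψ, hgψ', he.continuous.continuousAt.eventually hc] with y h1 h2 h3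
    rw [h1, h2, h3]
  cone := by
    intro p hp
    haveI : Nonempty S := ⟨p⟩
    obtain ⟨k, hk, h, hph, hp0, hhU, hhz, hhk⟩ := exists_cone hU (heU p) hp (hnz p)
    refine ⟨k, hk, (he.toOpenPartialHomeomorph e).trans h, (mem_trans_source he).2 hph, hp0,
      ?_, ?_⟩
    · ext y
      constructor
      · rintro ⟨hy1, hy2⟩
        by_contra hne
        exact hhz (e y) ((mem_trans_source he).1 hy1) (fun h => hne (he.injective h)) hy2
      · intro h
        rw [mem_singleton_iff] at h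
        subst h
        exact ⟨(mem_trans_source he).2 hph, hp⟩
    · rintro ψ hψ x ⟨hx, hx'⟩
      obtain ⟨-, g, hg, hgψ⟩ := hψ x hx
      obtain ⟨c, hc⟩ := (hhk (e x) ((mem_trans_source he).1 hx')).sub hg
      refine ⟨c, ?_⟩
      filter_upwards [hgψ, he.continuous.continuousAt.eventually hc] with y h1 h3
      rw [h1, h3]
      rfl

section

variable {hU : IsOpen U} {e : S → S} {he : IsOpenEmbedding e}
    {heU : ∀ x, e x ∈ U} {hnz : ∀ x, ¬ ∀ᶠ y in 𝓝 (e x), ω.IsZero y}

lemma mem_pull_charts {ψ : OpenPartialHomeomorph S ℂ} :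
    ψ ∈ (ω.pull hU he heU hnz).charts ↔ ω.Good e ψ := Iff.rfl

lemma mem_pull_sing {x : S} : x ∈ (ω.pull hU he heU hnz).sing ↔ ω.IsZero (e x) := Iff.rfl

/-- finite area -/
lemma pull_finiteArea [T2Space S] [SecondCountableTopology S] [MeasurableSpace S] [BorelSpace S]
    (h2 : ω.IsL2) : (ω.pull hU he heU hnz).FiniteArea := by
  obtain ⟨μ, hμ, hfin⟩ := h2
  have hme : MeasurableEmbedding e := he.measurableEmbedding
  set M := ω.pull hU he heU hnz with hM
  set ν : Measure S := (μ.comap e).restrict M.singᶜ with hν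
  have hνval : ∀ W, MeasurableSet W → W ⊆ M.singᶜ → ν W = μ (e '' W) := by
    intro W hW hWs
    rw [hν, Measure.restrict_apply hW, inter_eq_left.2 hWs, hme.comap_apply]
  refine TranslationStructure.finiteArea_of_isAM (μ := ν) ⟨?_, ?_⟩ ?_
  · rw [hν, Measure.restrict_apply M.isClosed_sing.measurableSet, inter_compl_self, measure_empty]
  · intro ψ hψ W hW hWm
    have hWs : W ⊆ M.singᶜ := fun x hx => TranslationStructure.notMem_sing hψ (hW hx)
    symm
    refine (measure_image_of_local (f := ψ) (μ := ν) (ν := volume) (U := ψ.source) ψ.injOn ?_ hW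
      hWm).2
    intro x hx
    haveI : Nonempty S := ⟨x⟩
    obtain ⟨hz, g, hg, hgψ⟩ := hψ x hx
    obtain ⟨F, hxF, -, hFU, hF⟩ := exists_prim_oph (ω := ω) hU (heU x) hz univ_mem
    obtain ⟨c, hc⟩ := (hF _ hxF).2.sub hg
    have hev : ∀ᶠ y in 𝓝 x, ψ y = F (e y) + c ∧ e y ∈ F.source := by
      filter_upwards [hgψ, he.continuous.continuousAt.eventually hc,
        he.continuous.continuousAt.preimage_mem_nhds (F.open_source.mem_nhds hxF)] with y h1 h2 h3
      exact ⟨by rw [h1, h2], h3⟩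
    obtain ⟨V, hV, hVo, hxV⟩ := _root_.eventually_nhds_iff.1 hev
    refine ⟨V, hVo, hxV, fun A hAV hAψ hAm => ⟨measurableSet_image_oph ψ hAm hAψ, ?_⟩⟩
    have h1 : ψ '' A = (fun z => 1 * z + c) '' (F '' (e '' A)) := by
      rw [← image_comp, ← image_comp]
      refine image_congr fun y hy => ?_
      rw [(hV y (hAV hy)).1]
      simp
    have h2 : e '' A ⊆ F.source := by
      rintro _ ⟨y, hy, rfl⟩
      exact (hV y (hAV hy)).2
    rw [h1, volume_image_mul_add norm_one, volume_prim hμ hFU (fun y hy => (hF y hy).2) h2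
      (hme.measurableSet_image.2 hAm), hνval A hAm]
    exact fun y hy => TranslationStructure.notMem_sing hψ (hAψ hy)
  · have h1 : ν univ = ν M.singᶜ := by
      rw [hν, Measure.restrict_apply MeasurableSet.univ, Measure.restrict_apply_self, univ_inter]
    rw [h1, hνval _ M.isClosed_sing.measurableSet.compl subset_rfl]
    refine lt_of_le_of_lt (measure_mono ?_) hfin
    rintro _ ⟨y, -, rfl⟩
    exact heU y

/-- transport of primitives under invariant maps -/
lemma PrimAt.comp_invariant (hU : IsOpen U) {f : S → S} (hf : X.IsHolomorphic f)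
    (hinv : ω.Invariant f) {x : S} (hx : x ∈ U) (hfx : f x ∈ U) {g : S → ℂ}
    (hg : ω.PrimAt g (f x)) : ω.PrimAt (g ∘ f) x := by
  obtain ⟨φ, hφ, hxφ⟩ := X.exists_chart x
  obtain ⟨ψ, hψ, hxψ⟩ := X.exists_chart (f x)
  refine primAt_of hU hx hφ hxφ ?_
  have h1 : Tendsto (fun z => f (φ.symm z)) (𝓝 (φ x)) (𝓝 (f x)) :=
    hf.1.continuousAt.tendsto.comp (tendsto_symm hxφ)
  have h2 : Tendsto (fun z => ψ (f (φ.symm z))) (𝓝 (φ x)) (𝓝 (ψ (f x))) :=
    (ψ.continuousAt hxψ).tendsto.comp h1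
  filter_upwards [h2.eventually (hg ψ hψ hxψ), φ.open_target.mem_nhds (φ.map_source hxφ),
    h1.eventually (ψ.open_source.mem_nhds hxψ), (tendsto_symm hxφ).eventually (hU.mem_nhds hx),
    h1.eventually (hU.mem_nhds hfx)] with z a1 a2 a3 a4 a5
  have hVo : IsOpen (φ.target ∩ φ.symm ⁻¹' (f ⁻¹' ψ.source)) :=
    φ.continuousOn_symm.isOpen_inter_preimage φ.open_target (ψ.open_source.preimage hf.1)
  have h3 : HasDerivAt (ψ ∘ f ∘ φ.symm) (deriv (ψ ∘ f ∘ φ.symm) z) z :=
    ((hf.2 φ hφ ψ hψ).differentiableAt (hVo.mem_nhds ⟨a2, a3⟩)).hasDerivAt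
  have h4 := HasDerivAt.comp z (h₂ := g ∘ ψ.symm) a1 h3
  have h5 := hinv φ hφ ψ hψ (φ.symm z) a4 a5 (φ.map_target a2) a3
  rw [φ.right_inv a2] at h5
  rw [h5]
  refine h4.congr_of_eventuallyEq ?_
  have h6 : ContinuousAt (fun z => f (φ.symm z)) z :=
    hf.1.continuousAt.comp (φ.symm.continuousAt a2)
  filter_upwards [h6.eventually (ψ.open_source.mem_nhds a3)] with w hw
  simp only [Function.comp_apply]
  rw [ψ.left_inv hw]

/-- invariance gives affine maps of multiplier `1` -/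
lemma pull_isAffine {G : Type*} [Group G] {ρ : G →* (S ≃ₜ S)} (hρ : ∀ g, X.IsHolomorphic (ρ g))
    (hinv : ∀ g, ω.Invariant (ρ g)) (hequi : ∀ g x, e (ρ g x) = ρ g (e x)) (g : G) :
    (ω.pull hU he heU hnz).IsAffine 1 (ρ g) := by
  have key : ∀ g x, ω.IsZero (e (ρ g x)) → ω.IsZero (e x) := by
    intro g x hx
    obtain ⟨φ, hφ, hxφ⟩ := X.exists_chart (e x)
    obtain ⟨ψ, hψ, hxψ⟩ := X.exists_chart (e (ρ g x))
    have h1 := (isZero_iff (heU _) hψ hxψ).1 hx
    rw [isZero_iff (heU _) hφ hxφ]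
    rw [hequi] at h1 hxψ
    have hU' : ρ g (e x) ∈ U := by rw [← hequi]; exact heU _
    rw [hinv g φ hφ ψ hψ (e x) (heU x) hU' hxφ hxψ, h1, zero_mul]
  have key2 : ∀ g x, ω.IsZero (e (ρ g x)) ↔ ω.IsZero (e x) := by
    intro g x
    refine ⟨key g x, fun h => key g⁻¹ _ ?_⟩
    have : ρ g⁻¹ (ρ g x) = x := by
      rw [map_inv]; exact (ρ g).symm_apply_apply x
    rwa [this]
  refine ⟨?_, ?_⟩
  · ext x
    constructor
    · rintro ⟨y, hy, rfl⟩
      exact (key2 g y).2 hy
    · intro hx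
      refine ⟨(ρ g).symm x, ?_, (ρ g).apply_symm_apply x⟩
      show ω.IsZero (e ((ρ g).symm x))
      rw [← key2 g, (ρ g).apply_symm_apply]
      exact hx
  · intro ψ hψ ψ' hψ' x hx hx'
    obtain ⟨-, a, ha, haψ⟩ := hψ x hx
    obtain ⟨-, b, hb, hbψ⟩ := hψ' _ hx'
    rw [hequi] at hb
    have hU' : ρ g (e x) ∈ U := by rw [← hequi]; exact heU _
    have h1 := hb.comp_invariant hU (hρ g) (hinv g) (heU x) hU'
    obtain ⟨c, hc⟩ := ha.sub h1
    refine ⟨c, ?_⟩
    filter_upwards [haψ, (ρ g).continuous.continuousAt.eventually hbψ,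
      he.continuous.continuousAt.eventually hc] with y h2 h3 h4
    rw [h2, h3, one_mul, ← h4, hequi]
    rfl

/-- a frontier point of the embedding gives a slot -/
theorem exists_slot [T2Space S] {G : Type*} [Group G] [Finite G] {ρ : G →* (S ≃ₜ S)}
    (hρ : ∀ g, X.IsHolomorphic (ρ g)) (hinv : ∀ g, ω.Invariant (ρ g))
    (hequi : ∀ g x, e (ρ g x) = ρ g (e x)) {a0 : S} (ha0U : a0 ∈ U) (ha0z : ¬ ω.IsZero a0)
    (ha0f : a0 ∈ frontier (range e)) (ha0Z : a0 ∉ fixSet ρ) :
    Nonempty (Slot (ω.pull hU he heU hnz) ρ) := by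
  haveI : Nonempty S := ⟨a0⟩
  obtain ⟨V, hVo, haV, hV⟩ := exists_free_nhds ha0Z
  obtain ⟨F, haF, hFV, hFU, hF⟩ := exists_prim_oph (ω := ω) hU ha0U ha0z (hVo.mem_nhds haV)
  have ha0n : a0 ∉ range e := by
    intro h
    exact ha0f.2 (by rwa [he.isOpen_range.interior_eq])
  set w0 := F a0 with hw0
  obtain ⟨δ, hδ, hb⟩ : ∃ δ > 0, ball w0 (2 * δ) ⊆ F.target := by
    obtain ⟨ε, hε, h⟩ := Metric.isOpen_iff.1 F.open_target w0 (F.map_source haF)
    exact ⟨ε / 2, by positivity, by convert h using 2; ring⟩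
  -- a point of the range near `a0`
  have hn : F.symm '' ball w0 δ ∈ 𝓝 a0 := by
    have h1 : F.symm '' ball w0 δ ∈ 𝓝 (F.symm w0) := by
      rw [← F.symm.map_nhds_eq (F.map_source haF)]
      exact image_mem_map (ball_mem_nhds _ hδ)
    rwa [hw0, F.left_inv haF] at h1
  obtain ⟨x1, ⟨w1, hw1, hx1⟩, ⟨y1, hy1⟩⟩ := mem_closure_iff_nhds.1 ha0f.1 _ hn
  set Ω : Set ℂ := F.target ∩ F.symm ⁻¹' range e with hΩ
  have hΩo : IsOpen Ω := F.continuousOn_symm.isOpen_inter_preimage F.open_target he.isOpen_range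
  have hbsub : ball w0 δ ⊆ ball w0 (2 * δ) := ball_subset_ball (by linarith)
  have hw1Ω : w1 ∈ Ω := ⟨hb (hbsub hw1), by rw [mem_preimage, hx1]; exact ⟨y1, hy1⟩⟩
  have hw0Ω : w0 ∉ Ω := by
    rintro ⟨-, h⟩
    rw [mem_preimage, hw0, F.left_inv haF] at h
    exact ha0n h
  have hcb : closedBall w1 δ ⊆ ball w0 (2 * δ) := by
    intro w hw
    rw [mem_closedBall] at hw
    rw [mem_ball] at hw1 ⊢
    have := dist_triangle w w1 w0
    linarith
  have hKc : IsCompact (closedBall w1 δ \ Ω) :=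
    (isCompact_closedBall w1 δ).diff hΩo
  have hw0K : w0 ∈ closedBall w1 δ \ Ω := by
    refine ⟨?_, hw0Ω⟩
    rw [mem_closedBall, dist_comm]
    exact (mem_ball.1 hw1).le
  obtain ⟨ws, hws, hmin⟩ := hKc.exists_isMinOn ⟨w0, hw0K⟩
    (f := fun w => dist w w1) (by fun_prop)
  set s := dist ws w1 with hs
  have hs0 : 0 < s := by
    rw [hs, dist_pos]
    rintro rfl
    exact hws.2 hw1Ω
  have hsδ : s ≤ δ := mem_closedBall.1 hws.1
  have hball : ball w1 s ⊆ Ω := by
    intro w hw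
    by_contra hwΩ
    have h1 : w ∈ closedBall w1 δ \ Ω := ⟨mem_closedBall.2 ((mem_ball.1 hw).le.trans hsδ), hwΩ⟩
    have h2 := hmin h1
    have h3 : s ≤ dist w w1 := h2
    exact absurd (mem_ball.1 hw) (not_lt.2 h3)
  -- the affine parametrisation
  set lam : ℂ := (ws - w1) / 4 with hlam
  have hlam0 : lam ≠ 0 := by
    rw [hlam]
    refine div_ne_zero (sub_ne_zero.2 ?_) (by norm_num)
    rintro rfl
    exact hws.2 hw1Ω
  have hlamn : ‖lam‖ = s / 4 := by
    rw [hlam, norm_div, ← dist_eq_norm, ← hs]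
    norm_num
  set b : ℂ := w1 + 3 * lam with hb'
  set A : ℂ → ℂ := fun w => lam * w + b with hA
  have hAc : Continuous A := by rw [hA]; fun_prop
  have hAd : ∀ w, dist (A w) w1 = s / 4 * dist w (-3) := by
    intro w
    rw [dist_eq_norm, dist_eq_norm]
    have : A w - w1 = lam * (w - (-3)) := by rw [hA, hb']; ring
    rw [this, norm_mul, hlamn]
  have hA1 : A 1 = ws := by
    rw [hA, hb', hlam]; ring
  have hAball : ∀ w ∈ ball (-3 : ℂ) 4, A w ∈ ball w1 s := by
    intro w hw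
    rw [mem_ball] at hw ⊢
    rw [hAd]
    nlinarith
  have hAcball : ∀ w ∈ closedBall (-3 : ℂ) 4, A w ∈ closedBall w1 s := by
    intro w hw
    rw [mem_closedBall] at hw ⊢
    rw [hAd]
    nlinarith
  set ê := he.toOpenPartialHomeomorph e with hê
  have heright : ∀ {y : S}, y ∈ range e → e (ê.symm y) = y := fun hy =>
    he.toOpenPartialHomeomorph_right_inv e hy
  have heleft : ∀ {y : S}, ê.symm (e y) = y := fun {y} => he.toOpenPartialHomeomorph_left_inv e
  set ι : ℂ → S := fun w => ê.symm (F.symm (A w)) with hι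
  have heι : ∀ w, A w ∈ Ω → e (ι w) = F.symm (A w) := fun w hw => heright hw.2
  have hmemΩ : ∀ w ∈ ball (-3 : ℂ) 4, A w ∈ Ω := fun w hw => hball (hAball w hw)
  have hιc : ContinuousOn ι (ball (-3 : ℂ) 4) := by
    refine ê.continuousOn_symm.comp (F.continuousOn_symm.comp hAc.continuousOn
      fun w hw => (hmemΩ w hw).1) fun w hw => ?_
    show F.symm (A w) ∈ ê.target
    rw [hê, IsOpenEmbedding.toOpenPartialHomeomorph_target]
    exact (hmemΩ w hw).2
  have hF' : ω.Good e (ê.trans F) := good_trans he hF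
  have hKball : closedBall (-1 : ℂ) 2 ⊆ closedBall (-3 : ℂ) 4 := by
    intro w hw
    rw [mem_closedBall] at hw ⊢
    have h1 := dist_triangle w (-1) (-3 : ℂ)
    have h2 : dist (-1 : ℂ) (-3) = 2 := by rw [dist_eq_norm]; norm_num
    linarith
  refine ⟨{ ι := ι, lam := lam, lam_ne := hlam0, sec := ?_, inj := ?_, closed := ?_, disj := ?_,
            aff := pull_isAffine hρ hinv hequi }⟩
  · refine TranslationStructure.isSec_of_chart isOpen_ball hιc fun w hw => ?_
    refine ⟨ê.trans F, hF', ?_, b, ?_⟩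
    · rw [mem_trans_source, heι w (hmemΩ w hw)]
      exact F.map_target (hmemΩ w hw).1
    · filter_upwards [isOpen_ball.mem_nhds hw] with w' hw'
      show F (e (ι w')) = lam * w' + b
      rw [heι w' (hmemΩ w' hw'), F.right_inv (hmemΩ w' hw').1]
  · intro w hw w' hw' h
    have h1 : e (ι w) = e (ι w') := by rw [h]
    rw [heι w (hmemΩ w hw), heι w' (hmemΩ w' hw')] at h1
    have h2 := F.symm.injOn (hmemΩ w hw).1 (hmemΩ w' hw').1 h1
    have h3 : lam * w + b = lam * w' + b := h2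
    exact mul_left_cancel₀ hlam0 (add_right_cancel h3)
  · rw [← closure_subset_iff_isClosed]
    intro y hy
    have hcomp : IsClosed (F.symm '' (A '' closedBall (-1 : ℂ) 2)) := by
      refine (((isCompact_closedBall _ _).image hAc).image_of_continuousOn
        (F.continuousOn_symm.mono ?_)).isClosed
      rintro _ ⟨w, hw, rfl⟩
      exact hb (hcb (closedBall_subset_closedBall hsδ (hAcball w (hKball hw))))
    have hey : e y ∈ F.symm '' (A '' closedBall (-1 : ℂ) 2) := by
      have h1 : e y ∈ closure (e '' (ι '' KK)) :=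
        image_closure_subset_closure_image he.continuous ⟨y, hy, rfl⟩
      refine closure_minimal ?_ hcomp h1
      rintro _ ⟨_, ⟨w, hw, rfl⟩, rfl⟩
      rw [heι w (hmemΩ w (KK_subset hw))]
      exact ⟨_, ⟨w, hw.1, rfl⟩, rfl⟩
    obtain ⟨_, ⟨w, hw, rfl⟩, hwe⟩ := hey
    refine ⟨w, ⟨hw, ?_⟩, ?_⟩
    · intro h1
      rw [mem_singleton_iff] at h1
      rw [h1, hA1] at hwe
      apply hws.2
      refine ⟨hb (hcb hws.1), ?_⟩
      rw [mem_preimage, hwe]
      exact ⟨y, rfl⟩
    · show ê.symm (F.symm (A w)) = y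
      rw [hwe, heleft]
  · intro g hg
    rw [Set.disjoint_left]
    rintro _ ⟨_, ⟨w, hw, rfl⟩, rfl⟩ ⟨w', hw', h⟩
    have h1 : e (ρ g (ι w)) = e (ι w') := by rw [h]
    rw [hequi, heι w (hmemΩ w hw), heι w' (hmemΩ w' hw')] at h1
    have h2 : F.symm (A w) ∈ V := hFV (F.map_target (hmemΩ w hw).1)
    have h3 : F.symm (A w') ∈ V := hFV (F.map_target (hmemΩ w' hw').1)
    exact Set.disjoint_left.1 (hV g hg) ⟨_, h2, h1⟩ h3

end

end HoloForm

end Pool.Agent.Helper76.Flat
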