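import Pool.Agent.Helper76.Flat.Strip

set_option autoImplicit false
set_option linter.style.haveILetI false

open Set Topology MeasureTheory Filter Metric ComplexConjugate

namespace Pool.Agent.Helper76.Flat

/-- an injective continuous open map on an open set as an `OpenPartialHomeomorph`. -/
noncomputable def ophOfInj {X Y : Type*} [TopologicalSpace X] [TopologicalSpace Y] [Nonempty X]
    (f : X → Y) (U : Set X) (hU : IsOpen U) (hc : ContinuousOn f U) (hinj : InjOn f U)
    (ho : ∀ V ⊆ U, IsOpen V → IsOpen (f '' V)) : OpenPartialHomeomorph X Y where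
  toPartialEquiv := hinj.toPartialEquiv f U
  open_source := hU
  open_target := ho U subset_rfl hU
  continuousOn_toFun := hc
  continuousOn_invFun := by
    have ht : (hinj.toPartialEquiv f U).target = f '' U := rfl
    rw [ht, _root_.continuousOn_iff']
    intro V hV
    refine ⟨f '' (V ∩ U), ho _ inter_subset_right (hV.inter hU), ?_⟩
    ext y
    constructor
    · rintro ⟨hy1, x, hx, rfl⟩
      have h1 : (hinj.toPartialEquiv f U).symm (f x) = x :=
        (hinj.toPartialEquiv f U).left_inv hx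
      have h2 : x ∈ V := by
        have : (hinj.toPartialEquiv f U).symm (f x) ∈ V := hy1
        rwa [h1] at this
      exact ⟨⟨x, ⟨h2, hx⟩, rfl⟩, ⟨x, hx, rfl⟩⟩
    · rintro ⟨⟨x, ⟨hxV, hxU⟩, rfl⟩, -⟩
      have h1 : (hinj.toPartialEquiv f U).symm (f x) = x :=
        (hinj.toPartialEquiv f U).left_inv hxU
      refine ⟨?_, ⟨x, hxU, rfl⟩⟩
      show (hinj.toPartialEquiv f U).symm (f x) ∈ V
      rw [h1]
      exact hxV

section
variable {X Y : Type*} [TopologicalSpace X] [TopologicalSpace Y] [Nonempty X]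
    (f : X → Y) (U : Set X) (hU : IsOpen U) (hc : ContinuousOn f U) (hinj : InjOn f U)
    (ho : ∀ V ⊆ U, IsOpen V → IsOpen (f '' V))

lemma ophOfInj_coe : (ophOfInj f U hU hc hinj ho : X → Y) = f := rfl
lemma ophOfInj_source : (ophOfInj f U hU hc hinj ho).source = U := rfl
lemma ophOfInj_target : (ophOfInj f U hU hc hinj ho).target = f '' U := rfl
end

variable {S : Type*} [TopologicalSpace S]

namespace TranslationStructure

variable {M : TranslationStructure S}

/-- an injective section as a partial homeomorphism -/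
noncomputable def IsSec.oph {lam : ℂ} (hlam : lam ≠ 0) {U : Set ℂ} {E : ℂ → S} (hU : IsOpen U)
    (h : M.IsSec lam U E) (hinj : InjOn E U) : OpenPartialHomeomorph ℂ S :=
  ophOfInj E U hU h.1 hinj fun _ hV hVo => h.isOpen_image hlam hU hVo hV

lemma IsSec.oph_coe {lam : ℂ} (hlam : lam ≠ 0) {U : Set ℂ} {E : ℂ → S} (hU : IsOpen U)
    (h : M.IsSec lam U E) (hinj : InjOn E U) : (h.oph hlam hU hinj : ℂ → S) = E := rfl

lemma IsSec.oph_source {lam : ℂ} (hlam : lam ≠ 0) {U : Set ℂ} {E : ℂ → S} (hU : IsOpen U)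
    (h : M.IsSec lam U E) (hinj : InjOn E U) : (h.oph hlam hU hinj).source = U := rfl

lemma IsSec.oph_target {lam : ℂ} (hlam : lam ≠ 0) {U : Set ℂ} {E : ℂ → S} (hU : IsOpen U)
    (h : M.IsSec lam U E) (hinj : InjOn E U) : (h.oph hlam hU hinj).target = E '' U := rfl

/-- strips in one direction rule out cone points -/
lemma sing_eq_empty_of_strip [T2Space S] {u : ℂ} (hu : ‖u‖ = 1)
    (hstrip : ∀ y, y ∉ M.sing →
      ∃ ε > 0, ∃ E : ℂ → S, M.IsSec u {z | |z.im| < ε} E ∧ E 0 = y) : M.sing = ∅ := by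
  rw [eq_empty_iff_forall_notMem]
  intro p hp
  obtain ⟨k, hk2, h, hph, hp0, hhs, hcone⟩ := M.cone p hp
  have hk0 : k ≠ 0 := by omega
  have hkC : (k : ℂ) ≠ 0 := by exact_mod_cast hk0
  obtain ⟨v, hv⟩ := IsAlgClosed.exists_pow_nat_eq (-u) (Nat.pos_of_ne_zero hk0)
  have hvn : ‖v‖ = 1 := by
    have h1 : ‖v‖ ^ k = 1 := by rw [← norm_pow, hv, norm_neg, hu]
    exact (pow_eq_one_iff_of_nonneg (norm_nonneg v) hk0).1 h1
  obtain ⟨r, hr, hball⟩ := Metric.isOpen_iff.1 h.open_target (h p) (h.map_source hph)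
  rw [hp0] at hball
  set root : ℂ → ℂ := fun z => Complex.exp (Complex.log z / k) * v with hroot
  have hrootk : ∀ z, z ≠ 0 → root z ^ k = -(u * z) := by
    intro z hz
    rw [hroot]
    simp only
    rw [mul_pow, ← Complex.exp_nat_mul, mul_div_cancel₀ _ hkC, Complex.exp_log hz, hv]
    ring
  have hrootn : ∀ z, z ≠ 0 → ‖root z‖ ^ k = ‖z‖ := by
    intro z hz
    rw [← norm_pow, hrootk z hz, norm_neg, norm_mul, hu, one_mul]
  have hrootlt : ∀ δ > 0, ∀ z, z ≠ 0 → ‖z‖ < δ ^ k → ‖root z‖ < δ := by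
    intro δ hδ z hz hzδ
    rw [← hrootn z hz] at hzδ
    exact lt_of_pow_lt_pow_left₀ k hδ.le hzδ
  set s1 : ℝ := r ^ k / 2 with hs1
  have hrk : 0 < r ^ k := by positivity
  have hs1p : 0 < s1 := by positivity
  set V : Set ℂ := {z | z.re < s1} ∩ ball (s1 : ℂ) (r ^ k) with hV
  have hVo : IsOpen V := (isOpen_lt Complex.continuous_re continuous_const).inter isOpen_ball
  have hVc : Convex ℝ V := (convex_halfSpace_re_lt _).inter (convex_ball _ _)
  have hVne : ∀ z ∈ V, (s1 : ℂ) - z ≠ 0 := by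
    intro z hz h0
    have : z.re = s1 := by
      have := congrArg Complex.re h0
      simp at this
      linarith
    exact absurd hz.1 (by simp [this])
  have hVn : ∀ z ∈ V, ‖(s1 : ℂ) - z‖ < r ^ k := by
    intro z hz
    have := hz.2
    rwa [mem_ball, dist_comm, dist_eq_norm] at this
  have hVt : ∀ z ∈ V, root (s1 - z) ∈ h.target := by
    intro z hz
    apply hball
    have := hrootlt r hr _ (hVne z hz) (hVn z hz)
    simpa using this
  set Q : ℂ → S := fun z => h.symm (root (s1 - z)) with hQ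
  have hQc : ContinuousOn Q V := by
    refine h.continuousOn_symm.comp (t := h.target) ?_ hVt
    have : ContinuousOn (fun z : ℂ => Complex.exp (Complex.log (s1 - z) / k) * v) V := by
      refine ContinuousOn.mul ?_ continuousOn_const
      refine Complex.continuous_exp.comp_continuousOn ?_
      refine ContinuousOn.div_const ?_ _
      refine ContinuousOn.clog (by fun_prop) ?_
      intro z hz
      left
      have := hz.1
      simp only [mem_ofPred_eq] at this
      simp [this]
    exact this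
  have hQsrc : ∀ z ∈ V, Q z ∈ h.source := fun z hz => h.map_target (hVt z hz)
  have hQh : ∀ z ∈ V, h (Q z) = root (s1 - z) := fun z hz => h.right_inv (hVt z hz)
  have hQsing : ∀ z ∈ V, Q z ∉ M.sing := by
    intro z hz hs
    have h1 : Q z ∈ h.source ∩ M.sing := ⟨hQsrc z hz, hs⟩
    rw [hhs] at h1
    have h2 : Q z = p := h1
    have h3 := hQh z hz
    rw [h2, hp0] at h3
    have h4 := hrootk _ (hVne z hz)
    rw [← h3, zero_pow hk0] at h4
    have hu0 : u ≠ 0 := by rintro rfl; simp at hu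
    have : u * (s1 - z) = 0 := by
      rw [← neg_eq_zero]; exact h4.symm
    rcases mul_eq_zero.1 this with h5 | h5
    · exact hu0 h5
    · exact hVne z hz h5
  have hQsec : M.IsSec u V Q := by
    refine isSec_of_chart hVo hQc fun z hz => ?_
    obtain ⟨φ, hφ, hx⟩ := M.exists_chart (hQsing z hz)
    obtain ⟨c, hc⟩ := hcone φ hφ (Q z) ⟨hx, hQsrc z hz⟩
    refine ⟨φ, hφ, hx, -(u * s1) + c, ?_⟩
    filter_upwards [(hQc.continuousAt (hVo.mem_nhds hz)).eventually hc, hVo.mem_nhds hz]
      with w hw hwV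
    rw [hw, hQh w hwV, hrootk _ (hVne w hwV)]
    ring
  -- the starting point
  have h0V : (0 : ℂ) ∈ V := by
    refine ⟨by simpa using hs1p, ?_⟩
    rw [mem_ball, dist_eq_norm, zero_sub, norm_neg, Complex.norm_real, Real.norm_eq_abs,
      abs_of_pos hs1p]
    linarith
  obtain ⟨ε, hε, E, hE, hE0⟩ := hstrip (Q 0) (hQsing 0 h0V)
  have hstripo : IsOpen {z : ℂ | |z.im| < ε} :=
    isOpen_lt (by fun_prop) continuous_const
  have hstripc : Convex ℝ {z : ℂ | |z.im| < ε} := by
    have : {z : ℂ | |z.im| < ε} = {z : ℂ | z.im < ε} ∩ {z : ℂ | -ε < z.im} := by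
      ext z; simp [abs_lt, and_comm]
    rw [this]
    exact (convex_halfSpace_im_lt _).inter (convex_halfSpace_im_gt _)
  have heq := (hE.mono (V := {z : ℂ | |z.im| < ε} ∩ V) inter_subset_left).eqOn
    (hstripo.inter hVo) (hstripc.inter hVc).isPreconnected (hQsec.mono inter_subset_right)
    (z0 := 0) ⟨by simpa using hε, h0V⟩ hE0
  -- approach `s1` along the real axis
  have hreal : ∀ᶠ s : ℝ in 𝓝[<] s1, (s : ℂ) ∈ {z : ℂ | |z.im| < ε} ∩ V := by
    have h1 : ∀ᶠ s : ℝ in 𝓝[<] s1, s < s1 := eventually_mem_nhdsWithin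
    have h2 : ∀ᶠ s : ℝ in 𝓝[<] s1, 0 < s :=
      mem_nhdsWithin_of_mem_nhds (lt_mem_nhds hs1p)
    filter_upwards [h1, h2] with s hs hs'
    refine ⟨by simpa using hε, by simpa using hs, ?_⟩
    rw [mem_ball, dist_eq_norm, ← Complex.ofReal_sub, Complex.norm_real, Real.norm_eq_abs,
      abs_lt]
    constructor <;> linarith
  have hlimE : Tendsto (fun s : ℝ => E (s : ℂ)) (𝓝[<] s1) (𝓝 (E (s1 : ℂ))) := by
    have h1 : ContinuousAt E (s1 : ℂ) :=
      hE.continuousAt hstripo (by simpa using hε)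
    have h2 : Tendsto (fun s : ℝ => (s : ℂ)) (𝓝[<] s1) (𝓝 (s1 : ℂ)) :=
      (Complex.continuous_ofReal.tendsto s1).mono_left nhdsWithin_le_nhds
    exact h1.tendsto.comp h2
  have hlimQ : Tendsto (fun s : ℝ => Q (s : ℂ)) (𝓝[<] s1) (𝓝 p) := by
    have h1 : Tendsto (fun s : ℝ => root (s1 - s)) (𝓝[<] s1) (𝓝 0) := by
      rw [Metric.tendsto_nhds]
      intro δ hδ
      have h3 : ∀ᶠ s : ℝ in 𝓝[<] s1, s1 - δ ^ k < s :=
        mem_nhdsWithin_of_mem_nhds (lt_mem_nhds (by
          have : 0 < δ ^ k := by positivity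
          linarith))
      filter_upwards [hreal, h3, eventually_mem_nhdsWithin] with s hs hs3 hs4
      rw [dist_zero_right]
      refine hrootlt δ hδ _ (hVne _ hs.2) ?_
      rw [← Complex.ofReal_sub, Complex.norm_real, Real.norm_eq_abs,
        abs_of_pos (by have : s < s1 := hs4; linarith)]
      linarith
    have h2 : ContinuousAt h.symm 0 := by
      rw [← hp0]
      exact h.continuousAt_symm (h.map_source hph)
    have h3 : h.symm 0 = p := by rw [← hp0, h.left_inv hph]
    have h4 := h2.tendsto.comp h1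
    rw [h3] at h4
    exact h4
  have hfin : E (s1 : ℂ) = p := by
    refine tendsto_nhds_unique (hlimE.congr' ?_) hlimQ
    filter_upwards [hreal] with s hs using heq hs
  exact (hE.2 (s1 : ℂ) (by simpa using hε)).1 (hfin ▸ hp)

end TranslationStructure

end Pool.Agent.Helper76.Flat
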