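import Pool.Agent.Helper76.Flat.Lift

set_option autoImplicit false
set_option linter.style.haveILetI false

/-!
Local to global principle for homotopy classes of paths; removing a discrete set.
-/

open Set Topology MeasureTheory Filter Metric ComplexConjugate unitInterval

namespace Pool.Agent.Helper76.Flat

open Path.Homotopic in
/-- A property of homotopy classes of paths stable under composition and true for small paths holds
for all paths. -/
theorem path_induction {S : Type*} [TopologicalSpace S]
    (Q : ∀ {x y : S}, Path.Homotopic.Quotient x y → Prop)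
    (hrefl : ∀ x, Q (Path.Homotopic.Quotient.refl x))
    (htrans : ∀ {x y z : S} (a : Path.Homotopic.Quotient x y) (b : Path.Homotopic.Quotient y z),
      Q a → Q b → Q (a.trans b))
    {D : S → Set S} (hD : ∀ s, IsOpen (D s)) (hs : ∀ s, s ∈ D s)
    (hloc : ∀ s {x y : S} (p : Path x y), range p ⊆ D s → Q (Path.Homotopic.Quotient.mk p))
    {x y : S} (p : Path x y) : Q (Path.Homotopic.Quotient.mk p) := by
  obtain ⟨t, ht0, htm, ⟨n, hn⟩, hsub⟩ := exists_monotone_Icc_subset_open_cover_unitInterval
    (fun s => (hD s).preimage p.continuous)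
    (fun r _ => mem_iUnion.2 ⟨p r, hs (p r)⟩)
  have hcast : ∀ (x' y' : S) (hx : x' = x) (hy : y' = y),
      Q (Path.Homotopic.Quotient.mk (p.cast hx hy)) → Q (Path.Homotopic.Quotient.mk p) := by
    intro x' y' hx hy h
    subst hx hy
    exact h
  have key : ∀ m, Q (Path.Homotopic.Quotient.mk (p.subpath 0 (t m))) := by
    intro m
    induction m with
    | zero =>
      have h1 : ∀ r : I, r = 0 → Q (Path.Homotopic.Quotient.mk (p.subpath 0 r)) := by
        rintro r rfl
        rw [Path.subpath_self]
        exact hrefl _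
      exact h1 _ ht0
    | succ m ih =>
      obtain ⟨s, hsm⟩ := hsub m
      have h1 : Q (Path.Homotopic.Quotient.mk (p.subpath (t m) (t (m + 1)))) := by
        refine hloc s _ ?_
        rw [Path.range_subpath_of_le _ _ _ (htm (Nat.le_succ m))]
        rintro _ ⟨r, hr, rfl⟩
        exact hsm hr
      have h2 := htrans _ _ ih h1
      have h3 : (Path.Homotopic.Quotient.mk (p.subpath 0 (t m))).trans
          (Path.Homotopic.Quotient.mk (p.subpath (t m) (t (m + 1)))) =
          Path.Homotopic.Quotient.mk (p.subpath 0 (t (m + 1))) := by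
        rw [← Path.Homotopic.Quotient.mk_trans]
        exact Path.Homotopic.Quotient.eq.2 ⟨Path.Homotopy.subpathTransSubpath p _ _ _⟩
      rwa [h3] at h2
  have h1 := key n
  have h2 : ∀ r : I, r = 1 → Q (Path.Homotopic.Quotient.mk (p.subpath 0 r)) →
      Q (Path.Homotopic.Quotient.mk p) := by
    rintro r rfl h
    rw [Path.subpath_zero_one] at h
    exact hcast _ _ _ _ h
  exact h2 _ (hn n le_rfl) h1

variable {S : Type*} [TopologicalSpace S]

/-- the class has a representative avoiding `P` -/
def Av (P : Set S) {x y : S} (a : Path.Homotopic.Quotient x y) : Prop :=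
  ∃ p : Path x y, Path.Homotopic.Quotient.mk p = a ∧ ∀ t, p t ∉ P

lemma Av.trans {P : Set S} {x y z : S} {a : Path.Homotopic.Quotient x y}
    {b : Path.Homotopic.Quotient y z} (ha : Av P a) (hb : Av P b) : Av P (a.trans b) := by
  obtain ⟨p, rfl, hp⟩ := ha
  obtain ⟨q, rfl, hq⟩ := hb
  refine ⟨p.trans q, rfl, fun t => ?_⟩
  rw [Path.trans_apply]
  split_ifs
  · exact hp _
  · exact hq _

lemma av_mk {P : Set S} {x y : S} {p : Path x y} (hp : ∀ t, p t ∉ P) :
    Av P (Path.Homotopic.Quotient.mk p) := ⟨p, rfl, hp⟩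

/-- disc neighbourhoods of the points of `P` -/
lemma IsolatedCharted.exists_disc {P : Set S} (hP : IsolatedCharted P) {s : S} (hs : s ∈ P) :
    ∃ D : Set S, IsOpen D ∧ s ∈ D ∧ D ∩ P = {s} ∧
      (∀ {x y : S} (p : Path x y), range p ⊆ D → x ∉ P → y ∉ P →
        Av P (Path.Homotopic.Quotient.mk p)) ∧
      ∃ m : S, m ∉ P ∧ ∃ c : Path m s, range c ⊆ D := by
  obtain ⟨h1, h, hsh⟩ := hP.2 s hs
  obtain ⟨V, hVo, hsV, hVP, -, hVs, r, hr, hbt, hVe, hVd⟩ := exists_nhd_of_chart h hsh h1 univ_mem
  have hmemP : ∀ x ∈ V, x ∈ P → x = s := by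
    intro x hx hxP
    have : x ∈ V ∩ P := ⟨hx, hxP⟩
    rwa [hVP] at this
  have hVball : ∀ x ∈ V, h x ∈ ball (h s) r := by
    intro x hx
    rw [hVe] at hx
    obtain ⟨z, hz, rfl⟩ := hx
    rwa [h.right_inv (hbt hz)]
  have hcs : ContinuousOn h.symm (ball (h s) r) := h.continuousOn_symm.mono hbt
  refine ⟨V, hVo, hsV, hVP, ?_, ?_⟩
  · intro x y p hpV hx hy
    have hxV : x ∈ V := hpV ⟨0, p.source⟩
    have hyV : y ∈ V := hpV ⟨1, p.target⟩
    have hne : ∀ x ∈ V, x ∉ P → h x ∈ ball (h s) r \ {h s} := by
      intro x hx hxP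
      refine ⟨hVball x hx, fun he => hxP ?_⟩
      have : x = s := h.injOn (hVs hx) hsh he
      rwa [this]
    obtain ⟨q, hq⟩ := (isPathConnected_ball_diff (h s) hr).joinedIn _ (hne x hxV hx) _
      (hne y hyV hy)
    have hqt : ∀ t, q t ∈ ball (h s) r := fun t => (hq t).1
    let q' : Path x y :=
      { toFun := fun t => h.symm (q t)
        continuous_toFun := hcs.comp_continuous q.continuous hqt
        source' := by rw [q.source, h.left_inv (hVs hxV)]
        target' := by rw [q.target, h.left_inv (hVs hyV)] }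
    refine ⟨q', ?_, ?_⟩
    · refine Path.Homotopic.Quotient.eq.2 (Path.Homotopic.symm ?_)
      refine homotopic_of_convex (convex_ball (h s) r) hcs p q' (fun t => h (p t)) q ?_
        q.continuous (fun t => hVball _ (hpV ⟨t, rfl⟩)) hqt ?_ (fun t => rfl) ?_ ?_
      · exact h.continuousOn.comp_continuous p.continuous fun t => hVs (hpV ⟨t, rfl⟩)
      · intro t
        rw [h.left_inv (hVs (hpV ⟨t, rfl⟩))]
      · rw [p.source, q.source]
      · rw [p.target, q.target]
    · intro t htP
      have h2 : h.symm (q t) ∈ V := by rw [hVe]; exact ⟨_, hqt t, rfl⟩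
      have h3 := hmemP _ h2 htP
      apply (hq t).2
      rw [mem_singleton_iff, ← h3, h.right_inv (hbt (hqt t))]
  · obtain ⟨z, hz⟩ := nonempty_ball_diff (h s) hr
    have hm : ∀ t : I, h s + (1 - (t : ℝ)) • (z - h s) ∈ ball (h s) r := by
      intro t
      have h1 : ‖z - h s‖ < r := by simpa [dist_eq_norm] using hz.1
      rw [mem_ball, dist_eq_norm, add_sub_cancel_left, norm_smul, Real.norm_eq_abs,
        abs_of_nonneg (by linarith [t.2.2])]
      calc (1 - (t : ℝ)) * ‖z - h s‖ ≤ 1 * ‖z - h s‖ := by
            gcongr; linarith [t.2.1]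
        _ < r := by linarith
    refine ⟨h.symm z, ?_, ?_⟩
    · intro hP'
      have h2 : h.symm z ∈ V := by rw [hVe]; exact ⟨_, hz.1, rfl⟩
      have h3 := hmemP _ h2 hP'
      apply hz.2
      rw [mem_singleton_iff, ← h3, h.right_inv (hbt hz.1)]
    · refine ⟨{ toFun := fun t => h.symm (h s + (1 - (t : ℝ)) • (z - h s))
                continuous_toFun := hcs.comp_continuous (by fun_prop) hm
                source' := by simp
                target' := by simp [h.left_inv hsh] }, ?_⟩
      rintro _ ⟨t, rfl⟩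
      rw [hVe]
      exact ⟨_, hm t, rfl⟩

/-- every path with ends off `P` is homotopic to a path avoiding `P` -/
theorem av_of_isolatedCharted {P : Set S} (hP : IsolatedCharted P) {x y : S} (hx : x ∉ P)
    (hy : y ∉ P) (p : Path x y) : Av P (Path.Homotopic.Quotient.mk p) := by
  classical
  choose D0 hD0o hD0s hD0P hD0Av hD0m using fun (s : S) (hs : s ∈ P) => hP.exists_disc hs
  let D : S → Set S := fun s => if hs : s ∈ P then D0 s hs else Pᶜ
  have hDP : ∀ s (hs : s ∈ P), D s = D0 s hs := fun s hs => dif_pos hs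
  have hDN : ∀ s, s ∉ P → D s = Pᶜ := fun s hs => dif_neg hs
  have hDo : ∀ s, IsOpen (D s) := by
    intro s
    by_cases hs : s ∈ P
    · rw [hDP s hs]; exact hD0o s hs
    · rw [hDN s hs]; exact hP.1.isOpen_compl
  have hDs : ∀ s, s ∈ D s := by
    intro s
    by_cases hs : s ∈ P
    · rw [hDP s hs]; exact hD0s s hs
    · rw [hDN s hs]; exact hs
  have huniq : ∀ s ∈ P, ∀ x ∈ D s, x ∈ P → x = s := by
    intro s hs x hx hxP
    rw [hDP s hs] at hx
    have : x ∈ D0 s hs ∩ P := ⟨hx, hxP⟩
    rwa [hD0P] at this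
  have hdisc : ∀ s ∈ P, ∀ {x y : S} (p : Path x y), range p ⊆ D s → x ∉ P → y ∉ P →
      Av P (Path.Homotopic.Quotient.mk p) := by
    intro s hs x y p hp
    rw [hDP s hs] at hp
    exact hD0Av s hs p hp
  -- admissible connectors
  let Adm : ∀ {x y : S}, Path x y → Prop := fun {x y} c => (∀ t, c t ∉ P) ∨ ∃ s ∈ P, range c ⊆ D s
  have hAdm_av : ∀ {x y : S} (c : Path x y), Adm c → x ∉ P → y ∉ P →
      Av P (Path.Homotopic.Quotient.mk c) := by
    intro x y c hc hx hy
    rcases hc with hc | ⟨s, hs, hc⟩
    · exact av_mk hc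
    · exact hdisc s hs c hc hx hy
  have hAdm_mem : ∀ {x y : S} (c : Path x y), Adm c → y ∈ P → range c ⊆ D y := by
    intro x y c hc hy
    rcases hc with hc | ⟨s, hs, hc⟩
    · exact absurd hy (by rw [← c.target]; exact hc 1)
    · have : y = s := huniq s hs y (hc ⟨1, c.target⟩) hy
      exact hc.trans (congrArg D this.symm).subset
  have hAdm_mem' : ∀ {x y : S} (c : Path x y), Adm c → x ∈ P → range c ⊆ D x := by
    intro x y c hc hx
    rcases hc with hc | ⟨s, hs, hc⟩
    · exact absurd hx (by rw [← c.source]; exact hc 0)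
    · have : x = s := huniq s hs x (hc ⟨0, c.source⟩) hx
      exact hc.trans (congrArg D this.symm).subset
  have hAdm_symm : ∀ {x y : S} (c : Path x y), Adm c → Adm c.symm := by
    intro x y c hc
    rcases hc with hc | ⟨s, hs, hc⟩
    · exact Or.inl fun t => hc _
    · exact Or.inr ⟨s, hs, by rwa [Path.symm_range]⟩
  have hAdm_ex : ∀ y : S, ∃ m, m ∉ P ∧ ∃ d : Path m y, Adm d := by
    intro y
    by_cases hy : y ∈ P
    · obtain ⟨m, hm, c, hc⟩ := hD0m y hy
      exact ⟨m, hm, c, Or.inr ⟨y, hy, by rwa [hDP y hy]⟩⟩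
    · exact ⟨y, hy, Path.refl y, Or.inl fun t => hy⟩
  have hrange_trans : ∀ {x y z : S} (p : Path x y) (q : Path y z) (T : Set S), range p ⊆ T →
      range q ⊆ T → range (p.trans q) ⊆ T := by
    intro x y z p q T hp hq
    rw [Path.trans_range]
    exact union_subset hp hq
  let Q : ∀ {x y : S}, Path.Homotopic.Quotient x y → Prop := fun {x y} a =>
    ∀ (q q' : S) (c : Path q x) (c' : Path y q'), q ∉ P → q' ∉ P → Adm c → Adm c' →
      Av P ((Path.Homotopic.Quotient.mk c).trans (a.trans (Path.Homotopic.Quotient.mk c')))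
  have hQ : Q (Path.Homotopic.Quotient.mk p) := by
    refine path_induction (Q := Q) ?_ ?_ hDo hDs ?_ p
    · intro x q q' c c' hq hq' hc hc'
      rw [Path.Homotopic.Quotient.refl_trans]
      by_cases hx : x ∈ P
      · rw [← Path.Homotopic.Quotient.mk_trans]
        exact hdisc x hx _ (hrange_trans _ _ _ (hAdm_mem c hc hx) (hAdm_mem' c' hc' hx)) hq hq'
      · exact (hAdm_av c hc hq hx).trans (hAdm_av c' hc' hx hq')
    · intro x y z a b ha hb q q' c c' hq hq' hc hc'
      obtain ⟨m, hm, d, hd⟩ := hAdm_ex y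
      have h1 := ha q m c d.symm hq hm hc (hAdm_symm d hd)
      have h2 := hb m q' d c' hm hq' hd hc'
      have h3 := h1.trans h2
      convert h3 using 1
      simp only [Path.Homotopic.Quotient.trans_assoc, Path.Homotopic.Quotient.mk_symm]
      congr 2
      rw [← Path.Homotopic.Quotient.trans_assoc (Path.Homotopic.Quotient.symm _),
        Path.Homotopic.Quotient.symm_trans, Path.Homotopic.Quotient.refl_trans]
    · intro s x y p hp q q' c c' hq hq' hc hc'
      by_cases hs : s ∈ P
      · by_cases hx : x ∈ P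
        · have hxs := huniq s hs x (hp ⟨0, p.source⟩) hx
          have hcs : range c ⊆ D s := (hAdm_mem c hc hx).trans (congrArg D hxs).subset
          by_cases hy : y ∈ P
          · have hys := huniq s hs y (hp ⟨1, p.target⟩) hy
            have hcs' : range c' ⊆ D s := (hAdm_mem' c' hc' hy).trans (congrArg D hys).subset
            rw [← Path.Homotopic.Quotient.mk_trans, ← Path.Homotopic.Quotient.mk_trans]
            exact hdisc s hs _ (hrange_trans _ _ _ hcs (hrange_trans _ _ _ hp hcs')) hq hq'
          · rw [← Path.Homotopic.Quotient.trans_assoc, ← Path.Homotopic.Quotient.mk_trans]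
            exact (hdisc s hs _ (hrange_trans _ _ _ hcs hp) hq hy).trans (hAdm_av c' hc' hy hq')
        · refine (hAdm_av c hc hq hx).trans ?_
          by_cases hy : y ∈ P
          · have hys := huniq s hs y (hp ⟨1, p.target⟩) hy
            have hcs' : range c' ⊆ D s := (hAdm_mem' c' hc' hy).trans (congrArg D hys).subset
            rw [← Path.Homotopic.Quotient.mk_trans]
            exact hdisc s hs _ (hrange_trans _ _ _ hp hcs') hx hq'
          · exact (hdisc s hs p hp hx hy).trans (hAdm_av c' hc' hy hq')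
      · rw [hDN s hs] at hp
        have hx : x ∉ P := hp ⟨0, p.source⟩
        have hy : y ∉ P := hp ⟨1, p.target⟩
        exact (hAdm_av c hc hq hx).trans ((av_mk fun t => hp ⟨t, rfl⟩).trans
          (hAdm_av c' hc' hy hq'))
  have h1 := hQ x y (Path.refl x) (Path.refl y) hx hy (Or.inl fun t => hx) (Or.inl fun t => hy)
  rwa [Path.Homotopic.Quotient.mk_refl, Path.Homotopic.Quotient.mk_refl,
    Path.Homotopic.Quotient.refl_trans, Path.Homotopic.Quotient.trans_refl] at h1

/-- removing a closed discrete set from a surface: finite generation passes to the surface -/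
theorem fg_of_compl {P : Set S} (hP : IsolatedCharted P) (x : (Pᶜ : Set S))
    (hfg : Group.FG (FundamentalGroup (Pᶜ : Set S) x)) : Group.FG (FundamentalGroup S (x : S)) := by
  let ι : C((Pᶜ : Set S), S) := ⟨Subtype.val, continuous_subtype_val⟩
  have hsurj : Function.Surjective (FundamentalGroup.map ι x) := by
    intro a
    obtain ⟨p, rfl⟩ := Path.Homotopic.Quotient.mk_surjective a
    obtain ⟨q, hq, hqP⟩ := av_of_isolatedCharted hP x.2 x.2 p
    let q' : Path x x :=
      { toFun := fun t => ⟨q t, hqP t⟩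
        continuous_toFun := q.continuous.subtype_mk _
        source' := Subtype.ext q.source
        target' := Subtype.ext q.target }
    refine ⟨(Path.Homotopic.Quotient.mk q' : Path.Homotopic.Quotient x x), ?_⟩
    rw [← hq]
    rfl
  exact Group.fg_of_surjective hsurj

end Pool.Agent.Helper76.Flat
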