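import Mathlib

set_option autoImplicit false

/-!
The planar model of the surgery: a homeomorphism `Phi α` of the disc `ball (-3) 4` onto a region
`RW α` of the plane such that `tanh (Phi α w / 2) = w` outside `closedBall (-1) 2`.
-/

open Set Topology Filter Metric

namespace Pool.Agent.Helper76.Flat.Planar

noncomputable section

/-- the half planes / regions -/
def H1 : Set ℂ := {z | -(3/4) < z.re}
def H2 : Set ℂ := {z | -(3/4) < z.re ∧ z.re < 0}
def S3 : Set ℂ := {W | (Real.pi / 2 < W.im ∧ W.im < 3 * Real.pi / 2) ∧ -(3/4) < (Complex.exp W).re}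

lemma isOpen_H1 : IsOpen H1 := isOpen_lt continuous_const Complex.continuous_re
lemma isOpen_H2 : IsOpen H2 :=
  (isOpen_lt continuous_const Complex.continuous_re).inter
    (isOpen_lt Complex.continuous_re continuous_const)
lemma isOpen_S3 : IsOpen S3 :=
  ((isOpen_lt continuous_const Complex.continuous_im).inter
    (isOpen_lt Complex.continuous_im continuous_const)).inter
    (isOpen_lt continuous_const (Complex.continuous_re.comp Complex.continuous_exp))

/-! ### T1 -/

lemma one_sub_ne {w : ℂ} (hw : w ∈ ball (-3 : ℂ) 4) : (1 : ℂ) - w ≠ 0 := by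
  intro h
  have : w = 1 := (sub_eq_zero.1 h).symm
  rw [this, mem_ball, dist_eq_norm] at hw
  norm_num at hw

lemma add_one_ne {u : ℂ} (hu : u ∈ H1) : u + 1 ≠ 0 := by
  intro h
  have : u = -1 := eq_neg_of_add_eq_zero_left h
  rw [this] at hu
  simp only [H1, mem_ofPred_eq, Complex.neg_re, Complex.one_re] at hu
  norm_num at hu

lemma mobius_norm {w u : ℂ} (hw : 1 - w ≠ 0) (hu : u = (1 + w) / (1 - w)) (c r : ℝ) :
    ‖w - c‖ < r ↔ ‖u * (1 - c) - (1 + c)‖ < r * ‖u + 1‖ := by
  have h1 : u + 1 = 2 / (1 - w) := by rw [hu]; field_simp; ring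
  have h2 : u * (1 - c) - (1 + c) = 2 * (w - c) / (1 - w) := by rw [hu]; field_simp; ring
  rw [h1, h2, norm_div, norm_div, norm_mul]
  have h3 : 0 < ‖1 - w‖ := norm_pos_iff.2 hw
  rw [Complex.norm_two, ← mul_div_assoc, div_lt_div_iff_of_pos_right h3]
  constructor <;> intro h <;> linarith

/-- the disc is the half plane `Re > -3/4` in the Möbius coordinate -/
lemma mem_H1_iff {w : ℂ} (hw : 1 - w ≠ 0) : (1 + w) / (1 - w) ∈ H1 ↔ w ∈ ball (-3 : ℂ) 4 := by
  have h := mobius_norm hw rfl (-3) 4
  rw [mem_ball, dist_eq_norm]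
  push_cast at h
  rw [h]
  set u := (1 + w) / (1 - w) with hu
  rw [← sq_lt_sq₀ (norm_nonneg _) (by positivity), mul_pow, ← Complex.normSq_eq_norm_sq,
    ← Complex.normSq_eq_norm_sq, Complex.normSq_apply, Complex.normSq_apply]
  simp only [H1, mem_ofPred_eq]
  have e1 : (u * (1 - -3) - (1 + -3)).re = 4 * u.re + 2 := by
    simp [Complex.mul_re]; ring
  have e2 : (u * (1 - -3) - (1 + -3)).im = 4 * u.im := by
    simp [Complex.mul_im]; ring
  rw [e1, e2, Complex.add_re, Complex.add_im, Complex.one_re, Complex.one_im]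
  constructor <;> intro h <;> nlinarith

lemma mem_K_iff {w : ℂ} (hw : 1 - w ≠ 0) :
    -(1/2) ≤ ((1 + w) / (1 - w)).re ↔ w ∈ closedBall (-1 : ℂ) 2 := by
  have h := mobius_norm hw rfl (-1) 2
  have h' : w ∈ closedBall (-1 : ℂ) 2 ↔ ‖(1 + w) / (1 - w) * (1 - ((-1 : ℝ) : ℂ)) - (1 + ((-1 : ℝ) : ℂ))‖ ≤
      2 * ‖(1 + w) / (1 - w) + 1‖ := by
    have h1 : (1 + w) / (1 - w) + 1 = 2 / (1 - w) := by field_simp; ring
    have h2 : (1 + w) / (1 - w) * (1 - ((-1 : ℝ) : ℂ)) - (1 + ((-1 : ℝ) : ℂ)) =
        2 * (w + 1) / (1 - w) := by push_cast; field_simp; ring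
    rw [h1, h2, norm_div, norm_div, norm_mul]
    have h3 : 0 < ‖1 - w‖ := norm_pos_iff.2 hw
    rw [Complex.norm_two, ← mul_div_assoc, div_le_div_iff_of_pos_right h3, mem_closedBall,
      dist_eq_norm, sub_neg_eq_add]
    constructor <;> intro h <;> linarith
  rw [h']
  push_cast
  set u := (1 + w) / (1 - w) with hu
  rw [← sq_le_sq₀ (norm_nonneg _) (by positivity), mul_pow, ← Complex.normSq_eq_norm_sq,
    ← Complex.normSq_eq_norm_sq, Complex.normSq_apply, Complex.normSq_apply]
  have e1 : (u * (1 - -1) - (1 + -1)).re = 2 * u.re := by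
    simp [Complex.mul_re]; ring
  have e2 : (u * (1 - -1) - (1 + -1)).im = 2 * u.im := by
    simp [Complex.mul_im]; ring
  rw [e1, e2, Complex.add_re, Complex.add_im, Complex.one_re, Complex.one_im]
  constructor <;> intro h <;> nlinarith

def T1 : OpenPartialHomeomorph ℂ ℂ where
  toFun w := (1 + w) / (1 - w)
  invFun u := (u - 1) / (u + 1)
  source := ball (-3) 4
  target := H1
  map_source' w hw := (mem_H1_iff (one_sub_ne hw)).2 hw
  map_target' u hu := by
    have h := add_one_ne hu
    have h1 : 1 - (u - 1) / (u + 1) ≠ 0 := by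
      have : 1 - (u - 1) / (u + 1) = 2 / (u + 1) := by field_simp; ring
      rw [this]
      exact div_ne_zero two_ne_zero h
    rw [← mem_H1_iff h1]
    have : (1 + (u - 1) / (u + 1)) / (1 - (u - 1) / (u + 1)) = u := by
      field_simp
      ring
    rwa [this]
  left_inv' w hw := by
    have h := one_sub_ne hw
    have h1 : (1 + w) / (1 - w) + 1 = 2 / (1 - w) := by field_simp; ring
    have h2 : (1 + w) / (1 - w) - 1 = 2 * w / (1 - w) := by field_simp; ring
    show ((1 + w) / (1 - w) - 1) / ((1 + w) / (1 - w) + 1) = w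
    rw [h1, h2]
    field_simp
  right_inv' u hu := by
    have h := add_one_ne hu
    have h1 : 1 + (u - 1) / (u + 1) = 2 * u / (u + 1) := by field_simp; ring
    have h2 : 1 - (u - 1) / (u + 1) = 2 / (u + 1) := by field_simp; ring
    show (1 + (u - 1) / (u + 1)) / (1 - (u - 1) / (u + 1)) = u
    rw [h1, h2]
    field_simp
  open_source := isOpen_ball
  open_target := isOpen_H1
  continuousOn_toFun := by
    refine ContinuousOn.div (by fun_prop) (by fun_prop) fun w hw => one_sub_ne hw
  continuousOn_invFun := by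
    refine ContinuousOn.div (by fun_prop) (by fun_prop) fun w hw => add_one_ne hw

/-! ### T2 -/

def m (X : ℝ) : ℝ := min X (-(1 / (2 * X + 3)))
def mi (s : ℝ) : ℝ := max s (-(1 + 3 * s) / (2 * s))

lemma m_of_le {X : ℝ} (h : -(3/4) < X) (hX : X ≤ -(1/2)) : m X = X := by
  rw [m, min_eq_left]
  have h1 : 0 < 2 * X + 3 := by linarith
  rw [← sub_nonneg]
  have : -(1 / (2 * X + 3)) - X = -((2 * X + 1) * (X + 1)) / (2 * X + 3) := by
    field_simp
    ring
  rw [this]
  apply div_nonneg _ h1.le
  nlinarith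

lemma m_of_ge {X : ℝ} (hX : -(1/2) ≤ X) : m X = -(1 / (2 * X + 3)) := by
  rw [m, min_eq_right]
  have h1 : 0 < 2 * X + 3 := by linarith
  rw [← sub_nonneg]
  have : X - -(1 / (2 * X + 3)) = ((2 * X + 1) * (X + 1)) / (2 * X + 3) := by
    rw [sub_neg_eq_add, eq_div_iff h1.ne', add_mul, div_mul_cancel₀ _ h1.ne']
    ring
  rw [this]
  apply div_nonneg _ h1.le
  nlinarith

lemma m_mem {X : ℝ} (h : -(3/4) < X) : -(3/4) < m X ∧ m X < 0 := by
  rcases le_total X (-(1/2)) with hX | hX
  · rw [m_of_le h hX]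
    exact ⟨h, by linarith⟩
  · rw [m_of_ge hX]
    have h1 : 0 < 2 * X + 3 := by linarith
    refine ⟨?_, ?_⟩
    · rw [neg_lt_neg_iff, div_lt_iff₀ h1]
      linarith
    · have := one_div_pos.2 h1
      linarith

lemma mi_m {X : ℝ} (h : -(3/4) < X) : mi (m X) = X := by
  rcases le_total X (-(1/2)) with hX | hX
  · rw [m_of_le h hX, mi, max_eq_left]
    have h1 : 2 * X < 0 := by linarith
    rw [div_le_iff_of_neg h1]
    nlinarith
  · rw [m_of_ge hX, mi]
    have h1 : 0 < 2 * X + 3 := by linarith
    have h2 : -(1 + 3 * -(1 / (2 * X + 3))) / (2 * -(1 / (2 * X + 3))) = X := by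
      field_simp
      ring
    rw [h2, max_eq_right]
    have := one_div_pos.2 h1
    rw [← sub_nonneg]
    have h3 : X - -(1 / (2 * X + 3)) = ((2 * X + 1) * (X + 1)) / (2 * X + 3) := by
      rw [sub_neg_eq_add, eq_div_iff h1.ne', add_mul, div_mul_cancel₀ _ h1.ne']
      ring
    rw [h3]
    apply div_nonneg _ h1.le
    nlinarith

lemma mi_of_le {s : ℝ} (hs : s ≤ -(1/2)) (h : -(3/4) < s) : mi s = s := by
  rw [mi, max_eq_left]
  have h1 : 2 * s < 0 := by linarith
  rw [div_le_iff_of_neg h1]
  nlinarith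

lemma mi_of_ge {s : ℝ} (hs : -(1/2) ≤ s) (h : s < 0) : mi s = -(1 + 3 * s) / (2 * s) := by
  rw [mi, max_eq_right]
  have h1 : 2 * s < 0 := by linarith
  rw [le_div_iff_of_neg h1]
  nlinarith

lemma mi_ge {s : ℝ} (h : -(3/4) < s) : -(3/4) < mi s := lt_of_lt_of_le h (le_max_left _ _)

lemma mi_ge' {s : ℝ} (hs : -(1/2) ≤ s) : -(1/2) ≤ mi s := le_trans hs (le_max_left _ _)

lemma m_mi {s : ℝ} (h : -(3/4) < s) (h0 : s < 0) : m (mi s) = s := by
  rcases le_total s (-(1/2)) with hs | hs
  · rw [mi_of_le hs h, m_of_le h hs]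
  · have h1 := mi_ge' hs
    rw [m_of_ge h1, mi_of_ge hs h0]
    have hs0 : s ≠ 0 := h0.ne
    have h2 : 2 * (-(1 + 3 * s) / (2 * s)) + 3 = -(1 / s) := by
      field_simp
      ring
    rw [h2]
    field_simp

lemma continuousOn_m : ContinuousOn m {X | -(3/4) < X} := by
  unfold m
  refine ContinuousOn.inf (by fun_prop) (ContinuousOn.neg (ContinuousOn.div (by fun_prop)
    (by fun_prop) fun X hX => ?_))
  have : -(3/4) < X := hX
  linarith

lemma continuousOn_mi : ContinuousOn mi {s | s < 0} := by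
  unfold mi
  refine ContinuousOn.sup (by fun_prop) (ContinuousOn.div (by fun_prop) (by fun_prop)
    fun s hs => ?_)
  have : s < 0 := hs
  intro h
  linarith

def T2 : OpenPartialHomeomorph ℂ ℂ where
  toFun z := ⟨m z.re, z.im⟩
  invFun z := ⟨mi z.re, z.im⟩
  source := H1
  target := H2
  map_source' z hz := m_mem hz
  map_target' z hz := mi_ge hz.1
  left_inv' z hz := by
    apply Complex.ext
    · exact mi_m hz
    · rfl
  right_inv' z hz := by
    apply Complex.ext
    · exact m_mi hz.1 hz.2
    · rfl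
  open_source := isOpen_H1
  open_target := isOpen_H2
  continuousOn_toFun := by
    have h1 : ContinuousOn (fun z : ℂ => m z.re) H1 :=
      continuousOn_m.comp Complex.continuous_re.continuousOn fun z hz => hz
    have h2 : ContinuousOn (fun z : ℂ => ((m z.re : ℝ) : ℂ) + (z.im : ℂ) * Complex.I) H1 :=
      (Complex.continuous_ofReal.comp_continuousOn h1).add (by fun_prop)
    refine h2.congr fun z _ => ?_
    apply Complex.ext <;> simp
  continuousOn_invFun := by
    have h1 : ContinuousOn (fun z : ℂ => mi z.re) H2 :=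
      continuousOn_mi.comp Complex.continuous_re.continuousOn fun z hz => hz.2
    have h2 : ContinuousOn (fun z : ℂ => ((mi z.re : ℝ) : ℂ) + (z.im : ℂ) * Complex.I) H2 :=
      (Complex.continuous_ofReal.comp_continuousOn h1).add (by fun_prop)
    refine h2.congr fun z _ => ?_
    apply Complex.ext <;> simp

/-! ### T3 -/

lemma exp_neg_pi (W : ℂ) : Complex.exp (W - Real.pi * Complex.I) = -Complex.exp W := by
  rw [Complex.exp_sub, Complex.exp_pi_mul_I, div_neg, div_one]

lemma exp_re (W : ℂ) : (Complex.exp W).re = Real.exp W.re * Real.cos W.im := Complex.exp_re W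

lemma cos_neg_of_S3 {t : ℝ} (h : Real.pi / 2 < t) (h' : t < 3 * Real.pi / 2) : Real.cos t < 0 := by
  apply Real.cos_neg_of_pi_div_two_lt_of_lt h
  linarith

def T3 : OpenPartialHomeomorph ℂ ℂ where
  toFun z := Complex.log (-z) + Real.pi * Complex.I
  invFun W := Complex.exp W
  source := H2
  target := S3
  map_source' z hz := by
    have hz0 : -z ≠ 0 := by
      intro h
      have : z = 0 := neg_eq_zero.1 h
      rw [this] at hz
      exact lt_irrefl _ hz.2
    have hre : 0 < (-z).re := by rw [Complex.neg_re]; linarith [hz.2]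
    have h1 : |(Complex.log (-z)).im| < Real.pi / 2 := by
      rw [Complex.log_im]
      exact Complex.abs_arg_lt_pi_div_two_iff.2 (Or.inl hre)
    rw [abs_lt] at h1
    have him : (Complex.log (-z) + Real.pi * Complex.I).im = (Complex.log (-z)).im + Real.pi := by
      simp
    refine ⟨⟨?_, ?_⟩, ?_⟩
    · rw [him]; linarith [h1.1]
    · rw [him]; linarith [h1.2]
    · rw [Complex.exp_add, Complex.exp_pi_mul_I, Complex.exp_log hz0]
      simpa using hz.1
  map_target' W hW := by
    refine ⟨hW.2, ?_⟩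
    rw [exp_re]
    exact mul_neg_of_pos_of_neg (Real.exp_pos _) (cos_neg_of_S3 hW.1.1 hW.1.2)
  left_inv' z hz := by
    have hz0 : -z ≠ 0 := by
      intro h
      have : z = 0 := neg_eq_zero.1 h
      rw [this] at hz
      exact lt_irrefl _ hz.2
    show Complex.exp (Complex.log (-z) + Real.pi * Complex.I) = z
    rw [Complex.exp_add, Complex.exp_pi_mul_I, Complex.exp_log hz0]
    ring
  right_inv' W hW := by
    show Complex.log (-Complex.exp W) + Real.pi * Complex.I = W
    rw [← exp_neg_pi, Complex.log_exp]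
    · ring
    · simp only [Complex.sub_im, Complex.mul_im, Complex.ofReal_re, Complex.I_im, mul_one,
        Complex.ofReal_im, Complex.I_re, mul_zero, add_zero]
      linarith [hW.1.1, Real.pi_pos]
    · simp only [Complex.sub_im, Complex.mul_im, Complex.ofReal_re, Complex.I_im, mul_one,
        Complex.ofReal_im, Complex.I_re, mul_zero, add_zero]
      linarith [hW.1.2, Real.pi_pos]
  open_source := isOpen_H2
  open_target := isOpen_S3
  continuousOn_toFun := by
    refine ContinuousOn.add (ContinuousOn.clog (by fun_prop) fun z hz => ?_) (by fun_prop)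
    rw [Complex.mem_slitPlane_iff]
    left
    rw [Complex.neg_re]
    linarith [hz.2]
  continuousOn_invFun := Complex.continuous_exp.continuousOn

/-! ### T4 -/

/-- the angle up to which we stretch -/
def th (a : ℝ) : ℝ := Real.pi / 2 + 1 / (2 * (1 + Real.exp a))

lemma th_sub_pos (a : ℝ) : 0 < th a - Real.pi / 2 := by
  rw [th, add_sub_cancel_left]
  have := Real.exp_pos a
  positivity

lemma th_lt (a : ℝ) : th a < Real.pi / 2 + 1 / 2 := by
  rw [th]
  have := Real.exp_pos a
  have h : 1 / (2 * (1 + Real.exp a)) < 1 / 2 := by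
    apply one_div_lt_one_div_of_lt (by norm_num)
    linarith
  linarith

lemma continuous_th : Continuous th := by
  unfold th
  refine Continuous.add continuous_const (Continuous.div continuous_const (by fun_prop) fun a => ?_)
  have := Real.exp_pos a
  positivity

def q (α a : ℝ) : ℝ := (th a + Real.pi - α) / (th a - Real.pi / 2)

lemma one_lt_q {α : ℝ} (hα : α < Real.pi / 2) (a : ℝ) : 1 < q α a := by
  rw [q, lt_div_iff₀ (th_sub_pos a)]
  linarith [Real.pi_pos]

lemma continuous_q (α : ℝ) : Continuous (q α) := by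
  unfold q
  have := continuous_th
  refine Continuous.div (by fun_prop) (by fun_prop) fun a => (th_sub_pos a).ne'

def ka (α a t : ℝ) : ℝ := min t (th a - q α a * (th a - t))
def kai (α a t : ℝ) : ℝ := max t (th a - (th a - t) / q α a)

variable {α : ℝ}

lemma ka_of_ge (hα : α < Real.pi / 2) {a t : ℝ} (ht : th a ≤ t) : ka α a t = t := by
  rw [ka, min_eq_left]
  nlinarith [one_lt_q hα a]

lemma ka_of_le (hα : α < Real.pi / 2) {a t : ℝ} (ht : t ≤ th a) :
    ka α a t = th a - q α a * (th a - t) := by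
  rw [ka, min_eq_right]
  nlinarith [one_lt_q hα a]

lemma kai_of_ge (hα : α < Real.pi / 2) {a t : ℝ} (ht : th a ≤ t) : kai α a t = t := by
  rw [kai, max_eq_left]
  have h := one_lt_q hα a
  have : (t - th a) / q α a ≤ t - th a := div_le_self (by linarith) h.le
  have h2 : (th a - t) / q α a = -((t - th a) / q α a) := by ring
  rw [h2]
  linarith

lemma kai_of_le (hα : α < Real.pi / 2) {a t : ℝ} (ht : t ≤ th a) :
    kai α a t = th a - (th a - t) / q α a := by
  rw [kai, max_eq_right]
  have h := one_lt_q hα a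
  have : (th a - t) / q α a ≤ th a - t := div_le_self (by linarith) h.le
  linarith

lemma ka_le (hα : α < Real.pi / 2) {a t : ℝ} (ht : t ≤ th a) : ka α a t ≤ th a := by
  rw [ka_of_le hα ht]
  nlinarith [one_lt_q hα a]

lemma kai_le (hα : α < Real.pi / 2) {a t : ℝ} (ht : t ≤ th a) : kai α a t ≤ th a := by
  rw [kai_of_le hα ht]
  have h := one_lt_q hα a
  have : 0 ≤ (th a - t) / q α a := div_nonneg (by linarith) (by linarith)
  linarith

lemma kai_ka (hα : α < Real.pi / 2) (a t : ℝ) : kai α a (ka α a t) = t := by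
  have h := one_lt_q hα a
  rcases le_total (th a) t with ht | ht
  · rw [ka_of_ge hα ht, kai_of_ge hα ht]
  · rw [kai_of_le hα (ka_le hα ht), ka_of_le hα ht]
    have : q α a ≠ 0 := by linarith
    field_simp
    ring

lemma ka_kai (hα : α < Real.pi / 2) (a t : ℝ) : ka α a (kai α a t) = t := by
  have h := one_lt_q hα a
  rcases le_total (th a) t with ht | ht
  · rw [kai_of_ge hα ht, ka_of_ge hα ht]
  · rw [ka_of_le hα (kai_le hα ht), kai_of_le hα ht]
    have : q α a ≠ 0 := by linarith
    field_simp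
    ring

/-- the stretching homeomorphism -/
def kHomeo (hα : α < Real.pi / 2) : ℂ ≃ₜ ℂ where
  toFun W := ⟨W.re, ka α W.re W.im⟩
  invFun W := ⟨W.re, kai α W.re W.im⟩
  left_inv W := by
    apply Complex.ext
    · rfl
    · exact kai_ka hα _ _
  right_inv W := by
    apply Complex.ext
    · rfl
    · exact ka_kai hα _ _
  continuous_toFun := by
    have h0 := continuous_th
    have h1 := continuous_q α
    have h2 : Continuous fun W : ℂ => (W.re : ℂ) + ((ka α W.re W.im : ℝ) : ℂ) * Complex.I := by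
      unfold ka
      fun_prop
    refine h2.congr fun W => ?_
    apply Complex.ext <;> simp
  continuous_invFun := by
    have h0 := continuous_th
    have h1 := continuous_q α
    have h2 : Continuous fun W : ℂ => (W.re : ℂ) + ((kai α W.re W.im : ℝ) : ℂ) * Complex.I := by
      have h3 : Continuous fun W : ℂ => kai α W.re W.im := by
        unfold kai
        refine Continuous.max (by fun_prop) (Continuous.sub (by fun_prop) (Continuous.div
          (by fun_prop) (by fun_prop) fun W => ?_))
        have := one_lt_q hα W.re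
        linarith
      fun_prop
    refine h2.congr fun W => ?_
    apply Complex.ext <;> simp

/-- the target region -/
def RW (α : ℝ) : Set ℂ := {W | (-Real.pi + α < W.im ∧ W.im < 3 * Real.pi / 2) ∧
  (W.im ≤ Real.pi / 2 ∨ -(3/4) < (Complex.exp W).re)}

/-- in the stretched region the point is far from the boundary -/
lemma re_exp_gt {W : ℂ} (h1 : Real.pi / 2 ≤ W.im) (h2 : W.im ≤ th W.re) :
    -(1/2) < (Complex.exp W).re := by
  rw [exp_re]
  have h3 : Real.cos W.im = -Real.sin (W.im - Real.pi / 2) := by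
    rw [Real.sin_sub_pi_div_two, neg_neg]
  have h4 : Real.sin (W.im - Real.pi / 2) ≤ W.im - Real.pi / 2 := Real.sin_le (by linarith)
  have h5 : W.im - Real.pi / 2 ≤ 1 / (2 * (1 + Real.exp W.re)) := by
    rw [th] at h2
    linarith
  have h6 := Real.exp_pos W.re
  have h7 : Real.exp W.re * (1 / (2 * (1 + Real.exp W.re))) < 1 / 2 := by
    rw [mul_one_div, div_lt_div_iff₀ (by positivity) (by norm_num)]
    nlinarith
  rw [h3]
  nlinarith

lemma ka_gt (hα : α < Real.pi / 2) {a t : ℝ} (ht : Real.pi / 2 < t) :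
    -Real.pi + α < ka α a t := by
  rcases le_total (th a) t with h | h
  · rw [ka_of_ge hα h]
    linarith [Real.pi_pos]
  · rw [ka_of_le hα h]
    have h1 := th_sub_pos a
    have h2 : q α a * (th a - t) < q α a * (th a - Real.pi / 2) := by
      apply mul_lt_mul_of_pos_left (by linarith)
      linarith [one_lt_q hα a]
    have h3 : q α a * (th a - Real.pi / 2) = th a + Real.pi - α := by
      rw [q, div_mul_cancel₀ _ h1.ne']
    linarith

lemma kai_gt (hα : α < Real.pi / 2) {a t : ℝ} (ht : -Real.pi + α < t) :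
    Real.pi / 2 < kai α a t := by
  rcases le_total (th a) t with h | h
  · rw [kai_of_ge hα h]
    linarith [th_sub_pos a]
  · rw [kai_of_le hα h]
    have h1 := th_sub_pos a
    have hq := one_lt_q hα a
    have h3 : q α a * (th a - Real.pi / 2) = th a + Real.pi - α := by
      rw [q, div_mul_cancel₀ _ h1.ne']
    have h4 : (th a - t) / q α a < th a - Real.pi / 2 := by
      rw [div_lt_iff₀ (by linarith), mul_comm, h3]
      linarith
    linarith

lemma kHomeo_image (hα : α < Real.pi / 2) : kHomeo hα '' S3 = RW α := by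
  ext W
  constructor
  · rintro ⟨V, ⟨⟨h1, h2⟩, h3⟩, rfl⟩
    show ((-Real.pi + α < ka α V.re V.im ∧ ka α V.re V.im < 3 * Real.pi / 2) ∧
      (ka α V.re V.im ≤ Real.pi / 2 ∨ -(3/4) < (Complex.exp ⟨V.re, ka α V.re V.im⟩).re))
    have hle : ka α V.re V.im ≤ V.im := min_le_left _ _
    refine ⟨⟨ka_gt hα h1, by linarith⟩, ?_⟩
    rcases le_total (th V.re) V.im with h | h
    · right
      rw [ka_of_ge hα h]
      exact h3
    · rcases le_total (ka α V.re V.im) (Real.pi / 2) with h' | h'
      · exact Or.inl h'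
      · right
        have := re_exp_gt (W := ⟨V.re, ka α V.re V.im⟩) h' (ka_le hα h)
        linarith
  · rintro ⟨⟨h1, h2⟩, h3⟩
    refine ⟨(kHomeo hα).symm W, ?_, (kHomeo hα).apply_symm_apply W⟩
    show (Real.pi / 2 < kai α W.re W.im ∧ kai α W.re W.im < 3 * Real.pi / 2) ∧
      -(3/4) < (Complex.exp ⟨W.re, kai α W.re W.im⟩).re
    have hgt := kai_gt hα (a := W.re) h1
    rcases le_total (th W.re) W.im with h | h
    · rw [kai_of_ge hα h] at hgt ⊢
      refine ⟨⟨hgt, h2⟩, ?_⟩
      rcases h3 with h3 | h3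
      · exact absurd h3 (by linarith [th_sub_pos W.re])
      · exact h3
    · have hle := kai_le hα h
      refine ⟨⟨hgt, ?_⟩, ?_⟩
      · have := th_lt W.re
        have h4 := Real.pi_gt_three
        linarith
      · have := re_exp_gt (W := ⟨W.re, kai α W.re W.im⟩) hgt.le hle
        linarith

lemma isOpen_RW (hα : α < Real.pi / 2) : IsOpen (RW α) := by
  rw [← kHomeo_image hα]
  exact (kHomeo hα).isOpenMap _ isOpen_S3

def T4 (hα : α < Real.pi / 2) : OpenPartialHomeomorph ℂ ℂ :=
  (kHomeo hα).toOpenPartialHomeomorphOfImageEq S3 isOpen_S3 (RW α) (kHomeo_image hα)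

/-- the homeomorphism from the disc onto the region `RW α` -/
def Phi (hα : α < Real.pi / 2) : OpenPartialHomeomorph ℂ ℂ :=
  T1.trans' (T2.trans' (T3.trans' (T4 hα) rfl) rfl) rfl

lemma Phi_source (hα : α < Real.pi / 2) : (Phi hα).source = ball (-3) 4 := rfl
lemma Phi_target (hα : α < Real.pi / 2) : (Phi hα).target = RW α := rfl

/-- the developing map on the region `RW` -/
def E (W : ℂ) : ℂ := (Complex.exp W - 1) / (Complex.exp W + 1)

lemma exp_add_one_ne (h0 : 0 < α) {W : ℂ} (hW : W ∈ RW α) : Complex.exp W + 1 ≠ 0 := by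
  intro h
  have h1 : Complex.exp W = -1 := eq_neg_of_add_eq_zero_left h
  obtain ⟨⟨h2, h3⟩, h4⟩ := hW
  rw [h1, Complex.neg_re, Complex.one_re] at h4
  rcases h4 with h4 | h4
  · have h5 : Complex.exp W = Complex.exp (Real.pi * Complex.I) := by
      rw [h1, Complex.exp_pi_mul_I]
    rw [Complex.exp_eq_exp_iff_exists_int] at h5
    obtain ⟨n, hn⟩ := h5
    have h6 : W.im = Real.pi + n * (2 * Real.pi) := by
      rw [hn]
      simp
    rw [h6] at h2 h4
    have hpi := Real.pi_pos
    have h7 : (n : ℝ) < 0 := by nlinarith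
    have h8 : (-1 : ℝ) < n := by nlinarith
    have h9 : n < 0 := by exact_mod_cast h7
    have h10 : -1 < n := by exact_mod_cast h8
    omega
  · norm_num at h4

lemma E_Phi (hα : α < Real.pi / 2) {w : ℂ} (hw : w ∈ ball (-3 : ℂ) 4)
    (hK : w ∉ closedBall (-1 : ℂ) 2) : E (Phi hα w) = w := by
  have hne := one_sub_ne hw
  set u := (1 + w) / (1 - w) with hu
  have hu1 : u ∈ H1 := (mem_H1_iff hne).2 hw
  have hu2 : u.re < -(1/2) := by
    by_contra h
    push Not at h
    exact hK ((mem_K_iff hne).1 h)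
  have h2 : T2 u = u := by
    apply Complex.ext
    · exact m_of_le hu1 hu2.le
    · rfl
  have hu0 : u ∈ H2 := ⟨hu1, by linarith⟩
  set V := T3 u with hV
  have hV3 : V ∈ S3 := T3.map_source hu0
  have hexp : Complex.exp V = u := T3.left_inv hu0
  have hth : th V.re ≤ V.im := by
    by_contra h
    push Not at h
    have := re_exp_gt hV3.1.1.le h.le
    rw [hexp] at this
    linarith
  have h4 : (T4 hα) V = V := by
    apply Complex.ext
    · rfl
    · exact ka_of_ge hα hth
  have h5 : Phi hα w = V := by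
    show (T4 hα) (T3 (T2 (T1 w))) = V
    have h6 : T1 w = u := rfl
    rw [h6, h2, ← hV, h4]
  rw [h5, E, hexp]
  exact T1.left_inv hw

lemma Phi_symm_mem_K (hα : α < Real.pi / 2) {W : ℂ} (hW : W ∈ RW α) (h : W.im ≤ Real.pi / 2) :
    (Phi hα).symm W ∈ closedBall (-1 : ℂ) 2 := by
  set V := (T4 hα).symm W with hV
  have hV3 : V ∈ S3 := (T4 hα).map_target hW
  have hVim : V.im ≤ th V.re := kai_le hα (h.trans (by linarith [th_sub_pos W.re]))
  have h1 := re_exp_gt hV3.1.1.le hVim
  set u' := Complex.exp V with hu'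
  have hu'2 : u' ∈ H2 := T3.map_target hV3
  set u := T2.symm u' with hu
  have hu1 : u ∈ H1 := T2.map_target hu'2
  have hure : -(1/2) ≤ u.re := mi_ge' h1.le
  have h2 : (Phi hα).symm W = T1.symm u := rfl
  have hw : T1.symm u ∈ ball (-3 : ℂ) 4 := T1.map_target hu1
  rw [h2, ← mem_K_iff (one_sub_ne hw)]
  have h3 : (1 + T1.symm u) / (1 - T1.symm u) = u := T1.right_inv hu1
  rw [h3]
  exact hure

end

end Pool.Agent.Helper76.Flat.Planar
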