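import Pool.Agent.Helper76.Flat.Planar

set_option autoImplicit false

/-!
The big disc in the planar model, and planar geometry.
-/

open Set Topology Filter Metric

namespace Pool.Agent.Helper76.Flat.Planar

noncomputable section

variable {α : ℝ}

/-- centre and radius of the big disc -/
def x0 (α : ℝ) : ℂ := ⟨0, -(Real.cos α / Real.sin α)⟩
def rho (α : ℝ) : ℝ := 1 / Real.sin α

lemma sin_pos (h0 : 0 < α) (h1 : α < Real.pi / 2) : 0 < Real.sin α :=
  Real.sin_pos_of_pos_of_lt_pi h0 (by linarith [Real.pi_pos])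

lemma cos_pos (h0 : 0 < α) (h1 : α < Real.pi / 2) : 0 < Real.cos α :=
  Real.cos_pos_of_mem_Ioo ⟨by linarith [Real.pi_pos], h1⟩

lemma rho_pos (h0 : 0 < α) (h1 : α < Real.pi / 2) : 0 < rho α :=
  one_div_pos.2 (sin_pos h0 h1)

lemma dist_sq (w v : ℂ) : dist w v ^ 2 = (w.re - v.re) ^ 2 + (w.im - v.im) ^ 2 := by
  rw [dist_eq_norm, ← Complex.normSq_eq_norm_sq, Complex.normSq_apply, Complex.sub_re,
    Complex.sub_im]
  ring

lemma rho_sq (h0 : 0 < α) (h1 : α < Real.pi / 2) :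
    rho α ^ 2 = 1 + (Real.cos α / Real.sin α) ^ 2 := by
  have hs := (sin_pos h0 h1).ne'
  rw [rho]
  field_simp
  linarith [Real.sin_sq_add_cos_sq α]

lemma dist_x0_sq (w : ℂ) : dist w (x0 α) ^ 2 =
    w.re ^ 2 + w.im ^ 2 + 2 * w.im * (Real.cos α / Real.sin α) + (Real.cos α / Real.sin α) ^ 2 := by
  rw [dist_sq]
  simp only [x0]
  ring

lemma mem_disc_iff (h0 : 0 < α) (h1 : α < Real.pi / 2) {w : ℂ} : w ∈ ball (x0 α) (rho α) ↔
    w.re ^ 2 + w.im ^ 2 + 2 * w.im * (Real.cos α / Real.sin α) < 1 := by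
  rw [mem_ball, ← sq_lt_sq₀ dist_nonneg (rho_pos h0 h1).le, dist_x0_sq, rho_sq h0 h1]
  constructor <;> intro h <;> linarith

lemma mem_sphere_iff' (h0 : 0 < α) (h1 : α < Real.pi / 2) {w : ℂ} : dist w (x0 α) = rho α ↔
    w.re ^ 2 + w.im ^ 2 + 2 * w.im * (Real.cos α / Real.sin α) = 1 := by
  rw [← sq_eq_sq₀ dist_nonneg (rho_pos h0 h1).le, dist_x0_sq, rho_sq h0 h1]
  constructor <;> intro h <;> linarith

lemma ne_one_of_mem_disc (h0 : 0 < α) (h1 : α < Real.pi / 2) {w : ℂ}
    (hw : w ∈ ball (x0 α) (rho α)) : 1 - w ≠ 0 := by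
  intro h
  have : w = 1 := (sub_eq_zero.1 h).symm
  rw [this, mem_disc_iff h0 h1] at hw
  norm_num at hw

lemma normSq_pos' {w : ℂ} (h : 1 - w ≠ 0) : 0 < (1 - w.re) ^ 2 + w.im ^ 2 := by
  have := Complex.normSq_pos.2 h
  rw [Complex.normSq_apply] at this
  simp only [Complex.sub_re, Complex.one_re, Complex.sub_im, Complex.one_im] at this
  nlinarith

lemma u_re {w : ℂ} (h : 1 - w ≠ 0) : ((1 + w) / (1 - w)).re =
    (1 - w.re ^ 2 - w.im ^ 2) / ((1 - w.re) ^ 2 + w.im ^ 2) := by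
  have hp := normSq_pos' h
  rw [Complex.div_re, Complex.normSq_apply]
  simp only [Complex.sub_re, Complex.one_re, Complex.sub_im, Complex.one_im, Complex.add_re,
    Complex.add_im]
  have e : (1 - w.re) * (1 - w.re) + (0 - w.im) * (0 - w.im) = (1 - w.re) ^ 2 + w.im ^ 2 := by ring
  rw [e]
  field_simp
  ring

lemma u_im {w : ℂ} (h : 1 - w ≠ 0) : ((1 + w) / (1 - w)).im =
    2 * w.im / ((1 - w.re) ^ 2 + w.im ^ 2) := by
  have hp := normSq_pos' h
  rw [Complex.div_im, Complex.normSq_apply]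
  simp only [Complex.sub_re, Complex.one_re, Complex.sub_im, Complex.one_im, Complex.add_re,
    Complex.add_im]
  have e : (1 - w.re) * (1 - w.re) + (0 - w.im) * (0 - w.im) = (1 - w.re) ^ 2 + w.im ^ 2 := by ring
  rw [e]
  field_simp
  ring

/-- the big disc in terms of `u` -/
lemma disc_iff_u (h0 : 0 < α) (h1 : α < Real.pi / 2) {w : ℂ} (h : 1 - w ≠ 0) :
    w ∈ ball (x0 α) (rho α) ↔
    ((1 + w) / (1 - w)).im * Real.cos α < ((1 + w) / (1 - w)).re * Real.sin α := by
  have hp := normSq_pos' h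
  have hs := sin_pos h0 h1
  rw [mem_disc_iff h0 h1, u_re h, u_im h, div_mul_eq_mul_div, div_mul_eq_mul_div,
    div_lt_div_iff_of_pos_right hp]
  have e : w.re ^ 2 + w.im ^ 2 + 2 * w.im * (Real.cos α / Real.sin α) < 1 ↔
      (w.re ^ 2 + w.im ^ 2 + 2 * w.im * (Real.cos α / Real.sin α)) * Real.sin α < 1 * Real.sin α :=
    (mul_lt_mul_iff_left₀ hs).symm
  rw [e]
  have e2 : (w.re ^ 2 + w.im ^ 2 + 2 * w.im * (Real.cos α / Real.sin α)) * Real.sin α =
      (w.re ^ 2 + w.im ^ 2) * Real.sin α + 2 * w.im * Real.cos α := by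
    field_simp
  rw [e2]
  constructor <;> intro h <;> linarith

lemma sin_sub_exp (W : ℂ) : (Complex.exp W).im * Real.cos α - (Complex.exp W).re * Real.sin α =
    Real.exp W.re * Real.sin (W.im - α) := by
  rw [Complex.exp_im, Complex.exp_re, Real.sin_sub]
  ring

lemma one_sub_E {W : ℂ} (h : Complex.exp W + 1 ≠ 0) : 1 - E W = 2 / (Complex.exp W + 1) := by
  rw [E]
  field_simp
  ring

lemma one_sub_E_ne {W : ℂ} (h : Complex.exp W + 1 ≠ 0) : 1 - E W ≠ 0 := by
  rw [one_sub_E h]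
  exact div_ne_zero two_ne_zero h

set_option linter.unusedVariables false in
lemma u_E {W : ℂ} (h : Complex.exp W + 1 ≠ 0) : (1 + E W) / (1 - E W) = Complex.exp W := by
  rw [one_sub_E h]
  have : 1 + E W = 2 * Complex.exp W / (Complex.exp W + 1) := by
    rw [E]
    field_simp
    ring
  rw [this]
  field_simp

lemma E_log {w : ℂ} (h : 1 - w ≠ 0) (h' : 1 + w ≠ 0) :
    E (Complex.log ((1 + w) / (1 - w))) = w := by
  rw [E, Complex.exp_log (div_ne_zero h' h)]
  have h1 : (1 + w) / (1 - w) + 1 = 2 / (1 - w) := by field_simp; ring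
  have h2 : (1 + w) / (1 - w) - 1 = 2 * w / (1 - w) := by field_simp; ring
  rw [h1, h2]
  field_simp

lemma strip_subset_RW (h1 : α < Real.pi / 2) {W : ℂ} (hW : -Real.pi + α < W.im)
    (hW' : W.im ≤ Real.pi / 2) : W ∈ RW α :=
  ⟨⟨hW, by linarith [Real.pi_pos]⟩, Or.inl hW'⟩

lemma E_mem_disc (h0 : 0 < α) (h1 : α < Real.pi / 2) {W : ℂ} (hW : -Real.pi + α < W.im)
    (hW' : W.im < α) : E W ∈ ball (x0 α) (rho α) := by
  have hne := exp_add_one_ne h0 (strip_subset_RW h1 hW (hW'.le.trans h1.le))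
  rw [disc_iff_u h0 h1 (one_sub_E_ne hne), u_E hne, ← sub_neg, sin_sub_exp]
  apply mul_neg_of_pos_of_neg (Real.exp_pos _)
  exact Real.sin_neg_of_neg_of_neg_pi_lt (by linarith) (by linarith)

lemma log_E (h0 : 0 < α) (h1 : α < Real.pi / 2) {W : ℂ} (hW : -Real.pi + α < W.im)
    (hW' : W.im ≤ Real.pi / 2) : Complex.log ((1 + E W) / (1 - E W)) = W := by
  have hne := exp_add_one_ne h0 (strip_subset_RW h1 hW hW')
  rw [u_E hne, Complex.log_exp (by linarith) (by linarith [Real.pi_pos])]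

lemma add_ne_of_mem_disc (h0 : 0 < α) (h1 : α < Real.pi / 2) {w : ℂ}
    (hw : w ∈ ball (x0 α) (rho α)) : 1 + w ≠ 0 := by
  intro h
  have : w = -1 := by linear_combination h
  rw [this, mem_disc_iff h0 h1] at hw
  norm_num at hw

/-- the logarithmic coordinate of a point of the disc -/
def lg (w : ℂ) : ℂ := Complex.log ((1 + w) / (1 - w))

lemma lg_im_mem (h0 : 0 < α) (h1 : α < Real.pi / 2) {w : ℂ} (hw : w ∈ ball (x0 α) (rho α)) :
    -Real.pi + α < (lg w).im ∧ (lg w).im < α := by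
  have hne := ne_one_of_mem_disc h0 h1 hw
  have hne' := add_ne_of_mem_disc h0 h1 hw
  have h2 := (disc_iff_u h0 h1 hne).1 hw
  have hexp : Complex.exp (lg w) = (1 + w) / (1 - w) := Complex.exp_log (div_ne_zero hne' hne)
  rw [← hexp, ← sub_neg, sin_sub_exp] at h2
  have h3 : Real.sin ((lg w).im - α) < 0 := by
    by_contra h
    push Not at h
    have := mul_nonneg (Real.exp_pos (lg w).re).le h
    linarith
  have h4 : -Real.pi < (lg w).im := Complex.neg_pi_lt_log_im _
  have h5 : (lg w).im ≤ Real.pi := Complex.log_im_le_pi _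
  constructor
  · by_contra h
    push Not at h
    have h6 : 0 ≤ Real.sin ((lg w).im - α + 2 * Real.pi) := by
      apply Real.sin_nonneg_of_nonneg_of_le_pi
      · linarith
      · linarith
    rw [Real.sin_add_two_pi] at h6
    linarith
  · by_contra h
    push Not at h
    have h6 : 0 ≤ Real.sin ((lg w).im - α) := by
      apply Real.sin_nonneg_of_nonneg_of_le_pi
      · linarith
      · linarith
    linarith

lemma E_lg (h0 : 0 < α) (h1 : α < Real.pi / 2) {w : ℂ} (hw : w ∈ ball (x0 α) (rho α)) :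
    E (lg w) = w :=
  E_log (ne_one_of_mem_disc h0 h1 hw) (add_ne_of_mem_disc h0 h1 hw)

lemma lg_mem_RW (h0 : 0 < α) (h1 : α < Real.pi / 2) {w : ℂ} (hw : w ∈ ball (x0 α) (rho α)) :
    lg w ∈ RW α := by
  have h := lg_im_mem h0 h1 hw
  exact strip_subset_RW h1 h.1 (h.2.le.trans h1.le)

lemma lg_im_neg_iff {w : ℂ} (h : 1 - w ≠ 0) : (lg w).im < 0 ↔ w.im < 0 := by
  have hp := normSq_pos' h
  rw [lg, Complex.log_im, Complex.arg_neg_iff, u_im h]
  constructor
  · intro h'
    by_contra hc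
    push Not at hc
    have : 0 ≤ 2 * w.im / ((1 - w.re) ^ 2 + w.im ^ 2) := by positivity
    linarith
  · intro h'
    exact div_neg_of_neg_of_pos (by linarith) hp

lemma continuousOn_lg (h0 : 0 < α) (h1 : α < Real.pi / 2) :
    ContinuousOn lg (ball (x0 α) (rho α)) := by
  unfold lg
  refine ContinuousOn.clog (ContinuousOn.div (by fun_prop) (by fun_prop)
    fun w hw => ne_one_of_mem_disc h0 h1 hw) fun w hw => ?_
  have hne := ne_one_of_mem_disc h0 h1 hw
  have h2 := (disc_iff_u h0 h1 hne).1 hw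
  have h3 := cos_pos h0 h1
  have h4 := sin_pos h0 h1
  rw [Complex.mem_slitPlane_iff]
  by_contra hc
  push Not at hc
  rw [hc.2, zero_mul] at h2
  have := mul_nonneg (neg_nonneg.2 hc.1) h4.le
  linarith

/-! ### the derivative of `E` -/

lemma hasStrictDerivAt_E (h0 : 0 < α) {W : ℂ} (hW : W ∈ RW α) :
    ∃ d : ℂ, d ≠ 0 ∧ HasStrictDerivAt E d W := by
  have hne := exp_add_one_ne h0 hW
  have h1 : HasStrictDerivAt (fun W => Complex.exp W - 1) (Complex.exp W) W :=
    (Complex.hasStrictDerivAt_exp W).sub_const 1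
  have h2 : HasStrictDerivAt (fun W => Complex.exp W + 1) (Complex.exp W) W :=
    (Complex.hasStrictDerivAt_exp W).add_const 1
  have h3 := h1.div h2 hne
  refine ⟨_, ?_, h3⟩
  apply div_ne_zero _ (pow_ne_zero 2 hne)
  have : Complex.exp W * (Complex.exp W + 1) - (Complex.exp W - 1) * Complex.exp W =
      2 * Complex.exp W := by ring
  rw [this]
  exact mul_ne_zero two_ne_zero (Complex.exp_ne_zero W)

lemma continuousOn_E (h0 : 0 < α) : ContinuousOn E (RW α) := by
  intro W hW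
  obtain ⟨d, _, hd⟩ := hasStrictDerivAt_E h0 hW
  exact hd.hasDerivAt.continuousAt.continuousWithinAt

lemma map_nhds_E (h0 : 0 < α) {W : ℂ} (hW : W ∈ RW α) : map E (𝓝 W) = 𝓝 (E W) := by
  obtain ⟨d, hd0, hd⟩ := hasStrictDerivAt_E h0 hW
  exact hd.map_nhds_eq hd0

lemma isOpen_E_image (h0 : 0 < α) {V : Set ℂ} (hV : IsOpen V) (hVR : V ⊆ RW α) :
    IsOpen (E '' V) := by
  rw [isOpen_iff_mem_nhds]
  rintro _ ⟨W, hW, rfl⟩
  rw [← map_nhds_E h0 (hVR hW)]
  exact image_mem_map (hV.mem_nhds hW)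

lemma injOn_E (h0 : 0 < α) {A : Set ℂ} (hA : A ⊆ RW α)
    (h : ∀ W ∈ A, ∀ W' ∈ A, |W.im - W'.im| < 2 * Real.pi) : InjOn E A := by
  intro W hW W' hW' hE
  have h1 := u_E (exp_add_one_ne h0 (hA hW))
  rw [hE, u_E (exp_add_one_ne h0 (hA hW'))] at h1
  rw [eq_comm, Complex.exp_eq_exp_iff_exists_int] at h1
  obtain ⟨n, hn⟩ := h1
  have h2 : W.im - W'.im = n * (2 * Real.pi) := by
    rw [hn]
    simp
  have h3 := h W hW W' hW'
  rw [h2, abs_mul, abs_of_pos (by positivity : 0 < 2 * Real.pi)] at h3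
  have h4 : |(n : ℝ)| < 1 := by
    have := Real.pi_pos
    by_contra hc
    push Not at hc
    nlinarith
  have h5 : n = 0 := by
    have : |n| < 1 := by exact_mod_cast h4
    exact Int.abs_lt_one_iff.1 this
  rw [hn, h5]
  simp

lemma E_mem_ball (h0 : 0 < α) {W : ℂ} (hW : W ∈ RW α) (h : -(Real.pi / 2) ≤ W.im) :
    E W ∈ ball (-3 : ℂ) 4 := by
  have hne := exp_add_one_ne h0 hW
  rw [← mem_H1_iff (one_sub_E_ne hne), u_E hne]
  rcases hW.2 with h2 | h2
  · show -(3/4) < (Complex.exp W).re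
    rw [Complex.exp_re]
    have := mul_nonneg (Real.exp_pos W.re).le (Real.cos_nonneg_of_neg_pi_div_two_le_of_le h h2)
    linarith
  · exact h2

/-- points of the lower arc are not reached -/
lemma no_limit (h0 : 0 < α) (h1 : α < Real.pi / 2) {W : ℂ} (hW : W ∈ RW α) (hα : W.im ≤ α)
    (hd : dist (E W) (x0 α) = rho α) : 0 < (E W).im := by
  rcases hα.lt_or_eq with h | h
  · have := E_mem_disc h0 h1 hW.1.1 h
    rw [mem_ball, hd] at this
    exact absurd this (lt_irrefl _)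
  · have hne := exp_add_one_ne h0 hW
    have h2 : ¬ (lg (E W)).im < 0 := by
      rw [lg, log_E h0 h1 hW.1.1 (hα.trans h1.le), h]
      exact not_lt.2 h0.le
    rw [lg_im_neg_iff (one_sub_E_ne hne)] at h2
    push Not at h2
    rcases h2.lt_or_eq with h3 | h3
    · exact h3
    · exfalso
      have h4 := u_im (one_sub_E_ne hne)
      rw [u_E hne, ← h3, mul_zero, zero_div, Complex.exp_im, h] at h4
      have := mul_pos (Real.exp_pos W.re) (sin_pos h0 h1)
      linarith

/-- the planar lemma -/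
lemma planar_lemma (h0 : 0 < α) (h1 : α < Real.pi / 2) {v : ℂ} {p : ℂ}
    (hp : p ∈ ball v (rho α)) (hp' : p ∈ ball (x0 α) (rho α))
    (havoid : ∀ x : ℂ, dist x (x0 α) = rho α → x.im ≤ 0 → x ∉ ball v (rho α)) :
    v = x0 α ∨ 0 < v.im := by
  by_contra hc
  push Not at hc
  obtain ⟨hne, him⟩ := hc
  have hρ := rho_pos h0 h1
  have hs := sin_pos h0 h1
  set d : ℂ := v - x0 α with hd
  have hd0 : d ≠ 0 := sub_ne_zero.2 hne
  have hdn : 0 < ‖d‖ := norm_pos_iff.2 hd0
  have hd2 : ‖d‖ < 2 * rho α := by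
    have h2 : dist v (x0 α) ≤ dist v p + dist p (x0 α) := dist_triangle _ _ _
    rw [dist_eq_norm, ← hd] at h2
    rw [mem_ball, dist_comm] at hp
    rw [mem_ball] at hp'
    linarith
  -- the point of the circle in direction `d`
  set x : ℂ := x0 α + (rho α / ‖d‖ : ℝ) * d with hx
  have hxd : dist x (x0 α) = rho α := by
    rw [dist_eq_norm, hx, add_sub_cancel_left, norm_mul, Complex.norm_real, Real.norm_eq_abs,
      abs_of_pos (div_pos hρ hdn), div_mul_cancel₀ _ hdn.ne']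
  have hxv : x ∈ ball v (rho α) := by
    rw [mem_ball, dist_eq_norm]
    have h2 : x - v = ((rho α / ‖d‖ - 1 : ℝ) : ℂ) * d := by
      rw [hx]
      push_cast
      rw [hd]
      ring
    rw [h2, norm_mul, Complex.norm_real, Real.norm_eq_abs]
    have h3 : |rho α / ‖d‖ - 1| * ‖d‖ = |rho α - ‖d‖| := by
      rw [← abs_of_pos hdn, ← abs_mul, abs_of_pos hdn, sub_mul, div_mul_cancel₀ _ hdn.ne', one_mul]
    rw [h3, abs_lt]
    constructor <;> linarith
  have hxim : 0 < x.im := by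
    by_contra h
    push Not at h
    exact havoid x hxd h hxv
  -- endpoints
  have hmul : (((rho α / ‖d‖ : ℝ) : ℂ) * d).im = rho α / ‖d‖ * d.im :=
    Complex.im_ofReal_mul _ _
  have hxim' : x.im = -(Real.cos α / Real.sin α) + rho α / ‖d‖ * d.im := by
    rw [hx, Complex.add_im, hmul]
    rfl
  have hvim : v.im = -(Real.cos α / Real.sin α) + d.im := by
    have : v = x0 α + d := by rw [hd]; ring
    rw [this, Complex.add_im]
    rfl
  have hvre : v.re = d.re := by
    have : v = x0 α + d := by rw [hd]; ring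
    rw [this, Complex.add_re]
    simp [x0]
  have hcpos := cos_pos h0 h1
  have hcs : 0 < Real.cos α / Real.sin α := div_pos hcpos hs
  have hdim : 0 < d.im := by
    by_contra h
    push Not at h
    have : rho α / ‖d‖ * d.im ≤ 0 := mul_nonpos_of_nonneg_of_nonpos (div_pos hρ hdn).le h
    linarith
  -- `Im d > ‖d‖ cos α`
  have h5 : Real.cos α * ‖d‖ < d.im := by
    have h7 : 1 / Real.sin α / ‖d‖ * d.im = (d.im / ‖d‖) / Real.sin α := by field_simp
    have h6' : Real.cos α / Real.sin α < (d.im / ‖d‖) / Real.sin α := by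
      rw [← h7]
      have := hxim
      rw [hxim', rho] at this
      linarith
    rw [div_lt_div_iff_of_pos_right hs, lt_div_iff₀ hdn] at h6'
    exact h6'
  -- `|Re d| < 2`
  have hnsq : ‖d‖ ^ 2 = d.re ^ 2 + d.im ^ 2 := by
    rw [← Complex.normSq_eq_norm_sq, Complex.normSq_apply]; ring
  have h8 : |d.re| < 2 := by
    have h9 : d.re ^ 2 < (Real.sin α * ‖d‖) ^ 2 := by
      have h10 : (Real.cos α * ‖d‖) ^ 2 < d.im ^ 2 := by
        apply pow_lt_pow_left₀ h5 (by positivity) (by norm_num)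
      have h11 := Real.sin_sq_add_cos_sq α
      nlinarith
    have h12 : |d.re| < Real.sin α * ‖d‖ := abs_lt_of_sq_lt_sq h9 (by positivity)
    have h13 : Real.sin α * ‖d‖ < Real.sin α * (2 * rho α) := mul_lt_mul_of_pos_left hd2 hs
    have h14 : Real.sin α * (2 * rho α) = 2 := by rw [rho]; field_simp
    linarith
  have h15 : v.im ^ 2 < (Real.cos α / Real.sin α) ^ 2 := by
    rw [sq_lt_sq, abs_of_nonpos him, abs_of_pos hcs]
    linarith
  have hend : ∀ s : ℝ, s ^ 2 = 1 → 0 ≤ s * v.re → (s : ℂ) ∈ ball v (rho α) := by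
    intro s hs2 hsv
    rw [mem_ball, ← sq_lt_sq₀ dist_nonneg hρ.le, dist_sq, rho_sq h0 h1]
    simp only [Complex.ofReal_re, Complex.ofReal_im]
    have h16 : s * v.re = |v.re| := by
      have h17 : |s| = 1 := by
        rw [← sq_eq_sq₀ (abs_nonneg _) zero_le_one, sq_abs, hs2, one_pow]
      rw [← abs_of_nonneg hsv, abs_mul, h17, one_mul]
    rw [← hvre] at h8
    have h18 : (|v.re|) ^ 2 = v.re ^ 2 := sq_abs _
    nlinarith [abs_nonneg v.re]
  have hend' : ∀ s : ℝ, s ^ 2 = 1 → dist (s : ℂ) (x0 α) = rho α := by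
    intro s hs2
    rw [mem_sphere_iff' h0 h1]
    simp [hs2]
  rcases le_total 0 v.re with h | h
  · exact havoid ((1 : ℝ) : ℂ) (hend' 1 (by norm_num)) (by simp) (hend 1 (by norm_num) (by linarith))
  · exact havoid ((-1 : ℝ) : ℂ) (hend' (-1) (by norm_num)) (by simp)
      (hend (-1) (by norm_num) (by linarith))

/-- a rotation preserving an arc is trivial -/
lemma rotation_lemma {lam : ℂ} (hlam : ‖lam‖ = 1) {c : ℝ} (hc : 0 < c) (hc1 : c < 1)
    (h : ∀ e : ℂ, ‖e‖ = 1 → c < e.im → c < (lam * e).im) : lam = 1 := by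
  by_contra hne
  have hpow : ∀ n : ℕ, c < (lam ^ n * Complex.I).im := by
    intro n
    induction n with
    | zero => simpa using hc1
    | succ n ih =>
      have := h (lam ^ n * Complex.I) (by simp [hlam]) ih
      rw [← mul_assoc, ← pow_succ'] at this
      exact this
  have hre : ∀ n : ℕ, c < (lam ^ n).re := by
    intro n
    have := hpow n
    simpa using this
  have hgeom : ∀ N : ℕ, (∑ n ∈ Finset.range N, lam ^ n) * (lam - 1) = lam ^ N - 1 :=
    fun N => geom_sum_mul lam N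
  have hbound : ∀ N : ℕ, c * N * ‖lam - 1‖ ≤ 2 := by
    intro N
    have h1 : c * N ≤ ‖∑ n ∈ Finset.range N, lam ^ n‖ := by
      refine le_trans ?_ (Complex.re_le_norm _)
      rw [Complex.re_sum]
      have : ∑ n ∈ Finset.range N, c ≤ ∑ n ∈ Finset.range N, (lam ^ n).re :=
        Finset.sum_le_sum fun n _ => (hre n).le
      simpa [mul_comm] using this
    have h2 : ‖(∑ n ∈ Finset.range N, lam ^ n) * (lam - 1)‖ ≤ 2 := by
      rw [hgeom]
      refine (norm_sub_le _ _).trans ?_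
      rw [norm_pow, hlam, one_pow, norm_one]
      norm_num
    rw [norm_mul] at h2
    exact (mul_le_mul_of_nonneg_right h1 (norm_nonneg _)).trans h2
  have hpos : 0 < c * ‖lam - 1‖ := mul_pos hc (norm_pos_iff.2 (sub_ne_zero.2 hne))
  obtain ⟨N, hN⟩ := exists_nat_gt (2 / (c * ‖lam - 1‖))
  have := hbound N
  rw [div_lt_iff₀ hpos] at hN
  nlinarith

end

end Pool.Agent.Helper76.Flat.Planar
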