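import Pool.Agent.Helper76.Flat.Ends
import Pool.Agent.Helper76.Flat.Finite

set_option autoImplicit false
set_option linter.style.haveILetI false

/-!
Basic facts about holomorphic group actions on Riemann surfaces: fixed points are isolated, free
discs exist.
-/

open Set Topology Filter Metric

namespace Pool.Agent.Helper76.Flat

variable {S : Type*} [TopologicalSpace S]

namespace RiemannSurfaceStructure

variable {X : RiemannSurfaceStructure S}

lemma exists_chart (X : RiemannSurfaceStructure S) (x : S) : ∃ φ ∈ X.charts, x ∈ φ.source := by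
  have : x ∈ ⋃ φ ∈ X.charts, φ.source := by rw [X.cover]; exact mem_univ _
  simpa using this

/-- near a fixed point a holomorphic map is the identity or has no other fixed point -/
lemma IsHolomorphic.dichotomy {f : S → S} (hf : X.IsHolomorphic f) {x : S} (hx : f x = x) :
    (∀ᶠ y in 𝓝 x, f y = y) ∨ ∃ U ∈ 𝓝 x, U ∩ {y | f y = y} = {x} := by
  obtain ⟨φ, hφ, hxφ⟩ := X.exists_chart x
  have hd := hf.2 φ hφ φ hφ
  set V := φ.target ∩ φ.symm ⁻¹' (f ⁻¹' φ.source) with hV
  have hVo : IsOpen V :=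
    φ.continuousOn_symm.isOpen_inter_preimage φ.open_target (φ.open_source.preimage hf.1)
  have hz0 : φ x ∈ V := ⟨φ.map_source hxφ, by
    show f (φ.symm (φ x)) ∈ φ.source
    rw [φ.left_inv hxφ, hx]
    exact hxφ⟩
  have han : AnalyticAt ℂ (fun z => (φ ∘ f ∘ φ.symm) z - z) (φ x) :=
    (hd.analyticAt (hVo.mem_nhds hz0)).sub analyticAt_id
  have hcφ : Tendsto φ (𝓝 x) (𝓝 (φ x)) := φ.continuousAt hxφ
  have hsrc : ∀ᶠ y in 𝓝 x, y ∈ φ.source ∧ f y ∈ φ.source := by
    have a : ∀ᶠ y in 𝓝 x, y ∈ φ.source := φ.open_source.mem_nhds hxφ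
    have b : ∀ᶠ y in 𝓝 x, f y ∈ φ.source :=
      hf.1.continuousAt.eventually (φ.open_source.mem_nhds (hx.symm ▸ hxφ))
    exact a.and b
  rcases han.eventually_eq_zero_or_eventually_ne_zero with h | h
  · left
    filter_upwards [hcφ.eventually h, hsrc] with y hy hys
    have h1 : φ (f (φ.symm (φ y))) - φ y = 0 := hy
    rw [φ.left_inv hys.1, sub_eq_zero] at h1
    exact φ.injOn hys.2 hys.1 h1
  · right
    have h1 : ∀ᶠ z in 𝓝 (φ x), z ≠ φ x → (φ ∘ f ∘ φ.symm) z - z ≠ 0 := by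
      rw [eventually_nhdsWithin_iff] at h
      exact h
    refine ⟨{y | (y ∈ φ.source ∧ f y ∈ φ.source) ∧
      (φ y ≠ φ x → (φ ∘ f ∘ φ.symm) (φ y) - φ y ≠ 0)}, hsrc.and (hcφ.eventually h1), ?_⟩
    ext y
    constructor
    · rintro ⟨⟨hys, hy⟩, hfy⟩
      by_contra hne
      have h2 : φ y ≠ φ x := fun h => hne (φ.injOn hys.1 hxφ h)
      apply hy h2
      show φ (f (φ.symm (φ y))) - φ y = 0
      rw [φ.left_inv hys.1, show f y = y from hfy, sub_self]
    · intro hyx
      rw [mem_singleton_iff] at hyx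
      subst hyx
      exact ⟨⟨⟨hxφ, hx.symm ▸ hxφ⟩, fun h => absurd rfl h⟩, hx⟩

/-- fixed points of nontrivial holomorphic maps are isolated -/
lemma IsHolomorphic.isolated [T2Space S] [PreconnectedSpace S] {f : S → S}
    (hf : X.IsHolomorphic f) (hne : f ≠ id) {x : S} (hx : f x = x) :
    ∃ U ∈ 𝓝 x, U ∩ {y | f y = y} = {x} := by
  rcases hf.dichotomy hx with h | h
  swap
  · exact h
  exfalso
  set A : Set S := {x | ∀ᶠ y in 𝓝 x, f y = y} with hA
  have hAo : IsOpen A := by
    rw [isOpen_iff_mem_nhds]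
    intro y hy
    exact eventually_eventually_nhds.2 hy
  have hAc : IsClosed A := by
    rw [← closure_subset_iff_isClosed]
    intro y hy
    have hfy : f y = y := by
      have h1 : A ⊆ {y | f y = y} := fun z hz => hz.self_of_nhds
      exact closure_minimal h1 (isClosed_eq hf.1 continuous_id) hy
    rcases hf.dichotomy hfy with h1 | ⟨U, hU, hUf⟩
    · exact h1
    · obtain ⟨z, hz1, hz2⟩ := mem_closure_iff_nhds.1 hy U hU
      have h2 : z ∈ U ∩ {y | f y = y} := ⟨hz1, hz2.self_of_nhds⟩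
      rw [hUf, mem_singleton_iff] at h2
      rwa [h2] at hz2
  have huniv : A = univ := IsClopen.eq_univ ⟨hAc, hAo⟩ ⟨x, h⟩
  apply hne
  ext y
  have : y ∈ A := by rw [huniv]; exact mem_univ _
  exact this.self_of_nhds

end RiemannSurfaceStructure

/-- a finite union of closed sets with isolated points -/
lemma isolatedCharted_iUnion {ι : Type*} [Finite ι] {P : ι → Set S}
    (hP : ∀ i, IsolatedCharted (P i)) : IsolatedCharted (⋃ i, P i) := by
  refine ⟨isClosed_iUnion_of_finite fun i => (hP i).1, fun p hp => ?_⟩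
  have hall : ∀ i, ∃ U ∈ 𝓝 p, U ∩ P i ⊆ {p} := by
    intro i
    by_cases h : p ∈ P i
    · obtain ⟨U, hU, hUP⟩ := ((hP i).2 p h).1
      exact ⟨U, hU, hUP.subset⟩
    · refine ⟨(P i)ᶜ, (hP i).1.isOpen_compl.mem_nhds h, ?_⟩
      rw [compl_inter_self]
      exact empty_subset _
  choose U hU hUP using hall
  obtain ⟨i0, hi0⟩ := mem_iUnion.1 hp
  refine ⟨⟨⋂ i, U i, (iInter_mem (f := 𝓝 p)).2 hU, ?_⟩, ((hP i0).2 p hi0).2⟩
  apply Subset.antisymm
  · rintro x ⟨hx, hxP⟩
    obtain ⟨i, hi⟩ := mem_iUnion.1 hxP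
    exact hUP i ⟨mem_iInter.1 hx i, hi⟩
  · rw [singleton_subset_iff]
    exact ⟨mem_iInter.2 fun i => mem_of_mem_nhds (hU i), hp⟩

section action

variable {G : Type*} [Group G] (ρ : G →* (S ≃ₜ S))

/-- points with nontrivial stabiliser -/
def fixSet : Set S := {x | ∃ g : G, g ≠ 1 ∧ ρ g x = x}

variable {ρ} {X : RiemannSurfaceStructure S}

lemma smul_mem_fixSet {g : G} {x : S} : ρ g x ∈ fixSet ρ ↔ x ∈ fixSet ρ := by
  have key : ∀ g : G, ∀ x : S, x ∈ fixSet ρ → ρ g x ∈ fixSet ρ := by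
    rintro g x ⟨k, hk, hkx⟩
    refine ⟨g * k * g⁻¹, fun h => hk ?_, ?_⟩
    · have : k = g⁻¹ * (g * k * g⁻¹) * g := by group
      rw [this, h]; group
    · rw [map_mul, map_mul, Homeomorph.mul_apply, Homeomorph.mul_apply, map_inv]
      rw [show (ρ g)⁻¹ (ρ g x) = x from (ρ g).symm_apply_apply x, hkx]
  refine ⟨fun h => ?_, key g x⟩
  have := key g⁻¹ _ h
  rwa [← Homeomorph.mul_apply, ← map_mul, inv_mul_cancel, map_one] at this

lemma isolatedCharted_fixSet [T2Space S] [PreconnectedSpace S] [Finite G]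
    (hρ : ∀ g, X.IsHolomorphic (ρ g)) (hinj : Function.Injective ρ) :
    IsolatedCharted (fixSet ρ) := by
  have h1 : fixSet ρ = ⋃ g : {g : G // g ≠ 1}, {x | ρ g x = x} := by
    ext x
    simp [fixSet]
  rw [h1]
  refine isolatedCharted_iUnion fun g => ?_
  have hne : (ρ g : S → S) ≠ id := by
    intro h
    apply g.2
    apply hinj
    rw [map_one]
    ext x
    exact congrFun h x
  refine ⟨isClosed_eq (ρ g).continuous continuous_id, fun x hx => ⟨?_, ?_⟩⟩
  · exact (hρ g).isolated hne hx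
  · obtain ⟨φ, -, hφ⟩ := X.exists_chart x
    exact ⟨φ, hφ⟩

/-- neighbourhoods with disjoint translates -/
lemma exists_free_nhds [T2Space S] [Finite G] {x : S} (hx : x ∉ fixSet ρ) :
    ∃ V : Set S, IsOpen V ∧ x ∈ V ∧ ∀ g : G, g ≠ 1 → Disjoint (ρ g '' V) V := by
  have hall : ∀ g : G, ∃ V : Set S, IsOpen V ∧ x ∈ V ∧ (g ≠ 1 → Disjoint (ρ g '' V) V) := by
    intro g
    by_cases hg : g = 1
    · exact ⟨univ, isOpen_univ, mem_univ _, fun h => absurd hg h⟩
    · have hne : ρ g x ≠ x := fun h => hx ⟨g, hg, h⟩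
      obtain ⟨A, B, hA, hB, hxA, hxB, hAB⟩ := t2_separation hne
      refine ⟨B ∩ ρ g ⁻¹' A, hB.inter (hA.preimage (ρ g).continuous), ⟨hxB, hxA⟩, fun _ => ?_⟩
      refine hAB.mono ?_ inter_subset_left
      rintro _ ⟨y, hy, rfl⟩
      exact hy.2
  choose V hVo hxV hV using hall
  refine ⟨⋂ g, V g, isOpen_iInter_of_finite hVo, mem_iInter.2 hxV, fun g hg => ?_⟩
  exact (hV g hg).mono (image_mono (iInter_subset V g)) (iInter_subset V g)

/-- the disc chart `φ` restricted to `ball c r` and rescaled to the plane -/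
noncomputable def discChart (φ : OpenPartialHomeomorph S ℂ) (c : ℂ) (r : ℝ) :
    OpenPartialHomeomorph S ℂ :=
  φ.trans (OpenPartialHomeomorph.univBall c r).symm

lemma discChart_source (φ : OpenPartialHomeomorph S ℂ) (c : ℂ) {r : ℝ} (hr : 0 < r)
    (h : ball c r ⊆ φ.target) : (discChart φ c r).source = φ.symm '' ball c r := by
  rw [discChart, OpenPartialHomeomorph.trans_source, OpenPartialHomeomorph.symm_source,
    OpenPartialHomeomorph.univBall_target c hr]
  ext x
  constructor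
  · rintro ⟨h1, h2⟩
    exact ⟨φ x, h2, φ.left_inv h1⟩
  · rintro ⟨z, hz, rfl⟩
    refine ⟨φ.map_target (h hz), ?_⟩
    rw [mem_preimage, φ.right_inv (h hz)]
    exact hz

lemma discChart_target (φ : OpenPartialHomeomorph S ℂ) (c : ℂ) {r : ℝ} (hr : 0 < r)
    (h : ball c r ⊆ φ.target) : (discChart φ c r).target = univ := by
  rw [discChart, OpenPartialHomeomorph.trans_target, OpenPartialHomeomorph.symm_target,
    OpenPartialHomeomorph.univBall_source, univ_inter, OpenPartialHomeomorph.symm_symm,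
    eq_univ_iff_forall]
  intro z
  apply h
  have h1 := (OpenPartialHomeomorph.univBall c r).map_source
    (x := z) (by rw [OpenPartialHomeomorph.univBall_source]; exact mem_univ _)
  rwa [OpenPartialHomeomorph.univBall_target c hr] at h1

/-- free discs exist -/
lemma exists_freeDisc [T2Space S] [Finite G] (hch : ∀ x : S, ∃ φ : OpenPartialHomeomorph S ℂ, x ∈ φ.source)
    {x : S} (hx : x ∉ fixSet ρ) {W : Set S} (hW : W ∈ 𝓝 x) :
    ∃ u : OpenPartialHomeomorph S ℂ, FreeDisc ρ u ∧ x ∈ u.source ∧ u.source ⊆ W := by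
  obtain ⟨V, hVo, hxV, hV⟩ := exists_free_nhds hx
  obtain ⟨φ, hxφ⟩ := hch x
  have hn : φ.symm ⁻¹' (V ∩ W) ∩ φ.target ∈ 𝓝 (φ x) := by
    refine inter_mem ?_ (φ.open_target.mem_nhds (φ.map_source hxφ))
    refine (φ.continuousAt_symm (φ.map_source hxφ)).preimage_mem_nhds ?_
    rw [φ.left_inv hxφ]
    exact inter_mem (hVo.mem_nhds hxV) hW
  obtain ⟨r, hr, hb⟩ := Metric.mem_nhds_iff.1 hn
  have hbt : ball (φ x) r ⊆ φ.target := fun z hz => (hb hz).2
  have hs := discChart_source φ (φ x) hr hbt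
  have hsV : (discChart φ (φ x) r).source ⊆ V ∩ W := by
    rw [hs]
    rintro _ ⟨z, hz, rfl⟩
    exact (hb hz).1
  refine ⟨discChart φ (φ x) r, ⟨discChart_target φ (φ x) hr hbt, fun g hg => ?_⟩, ?_, ?_⟩
  · exact (hV g hg).mono (image_mono (hsV.trans inter_subset_left)) (hsV.trans inter_subset_left)
  · rw [hs]
    exact ⟨φ x, mem_ball_self hr, φ.left_inv hxφ⟩
  · exact hsV.trans inter_subset_right

end action

end Pool.Agent.Helper76.Flat
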