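import Pool.Agent.Helper76.Flat.Form
import Pool.Agent.Helper76.Flat.RSBasic
import Pool.Agent.Helper76.Flat.Area2

set_option autoImplicit false
set_option linter.style.haveILetI false

/-!
Local primitives of holomorphic 1-forms.
-/

open Set Topology Filter Metric MeasureTheory

namespace Pool.Agent.Helper76.Flat

variable {S : Type*} [TopologicalSpace S]

namespace RiemannSurfaceStructure

variable {X : RiemannSurfaceStructure S}

lemma differentiableAt_trans {φ ψ : OpenPartialHomeomorph S ℂ} (hφ : φ ∈ X.charts)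
    (hψ : ψ ∈ X.charts) {x : S} (hx : x ∈ φ.source) (hx' : x ∈ ψ.source) :
    DifferentiableAt ℂ (ψ ∘ φ.symm) (φ x) := by
  have hVo : IsOpen (φ.target ∩ φ.symm ⁻¹' ψ.source) :=
    φ.continuousOn_symm.isOpen_inter_preimage φ.open_target ψ.open_source
  refine (X.holomorphic φ hφ ψ hψ).differentiableAt (hVo.mem_nhds ⟨φ.map_source hx, ?_⟩)
  rw [mem_preimage, φ.left_inv hx]
  exact hx'

lemma tendsto_symm {φ : OpenPartialHomeomorph S ℂ} {x : S} (hx : x ∈ φ.source) :
    Tendsto φ.symm (𝓝 (φ x)) (𝓝 x) := by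
  have := (φ.continuousAt_symm (φ.map_source hx)).tendsto
  rwa [φ.left_inv hx] at this

lemma deriv_trans_ne {φ ψ : OpenPartialHomeomorph S ℂ} (hφ : φ ∈ X.charts)
    (hψ : ψ ∈ X.charts) {x : S} (hx : x ∈ φ.source) (hx' : x ∈ ψ.source) :
    deriv (ψ ∘ φ.symm) (φ x) ≠ 0 := by
  have h1 := (differentiableAt_trans hφ hψ hx hx').hasDerivAt
  have h2 := (differentiableAt_trans hψ hφ hx' hx).hasDerivAt
  have h3 : (ψ ∘ φ.symm) (φ x) = ψ x := by rw [Function.comp_apply, φ.left_inv hx]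
  rw [← h3] at h2
  have h4 := h2.comp (φ x) h1
  have h5 : HasDerivAt ((φ ∘ ψ.symm) ∘ (ψ ∘ φ.symm)) 1 (φ x) := by
    refine (hasDerivAt_id (φ x)).congr_of_eventuallyEq ?_
    filter_upwards [φ.open_target.mem_nhds (φ.map_source hx),
      (tendsto_symm hx).eventually (ψ.open_source.mem_nhds hx')] with z hz hz'
    simp only [Function.comp_apply, id]
    rw [ψ.left_inv hz', φ.right_inv hz]
  have h6 := h4.unique h5
  intro h0
  rw [h0, mul_zero] at h6
  exact zero_ne_one h6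

end RiemannSurfaceStructure

open RiemannSurfaceStructure

namespace HoloForm

variable {X : RiemannSurfaceStructure S} {U : Set S} (ω : HoloForm X U)

/-- zeros of the form -/
def IsZero (x : S) : Prop := ∃ φ ∈ X.charts, x ∈ φ.source ∧ ω.coeff φ (φ x) = 0

/-- `g` is a primitive of the form near `x` -/
def PrimAt (g : S → ℂ) (x : S) : Prop :=
  ∀ φ ∈ X.charts, x ∈ φ.source → ∀ᶠ z in 𝓝 (φ x), HasDerivAt (g ∘ φ.symm) (ω.coeff φ z) z

variable {ω}

lemma isZero_iff {x : S} (hxU : x ∈ U) {φ : OpenPartialHomeomorph S ℂ} (hφ : φ ∈ X.charts)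
    (hx : x ∈ φ.source) : ω.IsZero x ↔ ω.coeff φ (φ x) = 0 := by
  constructor
  · rintro ⟨ψ, hψ, hx', h⟩
    rw [ω.trans φ hφ ψ hψ x hxU hx hx', h, zero_mul]
  · intro h
    exact ⟨φ, hφ, hx, h⟩

lemma primAt_of {x : S} (hU : IsOpen U) (hxU : x ∈ U) {g : S → ℂ}
    {φ : OpenPartialHomeomorph S ℂ} (hφ : φ ∈ X.charts) (hx : x ∈ φ.source)
    (h : ∀ᶠ z in 𝓝 (φ x), HasDerivAt (g ∘ φ.symm) (ω.coeff φ z) z) : ω.PrimAt g x := by
  intro ψ hψ hx'
  have h1 : Tendsto (φ ∘ ψ.symm) (𝓝 (ψ x)) (𝓝 (φ x)) :=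
    (φ.continuousAt hx).tendsto.comp (tendsto_symm hx')
  filter_upwards [h1.eventually h, ψ.open_target.mem_nhds (ψ.map_source hx'),
    (tendsto_symm hx').eventually (φ.open_source.mem_nhds hx),
    (tendsto_symm hx').eventually (hU.mem_nhds hxU)] with z h2 h3 h4 h5
  have h6 := (differentiableAt_trans hψ hφ (ψ.map_target h3) h4).hasDerivAt
  rw [ψ.right_inv h3] at h6
  have h7 := HasDerivAt.comp z h2 h6
  have h8 := ω.trans ψ hψ φ hφ (ψ.symm z) h5 (ψ.map_target h3) h4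
  rw [ψ.right_inv h3] at h8
  rw [h8]
  refine h7.congr_of_eventuallyEq ?_
  have h9 : ContinuousAt ψ.symm z := ψ.symm.continuousAt h3
  filter_upwards [h9.eventually (φ.open_source.mem_nhds h4)] with z' hz'
  simp only [Function.comp_apply]
  rw [φ.left_inv hz']

lemma PrimAt.congr {x : S} {g g' : S → ℂ} (h : ω.PrimAt g x) (hg : g' =ᶠ[𝓝 x] g) :
    ω.PrimAt g' x := by
  intro φ hφ hx
  have h1 : ∀ᶠ z in 𝓝 (φ x), g' (φ.symm z) = g (φ.symm z) := (tendsto_symm hx).eventually hg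
  filter_upwards [h φ hφ hx, eventually_eventually_nhds.2 h1] with z h2 h3
  exact h2.congr_of_eventuallyEq h3

/-- two primitives differ by a local constant -/
lemma PrimAt.sub {x : S} {g g' : S → ℂ} (h : ω.PrimAt g x) (h' : ω.PrimAt g' x) :
    ∃ c : ℂ, ∀ᶠ y in 𝓝 x, g' y = g y + c := by
  obtain ⟨φ, hφ, hx⟩ := X.exists_chart x
  obtain ⟨r, hr, hb⟩ := Metric.eventually_nhds_iff_ball.1 ((h φ hφ hx).and (h' φ hφ hx))
  have hD : ∀ z ∈ ball (φ x) r, HasDerivAt (fun z => g' (φ.symm z) - g (φ.symm z)) 0 z := by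
    intro z hz
    have := (hb z hz).2.sub (hb z hz).1
    rwa [sub_self] at this
  have hconst : ∀ z ∈ ball (φ x) r, g' (φ.symm z) - g (φ.symm z) =
      g' (φ.symm (φ x)) - g (φ.symm (φ x)) := by
    intro z hz
    exact isOpen_ball.is_const_of_deriv_eq_zero isPreconnected_ball
      (fun w hw => (hD w hw).differentiableAt.differentiableWithinAt)
      (fun w hw => (hD w hw).deriv) hz (mem_ball_self hr)
  refine ⟨g' (φ.symm (φ x)) - g (φ.symm (φ x)), ?_⟩
  filter_upwards [φ.open_source.mem_nhds hx,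
    (φ.continuousAt hx).preimage_mem_nhds (ball_mem_nhds _ hr)] with y hy hy'
  have := hconst (φ y) hy'
  rw [φ.left_inv hy] at this
  linear_combination this

lemma isOpen_chart (hU : IsOpen U) (φ : OpenPartialHomeomorph S ℂ) :
    IsOpen (φ.target ∩ φ.symm ⁻¹' U) :=
  φ.continuousOn_symm.isOpen_inter_preimage φ.open_target hU

/-- a chart disc with a primitive -/
lemma exists_ball_prim (hU : IsOpen U) {x : S} (hxU : x ∈ U) {φ : OpenPartialHomeomorph S ℂ}
    (hφ : φ ∈ X.charts) (hx : x ∈ φ.source) :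
    ∃ r > 0, ball (φ x) r ⊆ φ.target ∩ φ.symm ⁻¹' U ∧ ∃ A : ℂ → ℂ,
      A (φ x) = 0 ∧ ∀ z ∈ ball (φ x) r, HasDerivAt A (ω.coeff φ z) z := by
  have hmem : φ x ∈ φ.target ∩ φ.symm ⁻¹' U := ⟨φ.map_source hx, by
    rw [mem_preimage, φ.left_inv hx]; exact hxU⟩
  obtain ⟨r, hr, hb⟩ := Metric.isOpen_iff.1 (isOpen_chart hU φ) _ hmem
  obtain ⟨A, hA⟩ := ((ω.holo φ hφ).mono hb).isExactOn_ball
  refine ⟨r, hr, hb, fun z => A z - A (φ x), sub_self _, fun z hz => ?_⟩
  exact (hA z hz).sub_const _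

/-- local homeomorphism from a nonzero derivative -/
lemma exists_oph_of_deriv {A : ℂ → ℂ} {z0 : ℂ} (hA : AnalyticAt ℂ A z0) (hd : deriv A z0 ≠ 0)
    {N : Set ℂ} (hN : N ∈ 𝓝 z0) : ∃ R : OpenPartialHomeomorph ℂ ℂ, z0 ∈ R.source ∧
      (∀ z, R z = A z) ∧ R.source ⊆ N := by
  obtain ⟨V, hVN, hVo, hzV⟩ := _root_.mem_nhds_iff.1 hN
  set i : ℂ ≃L[ℂ] ℂ := .unitsEquivAut ℂ (.mk0 _ hd) with hi
  have hfd : HasStrictFDerivAt A i.toContinuousLinearMap z0 := hA.hasStrictDerivAt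
  refine ⟨(hfd.toOpenPartialHomeomorph A).restrOpen V hVo, ?_, fun z => rfl, ?_⟩
  · rw [OpenPartialHomeomorph.restrOpen_source]
    exact ⟨hfd.mem_toOpenPartialHomeomorph_source, hzV⟩
  · rw [OpenPartialHomeomorph.restrOpen_source]
    exact inter_subset_right.trans hVN

/-- charts which are primitives, at regular points -/
lemma exists_prim_oph (hU : IsOpen U) {x : S} (hxU : x ∈ U) (hnz : ¬ ω.IsZero x) {W : Set S}
    (hW : W ∈ 𝓝 x) : ∃ F : OpenPartialHomeomorph S ℂ, x ∈ F.source ∧ F.source ⊆ W ∧ F.source ⊆ U ∧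
      ∀ y ∈ F.source, ¬ ω.IsZero y ∧ ω.PrimAt F y := by
  obtain ⟨φ, hφ, hx⟩ := X.exists_chart x
  obtain ⟨r, hr, hb, A, hA0, hA⟩ := exists_ball_prim (ω := ω) hU hxU hφ hx
  have hAan : AnalyticAt ℂ A (φ x) := by
    have : DifferentiableOn ℂ A (ball (φ x) r) := fun z hz =>
      (hA z hz).differentiableAt.differentiableWithinAt
    exact this.analyticAt (ball_mem_nhds _ hr)
  have hd : deriv A (φ x) ≠ 0 := by
    rw [(hA _ (mem_ball_self hr)).deriv]
    rwa [isZero_iff hxU hφ hx] at hnz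
  have hcont : ContinuousAt (ω.coeff φ) (φ x) :=
    (ω.holo φ hφ).continuousOn.continuousAt ((isOpen_chart hU φ).mem_nhds (hb (mem_ball_self hr)))
  have hN : {z | z ∈ ball (φ x) r ∧ ω.coeff φ z ≠ 0 ∧ φ.symm z ∈ W} ∈ 𝓝 (φ x) := by
    filter_upwards [ball_mem_nhds _ hr, hcont.eventually_ne (by
      rwa [isZero_iff hxU hφ hx] at hnz), (tendsto_symm hx).eventually hW] with z h1 h2 h3
    exact ⟨h1, h2, h3⟩
  obtain ⟨R, hR0, hRA, hRN⟩ := exists_oph_of_deriv hAan hd hN
  have hFs : ∀ y, y ∈ (φ.trans R).source → y ∈ φ.source ∧ φ y ∈ R.source := by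
    intro y hy
    rw [OpenPartialHomeomorph.trans_source] at hy
    exact hy
  refine ⟨φ.trans R, ?_, ?_, ?_, ?_⟩
  · rw [OpenPartialHomeomorph.trans_source]
    exact ⟨hx, hR0⟩
  · intro y hy
    obtain ⟨h1, h2⟩ := hFs y hy
    have := (hRN h2).2.2
    rwa [φ.left_inv h1] at this
  · intro y hy
    obtain ⟨h1, h2⟩ := hFs y hy
    have := (hb (hRN h2).1).2
    rwa [mem_preimage, φ.left_inv h1] at this
  · intro y hy
    obtain ⟨h1, h2⟩ := hFs y hy
    have hyU : y ∈ U := by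
      have := (hb (hRN h2).1).2
      rwa [mem_preimage, φ.left_inv h1] at this
    refine ⟨?_, ?_⟩
    · rw [isZero_iff hyU hφ h1]
      exact (hRN h2).2.1
    · refine primAt_of hU hyU hφ h1 ?_
      filter_upwards [isOpen_ball.mem_nhds (hRN h2).1, φ.open_target.mem_nhds (φ.map_source h1)]
        with z hz hz'
      refine (hA z hz).congr_of_eventuallyEq ?_
      filter_upwards [φ.open_target.mem_nhds hz'] with w hw
      show R (φ (φ.symm w)) = A w
      rw [φ.right_inv hw, hRA]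

/-- cone charts at zeros -/
lemma exists_cone (hU : IsOpen U) {x : S} (hxU : x ∈ U) (hz : ω.IsZero x)
    (hnz : ¬ ∀ᶠ y in 𝓝 x, ω.IsZero y) : ∃ k : ℕ, 2 ≤ k ∧ ∃ h : OpenPartialHomeomorph S ℂ,
      x ∈ h.source ∧ h x = 0 ∧ h.source ⊆ U ∧ (∀ y ∈ h.source, y ≠ x → ¬ ω.IsZero y) ∧
      ∀ y ∈ h.source, ω.PrimAt (fun y => h y ^ k) y := by
  obtain ⟨φ, hφ, hx⟩ := X.exists_chart x
  obtain ⟨r, hr, hb, A, hA0, hA⟩ := exists_ball_prim (ω := ω) hU hxU hφ hx
  set z0 := φ x with hz0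
  have hAan : AnalyticAt ℂ A z0 := by
    have : DifferentiableOn ℂ A (ball z0 r) := fun z hz =>
      (hA z hz).differentiableAt.differentiableWithinAt
    exact this.analyticAt (ball_mem_nhds _ hr)
  have haan : AnalyticAt ℂ (ω.coeff φ) z0 :=
    (ω.holo φ hφ).analyticAt ((isOpen_chart hU φ).mem_nhds (hb (mem_ball_self hr)))
  have ha0 : ω.coeff φ z0 = 0 := (isZero_iff hxU hφ hx).1 hz
  have hanz : ¬ ∀ᶠ z in 𝓝 z0, ω.coeff φ z = 0 := by
    intro h
    apply hnz
    filter_upwards [(φ.continuousAt hx).eventually h, φ.open_source.mem_nhds hx] with y h1 h2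
    exact ⟨φ, hφ, h2, h1⟩
  have hAnz : ¬ ∀ᶠ z in 𝓝 z0, A z = 0 := by
    intro h
    apply hanz
    filter_upwards [eventually_eventually_nhds.2 h, ball_mem_nhds _ hr] with z h1 h2
    have h3 : HasDerivAt A 0 z := by
      have h4 : A =ᶠ[𝓝 z] fun _ => (0 : ℂ) := h1
      exact (hasDerivAt_const z (0 : ℂ)).congr_of_eventuallyEq h4
    exact (hA z h2).unique h3
  obtain ⟨n, g, hg, hg0, hAg⟩ := hAan.exists_eventuallyEq_pow_smul_nonzero_iff.2 hAnz
  simp only [smul_eq_mul] at hAg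
  have hn2 : 2 ≤ n := by
    rcases Nat.lt_or_ge n 2 with h | h
    · exfalso
      interval_cases n
      · have := hAg.self_of_nhds
        rw [hA0, pow_zero, one_mul] at this
        exact hg0 this.symm
      · have h1 : HasDerivAt (fun z => (z - z0) ^ 1 * g z) (g z0) z0 := by
          have h2 := ((hasDerivAt_id z0).sub_const z0).mul hg.differentiableAt.hasDerivAt
          simp only [id, sub_self, zero_mul, add_zero, one_mul] at h2
          refine h2.congr_of_eventuallyEq ?_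
          exact Eventually.of_forall fun z => by simp
        have h2 : HasDerivAt A (g z0) z0 := h1.congr_of_eventuallyEq hAg
        have h3 := (hA z0 (mem_ball_self hr)).unique h2
        rw [ha0] at h3
        exact hg0 h3.symm
    · exact h
  have hn0 : n ≠ 0 := by omega
  have hnC : (n : ℂ) ≠ 0 := by exact_mod_cast hn0
  obtain ⟨c, hc⟩ := IsAlgClosed.exists_pow_nat_eq (g z0) (by omega : 0 < n)
  have hc0 : c ≠ 0 := by
    rintro rfl
    rw [zero_pow hn0] at hc
    exact hg0 hc.symm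
  set ρ : ℂ → ℂ := fun z => c * Complex.exp (Complex.log (g z / g z0) / n) with hρ
  have hρan : AnalyticAt ℂ ρ z0 := by
    refine analyticAt_const.mul (AnalyticAt.cexp ?_)
    refine AnalyticAt.div (AnalyticAt.clog (hg.div analyticAt_const hg0) ?_) analyticAt_const hnC
    rw [div_self hg0]
    exact Complex.one_mem_slitPlane
  have hρ0 : ρ z0 = c := by
    rw [hρ]
    simp only
    rw [div_self hg0, Complex.log_one, zero_div, Complex.exp_zero, mul_one]
  have hρn : ∀ z, g z ≠ 0 → ρ z ^ n = g z := by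
    intro z hz
    rw [hρ]
    simp only
    rw [mul_pow, hc, ← Complex.exp_nat_mul, mul_div_cancel₀ _ hnC,
      Complex.exp_log (div_ne_zero hz hg0), mul_div_cancel₀ _ hg0]
  set η : ℂ → ℂ := fun z => (z - z0) * ρ z with hη
  have hηan : AnalyticAt ℂ η z0 := (analyticAt_id.sub analyticAt_const).mul hρan
  have hηd : deriv η z0 ≠ 0 := by
    have h2 := ((hasDerivAt_id z0).sub_const z0).mul hρan.differentiableAt.hasDerivAt
    simp only [id, sub_self, zero_mul, add_zero, one_mul] at h2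
    have h3 : HasDerivAt η (ρ z0) z0 := h2
    rw [h3.deriv, hρ0]
    exact hc0
  have hapunc : ∀ᶠ z in 𝓝 z0, z ≠ z0 → ω.coeff φ z ≠ 0 := by
    have := haan.eventually_eq_zero_or_eventually_ne_zero.resolve_left hanz
    exact eventually_nhdsWithin_iff.1 this
  have hN : {z | z ∈ ball z0 r ∧ A z = (z - z0) ^ n * g z ∧ g z ≠ 0 ∧
      (z ≠ z0 → ω.coeff φ z ≠ 0)} ∈ 𝓝 z0 := by
    filter_upwards [ball_mem_nhds _ hr, hAg, hg.continuousAt.eventually_ne hg0, hapunc]
      with z h1 h2 h3 h4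
    exact ⟨h1, h2, h3, h4⟩
  obtain ⟨R, hR0, hRη, hRN⟩ := exists_oph_of_deriv hηan hηd hN
  have hFs : ∀ y, y ∈ (φ.trans R).source → y ∈ φ.source ∧ φ y ∈ R.source := by
    intro y hy
    rw [OpenPartialHomeomorph.trans_source] at hy
    exact hy
  have hFU : ∀ y, y ∈ (φ.trans R).source → y ∈ U := by
    intro y hy
    obtain ⟨h1, h2⟩ := hFs y hy
    have := (hb (hRN h2).1).2
    rwa [mem_preimage, φ.left_inv h1] at this
  refine ⟨n, hn2, φ.trans R, ?_, ?_, hFU, ?_, ?_⟩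
  · rw [OpenPartialHomeomorph.trans_source]
    exact ⟨hx, hR0⟩
  · show R (φ x) = 0
    rw [hRη, hη]
    simp [hz0]
  · intro y hy hyx
    obtain ⟨h1, h2⟩ := hFs y hy
    rw [isZero_iff (hFU y hy) hφ h1]
    exact (hRN h2).2.2.2 fun h => hyx (φ.injOn h1 hx h)
  · intro y hy
    obtain ⟨h1, h2⟩ := hFs y hy
    refine primAt_of hU (hFU y hy) hφ h1 ?_
    filter_upwards [R.open_source.mem_nhds h2, φ.open_target.mem_nhds (φ.map_source h1)]
      with z hz hz'
    refine (hA z (hRN hz).1).congr_of_eventuallyEq ?_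
    filter_upwards [φ.open_target.mem_nhds hz', R.open_source.mem_nhds hz] with w hw hw'
    show R (φ (φ.symm w)) ^ n = A w
    rw [φ.right_inv hw, hRη, (hRN hw').2.1, hη]
    simp only
    rw [mul_pow, hρn w (hRN hw').2.2.1]

lemma det_smul (a : ℂ) : |((ContinuousLinearMap.toSpanSingleton ℂ a).restrictScalars ℝ).det| =
    ‖a‖ ^ 2 := by
  have h1 : ((ContinuousLinearMap.toSpanSingleton ℂ a).restrictScalars ℝ).det =
      Algebra.norm ℝ a := by
    rw [Algebra.norm_apply]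
    show LinearMap.det _ = LinearMap.det _
    congr 1
    ext z
    all_goals simp [mul_comm]
  rw [h1, Algebra.norm_complex_apply, Complex.normSq_eq_norm_sq, abs_of_nonneg (sq_nonneg _)]

/-- the area in a primitive chart is the `L²` mass -/
lemma volume_prim [SecondCountableTopology S] [MeasurableSpace S] [BorelSpace S] {μ : Measure S}
    (hμ : ∀ φ ∈ X.charts, ∀ W : Set S, W ⊆ φ.source ∩ U → MeasurableSet W →
      μ W = ∫⁻ z in φ '' W, ‖ω.coeff φ z‖ₑ ^ 2) {F : OpenPartialHomeomorph S ℂ}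
    (hFU : F.source ⊆ U) (hF : ∀ y ∈ F.source, ω.PrimAt F y) {W : Set S} (hW : W ⊆ F.source)
    (hWm : MeasurableSet W) : volume (F '' W) = μ W := by
  refine (measure_image_of_local (f := F) (μ := μ) (ν := volume) (U := F.source) F.injOn ?_ hW
    hWm).2
  intro x hx
  obtain ⟨φ, hφ, hxφ⟩ := X.exists_chart x
  refine ⟨φ.source, φ.open_source, hxφ, fun A hAφ hAF hAm => ?_⟩
  refine ⟨measurableSet_image_oph F hAm hAF, ?_⟩
  rw [hμ φ hφ A (subset_inter hAφ (hAF.trans hFU)) hAm]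
  have h1 : F '' A = (F ∘ φ.symm) '' (φ '' A) := by
    rw [← image_comp]
    refine image_congr fun y hy => ?_
    simp only [Function.comp_apply]
    rw [φ.left_inv (hAφ hy)]
  have hm : MeasurableSet (φ '' A) := measurableSet_image_oph φ hAm hAφ
  have hinj : InjOn (F ∘ φ.symm) (φ '' A) := by
    rintro _ ⟨y, hy, rfl⟩ _ ⟨y', hy', rfl⟩ h
    simp only [Function.comp_apply] at h
    rw [φ.left_inv (hAφ hy), φ.left_inv (hAφ hy')] at h
    rw [F.injOn (hAF hy) (hAF hy') h]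
  have hder : ∀ z ∈ φ '' A, HasFDerivWithinAt (F ∘ φ.symm)
      ((ContinuousLinearMap.toSpanSingleton ℂ (ω.coeff φ z)).restrictScalars ℝ) (φ '' A) z := by
    rintro _ ⟨y, hy, rfl⟩
    have h2 := (hF y (hAF hy) φ hφ (hAφ hy)).self_of_nhds
    have h3 : HasFDerivAt (F ∘ φ.symm) (ContinuousLinearMap.toSpanSingleton ℂ (ω.coeff φ (φ y)))
        (φ y) := h2.hasFDerivAt
    exact (h3.restrictScalars ℝ).hasFDerivWithinAt
  rw [h1, ← lintegral_abs_det_fderiv_eq_addHaar_image volume hm hder hinj]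
  refine lintegral_congr fun z => ?_
  rw [det_smul, ENNReal.ofReal_pow (norm_nonneg _), ofReal_norm]

end HoloForm

end Pool.Agent.Helper76.Flat
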