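import Pool.Agent.Helper76.Flat.Radial

set_option autoImplicit false

/-!
Pushing a compact set in a free disc off to infinity, equivariantly.
-/

open Set Topology Filter Metric

namespace Pool.Agent.Helper76.Flat

variable {S : Type*} [TopologicalSpace S] {G : Type*} [Group G]

/-- equivariant homeomorphisms with compact support in `P` -/
def MoveIn (ρ : G →* (S ≃ₜ S)) (P : Set S) (H : S ≃ₜ S) : Prop :=
  (∀ g x, H (ρ g x) = ρ g (H x)) ∧ ∃ K, IsCompact K ∧ K ⊆ P ∧ ∀ x, x ∉ K → H x = x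

variable {ρ : G →* (S ≃ₜ S)}

lemma MoveIn.mul {P : Set S} {H H' : S ≃ₜ S} (h : MoveIn ρ P H) (h' : MoveIn ρ P H') :
    MoveIn ρ P (H * H') := by
  obtain ⟨h1, K, hK, hKP, hKx⟩ := h
  obtain ⟨h1', K', hK', hKP', hKx'⟩ := h'
  refine ⟨fun g x => ?_, K ∪ K', hK.union hK', union_subset hKP hKP', fun x hx => ?_⟩
  · rw [Homeomorph.mul_apply, Homeomorph.mul_apply, h1', h1]
  · rw [Homeomorph.mul_apply, hKx' x fun h => hx (Or.inr h), hKx x fun h => hx (Or.inl h)]

lemma MoveIn.one (P : Set S) : MoveIn ρ P (1 : S ≃ₜ S) :=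
  ⟨fun _ _ => rfl, ∅, isCompact_empty, empty_subset _, fun _ _ => rfl⟩

lemma radial_move [T2Space S] [Finite G] {u : OpenPartialHomeomorph S ℂ} (hu : FreeDisc ρ u)
    {P : Set S} (hP : ∀ g, ρ g '' u.source ⊆ P) {b : S} (hb : b ∈ u.source) {C : Set S}
    (hC : IsCompact C) (hCu : C ⊆ u.source) {V : Set S} (hV : V ∈ 𝓝 b) :
    ∃ H, MoveIn ρ P H ∧ ∀ x ∈ C, H x ∈ V := by
  have hC' : IsCompact (u '' C) := hC.image_of_continuousOn (u.continuousOn.mono hCu)
  have hV' : u '' (V ∩ u.source) ∈ 𝓝 (u b) := by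
    rw [← u.map_nhds_eq hb]
    exact image_mem_map (inter_mem hV (u.open_source.mem_nhds hb))
  obtain ⟨k, R', hk1, hk2⟩ := exists_radial' (u b) hC' hV'
  obtain ⟨H, hH1, hH2, hH3⟩ := exists_equivariant hu hk1
  refine ⟨H, ⟨hH1, _, ?_, ?_, hH3⟩, fun x hx => ?_⟩
  · refine isCompact_iUnion fun g => ?_
    refine ((isCompact_closedBall _ _).image_of_continuousOn ?_).image (ρ g).continuous
    refine u.continuousOn_symm.mono ?_
    rw [hu.1]
    exact subset_univ _
  · refine iUnion_subset fun g => ?_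
    rintro _ ⟨_, ⟨z, -, rfl⟩, rfl⟩
    exact hP g ⟨_, u.map_target (by rw [hu.1]; exact mem_univ _), rfl⟩
  · rw [hH2 x (hCu hx)]
    obtain ⟨y, hy, hyk⟩ := hk2 (u x) ⟨x, hx, rfl⟩
    rw [← hyk, u.left_inv hy.2]
    exact hy.1

/-- homogeneity -/
lemma exists_move [T2Space S] [Finite G] {O P : Set S} (hO : IsPreconnected O)
    (hP : ∀ g, ρ g '' O ⊆ P)
    (hfree : ∀ x ∈ O, ∃ u : OpenPartialHomeomorph S ℂ, FreeDisc ρ u ∧ x ∈ u.source ∧ u.source ⊆ O)
    {p q : S} (hp : p ∈ O) (hq : q ∈ O) {V : Set S} (hV : V ∈ 𝓝 q) :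
    ∃ H, MoveIn ρ P H ∧ H p ∈ V := by
  have key := hO.induction₂' (fun p q => ∀ V ∈ 𝓝 q, ∃ H, MoveIn ρ P H ∧ H p ∈ V) ?_ ?_ hp hq
  · exact key V hV
  · intro x hx
    obtain ⟨u, hu, hxu, huO⟩ := hfree x hx
    have hPu : ∀ g, ρ g '' u.source ⊆ P := fun g => (image_mono huO).trans (hP g)
    filter_upwards [mem_nhdsWithin_of_mem_nhds (u.open_source.mem_nhds hxu)] with y hy
    refine ⟨fun V hV => ?_, fun V hV => ?_⟩
    · obtain ⟨H, hH, hH'⟩ := radial_move hu hPu hy isCompact_singleton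
        (singleton_subset_iff.2 hxu) hV
      exact ⟨H, hH, hH' x rfl⟩
    · obtain ⟨H, hH, hH'⟩ := radial_move hu hPu hxu isCompact_singleton
        (singleton_subset_iff.2 hy) hV
      exact ⟨H, hH, hH' y rfl⟩
  · intro x y z _ _ _ hxy hyz V hV
    obtain ⟨V', hV'V, hV'o, hzV'⟩ := _root_.mem_nhds_iff.1 hV
    obtain ⟨H, hH, hHV⟩ := hyz V' (hV'o.mem_nhds hzV')
    obtain ⟨H', hH', hHV'⟩ := hxy (H ⁻¹' V') (H.continuous.continuousAt.preimage_mem_nhds
      (hV'o.mem_nhds hHV))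
    exact ⟨H * H', hH.mul hH', hV'V hHV'⟩

/-- pushing a compact set to infinity -/
theorem exists_push [T2Space S] [Finite G] {K O : ℕ → Set S}
    (hKm : ∀ n, K n ⊆ K (n + 1)) (hKx : ∀ x, ∃ n, x ∈ interior (K n))
    (hKinv : ∀ n g x, ρ g x ∈ K n → x ∈ K n)
    (hOc : ∀ n, IsPreconnected (O n)) (hOK : ∀ n, O n ⊆ (K n)ᶜ) (hOm : ∀ n, O (n + 1) ⊆ O n)
    (hfree : ∀ n, ∀ x ∈ O n, ∃ u : OpenPartialHomeomorph S ℂ,
      FreeDisc ρ u ∧ x ∈ u.source ∧ u.source ⊆ O n)
    (hne : ∀ n, (O n).Nonempty)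
    {u0 : OpenPartialHomeomorph S ℂ} (hu0 : FreeDisc ρ u0) (hu0O : u0.source ⊆ O 0)
    {C : Set S} (hC : IsCompact C) (hCu : C ⊆ u0.source) :
    ∃ e : S → S, IsOpenEmbedding e ∧ (∀ g x, e (ρ g x) = ρ g (e x)) ∧
      ∀ x, ∀ g, e x ∉ ρ g '' C := by
  -- the discs
  obtain ⟨u, hu00, hufree, hune, huO⟩ : ∃ u : ℕ → OpenPartialHomeomorph S ℂ, u 0 = u0 ∧
      (∀ n, FreeDisc ρ (u n)) ∧ (∀ n, (u n).source.Nonempty) ∧ ∀ n, (u n).source ⊆ O n := by
    choose p hp using hne
    choose v hv1 hv2 hv3 using fun n => hfree n (p n) (hp n)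
    refine ⟨fun n => if n = 0 then u0 else v n, by simp, fun n => ?_, fun n => ?_, fun n => ?_⟩
    · rcases eq_or_ne n 0 with rfl | h
      · simpa using hu0
      · simpa [h] using hv1 n
    · rcases eq_or_ne n 0 with rfl | h
      · have : u0.target.Nonempty := by rw [hu0.1]; exact univ_nonempty
        obtain ⟨z, hz⟩ := this
        exact ⟨u0.symm z, by simpa using u0.map_target hz⟩
      · exact ⟨p n, by simpa [h] using hv2 n⟩
    · rcases eq_or_ne n 0 with rfl | h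
      · simpa using hu0O
      · simpa [h] using hv3 n
  have hKinv' : ∀ n g x, x ∈ K n → ρ g x ∈ K n := by
    intro n g x hx
    apply hKinv n g⁻¹
    rw [← Homeomorph.mul_apply, ← map_mul, inv_mul_cancel, map_one]
    exact hx
  have hOP : ∀ n, ∀ g, ρ g '' O n ⊆ (K n)ᶜ := by
    rintro n g _ ⟨x, hx, rfl⟩ hgx
    exact hOK n hx (hKinv n g x hgx)
  -- one step
  have hstep : ∀ n, ∀ T : S ≃ₜ S, T '' C ⊆ (u n).source → ∃ H : S ≃ₜ S, MoveIn ρ (K n)ᶜ H ∧
      (H * T) '' C ⊆ (u (n + 1)).source := by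
    intro n T hT
    obtain ⟨p, hp⟩ := hune n
    obtain ⟨q, hq⟩ := hune (n + 1)
    obtain ⟨H, hH, hHp⟩ := exists_move (hOc n) (hOP n) (hfree n) (huO n hp)
      (hOm n (huO (n + 1) hq)) ((u (n + 1)).open_source.mem_nhds hq)
    have hV : H ⁻¹' (u (n + 1)).source ∈ 𝓝 p :=
      H.continuous.continuousAt.preimage_mem_nhds ((u (n + 1)).open_source.mem_nhds hHp)
    obtain ⟨H', hH', hH'C⟩ := radial_move (hufree n) (fun g => (image_mono (huO n)).trans (hOP n g))
      hp (hC.image T.continuous) hT hV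
    refine ⟨H * H', hH.mul hH', ?_⟩
    rintro _ ⟨x, hx, rfl⟩
    exact hH'C (T x) ⟨x, hx, rfl⟩
  choose! F hF1 hF2 using hstep
  set T : ℕ → S ≃ₜ S := fun n => Nat.rec 1 (fun n T => F n T * T) n with hT
  have hTs : ∀ n, T (n + 1) = F n (T n) * T n := fun n => rfl
  have hTC : ∀ n, T n '' C ⊆ (u n).source := by
    intro n
    induction n with
    | zero =>
      rintro _ ⟨x, hx, rfl⟩
      rw [hu00]
      exact hCu hx
    | succ n ih =>
      rw [hTs]
      exact hF2 n (T n) ih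
  have hTeq : ∀ n g x, T n (ρ g x) = ρ g (T n x) := by
    intro n
    induction n with
    | zero => intro g x; rfl
    | succ n ih =>
      intro g x
      rw [hTs, Homeomorph.mul_apply, Homeomorph.mul_apply, ih, (hF1 n (T n) (hTC n)).1]
  have hKm' : ∀ m n, m ≤ n → K m ⊆ K n := fun m n h => monotone_nat_of_le_succ hKm h
  have hFid : ∀ n x, x ∈ K n → F n (T n) x = x := by
    intro n x hx
    obtain ⟨L, -, hLP, hLx⟩ := (hF1 n (T n) (hTC n)).2
    exact hLx x fun h => hLP h hx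
  -- inverse sequence stabilises
  have hstab : ∀ m n, m ≤ n → ∀ x ∈ K m, (T n).symm x = (T m).symm x := by
    intro m n hmn
    induction n, hmn using Nat.le_induction with
    | base => intro x _; rfl
    | succ n hmn ih =>
      intro x hx
      rw [← ih x hx, Homeomorph.symm_apply_eq, hTs, Homeomorph.mul_apply,
        Homeomorph.apply_symm_apply]
      exact (hFid n x (hKm' m n hmn hx)).symm
  choose N hN using hKx
  set e : S → S := fun x => (T (N x)).symm x with he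
  have heq : ∀ n x, x ∈ K n → e x = (T n).symm x := by
    intro n x hx
    have hx' : x ∈ K (N x) := interior_subset (hN x)
    rw [he]
    simp only
    rw [← hstab (N x) (max n (N x)) (le_max_right _ _) x hx',
      ← hstab n (max n (N x)) (le_max_left _ _) x hx]
  have hloc : ∀ x, e =ᶠ[𝓝 x] (T (N x)).symm := by
    intro x
    filter_upwards [isOpen_interior.mem_nhds (hN x)] with y hy
    exact heq (N x) y (interior_subset hy)
  refine ⟨e, ?_, ?_, ?_⟩
  · refine IsOpenEmbedding.of_continuous_injective_isOpenMap ?_ ?_ ?_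
    · rw [continuous_iff_continuousAt]
      intro x
      exact (T (N x)).symm.continuous.continuousAt.congr (hloc x).symm
    · intro x y hxy
      set n := max (N x) (N y) with hn
      have hx : x ∈ K n := hKm' _ _ (le_max_left _ _) (interior_subset (hN x))
      have hy : y ∈ K n := hKm' _ _ (le_max_right _ _) (interior_subset (hN y))
      rw [heq n x hx, heq n y hy] at hxy
      exact (T n).symm.injective hxy
    · refine IsOpenMap.of_nhds_le fun x => ?_
      rw [Filter.map_congr (hloc x), Homeomorph.map_nhds_eq, ← (hloc x).self_of_nhds]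
  · intro g x
    have hx : x ∈ K (N x) := interior_subset (hN x)
    rw [heq _ x hx, heq _ _ (hKinv' _ g x hx), Homeomorph.symm_apply_eq, hTeq,
      Homeomorph.apply_symm_apply]
  · rintro x g ⟨c, hc, hce⟩
    have hx : x ∈ K (N x) := interior_subset (hN x)
    rw [heq _ x hx, Homeomorph.eq_symm_apply, hTeq] at hce
    have h1 : T (N x) c ∈ O (N x) := huO _ (hTC _ ⟨c, hc, rfl⟩)
    have h2 : ρ g (T (N x) c) ∈ (K (N x))ᶜ := hOP _ g ⟨_, h1, rfl⟩
    rw [hce] at h2
    exact h2 hx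

end Pool.Agent.Helper76.Flat
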