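import Mathlib

set_option autoImplicit false

/-!
Compactly supported radial contractions of the plane, and their equivariant extensions.
-/

open Set Topology Filter Metric

namespace Pool.Agent.Helper76.Flat

/-- the scaling function -/
noncomputable def sfun (a R t : ℝ) : ℝ := max a (min 1 (a + (t - R)))

lemma sfun_ge (a R t : ℝ) : a ≤ sfun a R t := le_max_left _ _

lemma sfun_mono (a R : ℝ) {t t' : ℝ} (h : t ≤ t') : sfun a R t ≤ sfun a R t' := by
  unfold sfun
  exact max_le_max le_rfl (min_le_min le_rfl (by linarith))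

lemma sfun_of_le {a R t : ℝ} (h : t ≤ R) : sfun a R t = a := by
  unfold sfun
  exact max_eq_left ((min_le_right _ _).trans (by linarith))

lemma sfun_of_ge {a R t : ℝ} (ha : 0 < a) (ha1 : a ≤ 1) (h : R + 1 ≤ t) : sfun a R t = 1 := by
  unfold sfun
  rw [min_eq_left (by linarith), max_eq_right ha1]

lemma continuous_sfun (a R : ℝ) : Continuous (sfun a R) := by
  unfold sfun
  fun_prop

lemma exists_radial (b : ℂ) {ε : ℝ} (hε : 0 < ε) (R : ℝ) : ∃ k : ℂ ≃ₜ ℂ, ∃ R' : ℝ,
    (∀ z, z ∉ closedBall b R' → k z = z) ∧ ∀ z ∈ closedBall b R, k z ∈ ball b ε := by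
  wlog hR : 0 < R generalizing R
  · obtain ⟨k, R', h1, h2⟩ := this 1 one_pos
    push Not at hR
    exact ⟨k, R', h1, fun z hz => h2 z (closedBall_subset_closedBall (by linarith) hz)⟩
  obtain ⟨a, ha, ha1, haR⟩ : ∃ a : ℝ, 0 < a ∧ a ≤ 1 ∧ a * R < ε := by
    refine ⟨min 1 (ε / (2 * R)), by positivity, min_le_left _ _, ?_⟩
    have h1 : min 1 (ε / (2 * R)) * R ≤ ε / (2 * R) * R :=
      mul_le_mul_of_nonneg_right (min_le_right _ _) hR.le
    have h2 : ε / (2 * R) * R = ε / 2 := by field_simp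
    linarith
  set k : ℂ → ℂ := fun z => b + (sfun a R ‖z - b‖ : ℂ) * (z - b) with hk
  have hkc : Continuous k := by
    have := continuous_sfun a R
    rw [hk]
    fun_prop
  have hkn : ∀ z, ‖k z - b‖ = sfun a R ‖z - b‖ * ‖z - b‖ := by
    intro z
    rw [hk]
    simp only [add_sub_cancel_left]
    rw [norm_mul, Complex.norm_real, Real.norm_eq_abs, abs_of_pos (lt_of_lt_of_le ha (sfun_ge _ _ _))]
  have hout : ∀ z, z ∉ closedBall b (R + 1) → k z = z := by
    intro z hz
    rw [mem_closedBall, dist_eq_norm] at hz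
    push Not at hz
    rw [hk]
    simp only
    rw [sfun_of_ge ha ha1 hz.le]
    push_cast
    ring
  set τ : ℝ → ℝ := fun t => sfun a R t * t with hτ
  have hτc : Continuous τ := by
    have := continuous_sfun a R
    rw [hτ]
    fun_prop
  have hτmono : ∀ t t', 0 ≤ t → t < t' → τ t < τ t' := by
    intro t t' ht htt
    rw [hτ]
    simp only
    have h1 := sfun_mono a R htt.le
    have h2 := lt_of_lt_of_le ha (sfun_ge a R t')
    nlinarith [sfun_ge a R t]
  have hτinj : ∀ t t', 0 ≤ t → 0 ≤ t' → τ t = τ t' → t = t' := by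
    intro t t' ht ht' h
    rcases lt_trichotomy t t' with h1 | h1 | h1
    · exact absurd h (hτmono _ _ ht h1).ne
    · exact h1
    · exact absurd h.symm (hτmono _ _ ht' h1).ne
  have hinj : Function.Injective k := by
    intro z w hzw
    have h1 : ‖z - b‖ = ‖w - b‖ := by
      apply hτinj _ _ (norm_nonneg _) (norm_nonneg _)
      show sfun a R ‖z - b‖ * ‖z - b‖ = sfun a R ‖w - b‖ * ‖w - b‖
      rw [← hkn, ← hkn, hzw]
    have h2 : b + (sfun a R ‖z - b‖ : ℂ) * (z - b) = b + (sfun a R ‖w - b‖ : ℂ) * (w - b) := hzw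
    rw [h1] at h2
    have h3 := add_left_cancel h2
    have h4 : (sfun a R ‖w - b‖ : ℂ) ≠ 0 := by
      exact_mod_cast (lt_of_lt_of_le ha (sfun_ge a R ‖w - b‖)).ne'
    have h5 := mul_left_cancel₀ h4 h3
    linear_combination h5
  have hsurj : Function.Surjective k := by
    intro w
    rcases eq_or_ne w b with rfl | hne
    · exact ⟨w, by simp [hk]⟩
    · set r := ‖w - b‖ with hr
      have hr0 : 0 < r := norm_pos_iff.2 (sub_ne_zero.2 hne)
      set T := max r (R + 1) with hT
      have hT0 : 0 ≤ T := hr0.le.trans (le_max_left _ _)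
      have h1 : r ∈ Icc (τ 0) (τ T) := by
        constructor
        · show sfun a R 0 * 0 ≤ r
          rw [mul_zero]
          exact hr0.le
        · show r ≤ sfun a R T * T
          rw [sfun_of_ge ha ha1 (le_max_right _ _), one_mul]
          exact le_max_left _ _
      obtain ⟨t, ⟨ht0, -⟩, ht⟩ := intermediate_value_Icc hT0 hτc.continuousOn h1
      have ht' : sfun a R t * t = r := ht
      refine ⟨b + (t / r : ℝ) * (w - b), ?_⟩
      have h2 : ‖b + ((t / r : ℝ) : ℂ) * (w - b) - b‖ = t := by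
        rw [add_sub_cancel_left, norm_mul, Complex.norm_real, Real.norm_eq_abs,
          abs_of_nonneg (div_nonneg ht0 hr0.le), ← hr, div_mul_cancel₀ _ hr0.ne']
      rw [hk]
      simp only
      rw [h2, add_sub_cancel_left, ← mul_assoc, ← Complex.ofReal_mul, ← mul_div_assoc, ht',
        div_self hr0.ne']
      push_cast
      ring
  have hclosed : IsClosedMap k := by
    refine IsProperMap.isClosedMap (isProperMap_iff_tendsto_cocompact.2 ⟨hkc, ?_⟩)
    refine tendsto_id.congr' ?_
    have : (closedBall b (R + 1))ᶜ ∈ cocompact ℂ :=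
      (isCompact_closedBall b (R + 1)).compl_mem_cocompact
    filter_upwards [this] with z hz
    exact (hout z hz).symm
  refine ⟨(Equiv.ofBijective k ⟨hinj, hsurj⟩).toHomeomorphOfIsInducing ?_, R + 1, hout, ?_⟩
  · exact (IsClosedEmbedding.of_continuous_injective_isClosedMap hkc hinj hclosed).isInducing
  · intro z hz
    rw [mem_closedBall, dist_eq_norm] at hz
    show k z ∈ ball b ε
    rw [mem_ball, dist_eq_norm, hkn, sfun_of_le hz]
    exact lt_of_le_of_lt (mul_le_mul_of_nonneg_left hz ha.le) haR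

lemma exists_radial' (b : ℂ) {C O : Set ℂ} (hC : IsCompact C) (hO : O ∈ 𝓝 b) :
    ∃ k : ℂ ≃ₜ ℂ, ∃ R' : ℝ, (∀ z, z ∉ closedBall b R' → k z = z) ∧ ∀ z ∈ C, k z ∈ O := by
  obtain ⟨ε, hε, hεO⟩ := Metric.mem_nhds_iff.1 hO
  obtain ⟨R, hR⟩ := hC.isBounded.subset_closedBall b
  obtain ⟨k, R', h1, h2⟩ := exists_radial b hε R
  exact ⟨k, R', h1, fun z hz => hεO (h2 z (hR hz))⟩

variable {S : Type*} [TopologicalSpace S]

section Equi

variable {G : Type*} [Group G] (ρ : G →* (S ≃ₜ S))

/-- a free disc: a chart onto `ℂ` with disjoint translates -/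
def FreeDisc (u : OpenPartialHomeomorph S ℂ) : Prop :=
  u.target = univ ∧ ∀ g : G, g ≠ 1 → Disjoint (ρ g '' u.source) u.source

variable {ρ}

lemma FreeDisc.eq_of_mem {u : OpenPartialHomeomorph S ℂ} (hu : FreeDisc ρ u) {g g' : G} {y y' : S}
    (hy : y ∈ u.source) (hy' : y' ∈ u.source) (h : ρ g y = ρ g' y') : g = g' ∧ y = y' := by
  have hg : g = g' := by
    by_contra hne
    have h1 : g⁻¹ * g' ≠ 1 := fun h2 => hne (inv_mul_eq_one.1 h2)
    have h2 := hu.2 (g⁻¹ * g') h1
    rw [Set.disjoint_left] at h2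
    refine h2 ⟨y', hy', rfl⟩ ?_
    rw [map_mul, map_inv, Homeomorph.mul_apply]
    show (ρ g).symm (ρ g' y') ∈ u.source
    rw [← h, Homeomorph.symm_apply_apply]
    exact hy
  subst hg
  exact ⟨rfl, (ρ g).injective h⟩

open Classical in
/-- equivariant extension of a self-map of a free disc -/
noncomputable def eext (ρ : G →* (S ≃ₜ S)) (u : OpenPartialHomeomorph S ℂ) (k : ℂ → ℂ) (x : S) :
    S :=
  if h : ∃ g : G, ∃ y ∈ u.source, ρ g y = x then ρ h.choose (u.symm (k (u h.choose_spec.choose)))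
  else x

lemma eext_apply {u : OpenPartialHomeomorph S ℂ} (hu : FreeDisc ρ u) (k : ℂ → ℂ) {g : G} {y : S}
    (hy : y ∈ u.source) : eext ρ u k (ρ g y) = ρ g (u.symm (k (u y))) := by
  have h : ∃ g' : G, ∃ y' ∈ u.source, ρ g' y' = ρ g y := ⟨g, y, hy, rfl⟩
  rw [eext, dif_pos h]
  obtain ⟨hy', he⟩ := h.choose_spec.choose_spec
  obtain ⟨h1, h2⟩ := hu.eq_of_mem hy' hy he
  rw [h2, h1]

lemma eext_of_not {u : OpenPartialHomeomorph S ℂ} (k : ℂ → ℂ) {x : S}
    (hx : ¬ ∃ g : G, ∃ y ∈ u.source, ρ g y = x) : eext ρ u k x = x := by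
  rw [eext, dif_neg hx]

/-- the equivariant homeomorphism supported in the translates of a free disc -/
lemma exists_equivariant [T2Space S] [Finite G] {u : OpenPartialHomeomorph S ℂ} (hu : FreeDisc ρ u)
    {k : ℂ ≃ₜ ℂ} {b : ℂ} {R : ℝ} (hk : ∀ z, z ∉ closedBall b R → k z = z) :
    ∃ H : S ≃ₜ S, (∀ g x, H (ρ g x) = ρ g (H x)) ∧ (∀ y ∈ u.source, H y = u.symm (k (u y))) ∧
      ∀ x, x ∉ ⋃ g : G, ρ g '' (u.symm '' closedBall b R) → H x = x := by
  have hmap : ∀ z : ℂ, u.symm z ∈ u.source := fun z => u.map_target (by rw [hu.1]; exact mem_univ _)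
  have hright : ∀ z : ℂ, u (u.symm z) = z := fun z => u.right_inv (by rw [hu.1]; exact mem_univ _)
  have hcK : IsClosed (⋃ g : G, ρ g '' (u.symm '' closedBall b R)) := by
    refine isClosed_iUnion_of_finite fun g => ?_
    refine (((isCompact_closedBall b R).image_of_continuousOn ?_).image (ρ g).continuous).isClosed
    refine u.continuousOn_symm.mono ?_
    rw [hu.1]
    exact subset_univ _
  -- general facts for a homeomorphism `k`
  have hid : ∀ k : ℂ → ℂ, (∀ z, z ∉ closedBall b R → k z = z) →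
      ∀ x, x ∉ ⋃ g : G, ρ g '' (u.symm '' closedBall b R) → eext ρ u k x = x := by
    intro k hk x hx
    by_cases h : ∃ g : G, ∃ y ∈ u.source, ρ g y = x
    · obtain ⟨g, y, hy, rfl⟩ := h
      rw [eext_apply hu k hy, hk, u.left_inv hy]
      intro h2
      exact hx (mem_iUnion.2 ⟨g, y, ⟨u y, h2, u.left_inv hy⟩, rfl⟩)
    · exact eext_of_not k h
  have hcont : ∀ k : ℂ → ℂ, Continuous k → (∀ z, z ∉ closedBall b R → k z = z) →
      Continuous (eext ρ u k) := by
    intro k hkc hk
    rw [continuous_iff_continuousAt]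
    intro x
    by_cases h : ∃ g : G, ∃ y ∈ u.source, ρ g y = x
    · obtain ⟨g, y, hy, rfl⟩ := h
      have h1 : ContinuousAt (fun x => ρ g (u.symm (k (u ((ρ g).symm x))))) (ρ g y) := by
        have e1 : ContinuousAt (fun x => u ((ρ g).symm x)) (ρ g y) := by
          refine ContinuousAt.comp (g := u) ?_ (ρ g).symm.continuous.continuousAt
          rw [Homeomorph.symm_apply_apply]
          exact u.continuousAt hy
        have e2 : ContinuousAt (fun x => k (u ((ρ g).symm x))) (ρ g y) :=
          ContinuousAt.comp (g := k) hkc.continuousAt e1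
        have e3 : ContinuousAt u.symm (k (u ((ρ g).symm (ρ g y)))) :=
          u.symm.continuousAt (by
            show _ ∈ u.target
            rw [hu.1]; exact mem_univ _)
        have e4 : ContinuousAt (fun x => u.symm (k (u ((ρ g).symm x)))) (ρ g y) :=
          ContinuousAt.comp (g := u.symm) e3 e2
        exact ContinuousAt.comp (g := ρ g) (ρ g).continuous.continuousAt e4
      refine h1.congr ?_
      have hopen : ρ g '' u.source ∈ 𝓝 (ρ g y) :=
        ((ρ g).isOpenMap _ u.open_source).mem_nhds ⟨y, hy, rfl⟩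
      filter_upwards [hopen] with x hx
      obtain ⟨y', hy', rfl⟩ := hx
      rw [eext_apply hu k hy', Homeomorph.symm_apply_apply]
    · have h1 : x ∉ ⋃ g : G, ρ g '' (u.symm '' closedBall b R) := by
        intro h2
        obtain ⟨g, y, ⟨z, -, rfl⟩, hy⟩ := mem_iUnion.1 h2
        exact h ⟨g, u.symm z, hmap z, hy⟩
      refine continuousAt_id.congr ?_
      filter_upwards [hcK.isOpen_compl.mem_nhds h1] with x' hx'
      exact (hid k hk x' hx').symm
  have hinv : ∀ k k' : ℂ → ℂ, (∀ z, k (k' z) = z) →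
      ∀ x, eext ρ u k (eext ρ u k' x) = x := by
    intro k k' hkk x
    by_cases h : ∃ g : G, ∃ y ∈ u.source, ρ g y = x
    · obtain ⟨g, y, hy, rfl⟩ := h
      rw [eext_apply hu k' hy, eext_apply hu k (hmap _), hright, hkk, u.left_inv hy]
    · rw [eext_of_not k' h, eext_of_not k h]
  have hk' : ∀ z, z ∉ closedBall b R → k.symm z = z := by
    intro z hz
    rw [Homeomorph.symm_apply_eq, hk z hz]
  refine ⟨{ toFun := eext ρ u k, invFun := eext ρ u k.symm
            left_inv := hinv _ _ fun z => k.symm_apply_apply z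
            right_inv := hinv _ _ fun z => k.apply_symm_apply z
            continuous_toFun := hcont _ k.continuous hk
            continuous_invFun := hcont _ k.symm.continuous hk' }, ?_, ?_, ?_⟩
  · intro g x
    show eext ρ u k (ρ g x) = ρ g (eext ρ u k x)
    by_cases h : ∃ g : G, ∃ y ∈ u.source, ρ g y = x
    · obtain ⟨g', y, hy, rfl⟩ := h
      have h2 : ρ g (ρ g' y) = ρ (g * g') y := by rw [map_mul]; rfl
      rw [h2, eext_apply hu _ hy, eext_apply hu _ hy, map_mul]; rfl
    · rw [eext_of_not _ h, eext_of_not]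
      rintro ⟨g', y, hy, he⟩
      refine h ⟨g⁻¹ * g', y, hy, ?_⟩
      rw [map_mul, map_inv, Homeomorph.mul_apply, he]
      exact (ρ g).symm_apply_apply x
  · intro y hy
    have := eext_apply hu k (g := 1) hy
    rw [map_one] at this
    exact this
  · exact hid k hk

end Equi

end Pool.Agent.Helper76.Flat
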