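import Pool.Agent.Helper76.Flat.PathInd

set_option autoImplicit false
set_option linter.style.haveILetI false

/-!
Small commuting rotations.
-/

open Set Topology MeasureTheory Filter Metric ComplexConjugate unitInterval

namespace Pool.Agent.Helper76.Flat

/-- continuous functions with locally constant exponential are locally constant -/
lemma eventually_const_of_exp {X : Type*} [TopologicalSpace X] {g : X → ℂ} {x : X} {C : ℂ}
    (hg : ContinuousAt g x) (h : ∀ᶠ y in 𝓝 x, Complex.exp (g y) = C) :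
    ∀ᶠ y in 𝓝 x, g y = g x := by
  have h1 : ∀ᶠ y in 𝓝 x, g y ∈ ball (g x) 1 := hg.eventually (ball_mem_nhds _ one_pos)
  have h0 := h.self_of_nhds
  filter_upwards [h, h1] with y hy hy1
  have h2 : Complex.exp (g y - g x) = 1 := by
    rw [Complex.exp_sub, hy, h0, div_self]
    rw [← h0]
    exact Complex.exp_ne_zero _
  obtain ⟨n, hn⟩ := Complex.exp_eq_one_iff.1 h2
  have h3 : ‖g y - g x‖ < 1 := by simpa [dist_eq_norm] using hy1
  have h4 : n = 0 := by
    by_contra hne
    have h5 : (1 : ℝ) ≤ |(n : ℝ)| := by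
      have := Int.one_le_abs hne
      exact_mod_cast this
    rw [hn, norm_mul, Complex.norm_intCast] at h3
    have h6 : ‖(2 * (Real.pi : ℂ) * Complex.I)‖ = 2 * Real.pi := by
      rw [norm_mul, norm_mul, Complex.norm_I, Complex.norm_real, Real.norm_eq_abs,
        abs_of_pos Real.pi_pos]
      simp
    rw [h6] at h3
    have := Real.pi_gt_three
    nlinarith
  rw [h4] at hn
  simpa [sub_eq_zero] using hn

variable {S : Type*} [TopologicalSpace S]

namespace TranslationStructure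

variable {M : TranslationStructure S}

/-- `w` is the position of `y` relative to the common centre -/
def IsCenter (M : TranslationStructure S) (h : ℕ → S ≃ₜ S) (lam : ℕ → ℂ) (y : S) (w : ℂ) : Prop :=
  ∀ (r : ℝ) (E : ℂ → S), 0 < r → M.IsSec 1 (ball 0 r) E → InjOn E (ball 0 r) → E 0 = y →
    ∀ᶠ k in atTop, h k y = E ((lam k - 1) * w)

lemma eventually_small {lam : ℕ → ℂ} (hl1 : Tendsto lam atTop (𝓝 1)) (w : ℂ) {r : ℝ} (hr : 0 < r) :
    ∀ᶠ k in atTop, (lam k - 1) * w ∈ ball (0 : ℂ) r := by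
  have h1 : Tendsto (fun k => (lam k - 1) * w) atTop (𝓝 ((1 - 1) * w)) :=
    (hl1.sub_const 1).mul_const w
  rw [sub_self, zero_mul] at h1
  exact h1.eventually (ball_mem_nhds 0 hr)

lemma isCenter_of_one [T2Space S] {h : ℕ → S ≃ₜ S} {lam : ℕ → ℂ}
    (hl1 : Tendsto lam atTop (𝓝 1)) {w : ℂ} {r : ℝ} {E : ℂ → S} (hr : 0 < r)
    (hE : M.IsSec 1 (ball 0 r) E) (he : ∀ᶠ k in atTop, h k (E 0) = E ((lam k - 1) * w)) :
    M.IsCenter h lam (E 0) w := by
  intro r' E' hr' hE' _ he'
  have h1 := (hE.mono (ball_subset_ball (min_le_left r r'))).eqOn isOpen_ball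
    isPreconnected_ball (hE'.mono (ball_subset_ball (min_le_right r r')))
    (mem_ball_self (lt_min hr hr')) he'.symm
  filter_upwards [he, eventually_small hl1 w (lt_min hr hr')] with k hk hk'
  rw [hk, h1 hk']

lemma exists_center [T2Space S] {h : ℕ → S ≃ₜ S} {lam : ℕ → ℂ} (hlam : ∀ k, ‖lam k‖ = 1)
    (haff : ∀ k, M.IsAffine (lam k) (h k)) (hl1 : Tendsto lam atTop (𝓝 1))
    (hne : ∀ k, lam k ≠ 1) (hcomm : ∀ j k, h j * h k = h k * h j) {y : S} (hy : y ∉ M.sing)
    (hpt : Tendsto (fun k => h k y) atTop (𝓝 y)) : ∃ w, M.IsCenter h lam y w := by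
  obtain ⟨r, hr, E, hE, hinj, rfl⟩ := M.exists_isSec hy
  obtain ⟨b, hb, hev⟩ := normal_form hlam haff hr hE hinj hpt
  have hsmall : ∀ᶠ k in atTop, ‖b k‖ < r / 4 := by
    filter_upwards [hb.eventually (ball_mem_nhds 0 (show 0 < r / 4 by positivity))] with k hk
    simpa using hk
  obtain ⟨K, hK⟩ := eventually_atTop.1 (hev.and hsmall)
  have hcom : ∀ j k, K ≤ j → K ≤ k → (lam j - 1) * b k = (lam k - 1) * b j := by
    intro j k hj hk
    have hj1 := (hK j hj).1.2
    have hk1 := (hK k hk).1.2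
    have hj2 := (hK j hj).2
    have hk2 := (hK k hk).2
    have h0 : (0 : ℂ) ∈ ball (0 : ℂ) (r / 2) := mem_ball_self (by positivity)
    have h1 : (h j * h k) (E 0) = E (lam j * b k + b j) := by
      rw [Homeomorph.mul_apply, hk1 0 h0, mul_zero, zero_add, hj1]
      simp only [mem_ball, dist_zero_right]; linarith
    have h2 : (h k * h j) (E 0) = E (lam k * b j + b k) := by
      rw [Homeomorph.mul_apply, hj1 0 h0, mul_zero, zero_add, hk1]
      simp only [mem_ball, dist_zero_right]; linarith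
    rw [hcomm j k, h2] at h1
    have h3 := hinj ?_ ?_ h1
    · linear_combination -h3
    · simp only [mem_ball, dist_zero_right]
      calc ‖lam k * b j + b k‖ ≤ ‖lam k * b j‖ + ‖b k‖ := norm_add_le _ _
        _ < r := by rw [norm_mul, hlam]; linarith
    · simp only [mem_ball, dist_zero_right]
      calc ‖lam j * b k + b j‖ ≤ ‖lam j * b k‖ + ‖b j‖ := norm_add_le _ _
        _ < r := by rw [norm_mul, hlam]; linarith
  have hK0 : lam K - 1 ≠ 0 := sub_ne_zero.2 (hne K)
  refine ⟨b K / (lam K - 1), isCenter_of_one hl1 hr hE ?_⟩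
  filter_upwards [eventually_ge_atTop K] with k hk
  have h1 := (hK k hk).1.2 0 (mem_ball_self (by positivity))
  rw [h1, mul_zero, zero_add]
  congr 1
  have h2 := hcom K k le_rfl hk
  field_simp
  linear_combination h2

lemma IsCenter.unique [T2Space S] {h : ℕ → S ≃ₜ S} {lam : ℕ → ℂ} (hl1 : Tendsto lam atTop (𝓝 1))
    (hne : ∀ k, lam k ≠ 1) {y : S} (hy : y ∉ M.sing) {w w' : ℂ} (hw : M.IsCenter h lam y w)
    (hw' : M.IsCenter h lam y w') : w = w' := by
  obtain ⟨r, hr, E, hE, hinj, rfl⟩ := M.exists_isSec hy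
  obtain ⟨k, ⟨h1, h2⟩, h3, h4⟩ := ((hw r E hr hE hinj rfl).and (hw' r E hr hE hinj rfl)).and
    ((eventually_small hl1 w hr).and (eventually_small hl1 w' hr)) |>.exists
  have := hinj h3 h4 (h1.symm.trans h2)
  exact mul_left_cancel₀ (sub_ne_zero.2 (hne k)) this

lemma IsCenter.move [T2Space S] {h : ℕ → S ≃ₜ S} {lam : ℕ → ℂ} (hlam : ∀ k, ‖lam k‖ = 1)
    (haff : ∀ k, M.IsAffine (lam k) (h k)) (hl1 : Tendsto lam atTop (𝓝 1)) {r : ℝ} {E : ℂ → S}
    (hr : 0 < r) (hE : M.IsSec 1 (ball 0 r) E) (hinj : InjOn E (ball 0 r))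
    (hpt : Tendsto (fun k => h k (E 0)) atTop (𝓝 (E 0))) {w : ℂ}
    (hw : M.IsCenter h lam (E 0) w) {z : ℂ} (hz : z ∈ ball (0 : ℂ) (r / 2)) :
    M.IsCenter h lam (E z) (w + z) := by
  obtain ⟨b, hb, hev⟩ := normal_form hlam haff hr hE hinj hpt
  have hz' : ‖z‖ < r / 2 := by simpa using hz
  obtain ⟨h1, h2⟩ := hE.recenter hinj (z1 := z) (by linarith)
  have h3 : M.IsCenter h lam ((fun ζ => E (ζ + z)) 0) (w + z) := by
    refine isCenter_of_one hl1 (show 0 < r - ‖z‖ by linarith) h1 ?_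
    filter_upwards [hev, hw r E hr hE hinj rfl, eventually_small hl1 w hr] with k hk hk2 hk3
    have h4 := hk.2 0 (mem_ball_self (by positivity))
    rw [hk2, mul_zero, zero_add] at h4
    have h5 : (lam k - 1) * w = b k := hinj hk3
      (by simp only [mem_ball, dist_zero_right]; linarith [hk.1]) h4
    show h k (E (0 + z)) = E ((lam k - 1) * (w + z) + z)
    rw [zero_add, hk.2 z hz, ← h5]
    congr 1
    ring
  simpa using h3

lemma IsCenter.map [T2Space S] {h : ℕ → S ≃ₜ S} {lam : ℕ → ℂ} (hlam : ∀ k, ‖lam k‖ = 1)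
    (haff : ∀ k, M.IsAffine (lam k) (h k)) (hl1 : Tendsto lam atTop (𝓝 1))
    (hcomm : ∀ j k, h j * h k = h k * h j) {y : S} (hy : y ∉ M.sing) {w : ℂ}
    (hw : M.IsCenter h lam y w) (k : ℕ) : M.IsCenter h lam (h k y) (lam k * w) := by
  obtain ⟨r, hr, E, hE, hinj, rfl⟩ := M.exists_isSec hy
  have hk0 : lam k ≠ 0 := by
    intro h0
    have := hlam k
    rw [h0] at this
    simp at this
  have h1 := (hE.comp_affine isOpen_ball (haff k)).comp_mul_add (a := (lam k)⁻¹) (b := 0)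
  rw [mul_one, mul_inv_cancel₀ hk0] at h1
  have h2 : M.IsSec 1 (ball 0 r) (fun z => (h k ∘ E) ((lam k)⁻¹ * z + 0)) := by
    refine h1.mono ?_
    intro z hz
    show (lam k)⁻¹ * z + 0 ∈ ball (0 : ℂ) r
    simp only [mem_ball, dist_zero_right] at hz ⊢
    rw [add_zero, norm_mul, norm_inv, hlam, inv_one, one_mul]
    exact hz
  have h3 : M.IsCenter h lam ((fun z => (h k ∘ E) ((lam k)⁻¹ * z + 0)) 0) (lam k * w) := by
    refine isCenter_of_one hl1 hr h2 ?_
    filter_upwards [hw r E hr hE hinj rfl] with j hj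
    show h j (h k (E ((lam k)⁻¹ * 0 + 0))) = h k (E ((lam k)⁻¹ * ((lam j - 1) * (lam k * w)) + 0))
    have h4 : (lam k)⁻¹ * ((lam j - 1) * (lam k * w)) + 0 = (lam j - 1) * w := by
      field_simp
      ring
    have h5 : (lam k)⁻¹ * (0 : ℂ) + 0 = 0 := by ring
    rw [h4, h5, ← hj, ← Homeomorph.mul_apply, ← Homeomorph.mul_apply, hcomm]
  simpa using h3

end TranslationStructure

end Pool.Agent.Helper76.Flat
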