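import Pool.Agent.Helper76.Flat.Rot

set_option autoImplicit false
set_option linter.style.haveILetI false

/-!
Small commuting rotations force a finitely generated fundamental group.
-/

open Set Topology MeasureTheory Filter Metric ComplexConjugate unitInterval

namespace Pool.Agent.Helper76.Flat

variable {S : Type*} [TopologicalSpace S]

namespace TranslationStructure

variable {M : TranslationStructure S}

/-- a global developing map -/
def IsDevFun (M : TranslationStructure S) (f : S → ℂ) : Prop :=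
  ∀ (r : ℝ) (E : ℂ → S), 0 < r → M.IsSec 1 (ball 0 r) E → InjOn E (ball 0 r) →
    ∀ z ∈ ball (0 : ℂ) (r / 2), f (E z) = f (E 0) + z

lemma IsDevFun.chart [T2Space S] {f : S → ℂ} (hf : M.IsDevFun f) {φ : OpenPartialHomeomorph S ℂ}
    (hφ : φ ∈ M.charts) {x : S} (hx : x ∈ φ.source) : ∃ c, ∀ᶠ y in 𝓝 x, f y = φ y + c := by
  obtain ⟨r, hr, E, hE, hinj, rfl⟩ := M.exists_isSec (notMem_sing hφ hx)
  obtain ⟨c, hc⟩ := (hE.2 0 (mem_ball_self hr)).2 φ hφ hx
  refine ⟨f (E 0) - c, ?_⟩
  rw [← hE.map_nhds one_ne_zero isOpen_ball (mem_ball_self hr), eventually_map]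
  filter_upwards [hc, ball_mem_nhds 0 (show 0 < r / 2 by positivity)] with z hz hz'
  rw [hf r E hr hE hinj z hz', hz]
  ring

/-- the exceptional set of the logarithmic structure -/
def excSet (M : TranslationStructure S) (f : S → ℂ) : Set S := M.sing ∪ {y | y ∉ M.sing ∧ f y = 0}

lemma notMem_excSet {f : S → ℂ} {y : S} : y ∉ M.excSet f ↔ y ∉ M.sing ∧ f y ≠ 0 := by
  simp only [excSet, mem_union, mem_ofPred_eq, not_or, not_and]
  tauto

lemma isolatedCharted_excSet [T2Space S] {f : S → ℂ} (hf : M.IsDevFun f) :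
    IsolatedCharted (M.excSet f) := by
  constructor
  · rw [← isOpen_compl_iff, isOpen_iff_mem_nhds]
    intro y hy
    rw [mem_compl_iff, notMem_excSet] at hy
    obtain ⟨φ, hφ, hx⟩ := M.exists_chart hy.1
    obtain ⟨c, hc⟩ := hf.chart hφ hx
    have h1 : ContinuousAt (fun y => φ y + c) y := (φ.continuousAt hx).add continuousAt_const
    have h2 : φ y + c ≠ 0 := by rw [← hc.self_of_nhds]; exact hy.2
    filter_upwards [hc, h1.eventually (isOpen_ne.mem_nhds h2), M.isOpen_reg.mem_nhds hy.1]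
      with z hz hz' hzs
    rw [mem_compl_iff, notMem_excSet]
    exact ⟨hzs, by rw [hz]; exact hz'⟩
  · intro p hp
    by_cases hps : p ∈ M.sing
    · obtain ⟨k, hk, h, hph, hp0, hhs, hcone⟩ := M.cone p hps
      have hk0 : k ≠ 0 := by omega
      refine ⟨?_, h, hph⟩
      obtain ⟨r, hr, hball⟩ := Metric.isOpen_iff.1 h.open_target (h p) (h.map_source hph)
      rw [hp0] at hball
      have hns : ∀ z ∈ ball (0 : ℂ) r \ {0}, h.symm z ∉ M.sing := by
        intro z hz hzs
        have h1 : h.symm z ∈ h.source ∩ M.sing := ⟨h.map_target (hball hz.1), hzs⟩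
        rw [hhs, mem_singleton_iff] at h1
        apply hz.2
        rw [mem_singleton_iff, ← h.right_inv (hball hz.1), h1, hp0]
      -- the function `f (h.symm z) - z ^ k` is locally constant on the punctured disc
      set d : ℂ → ℂ := fun z => f (h.symm z) - z ^ k with hd
      have hdloc : ∀ z ∈ ball (0 : ℂ) r \ {0}, ∀ᶠ w in 𝓝 z, d w = d z := by
        intro z hz
        obtain ⟨φ, hφ, hx⟩ := M.exists_chart (hns z hz)
        obtain ⟨c, hc⟩ := hf.chart hφ hx
        obtain ⟨c', hc'⟩ := hcone φ hφ _ ⟨hx, h.map_target (hball hz.1)⟩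
        have hcs : ContinuousAt h.symm z := h.symm.continuousAt (hball hz.1)
        have h2 : ∀ᶠ w in 𝓝 z, d w = c' + c := by
          filter_upwards [hcs.eventually hc, hcs.eventually hc',
            h.open_target.mem_nhds (hball hz.1)] with w hw hw' hwt
          rw [hd]
          simp only
          rw [hw, hw', h.right_inv hwt]
          ring
        have h3 := h2.self_of_nhds
        filter_upwards [h2] with w hw
        rw [hw, h3]
      obtain ⟨z0, hz0⟩ := nonempty_ball_diff (0 : ℂ) hr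
      have hconst : ∀ z ∈ ball (0 : ℂ) r \ {0}, d z = d z0 := by
        have hpre := (isPathConnected_ball_diff (0 : ℂ) hr).isConnected.isPreconnected
        have hopen : IsOpen {z | z ∈ ball (0 : ℂ) r \ {0} ∧ d z = d z0} := by
          rw [isOpen_iff_mem_nhds]
          rintro z ⟨hz, hzd⟩
          filter_upwards [hdloc z hz, (isOpen_ball.sdiff isClosed_singleton).mem_nhds hz]
            with w hw hw'
          exact ⟨hw', hw.trans hzd⟩
        have := hpre.subset_of_closure_inter_subset hopen ⟨z0, hz0, hz0, rfl⟩ (by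
          rintro z ⟨hzc, hz⟩
          refine ⟨hz, ?_⟩
          obtain ⟨w, hw1, hw2⟩ := mem_closure_iff_nhds.1 hzc _ (hdloc z hz)
          have hw1' : d w = d z := hw1
          rw [← hw1', hw2.2])
        intro z hz
        exact (this hz).2
      -- choose a radius without zeros
      obtain ⟨δ, hδ, hδr, hδz⟩ : ∃ δ > 0, δ ≤ r ∧ ∀ z ∈ ball (0 : ℂ) δ \ {0},
          f (h.symm z) ≠ 0 := by
        by_cases hc : d z0 = 0
        · refine ⟨r, hr, le_rfl, fun z hz h0 => ?_⟩
          have h1 := hconst z hz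
          rw [hc, hd] at h1
          simp only [h0, zero_sub, neg_eq_zero] at h1
          exact hz.2 (pow_eq_zero_iff hk0 |>.1 h1)
        · have hc' : 0 < ‖d z0‖ := norm_pos_iff.2 hc
          refine ⟨min r (min 1 ‖d z0‖), by positivity, min_le_left _ _, fun z hz h0 => ?_⟩
          have hzr : z ∈ ball (0 : ℂ) r \ {0} := ⟨ball_subset_ball (min_le_left _ _) hz.1, hz.2⟩
          have h1 := hconst z hzr
          rw [hd] at h1
          simp only [h0, zero_sub] at h1
          have hzn : ‖z‖ < min r (min 1 ‖d z0‖) := by simpa using hz.1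
          have hz1 : ‖z‖ < 1 := lt_of_lt_of_le hzn ((min_le_right _ _).trans (min_le_left _ _))
          have hz2 : ‖z‖ < ‖d z0‖ :=
            lt_of_lt_of_le hzn ((min_le_right _ _).trans (min_le_right _ _))
          have h2 : ‖d z0‖ = ‖z‖ ^ k := by
            rw [hd]
            simp only
            rw [← h1, norm_neg, norm_pow]
          have h3 : ‖z‖ ^ k ≤ ‖z‖ := pow_le_of_le_one (norm_nonneg _) hz1.le hk0
          linarith
      refine ⟨h.symm '' ball 0 δ, ?_, ?_⟩
      · have h1 := h.symm.isOpen_image_of_subset_source (s := ball (0 : ℂ) δ) isOpen_ball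
          ((ball_subset_ball hδr).trans hball)
        refine h1.mem_nhds ⟨0, mem_ball_self hδ, ?_⟩
        rw [← hp0, h.left_inv hph]
      · apply subset_antisymm
        · rintro _ ⟨⟨z, hz, rfl⟩, hzP⟩
          by_cases hz0' : z = 0
          · rw [hz0', mem_singleton_iff, ← hp0, h.left_inv hph]
          · exfalso
            have h1 := hns z ⟨ball_subset_ball hδr hz, hz0'⟩
            have h2 := hδz z ⟨hz, hz0'⟩
            exact (notMem_excSet.2 ⟨h1, h2⟩) hzP
        · rintro x rfl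
          refine ⟨⟨0, mem_ball_self hδ, ?_⟩, hp⟩
          rw [← hp0, h.left_inv hph]
    · have hfp : f p = 0 := by
        rcases hp with hp | hp
        · exact absurd hp hps
        · exact hp.2
      obtain ⟨φ, hφ, hx⟩ := M.exists_chart hps
      refine ⟨?_, φ, hx⟩
      obtain ⟨r, hr, E, hE, hinj, rfl⟩ := M.exists_isSec hps
      refine ⟨E '' ball 0 (r / 2), image_mem_nhds_of_sec hE (mem_ball_self hr)
        (ball_mem_nhds _ (by positivity)), ?_⟩
      apply subset_antisymm
      · rintro _ ⟨⟨z, hz, rfl⟩, hzP⟩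
        have hzr : z ∈ ball (0 : ℂ) r := ball_subset_ball (by linarith) hz
        rcases hzP with hzP | hzP
        · exact absurd hzP (hE.2 z hzr).1
        · have h1 := hf r E hr hE hinj z hz
          rw [hzP.2, hfp, zero_add] at h1
          rw [← h1]
          rfl
      · rintro x rfl
        exact ⟨⟨0, mem_ball_self (by positivity), rfl⟩, hp⟩

/-- existence of logarithmic charts -/
lemma exists_log_chart [T2Space S] {f : S → ℂ} (hf : M.IsDevFun f)
    (y : ((M.excSet f)ᶜ : Set S)) :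
    ∃ φ : OpenPartialHomeomorph ((M.excSet f)ᶜ : Set S) ℂ, y ∈ φ.source ∧
      ∀ x ∈ φ.source, f x = f y * Complex.exp (φ x) := by
  classical
  obtain ⟨y, hy⟩ := y
  have hy' := notMem_excSet.1 hy
  obtain ⟨r, hr, E, hE, hinj, rfl⟩ := M.exists_isSec hy'.1
  set a : ℂ := f (E 0) with ha
  have ha0 : a ≠ 0 := hy'.2
  set g : ℂ → ℂ := fun ζ => a * (Complex.exp ζ - 1) with hg
  have hg0 : g 0 = 0 := by simp [hg]
  have hgc : Continuous g := by fun_prop
  obtain ⟨δ, hδ, hδg⟩ := Metric.continuousAt_iff.1 hgc.continuousAt (r / 2) (by positivity)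
  rw [hg0] at hδg
  set ρ : ℝ := min δ 1 with hρ
  have hρ0 : 0 < ρ := lt_min hδ one_pos
  have hgm : ∀ ζ ∈ ball (0 : ℂ) ρ, g ζ ∈ ball (0 : ℂ) (r / 2) := fun ζ hζ =>
    hδg (ball_subset_ball (min_le_left _ _) hζ)
  have hgr : ∀ ζ ∈ ball (0 : ℂ) ρ, g ζ ∈ ball (0 : ℂ) r := fun ζ hζ =>
    ball_subset_ball (by linarith) (hgm ζ hζ)
  have hfE : ∀ ζ ∈ ball (0 : ℂ) ρ, f (E (g ζ)) = a * Complex.exp ζ := by
    intro ζ hζ
    rw [hf r E hr hE hinj _ (hgm ζ hζ), hg]
    simp only
    ring
  have hTmem : ∀ ζ ∈ ball (0 : ℂ) ρ, E (g ζ) ∈ (M.excSet f)ᶜ := by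
    intro ζ hζ
    rw [mem_compl_iff, notMem_excSet]
    refine ⟨(hE.2 _ (hgr ζ hζ)).1, ?_⟩
    rw [hfE ζ hζ]
    exact mul_ne_zero ha0 (Complex.exp_ne_zero _)
  set E' : ℂ → ((M.excSet f)ᶜ : Set S) := fun ζ =>
    if h : E (g ζ) ∈ (M.excSet f)ᶜ then ⟨E (g ζ), h⟩ else ⟨E 0, hy⟩ with hE'
  have hE'v : ∀ ζ ∈ ball (0 : ℂ) ρ, (E' ζ : S) = E (g ζ) := by
    intro ζ hζ
    simp only [hE', dif_pos (hTmem ζ hζ)]
  have hcont : ContinuousOn E' (ball 0 ρ) := by
    rw [Topology.IsInducing.subtypeVal.continuousOn_iff]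
    refine ContinuousOn.congr (f := fun ζ => E (g ζ)) ?_ hE'v
    exact hE.1.comp hgc.continuousOn hgr
  have hginj : ∀ ζ ∈ ball (0 : ℂ) ρ, ∀ ξ ∈ ball (0 : ℂ) ρ, g ζ = g ξ → ζ = ξ := by
    intro ζ hζ ξ hξ he
    have h1 : Complex.exp ζ = Complex.exp ξ := by
      have : a * (Complex.exp ζ - 1) = a * (Complex.exp ξ - 1) := he
      have := mul_left_cancel₀ ha0 this
      linear_combination this
    have hζn : ‖ζ‖ < 1 := by
      have := ball_subset_ball (min_le_right _ _) hζ
      simpa using this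
    have hξn : ‖ξ‖ < 1 := by
      have := ball_subset_ball (min_le_right _ _) hξ
      simpa using this
    have h3 := Real.pi_gt_three
    have h4 := (Complex.abs_im_le_norm ζ)
    have h5 := (Complex.abs_im_le_norm ξ)
    rw [abs_le] at h4 h5
    exact Complex.exp_inj_of_neg_pi_lt_of_le_pi (by linarith [h4.1]) (by linarith [h4.2])
      (by linarith [h5.1]) (by linarith [h5.2]) h1
  have hinj' : InjOn E' (ball 0 ρ) := by
    intro ζ hζ ξ hξ he
    have h1 : E (g ζ) = E (g ξ) := by rw [← hE'v ζ hζ, ← hE'v ξ hξ, he]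
    exact hginj ζ hζ ξ hξ (hinj (hgr ζ hζ) (hgr ξ hξ) h1)
  have hopen : ∀ V ⊆ ball (0 : ℂ) ρ, IsOpen V → IsOpen (E' '' V) := by
    intro V hV hVo
    have h1 : E' '' V = Subtype.val ⁻¹' ((fun ζ => E (g ζ)) '' V) := by
      ext x
      simp only [mem_image, mem_preimage]
      constructor
      · rintro ⟨ζ, hζ, rfl⟩
        exact ⟨ζ, hζ, (hE'v ζ (hV hζ)).symm⟩
      · rintro ⟨ζ, hζ, he⟩
        exact ⟨ζ, hζ, Subtype.ext ((hE'v ζ (hV hζ)).trans he)⟩
    rw [h1]
    refine IsOpen.preimage continuous_subtype_val ?_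
    rw [isOpen_iff_mem_nhds]
    rintro _ ⟨ζ, hζ, rfl⟩
    have h2 : map g (𝓝 ζ) = 𝓝 (g ζ) := by
      have h3 : HasStrictDerivAt g (a * Complex.exp ζ) ζ := by
        exact HasStrictDerivAt.const_mul a ((Complex.hasStrictDerivAt_exp ζ).sub_const 1)
      exact h3.map_nhds_eq (mul_ne_zero ha0 (Complex.exp_ne_zero _))
    have h4 : map (fun ζ => E (g ζ)) (𝓝 ζ) = 𝓝 (E (g ζ)) := by
      rw [← hE.map_nhds one_ne_zero isOpen_ball (hgr ζ (hV hζ)), ← h2, map_map]
      rfl
    rw [← h4]
    exact image_mem_map (hVo.mem_nhds hζ)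
  set φ := (ophOfInj E' (ball 0 ρ) isOpen_ball hcont hinj' hopen).symm with hφ
  refine ⟨φ, ⟨0, mem_ball_self hρ0, ?_⟩, ?_⟩
  · apply Subtype.ext
    rw [hE'v 0 (mem_ball_self hρ0), hg0]
  · rintro x ⟨ζ, hζ, rfl⟩
    have h1 : φ (E' ζ) = ζ :=
      (ophOfInj E' (ball 0 ρ) isOpen_ball hcont hinj' hopen).left_inv hζ
    rw [h1, hE'v ζ hζ, hfE ζ hζ]

/-- the logarithmic translation structure -/
noncomputable def logStructure [T2Space S] {f : S → ℂ} (hf : M.IsDevFun f) :
    TranslationStructure ((M.excSet f)ᶜ : Set S) where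
  sing := ∅
  charts := {φ | ∀ x ∈ φ.source, ∃ c : ℂ, c ≠ 0 ∧
    ∀ᶠ y : ((M.excSet f)ᶜ : Set S) in 𝓝 x, f y = c * Complex.exp (φ y)}
  isClosed_sing := isClosed_empty
  discrete_sing := by simp
  cover := by
    rw [compl_empty, eq_univ_iff_forall]
    intro x
    obtain ⟨φ, hx, hφ⟩ := exists_log_chart hf x
    refine mem_biUnion (x := φ) ?_ hx
    intro y hy
    refine ⟨f x, (notMem_excSet.1 x.2).2, ?_⟩
    filter_upwards [φ.open_source.mem_nhds hy] with z hz using hφ z hz
  translation := by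
    intro φ hφ ψ hψ x hx
    obtain ⟨c, hc0, hc⟩ := hφ x hx.1
    obtain ⟨c', hc0', hc'⟩ := hψ x hx.2
    have hcont : ContinuousAt (fun y => ψ y - φ y) x :=
      (ψ.continuousAt hx.2).sub (φ.continuousAt hx.1)
    have h1 : ∀ᶠ y in 𝓝 x, Complex.exp (ψ y - φ y) = c / c' := by
      filter_upwards [hc, hc'] with y hy hy'
      rw [Complex.exp_sub, div_eq_div_iff (Complex.exp_ne_zero _) hc0']
      rw [mul_comm, ← hy', hy]
    refine ⟨ψ x - φ x, ?_⟩
    filter_upwards [eventually_const_of_exp hcont h1] with y hy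
    rw [← hy]
    ring
  cone := by simp

end TranslationStructure

end Pool.Agent.Helper76.Flat
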