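import Pool.Agent.Helper76.Flat.Defs

set_option autoImplicit false

/-!
Sections of a translation structure: maps from planar domains which are locally affine in charts.
-/

open Set Topology MeasureTheory Filter Metric

namespace Pool.Agent.Helper76.Flat

namespace TranslationStructure

variable {S : Type*} [TopologicalSpace S] {M : TranslationStructure S}

/-- a continuous map from a planar domain which is locally inverse to `lam⁻¹ *` charts. -/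
def IsSec (M : TranslationStructure S) (lam : ℂ) (U : Set ℂ) (E : ℂ → S) : Prop :=
  ContinuousOn E U ∧ ∀ z ∈ U, E z ∉ M.sing ∧ ∀ φ ∈ M.charts, E z ∈ φ.source →
    ∃ c : ℂ, ∀ᶠ w in 𝓝 z, φ (E w) = lam * w + c

lemma IsSec.mono {lam : ℂ} {U V : Set ℂ} {E : ℂ → S} (h : M.IsSec lam U E) (hV : V ⊆ U) :
    M.IsSec lam V E :=
  ⟨h.1.mono hV, fun z hz => h.2 z (hV hz)⟩

lemma IsSec.congr {lam : ℂ} {U : Set ℂ} {E E' : ℂ → S} (hU : IsOpen U) (h : M.IsSec lam U E)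
    (hE : EqOn E' E U) : M.IsSec lam U E' := by
  refine ⟨h.1.congr hE, fun z hz => ?_⟩
  rw [hE hz]
  refine ⟨(h.2 z hz).1, fun φ hφ hx => ?_⟩
  obtain ⟨c, hc⟩ := (h.2 z hz).2 φ hφ hx
  refine ⟨c, ?_⟩
  filter_upwards [hc, hU.mem_nhds hz] with w hw hwU
  rw [hE hwU, hw]

lemma isSec_union {lam : ℂ} {U V : Set ℂ} {E : ℂ → S} (hU : IsOpen U) (hV : IsOpen V)
    (h : M.IsSec lam U E) (h' : M.IsSec lam V E) : M.IsSec lam (U ∪ V) E :=
  ⟨h.1.union_of_isOpen h'.1 hU hV, fun z hz => hz.elim (h.2 z) (h'.2 z)⟩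

lemma isSec_of_forall {lam : ℂ} {U : Set ℂ} {E : ℂ → S}
    (h : ∀ z ∈ U, ∃ V : Set ℂ, IsOpen V ∧ z ∈ V ∧ M.IsSec lam V E) : M.IsSec lam U E := by
  refine ⟨fun z hz => ?_, fun z hz => ?_⟩
  · obtain ⟨V, hV, hzV, hE⟩ := h z hz
    exact (hE.1.continuousAt (hV.mem_nhds hzV)).continuousWithinAt
  · obtain ⟨V, hV, hzV, hE⟩ := h z hz
    exact hE.2 z hzV

lemma isSec_iUnion {ι : Type*} {lam : ℂ} {U : ι → Set ℂ} {E : ℂ → S} (hU : ∀ i, IsOpen (U i))
    (h : ∀ i, M.IsSec lam (U i) E) : M.IsSec lam (⋃ i, U i) E := by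
  refine isSec_of_forall fun z hz => ?_
  obtain ⟨i, hi⟩ := mem_iUnion.1 hz
  exact ⟨U i, hU i, hi, h i⟩

lemma isSec_of_chart {lam : ℂ} {U : Set ℂ} {E : ℂ → S} (hU : IsOpen U) (hE : ContinuousOn E U)
    (h : ∀ z ∈ U, ∃ φ ∈ M.charts, E z ∈ φ.source ∧ ∃ c : ℂ, ∀ᶠ w in 𝓝 z, φ (E w) = lam * w + c) :
    M.IsSec lam U E := by
  refine ⟨hE, fun z hz => ?_⟩
  obtain ⟨φ, hφ, hx, c, hc⟩ := h z hz
  refine ⟨notMem_sing hφ hx, fun ψ hψ hx' => ?_⟩
  obtain ⟨d, hd⟩ := M.translation φ hφ ψ hψ _ ⟨hx, hx'⟩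
  refine ⟨c + d, ?_⟩
  filter_upwards [hc, (hE.continuousAt (hU.mem_nhds hz)).eventually hd] with w hw hw'
  rw [hw', hw]
  ring

lemma IsSec.continuousAt {lam : ℂ} {U : Set ℂ} {E : ℂ → S} (h : M.IsSec lam U E) (hU : IsOpen U)
    {z : ℂ} (hz : z ∈ U) : ContinuousAt E z :=
  h.1.continuousAt (hU.mem_nhds hz)

/-- uniqueness of sections -/
lemma IsSec.eqOn [T2Space S] {lam : ℂ} {U : Set ℂ} {E E' : ℂ → S} (hU : IsOpen U)
    (hc : IsPreconnected U) (h : M.IsSec lam U E) (h' : M.IsSec lam U E') {z0 : ℂ} (hz0 : z0 ∈ U)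
    (he : E z0 = E' z0) : EqOn E E' U := by
  have hop : IsOpen {z ∈ U | E z = E' z} := by
    rw [isOpen_iff_mem_nhds]
    rintro z ⟨hz, hzz⟩
    obtain ⟨φ, hφ, hx⟩ := M.exists_chart (h.2 z hz).1
    obtain ⟨c, hc1⟩ := (h.2 z hz).2 φ hφ hx
    obtain ⟨c', hc2⟩ := (h'.2 z hz).2 φ hφ (hzz ▸ hx)
    have h1 := hc1.self_of_nhds
    have h2 := hc2.self_of_nhds
    rw [hzz] at h1
    have hcc : c = c' := by
      have := h1.symm.trans h2
      exact add_left_cancel this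
    have hs1 : ∀ᶠ w in 𝓝 z, E w ∈ φ.source :=
      (h.continuousAt hU hz).eventually (φ.open_source.mem_nhds hx)
    have hs2 : ∀ᶠ w in 𝓝 z, E' w ∈ φ.source :=
      (h'.continuousAt hU hz).eventually (φ.open_source.mem_nhds (hzz ▸ hx))
    filter_upwards [hc1, hc2, hs1, hs2, hU.mem_nhds hz] with w hw1 hw2 hw3 hw4 hwU
    refine ⟨hwU, φ.injOn hw3 hw4 ?_⟩
    rw [hw1, hw2, hcc]
  have hsub : U ⊆ {z ∈ U | E z = E' z} := by
    refine hc.subset_of_closure_inter_subset hop ⟨z0, hz0, hz0, he⟩ ?_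
    rintro z ⟨hz, hzU⟩
    refine ⟨hzU, ?_⟩
    by_contra hne
    have h1 : ∀ᶠ w in 𝓝 z, E w ≠ E' w := by
      have hp : ContinuousAt (fun w => (E w, E' w)) z :=
        (h.continuousAt hU hzU).prodMk (h'.continuousAt hU hzU)
      exact hp.eventually ((isOpen_ne_fun continuous_fst continuous_snd).mem_nhds hne)
    obtain ⟨w, hw1, hw2⟩ := mem_closure_iff_nhds.1 hz _ h1
    exact hw1 hw2.2
  intro z hz
  exact (hsub hz).2

lemma IsSec.comp_affine {lam mu : ℂ} {U : Set ℂ} {E : ℂ → S} (hU : IsOpen U)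
    (h : M.IsSec lam U E) {f : S ≃ₜ S} (hf : M.IsAffine mu f) :
    M.IsSec (mu * lam) U (f ∘ E) := by
  refine isSec_of_chart hU (f.continuous.comp_continuousOn h.1) fun z hz => ?_
  obtain ⟨φ, hφ, hx⟩ := M.exists_chart (h.2 z hz).1
  have hfx : f (E z) ∉ M.sing := fun hh => (h.2 z hz).1 ((mem_sing_iff_image hf.1).1 hh)
  obtain ⟨ψ, hψ, hx'⟩ := M.exists_chart hfx
  refine ⟨ψ, hψ, hx', ?_⟩
  obtain ⟨c, hc⟩ := (h.2 z hz).2 φ hφ hx
  obtain ⟨d, hd⟩ := hf.2 φ hφ ψ hψ _ hx hx'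
  refine ⟨mu * c + d, ?_⟩
  filter_upwards [hc, (h.continuousAt hU hz).eventually hd] with w hw hw'
  rw [Function.comp_apply, hw', hw]
  ring

lemma IsSec.comp_mul_add {lam a b : ℂ} {U : Set ℂ} {E : ℂ → S} (h : M.IsSec lam U E) :
    M.IsSec (lam * a) ((fun z => a * z + b) ⁻¹' U) (fun z => E (a * z + b)) := by
  have hcont : Continuous fun z : ℂ => a * z + b := by fun_prop
  refine ⟨h.1.comp hcont.continuousOn fun z hz => hz, fun z hz => ?_⟩
  refine ⟨(h.2 _ hz).1, fun φ hφ hx => ?_⟩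
  obtain ⟨c, hc⟩ := (h.2 _ hz).2 φ hφ hx
  refine ⟨lam * b + c, ?_⟩
  filter_upwards [hcont.continuousAt.eventually hc] with w hw
  rw [hw]
  ring

lemma IsSec.comp_add {lam b : ℂ} {U : Set ℂ} {E : ℂ → S} (h : M.IsSec lam U E) :
    M.IsSec lam ((fun z => z + b) ⁻¹' U) (fun z => E (z + b)) := by
  have := h.comp_mul_add (a := 1) (b := b)
  simpa using this

/-- sections map neighbourhoods to neighbourhoods -/
lemma IsSec.map_nhds {lam : ℂ} (hlam : lam ≠ 0) {U : Set ℂ} {E : ℂ → S} (hU : IsOpen U)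
    (h : M.IsSec lam U E) {z : ℂ} (hz : z ∈ U) : map E (𝓝 z) = 𝓝 (E z) := by
  obtain ⟨φ, hφ, hx⟩ := M.exists_chart (h.2 z hz).1
  obtain ⟨c, hc⟩ := (h.2 z hz).2 φ hφ hx
  have hs1 : ∀ᶠ w in 𝓝 z, E w ∈ φ.source :=
    (h.continuousAt hU hz).eventually (φ.open_source.mem_nhds hx)
  have hEq : E =ᶠ[𝓝 z] φ.symm ∘ fun w => lam * w + c := by
    filter_upwards [hc, hs1] with w hw hw'
    rw [Function.comp_apply, ← hw, φ.left_inv hw']
  have hm : map (fun w => lam * w + c) (𝓝 z) = 𝓝 (lam * z + c) := by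
    have : (fun w => lam * w + c) =
        ((Homeomorph.mulLeft₀ lam hlam).trans (Homeomorph.addRight c) : ℂ → ℂ) := by
      ext w; simp
    rw [this, Homeomorph.map_nhds_eq]; rfl
  rw [map_congr hEq, ← map_map, hm, ← hc.self_of_nhds, φ.symm_map_nhds_eq hx]

lemma IsSec.isOpen_image {lam : ℂ} (hlam : lam ≠ 0) {U V : Set ℂ} {E : ℂ → S} (hU : IsOpen U)
    (h : M.IsSec lam U E) (hV : IsOpen V) (hVU : V ⊆ U) : IsOpen (E '' V) := by
  rw [isOpen_iff_mem_nhds]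
  rintro _ ⟨z, hz, rfl⟩
  rw [← h.map_nhds hlam hU (hVU hz)]
  exact image_mem_map (hV.mem_nhds hz)

/-- local sections exist -/
lemma exists_isSec (M : TranslationStructure S) {x : S} (hx : x ∉ M.sing) :
    ∃ r > 0, ∃ E : ℂ → S, M.IsSec 1 (ball 0 r) E ∧ InjOn E (ball 0 r) ∧ E 0 = x := by
  obtain ⟨φ, hφ, hxs⟩ := M.exists_chart hx
  obtain ⟨r, hr, hball⟩ := Metric.isOpen_iff.1 φ.open_target (φ x) (φ.map_source hxs)
  have hmem : ∀ z ∈ ball (0 : ℂ) r, φ x + z ∈ φ.target := by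
    intro z hz
    apply hball
    simpa using hz
  refine ⟨r, hr, fun z => φ.symm (φ x + z), ?_, ?_, ?_⟩
  · refine isSec_of_chart isOpen_ball ?_ fun z hz => ?_
    · refine φ.continuousOn_symm.comp (by fun_prop) fun z hz => hmem z hz
    · refine ⟨φ, hφ, φ.map_target (hmem z hz), φ x, ?_⟩
      filter_upwards [isOpen_ball.mem_nhds hz] with w hw
      rw [φ.right_inv (hmem w hw)]
      ring
  · intro z hz w hw hzw
    have := φ.symm.injOn (hmem z hz) (hmem w hw) hzw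
    exact add_left_cancel this
  · simp [φ.left_inv hxs]

lemma IsSec.injOn_nhds {lam : ℂ} (hlam : lam ≠ 0) {U : Set ℂ} {E : ℂ → S} (hU : IsOpen U)
    (h : M.IsSec lam U E) {z : ℂ} (hz : z ∈ U) : ∃ r > 0, ball z r ⊆ U ∧ InjOn E (ball z r) := by
  obtain ⟨φ, hφ, hx⟩ := M.exists_chart (h.2 z hz).1
  obtain ⟨c, hc⟩ := (h.2 z hz).2 φ hφ hx
  obtain ⟨r, hr, hb⟩ := Metric.eventually_nhds_iff_ball.1 (hc.and (hU.mem_nhds hz))
  refine ⟨r, hr, fun w hw => (hb w hw).2, fun w hw w' hw' hww => ?_⟩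
  have h1 := (hb w hw).1
  have h2 := (hb w' hw').1
  rw [hww, h2] at h1
  have := add_right_cancel h1
  exact (mul_left_cancel₀ hlam this).symm

end TranslationStructure

end Pool.Agent.Helper76.Flat
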