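import Pool.Agent.Helper76.Flat.NearId

set_option autoImplicit false
set_option linter.style.haveILetI false

/-!
Sequences of isometries converging to the identity.
-/

open Set Topology MeasureTheory Filter Metric

namespace Pool.Agent.Helper76.Flat

namespace TranslationStructure

variable {S : Type*} [TopologicalSpace S] {M : TranslationStructure S}

/-- gluing sections -/
lemma glue_sec {ι : Type*} {lam : ℂ} {V : ι → Set ℂ} {E : ι → ℂ → S} (hV : ∀ i, IsOpen (V i))
    (hE : ∀ i, M.IsSec lam (V i) (E i)) (hcompat : ∀ i j, ∀ z ∈ V i ∩ V j, E i z = E j z)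
    [Nonempty S] : ∃ E' : ℂ → S, (∀ i, EqOn E' (E i) (V i)) ∧ M.IsSec lam (⋃ i, V i) E' := by
  classical
  set E' : ℂ → S := fun z => if h : ∃ i, z ∈ V i then E h.choose z else Classical.arbitrary S
    with hE'
  have h1 : ∀ i, EqOn E' (E i) (V i) := by
    intro i z hz
    have h : ∃ i, z ∈ V i := ⟨i, hz⟩
    simp only [hE', dif_pos h]
    exact hcompat _ _ z ⟨h.choose_spec, hz⟩
  exact ⟨E', h1, isSec_iUnion hV fun i => (hE i).congr (hV i) (h1 i)⟩

lemma image_mem_nhds_of_sec {E : ℂ → S} {r : ℝ} (hE : M.IsSec 1 (ball 0 r) E) {z : ℂ}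
    (hz : z ∈ ball (0 : ℂ) r) {V : Set ℂ} (hV : V ∈ 𝓝 z) : E '' V ∈ 𝓝 (E z) := by
  rw [← hE.map_nhds one_ne_zero isOpen_ball hz]
  exact image_mem_map hV

/-- normal form of a sequence of affine maps converging to the identity at a regular point -/
lemma normal_form [T2Space S] {h : ℕ → S ≃ₜ S} {lam : ℕ → ℂ} (hlam : ∀ k, ‖lam k‖ = 1)
    (haff : ∀ k, M.IsAffine (lam k) (h k)) {r : ℝ} (hr : 0 < r) {E : ℂ → S}
    (hE : M.IsSec 1 (ball 0 r) E) (hinj : InjOn E (ball 0 r))
    (hpt : Tendsto (fun k => h k (E 0)) atTop (𝓝 (E 0))) :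
    ∃ b : ℕ → ℂ, Tendsto b atTop (𝓝 0) ∧ ∀ᶠ k in atTop, ‖b k‖ < r / 2 ∧
      ∀ z ∈ ball (0 : ℂ) (r / 2), h k (E z) = E (lam k * z + b k) := by
  classical
  have hnb : ∀ δ > 0, ∀ᶠ k in atTop, ∃ b ∈ ball (0 : ℂ) (min δ r), h k (E 0) = E b := by
    intro δ hδ
    have h1 : E '' ball 0 (min δ r) ∈ 𝓝 (E 0) :=
      image_mem_nhds_of_sec hE (mem_ball_self hr) (ball_mem_nhds _ (lt_min hδ hr))
    filter_upwards [hpt.eventually h1] with k hk
    obtain ⟨b, hb, hb'⟩ := hk
    exact ⟨b, hb, hb'.symm⟩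
  set b : ℕ → ℂ := fun k => if hk : ∃ b ∈ ball (0 : ℂ) r, h k (E 0) = E b then hk.choose else 0
    with hb
  have hbspec : ∀ k, ∀ b' ∈ ball (0 : ℂ) r, h k (E 0) = E b' → b k = b' := by
    intro k b' hb' he
    have hk : ∃ b ∈ ball (0 : ℂ) r, h k (E 0) = E b := ⟨b', hb', he⟩
    have h2 : b k = hk.choose := by simp only [hb, dif_pos hk]
    rw [h2]
    exact hinj hk.choose_spec.1 hb' (hk.choose_spec.2.symm.trans he)
  have hbt : ∀ δ > 0, ∀ᶠ k in atTop, ‖b k‖ < δ ∧ h k (E 0) = E (b k) := by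
    intro δ hδ
    filter_upwards [hnb δ hδ] with k hk
    obtain ⟨b', hb', he⟩ := hk
    have h1 : b' ∈ ball (0 : ℂ) r := ball_subset_ball (min_le_right _ _) hb'
    have h2 : b' ∈ ball (0 : ℂ) δ := ball_subset_ball (min_le_left _ _) hb'
    have h3 := hbspec k b' h1 he
    rw [h3]
    exact ⟨by simpa using h2, he⟩
  refine ⟨b, ?_, ?_⟩
  · rw [Metric.tendsto_nhds]
    intro δ hδ
    filter_upwards [hbt δ hδ] with k hk
    simpa using hk.1
  · filter_upwards [hbt (r / 2) (by positivity)] with k hk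
    refine ⟨hk.1, fun z hz => ?_⟩
    have hz' : ‖z‖ < r / 2 := by simpa using hz
    have h1 := (haff k).local_formula hE (mem_ball_self hr)
      (w1 := b k) (by simp only [mem_ball, dist_zero_right]; linarith [hk.1]) hk.2 (z := z)
      (by simp only [mem_ball, dist_zero_right]; linarith)
      (by
        rw [mul_zero, sub_zero]
        simp only [mem_ball, dist_zero_right]
        calc ‖lam k * z + b k‖ ≤ ‖lam k * z‖ + ‖b k‖ := norm_add_le _ _
          _ = ‖z‖ + ‖b k‖ := by rw [norm_mul, hlam, one_mul]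
          _ < r := by linarith [hk.1])
    rwa [mul_zero, sub_zero] at h1

/-- recentring a section -/
lemma IsSec.recenter {E : ℂ → S} {r : ℝ} (hE : M.IsSec 1 (ball 0 r) E)
    (hinj : InjOn E (ball 0 r)) {z1 : ℂ} (hz1 : ‖z1‖ < r) :
    M.IsSec 1 (ball 0 (r - ‖z1‖)) (fun z => E (z + z1)) ∧
      InjOn (fun z => E (z + z1)) (ball 0 (r - ‖z1‖)) := by
  have hsub : ∀ z ∈ ball (0 : ℂ) (r - ‖z1‖), z + z1 ∈ ball (0 : ℂ) r := by
    intro z hz
    simp only [mem_ball, dist_zero_right] at hz ⊢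
    linarith [norm_add_le z z1]
  refine ⟨(hE.comp_add (b := z1)).mono hsub, fun z hz w hw hzw => ?_⟩
  exact add_right_cancel (hinj (hsub z hz) (hsub w hw) hzw)

/-- pointwise convergence to the identity propagates -/
lemma tendsto_id_of_one [T2Space S] [ConnectedSpace S] {h : ℕ → S ≃ₜ S} {lam : ℕ → ℂ}
    (hlam : ∀ k, ‖lam k‖ = 1) (haff : ∀ k, M.IsAffine (lam k) (h k))
    (hl1 : Tendsto lam atTop (𝓝 1)) {x0 : S} (hx0 : x0 ∉ M.sing)
    (hpt : Tendsto (fun k => h k x0) atTop (𝓝 x0)) {y : S} (hy : y ∉ M.sing) :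
    Tendsto (fun k => h k y) atTop (𝓝 y) := by
  set A : Set S := {y | y ∉ M.sing ∧ Tendsto (fun k => h k y) atTop (𝓝 y)} with hA
  -- transfer from the centre of a disc to other points
  have hfrom : ∀ (r : ℝ) (E : ℂ → S), 0 < r → M.IsSec 1 (ball 0 r) E → InjOn E (ball 0 r) →
      Tendsto (fun k => h k (E 0)) atTop (𝓝 (E 0)) → ∀ z ∈ ball (0 : ℂ) (r / 2),
      Tendsto (fun k => h k (E z)) atTop (𝓝 (E z)) := by
    intro r E hr hE hinj hE0 z hz
    obtain ⟨b, hb, hev⟩ := normal_form hlam haff hr hE hinj hE0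
    have hzr : z ∈ ball (0 : ℂ) r := ball_subset_ball (by linarith) hz
    have h1 : Tendsto (fun k => lam k * z + b k) atTop (𝓝 (1 * z + 0)) :=
      (hl1.mul_const z).add hb
    rw [one_mul, add_zero] at h1
    have h2 : Tendsto (fun k => E (lam k * z + b k)) atTop (𝓝 (E z)) :=
      (hE.continuousAt isOpen_ball hzr).tendsto.comp h1
    refine h2.congr' ?_
    filter_upwards [hev] with k hk
    exact (hk.2 z hz).symm
  have hAo : IsOpen A := by
    rw [isOpen_iff_mem_nhds]
    rintro y ⟨hy, hyt⟩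
    obtain ⟨r, hr, E, hE, hinj, rfl⟩ := M.exists_isSec hy
    have h1 : E '' ball 0 (r / 2) ∈ 𝓝 (E 0) :=
      image_mem_nhds_of_sec hE (mem_ball_self hr) (ball_mem_nhds _ (by positivity))
    refine mem_of_superset h1 ?_
    rintro _ ⟨z, hz, rfl⟩
    exact ⟨(hE.2 z (ball_subset_ball (by linarith) hz)).1, hfrom r E hr hE hinj hyt z hz⟩
  have hsub : M.singᶜ ⊆ A := by
    refine M.isolatedCharted_sing.isPreconnected_compl.subset_of_closure_inter_subset hAo
      ⟨x0, hx0, hx0, hpt⟩ ?_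
    rintro y ⟨hycl, hy⟩
    obtain ⟨r, hr, E, hE, hinj, rfl⟩ := M.exists_isSec hy
    have h1 : E '' ball 0 (r / 4) ∈ 𝓝 (E 0) :=
      image_mem_nhds_of_sec hE (mem_ball_self hr) (ball_mem_nhds _ (by positivity))
    obtain ⟨_, ⟨z1, hz1, rfl⟩, -, hz1t⟩ := mem_closure_iff_nhds.1 hycl _ h1
    have hz1' : ‖z1‖ < r / 4 := by simpa using hz1
    obtain ⟨h2, h3⟩ := hE.recenter hinj (z1 := z1) (by linarith)
    refine ⟨hy, ?_⟩
    have h4 := hfrom (r - ‖z1‖) _ (by linarith) h2 h3 (by simpa using hz1t) (-z1)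
      (by simp only [mem_ball, dist_zero_right, norm_neg]; linarith)
    simpa using h4
  exact (hsub hy).2

/-- A sequence of nontrivial translations converging to the identity: displacement. -/
lemma exists_displacement [T2Space S] [ConnectedSpace S] {t : ℕ → S ≃ₜ S}
    (haff : ∀ k, M.IsAffine 1 (t k)) (hne : ∀ k, t k ≠ 1) {x0 : S} (hx0 : x0 ∉ M.sing)
    (hpt : Tendsto (fun k => t k x0) atTop (𝓝 x0)) :
    ∃ c : ℕ → ℂ, Tendsto c atTop (𝓝 0) ∧ (∀ᶠ k in atTop, c k ≠ 0) ∧
      ∀ (r : ℝ) (E : ℂ → S), 0 < r → M.IsSec 1 (ball 0 r) E → InjOn E (ball 0 r) →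
        ∀ᶠ k in atTop, ∀ z ∈ ball (0 : ℂ) (r / 2), t k (E z) = E (z + c k) := by
  have hl : ∀ _ : ℕ, ‖(1 : ℂ)‖ = 1 := fun _ => norm_one
  have hall : ∀ y, y ∉ M.sing → Tendsto (fun k => t k y) atTop (𝓝 y) := fun y hy =>
    tendsto_id_of_one hl haff tendsto_const_nhds hx0 hpt hy
  obtain ⟨r0, hr0, E0, hE0, hinj0, rfl⟩ := M.exists_isSec hx0
  obtain ⟨c, hc, hev⟩ := normal_form hl haff hr0 hE0 hinj0 hpt
  refine ⟨c, hc, ?_, ?_⟩
  · filter_upwards [hev] with k hk h0
    have h1 := hk.2 0 (mem_ball_self (by positivity))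
    rw [h0, mul_zero, add_zero] at h1
    exact hne k ((haff k).eq_of_eq isAffine_one hx0 (by rw [h1]; rfl))
  · set D : Set S := {y | y ∉ M.sing ∧ ∀ (r : ℝ) (E : ℂ → S), 0 < r → M.IsSec 1 (ball 0 r) E →
      InjOn E (ball 0 r) → E 0 = y → ∀ᶠ k in atTop, t k y = E (c k)} with hD
    -- equality of two sections near the centre
    have hloc : ∀ (r r' : ℝ) (E E' : ℂ → S), 0 < r → 0 < r' → M.IsSec 1 (ball 0 r) E →
        M.IsSec 1 (ball 0 r') E' → E 0 = E' 0 → ∀ᶠ k in atTop, E (c k) = E' (c k) := by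
      intro r r' E E' hr hr' hE hE' he
      have h1 := (hE.mono (ball_subset_ball (min_le_left r r'))).eqOn isOpen_ball
        isPreconnected_ball (hE'.mono (ball_subset_ball (min_le_right r r')))
        (mem_ball_self (lt_min hr hr')) he
      filter_upwards [hc.eventually (ball_mem_nhds 0 (lt_min hr hr'))] with k hk using h1 hk
    have hDc : ∀ (r : ℝ) (E : ℂ → S), 0 < r → M.IsSec 1 (ball 0 r) E → InjOn E (ball 0 r) →
        ∀ z ∈ ball (0 : ℂ) (r / 4), (E 0 ∈ D ↔ E z ∈ D) := by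
      intro r E hr hE hinj z hz
      have hz' : ‖z‖ < r / 4 := by simpa using hz
      have hE0s := (hE.2 0 (mem_ball_self hr)).1
      have hzs := (hE.2 z (ball_subset_ball (by linarith) hz)).1
      obtain ⟨b, hb, hbe⟩ := normal_form hl haff hr hE hinj (hall _ hE0s)
      obtain ⟨hEz, hinjz⟩ := hE.recenter hinj (z1 := z) (by linarith)
      have hsmall : ∀ᶠ k in atTop, ‖c k‖ < r / 4 := by
        filter_upwards [hc.eventually (ball_mem_nhds 0 (show 0 < r / 4 by positivity))] with k hk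
        simpa using hk
      have hsmallb : ∀ᶠ k in atTop, ‖b k‖ < r / 4 := by
        filter_upwards [hb.eventually (ball_mem_nhds 0 (show 0 < r / 4 by positivity))] with k hk
        simpa using hk
      constructor
      · rintro ⟨-, h0⟩
        refine ⟨hzs, fun r' E' hr' hE' hinj' he' => ?_⟩
        have h1 := h0 r E hr hE hinj rfl
        have h2 := hloc _ r' _ E' (show 0 < r - ‖z‖ by linarith) hr' hEz hE' (by simp [he'])
        filter_upwards [h1, h2, hbe, hsmall, hsmallb] with k h1 h2 h3 h4 h5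
        have h6 := h3.2 0 (mem_ball_self (by positivity))
        rw [h1, mul_zero, zero_add] at h6
        have h7 : c k = b k := hinj (by simp only [mem_ball, dist_zero_right]; linarith)
          (by simp only [mem_ball, dist_zero_right]; linarith) h6
        have h8 := h3.2 z (ball_subset_ball (by linarith) hz)
        rw [h8, one_mul, ← h7, add_comm, ← h2]
      · rintro ⟨-, h0⟩
        refine ⟨hE0s, fun r' E' hr' hE' hinj' he' => ?_⟩
        have h1 := h0 _ _ (show 0 < r - ‖z‖ by linarith) hEz hinjz (by simp)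
        have h2 := hloc r r' E E' hr hr' hE hE' he'.symm
        filter_upwards [h1, h2, hbe, hsmall, hsmallb] with k h1 h2 h3 h4 h5
        have h8 := h3.2 z (ball_subset_ball (by linarith) hz)
        rw [h8, one_mul, add_comm z] at h1
        have h7 : b k + z = c k + z := hinj
          (by simp only [mem_ball, dist_zero_right]; linarith [norm_add_le (b k) z])
          (by simp only [mem_ball, dist_zero_right]; linarith [norm_add_le (c k) z]) h1
        have h9 := add_right_cancel h7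
        have h6 := h3.2 0 (mem_ball_self (by positivity))
        rw [h6, mul_zero, zero_add, h9, h2]
    have hDo : IsOpen D := by
      rw [isOpen_iff_mem_nhds]
      intro y hyD
      obtain ⟨r, hr, E, hE, hinj, rfl⟩ := M.exists_isSec hyD.1
      have h1 : E '' ball 0 (r / 4) ∈ 𝓝 (E 0) :=
        image_mem_nhds_of_sec hE (mem_ball_self hr) (ball_mem_nhds _ (by positivity))
      refine mem_of_superset h1 ?_
      rintro _ ⟨z, hz, rfl⟩
      exact (hDc r E hr hE hinj z hz).1 hyD
    have hsub : M.singᶜ ⊆ D := by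
      refine M.isolatedCharted_sing.isPreconnected_compl.subset_of_closure_inter_subset hDo
        ⟨E0 0, hx0, hx0, ?_⟩ ?_
      · intro r' E' hr' hE' hinj' he'
        have h2 := hloc r0 r' E0 E' hr0 hr' hE0 hE' he'.symm
        filter_upwards [hev, h2] with k hk h2
        have h1 := hk.2 0 (mem_ball_self (by positivity))
        rw [h1, mul_zero, zero_add, h2]
      · rintro y ⟨hycl, hy⟩
        obtain ⟨r, hr, E, hE, hinj, rfl⟩ := M.exists_isSec hy
        have h1 : E '' ball 0 (r / 4) ∈ 𝓝 (E 0) :=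
          image_mem_nhds_of_sec hE (mem_ball_self hr) (ball_mem_nhds _ (by positivity))
        obtain ⟨_, ⟨z1, hz1, rfl⟩, hz1D⟩ := mem_closure_iff_nhds.1 hycl _ h1
        exact (hDc r E hr hE hinj z1 hz1).2 hz1D
    intro r E hr hE hinj
    have hE0s := (hE.2 0 (mem_ball_self hr)).1
    obtain ⟨b, hb, hbe⟩ := normal_form hl haff hr hE hinj (hall _ hE0s)
    have h1 := (hsub hE0s).2 r E hr hE hinj rfl
    have hsmall : ∀ᶠ k in atTop, ‖c k‖ < r / 2 := by
      filter_upwards [hc.eventually (ball_mem_nhds 0 (show 0 < r / 2 by positivity))] with k hk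
      simpa using hk
    filter_upwards [h1, hbe, hsmall] with k h1 h3 h4 z hz
    have h6 := h3.2 0 (mem_ball_self (by positivity))
    rw [h1, mul_zero, zero_add] at h6
    have h7 : c k = b k := hinj (by simp only [mem_ball, dist_zero_right]; linarith)
      (by simp only [mem_ball, dist_zero_right]; linarith [h3.1]) h6
    rw [h3.2 z hz, one_mul, h7]

end TranslationStructure

end Pool.Agent.Helper76.Flat
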