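import Pool.Agent.Helper76.Flat.Seq

set_option autoImplicit false
set_option linter.style.haveILetI false

/-!
Small translations give complete strips.
-/

open Set Topology MeasureTheory Filter Metric ComplexConjugate

namespace Pool.Agent.Helper76.Flat

namespace TranslationStructure

variable {S : Type*} [TopologicalSpace S] {M : TranslationStructure S}

/-- the subgroup of translations -/
def Trans (M : TranslationStructure S) : Subgroup (S ≃ₜ S) where
  carrier := {f | M.IsAffine 1 f}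
  mul_mem' := by
    intro f g hf hg
    have := IsAffine.mul hf hg
    rwa [mul_one] at this
  one_mem' := isAffine_one
  inv_mem' := by
    intro f hf
    have := IsAffine.inv one_ne_zero hf
    rwa [inv_one] at this

lemma pow_formula {t : S ≃ₜ S} {c : ℂ} {ρ : ℝ} {E : ℂ → S}
    (h : ∀ z ∈ ball (0 : ℂ) ρ, t (E z) = E (z + c)) (n : ℕ) :
    ∀ z ∈ ball (0 : ℂ) ρ, z + n * c ∈ ball (0 : ℂ) ρ → (t ^ n) (E z) = E (z + n * c) := by
  induction n with
  | zero => intro z _ _; simp
  | succ n ih =>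
    intro z hz hz'
    have hmid : z + n * c ∈ ball (0 : ℂ) ρ := by
      have h1 := (convex_ball (0 : ℂ) ρ) hz hz' (a := 1 / ((n : ℝ) + 1)) (b := n / ((n : ℝ) + 1))
        (by positivity) (by positivity) (by field_simp; ring)
      convert h1 using 1
      simp only [Complex.real_smul]
      have : ((n : ℂ) + 1) ≠ 0 := by exact_mod_cast Nat.succ_ne_zero n
      push_cast
      field_simp
      ring
    rw [pow_succ', Homeomorph.mul_apply, ih z hz hmid, h _ hmid]
    congr 1
    push_cast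
    ring

lemma zpow_formula {t : S ≃ₜ S} {c : ℂ} {ρ : ℝ} {E : ℂ → S}
    (h : ∀ z ∈ ball (0 : ℂ) ρ, t (E z) = E (z + c)) (n : ℤ) :
    ∀ z ∈ ball (0 : ℂ) ρ, z + n * c ∈ ball (0 : ℂ) ρ → (t ^ n) (E z) = E (z + n * c) := by
  intro z hz hz'
  obtain ⟨m, rfl | rfl⟩ := n.eq_nat_or_neg
  · have := pow_formula h m z hz (by exact_mod_cast hz')
    rw [zpow_natCast, this]
    push_cast
    rfl
  · have h1 := pow_formula h m (z + ((-(m : ℤ) : ℤ) : ℂ) * c) hz' (by
      push_cast
      have : z + -(m : ℂ) * c + m * c = z := by ring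
      rwa [this])
    rw [zpow_neg, zpow_natCast]
    have h2 : (t ^ m : S ≃ₜ S) (E (z + ((-(m : ℤ) : ℤ) : ℂ) * c)) = E z := by
      rw [h1]
      congr 1
      push_cast
      ring
    rw [← h2]
    exact (t ^ m).symm_apply_apply _

/-- one small translation gives a section over a union of discs along a line -/
lemma exists_sec_line [Nonempty S] {t : S ≃ₜ S} (ht : M.IsAffine 1 t) {c : ℂ} {r : ℝ} {E : ℂ → S}
    (hr : 0 < r) (hE : M.IsSec 1 (ball 0 r) E)
    (h : ∀ z ∈ ball (0 : ℂ) (r / 2), t (E z) = E (z + c)) :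
    ∃ E' : ℂ → S, M.IsSec 1 (⋃ n : ℤ, ball (n * c) (r / 2)) E' ∧ E' 0 = E 0 := by
  have hmem : ∀ (n : ℤ) (z : ℂ), z ∈ ball (n * c) (r / 2) ↔ z - n * c ∈ ball (0 : ℂ) (r / 2) := by
    intro n z
    simp only [mem_ball, dist_eq_norm, sub_zero]
  have hS : ∀ n : ℤ, M.IsSec 1 (ball ((n : ℂ) * c) (r / 2))
      (fun z => (t ^ n : S ≃ₜ S) (E (z - n * c))) := by
    intro n
    have h1 : M.IsAffine 1 (t ^ n) := M.Trans.zpow_mem ht n
    have h2 := (hE.comp_affine isOpen_ball h1).comp_add (b := -(n * c))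
    rw [mul_one] at h2
    refine (h2.mono ?_)
    intro z hz
    rw [hmem] at hz
    have : z + -(n * c) ∈ ball (0 : ℂ) (r / 2) := by rwa [← sub_eq_add_neg]
    exact ball_subset_ball (by linarith) this
  have hcomp : ∀ i j : ℤ, ∀ z ∈ ball ((i : ℂ) * c) (r / 2) ∩ ball ((j : ℂ) * c) (r / 2),
      (t ^ i : S ≃ₜ S) (E (z - i * c)) = (t ^ j : S ≃ₜ S) (E (z - j * c)) := by
    intro i j z hz
    rw [mem_inter_iff, hmem, hmem] at hz
    have h4 : z - j * c + ((j - i : ℤ) : ℂ) * c = z - i * c := by push_cast; ring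
    have h3 := zpow_formula h (j - i) (z - j * c) hz.2 (by rw [h4]; exact hz.1)
    rw [h4] at h3
    rw [← h3, ← Homeomorph.mul_apply, ← zpow_add]
    congr 2
    ring
  obtain ⟨E', h1, h2⟩ := glue_sec (fun n : ℤ => isOpen_ball) hS hcomp
  refine ⟨E', h2, ?_⟩
  have := h1 0 (x := 0) (by simp; positivity)
  simpa using this

lemma strip_subset {c u : ℂ} (hc : c ≠ 0) (hu : u = c / ‖c‖) {r : ℝ} (hcr : ‖c‖ < r / 2) {z : ℂ}
    (hz : |(z * conj u).im| < r / 4) : z ∈ ⋃ n : ℤ, ball ((n : ℂ) * c) (r / 2) := by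
  have hcn : 0 < ‖c‖ := norm_pos_iff.2 hc
  have hun : ‖u‖ = 1 := by
    rw [hu, norm_div, Complex.norm_real, norm_norm, div_self hcn.ne']
  have hcn' : (‖c‖ : ℂ) ≠ 0 := by exact_mod_cast hcn.ne'
  have hcu : c = ‖c‖ * u := by
    rw [hu, mul_div_cancel₀ _ hcn']
  set x := (z * conj u).re with hx
  set y := (z * conj u).im with hy
  set n : ℤ := round (x / ‖c‖) with hn
  refine mem_iUnion.2 ⟨n, ?_⟩
  rw [mem_ball, dist_eq_norm]
  have huu : conj u * u = 1 := by
    rw [mul_comm, Complex.mul_conj, Complex.normSq_eq_norm_sq, hun]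
    simp
  have h1 : z - n * c = ((x - n * ‖c‖ : ℝ) + y * Complex.I) * u := by
    have h2 : z = (z * conj u) * u := by rw [mul_assoc, huu, mul_one]
    have h3 : z * conj u = x + y * Complex.I := (Complex.re_add_im _).symm
    rw [h3] at h2
    conv_lhs => rw [h2]
    conv_lhs => rw [hcu]
    push_cast
    ring
  rw [h1, norm_mul, hun, mul_one]
  have h4 : |x - n * ‖c‖| ≤ ‖c‖ / 2 := by
    have h5 := abs_sub_round (x / ‖c‖)
    have h6 : x - n * ‖c‖ = (x / ‖c‖ - n) * ‖c‖ := by field_simp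
    rw [h6, abs_mul, abs_of_pos hcn]
    calc |x / ‖c‖ - n| * ‖c‖ ≤ 1 / 2 * ‖c‖ := by gcongr
      _ = ‖c‖ / 2 := by ring
  calc ‖((x - n * ‖c‖ : ℝ) : ℂ) + y * Complex.I‖ ≤ ‖((x - n * ‖c‖ : ℝ) : ℂ)‖ + ‖y * Complex.I‖ :=
        norm_add_le _ _
    _ = |x - n * ‖c‖| + |y| := by
        rw [Complex.norm_real, norm_mul, Complex.norm_I, mul_one, Complex.norm_real,
          Real.norm_eq_abs, Real.norm_eq_abs]
    _ < r / 2 := by linarith

/-- a sequence of small translations gives complete strips in some direction -/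
lemma exists_strip [T2Space S] [ConnectedSpace S] {t : ℕ → S ≃ₜ S}
    (haff : ∀ k, M.IsAffine 1 (t k)) (hne : ∀ k, t k ≠ 1) {x0 : S} (hx0 : x0 ∉ M.sing)
    (hpt : Tendsto (fun k => t k x0) atTop (𝓝 x0)) :
    ∃ u : ℂ, ‖u‖ = 1 ∧ ∀ y, y ∉ M.sing →
      ∃ ε > 0, ∃ E : ℂ → S, M.IsSec u {z | |z.im| < ε} E ∧ E 0 = y := by
  obtain ⟨c, hc, hc0, hdisp⟩ := exists_displacement haff hne hx0 hpt
  obtain ⟨K, hK⟩ := eventually_atTop.1 hc0
  -- subsequence with convergent directions
  have hdir : ∀ k, K ≤ k → c k / ‖c k‖ ∈ sphere (0 : ℂ) 1 := by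
    intro k hk
    have := norm_pos_iff.2 (hK k hk)
    simp only [mem_sphere, dist_zero_right]
    rw [norm_div, Complex.norm_real, norm_norm, div_self this.ne']
  obtain ⟨u, hu, φ, hφ, hφu⟩ := (isCompact_sphere (0 : ℂ) 1).tendsto_subseq
    (x := fun k => c (k + K) / ‖c (k + K)‖) (fun k => hdir _ (by omega))
  have hu1 : ‖u‖ = 1 := by simpa using hu
  set ψ : ℕ → ℕ := fun k => φ k + K with hψ
  have hψt : Tendsto ψ atTop atTop := tendsto_atTop_mono (fun k => Nat.le_add_right _ _) hφ.tendsto_atTop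
  refine ⟨u, hu1, fun y hy => ?_⟩
  obtain ⟨r, hr, E, hE, hinj, rfl⟩ := M.exists_isSec hy
  have hd := hψt.eventually (hdisp r E hr hE hinj)
  have hsmall : ∀ᶠ k in atTop, ‖c (ψ k)‖ < r / 2 := by
    have := (hc.comp hψt).eventually (ball_mem_nhds 0 (show 0 < r / 2 by positivity))
    filter_upwards [this] with k hk
    simpa using hk
  -- for each radius a good index
  have hgood : ∀ R : ℕ, ∃ E' : ℂ → S, M.IsSec 1 {z | |(z * conj u).im| < r / 8 ∧ ‖z‖ < R + 1} E' ∧
      E' 0 = E 0 := by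
    intro R
    have hclose : ∀ᶠ k in atTop, ‖c (ψ k) / ‖c (ψ k)‖ - u‖ < r / (8 * (R + 1)) := by
      have hpos : 0 < r / (8 * ((R : ℝ) + 1)) := by positivity
      have := hφu.eventually (ball_mem_nhds u hpos)
      filter_upwards [this] with k hk
      simpa [dist_eq_norm] using hk
    obtain ⟨k, hk1, hk2, hk3⟩ := (hd.and (hsmall.and hclose)).exists
    obtain ⟨E', hE', hE0⟩ := exists_sec_line (haff (ψ k)) hr hE hk1
    refine ⟨E', hE'.mono ?_, hE0⟩
    rintro z ⟨hz1, hz2⟩
    refine strip_subset (hK _ (by simp [hψ])) rfl hk2 ?_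
    set v := c (ψ k) / ‖c (ψ k)‖ with hv
    have h1 : (z * conj v).im = (z * conj u).im + (z * conj (v - u)).im := by
      rw [← Complex.add_im]
      congr 1
      rw [map_sub]
      ring
    have h2 : |(z * conj (v - u)).im| ≤ ‖z‖ * ‖v - u‖ := by
      refine (Complex.abs_im_le_norm _).trans ?_
      rw [norm_mul, Complex.norm_conj]
    have h3 : ‖z‖ * ‖v - u‖ ≤ r / 8 := by
      have : ‖z‖ * ‖v - u‖ ≤ (R + 1) * (r / (8 * (R + 1))) := by
        gcongr
      refine this.trans (le_of_eq ?_)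
      field_simp
    rw [h1]
    calc |(z * conj u).im + (z * conj (v - u)).im| ≤ |(z * conj u).im| + |(z * conj (v - u)).im| :=
          abs_add_le _ _
      _ < r / 4 := by linarith
  choose E' hE' hE'0 using hgood
  have hconv : Convex ℝ {z : ℂ | |(z * conj u).im| < r / 8} := by
    have : {z : ℂ | |(z * conj u).im| < r / 8} = {z : ℂ | (z * conj u).im < r / 8} ∩
        {z : ℂ | -(r / 8) < (z * conj u).im} := by
      ext z; simp [abs_lt, and_comm]
    rw [this]
    have hlin : IsLinearMap ℝ fun z : ℂ => (z * conj u).im := by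
      constructor
      · intro a b; simp; ring
      · intro a b; simp; ring
    exact (convex_halfSpace_lt hlin _).inter (convex_halfSpace_gt hlin _)
  have hopen : ∀ R : ℕ, IsOpen {z : ℂ | |(z * conj u).im| < r / 8 ∧ ‖z‖ < R + 1} := by
    intro R
    refine IsOpen.and (isOpen_lt (by fun_prop) continuous_const) (isOpen_lt (by fun_prop) continuous_const)
  have hconvR : ∀ R : ℕ, Convex ℝ {z : ℂ | |(z * conj u).im| < r / 8 ∧ ‖z‖ < R + 1} := by
    intro R
    have : {z : ℂ | |(z * conj u).im| < r / 8 ∧ ‖z‖ < R + 1} =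
        {z : ℂ | |(z * conj u).im| < r / 8} ∩ ball 0 ((R : ℝ) + 1) := by
      ext z; simp
    rw [this]
    exact hconv.inter (convex_ball _ _)
  obtain ⟨Ê, h1, h2⟩ := glue_sec (M := M) (lam := 1)
    (V := fun R : ℕ => {z : ℂ | |(z * conj u).im| < r / 8 ∧ ‖z‖ < R + 1}) (E := E') hopen hE' (by
      intro i j z hz
      have h0 : ∀ k : ℕ, (0 : ℂ) ∈ {z : ℂ | |(z * conj u).im| < r / 8 ∧ ‖z‖ < k + 1} := by
        intro k
        simp only [mem_ofPred_eq, zero_mul, Complex.zero_im, abs_zero, norm_zero]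
        exact ⟨by positivity, by positivity⟩
      exact ((hE' i).mono inter_subset_left).eqOn ((hopen i).inter (hopen j))
        ((hconvR i).inter (hconvR j)).isPreconnected ((hE' j).mono inter_subset_right)
        ⟨h0 i, h0 j⟩ ((hE'0 i).trans (hE'0 j).symm) hz)
  have h3 := h2.comp_mul_add (a := u) (b := 0)
  refine ⟨r / 8, by positivity, fun z => Ê (u * z + 0), ?_, ?_⟩
  · rw [one_mul] at h3
    refine h3.mono ?_
    intro z hz
    obtain ⟨R, hR⟩ := exists_nat_gt ‖z‖
    refine mem_iUnion.2 ⟨R, ?_, ?_⟩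
    · have huu : u * conj u = 1 := by
        rw [Complex.mul_conj, Complex.normSq_eq_norm_sq, hu1]
        simp
      have : (u * z + 0) * conj u = z := by
        rw [add_zero, mul_comm u z, mul_assoc, huu, mul_one]
      rw [this]
      exact hz
    · show ‖u * z + 0‖ < (R : ℝ) + 1
      rw [add_zero, norm_mul, hu1, one_mul]
      linarith
  · have h0 : (0 : ℂ) ∈ {z : ℂ | |(z * conj u).im| < r / 8 ∧ ‖z‖ < (0 : ℕ) + 1} := by
      simp only [mem_ofPred_eq, zero_mul, Complex.zero_im, abs_zero, norm_zero]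
      exact ⟨by positivity, by positivity⟩
    show Ê (u * 0 + 0) = E 0
    rw [mul_zero, add_zero, h1 0 h0, hE'0]

end TranslationStructure

end Pool.Agent.Helper76.Flat
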