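import Pool.Agent.Helper76.Flat.Area2
import Pool.Agent.Helper76.Flat.Oph
import Pool.Agent.Helper76.Flat.Planar2

set_option autoImplicit false
set_option linter.style.haveILetI false

/-!
The surgery: re-gluing a translation structure along the discs `ρ g (ι (ball (-3) 4))` with the
planar model.
-/

open Set Topology MeasureTheory Filter Metric

namespace Pool.Agent.Helper76.Flat

open Planar

variable {S : Type*} [TopologicalSpace S]

/-- The closed disc tangent at the ideal point, without the ideal point. -/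
def KK : Set ℂ := closedBall (-1 : ℂ) 2 \ {1}

lemma KK_subset : KK ⊆ ball (-3 : ℂ) 4 := by
  rintro w ⟨hw, hw1⟩
  have h : 1 - w ≠ 0 := fun h => hw1 (sub_eq_zero.1 h).symm
  rw [← mem_K_iff h] at hw
  rw [← mem_H1_iff h]
  show -(3/4) < ((1 + w) / (1 - w)).re
  linarith

lemma mem_KK {w : ℂ} (hw : w ∈ ball (-3 : ℂ) 4) (hK : w ∈ closedBall (-1 : ℂ) 2) : w ∈ KK := by
  refine ⟨hK, fun h => ?_⟩
  rw [mem_singleton_iff] at h
  exact one_sub_ne hw (by rw [h, sub_self])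

/-- data for the surgery: a free orbit of flat discs reaching the ideal boundary -/
structure Slot (M : TranslationStructure S) {G : Type*} [Group G] (ρ : G →* (S ≃ₜ S)) where
  ι : ℂ → S
  lam : ℂ
  lam_ne : lam ≠ 0
  sec : M.IsSec lam (ball (-3) 4) ι
  inj : InjOn ι (ball (-3) 4)
  closed : IsClosed (ι '' KK)
  disj : ∀ g : G, g ≠ 1 → Disjoint (ρ g '' (ι '' ball (-3) 4)) (ι '' ball (-3) 4)
  aff : ∀ g, M.IsAffine 1 (ρ g)

namespace Slot

variable {M : TranslationStructure S} {G : Type*} [Group G] {ρ : G →* (S ≃ₜ S)}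

/-- the removed/reglued closed set -/
def C (σ : Slot M ρ) : Set S := ⋃ g : G, ρ g '' (σ.ι '' KK)

/-- the translated sections -/
def j (σ : Slot M ρ) (g : G) (w : ℂ) : S := ρ g (σ.ι w)

variable (σ : Slot M ρ)

lemma j_sec (g : G) : M.IsSec σ.lam (ball (-3) 4) (σ.j g) := by
  have := σ.sec.comp_affine isOpen_ball (σ.aff g)
  rwa [one_mul] at this

lemma j_inj (g : G) : InjOn (σ.j g) (ball (-3) 4) := fun _ hw _ hw' h =>
  σ.inj hw hw' ((ρ g).injective h)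

lemma j_eq {g g' : G} {w w' : ℂ} (hw : w ∈ ball (-3 : ℂ) 4) (hw' : w' ∈ ball (-3 : ℂ) 4)
    (h : σ.j g w = σ.j g' w') : g = g' ∧ w = w' := by
  have hg : g = g' := by
    by_contra hne
    have h1 : g⁻¹ * g' ≠ 1 := fun h2 => hne (inv_mul_eq_one.1 h2)
    have h2 := σ.disj (g⁻¹ * g') h1
    rw [Set.disjoint_left] at h2
    refine h2 ⟨σ.ι w', ⟨w', hw', rfl⟩, rfl⟩ ⟨w, hw, ?_⟩
    rw [map_mul, map_inv, Homeomorph.mul_apply]
    show σ.ι w = (ρ g).symm (ρ g' (σ.ι w'))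
    rw [Homeomorph.eq_symm_apply]
    exact h
  subst hg
  exact ⟨rfl, σ.j_inj g hw hw' h⟩

lemma mem_C_iff {g : G} {w : ℂ} (hw : w ∈ ball (-3 : ℂ) 4) :
    σ.j g w ∈ σ.C ↔ w ∈ closedBall (-1 : ℂ) 2 := by
  constructor
  · intro h
    obtain ⟨g', x, ⟨w', hw', rfl⟩, hx⟩ := mem_iUnion.1 h
    have h1 : σ.j g' w' = σ.j g w := hx
    obtain ⟨-, rfl⟩ := σ.j_eq (KK_subset hw') hw h1
    exact hw'.1
  · intro h
    exact mem_iUnion.2 ⟨g, σ.ι w, ⟨w, mem_KK hw h, rfl⟩, rfl⟩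

lemma exists_of_mem_C {x : S} (hx : x ∈ σ.C) : ∃ g, ∃ w ∈ ball (-3 : ℂ) 4, σ.j g w = x := by
  obtain ⟨g, y, ⟨w, hw, rfl⟩, hx⟩ := mem_iUnion.1 hx
  exact ⟨g, w, KK_subset hw, hx⟩

lemma isClosed_C [Finite G] : IsClosed σ.C :=
  isClosed_iUnion_of_finite fun g => ((ρ g).isClosedMap _ σ.closed)

lemma smul_mem_C {g : G} {x : S} : ρ g x ∈ σ.C ↔ x ∈ σ.C := by
  have key : ∀ g : G, ∀ x : S, x ∈ σ.C → ρ g x ∈ σ.C := by
    intro g x hx
    obtain ⟨g', y, hy, rfl⟩ := mem_iUnion.1 hx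
    refine mem_iUnion.2 ⟨g * g', y, hy, ?_⟩
    rw [map_mul]; rfl
  refine ⟨fun h => ?_, key g x⟩
  have := key g⁻¹ _ h
  rwa [← Homeomorph.mul_apply, ← map_mul, inv_mul_cancel, map_one] at this

lemma notMem_sing_j (g : G) {w : ℂ} (hw : w ∈ ball (-3 : ℂ) 4) : σ.j g w ∉ M.sing :=
  ((σ.j_sec g).2 w hw).1

lemma map_nhds_j (g : G) {w : ℂ} (hw : w ∈ ball (-3 : ℂ) 4) :
    map (σ.j g) (𝓝 w) = 𝓝 (σ.j g w) :=
  (σ.j_sec g).map_nhds σ.lam_ne isOpen_ball hw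

section delta

variable {α : ℝ} (h1 : α < Real.pi / 2)

/-- the developing map of the model -/
noncomputable def dev (w : ℂ) : ℂ := E (Phi h1 w)

/-- compatibility of a chart with the new structure -/
def Compat (ψ : OpenPartialHomeomorph S ℂ) : Prop :=
  ∀ x ∈ ψ.source,
    (x ∉ σ.C → x ∉ M.sing ∧ ∀ φ ∈ M.charts, x ∈ φ.source → ∃ c : ℂ, ∀ᶠ y in 𝓝 x, ψ y = φ y + c) ∧
    (∀ g, ∀ w ∈ ball (-3 : ℂ) 4, x = σ.j g w → ∃ c : ℂ, ∀ᶠ w' in 𝓝 w,
      ψ (σ.j g w') = σ.lam * dev h1 w' + c)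

lemma dev_eq {w : ℂ} (hw : w ∈ ball (-3 : ℂ) 4) (hK : w ∉ closedBall (-1 : ℂ) 2) :
    ∀ᶠ w' in 𝓝 w, dev h1 w' = w' := by
  filter_upwards [isOpen_ball.mem_nhds hw, isClosed_closedBall.isOpen_compl.mem_nhds hK] with w' h h'
  exact E_Phi h1 h h'

/-- old charts are compatible off `C` -/
lemma compat_restr [Finite G] {φ : OpenPartialHomeomorph S ℂ} (hφ : φ ∈ M.charts) :
    σ.Compat h1 (φ.restrOpen σ.Cᶜ σ.isClosed_C.isOpen_compl) := by
  intro x hx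
  rw [OpenPartialHomeomorph.restrOpen_source] at hx
  refine ⟨fun _ => ⟨M.notMem_sing hφ hx.1, fun φ' hφ' hx' => ?_⟩, fun g w hw hxw => ?_⟩
  · exact M.translation φ' hφ' φ hφ x ⟨hx', hx.1⟩
  · subst hxw
    have hK : w ∉ closedBall (-1 : ℂ) 2 := fun h => hx.2 ((σ.mem_C_iff hw).2 h)
    obtain ⟨c, hc⟩ := ((σ.j_sec g).2 w hw).2 φ hφ hx.1
    refine ⟨c, ?_⟩
    filter_upwards [hc, dev_eq h1 hw hK] with w' hw' hw''
    rw [hw'']
    exact hw'

variable (h0 : 0 < α)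

/-- the restriction of `E` to an open set on which it is injective -/
noncomputable def Eoph {A : Set ℂ} (hA : IsOpen A) (hAR : A ⊆ RW α) (hinj : InjOn E A) :
    OpenPartialHomeomorph ℂ ℂ :=
  ophOfInj E A hA ((continuousOn_E h0).mono hAR) hinj fun _ hV hVo =>
    isOpen_E_image h0 hVo (hV.trans hAR)

/-- the charts of the new structure on the reglued discs -/
noncomputable def ch (g : G) {A : Set ℂ} (hA : IsOpen A) (hAR : A ⊆ RW α) (hinj : InjOn E A) :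
    OpenPartialHomeomorph S ℂ :=
  ((σ.j_sec g).oph σ.lam_ne isOpen_ball (σ.j_inj g)).symm.trans
    ((Phi h1).trans ((Eoph h0 hA hAR hinj).trans
      (Homeomorph.mulLeft₀ σ.lam σ.lam_ne).toOpenPartialHomeomorph))

lemma mem_ch_source (g : G) {A : Set ℂ} (hA : IsOpen A) (hAR : A ⊆ RW α) (hinj : InjOn E A)
    {x : S} : x ∈ (σ.ch h1 h0 g hA hAR hinj).source ↔
    ∃ w ∈ ball (-3 : ℂ) 4, Phi h1 w ∈ A ∧ σ.j g w = x := by
  set J := (σ.j_sec g).oph σ.lam_ne isOpen_ball (σ.j_inj g) with hJ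
  have hJs : J.source = ball (-3) 4 := rfl
  constructor
  · intro hx
    simp only [ch, OpenPartialHomeomorph.trans_source, OpenPartialHomeomorph.symm_source,
      mem_inter_iff, mem_preimage] at hx
    refine ⟨J.symm x, J.map_target hx.1, hx.2.2.1, J.right_inv hx.1⟩
  · rintro ⟨w, hw, hwA, rfl⟩
    have h2 : J.symm (σ.j g w) = w := J.left_inv hw
    simp only [ch, OpenPartialHomeomorph.trans_source, OpenPartialHomeomorph.symm_source,
      mem_inter_iff, mem_preimage]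
    refine ⟨J.map_source hw, ?_, ?_, ?_⟩
    · show J.symm (σ.j g w) ∈ _
      rw [h2]
      exact hw
    · show Phi h1 (J.symm (σ.j g w)) ∈ A
      rw [h2]
      exact hwA
    · exact mem_univ _

lemma ch_apply (g : G) {A : Set ℂ} (hA : IsOpen A) (hAR : A ⊆ RW α) (hinj : InjOn E A)
    {w : ℂ} (hw : w ∈ ball (-3 : ℂ) 4) :
    σ.ch h1 h0 g hA hAR hinj (σ.j g w) = σ.lam * dev h1 w := by
  set J := (σ.j_sec g).oph σ.lam_ne isOpen_ball (σ.j_inj g) with hJ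
  have h2 : J.symm (σ.j g w) = w := J.left_inv hw
  show σ.lam * E (Phi h1 (J.symm (σ.j g w))) = _
  rw [h2]
  rfl

lemma compat_ch (g : G) {A : Set ℂ} (hA : IsOpen A) (hAR : A ⊆ RW α) (hinj : InjOn E A) :
    σ.Compat h1 (σ.ch h1 h0 g hA hAR hinj) := by
  intro x hx
  rw [mem_ch_source] at hx
  obtain ⟨w, hw, hwA, rfl⟩ := hx
  have hev : ∀ᶠ w' in 𝓝 w, σ.ch h1 h0 g hA hAR hinj (σ.j g w') = σ.lam * dev h1 w' := by
    filter_upwards [isOpen_ball.mem_nhds hw] with w' hw'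
    exact σ.ch_apply h1 h0 g hA hAR hinj hw'
  refine ⟨fun hxC => ⟨σ.notMem_sing_j g hw, fun φ hφ hxφ => ?_⟩, fun g' w'' hw'' h => ?_⟩
  · have hK : w ∉ closedBall (-1 : ℂ) 2 := fun h => hxC ((σ.mem_C_iff hw).2 h)
    obtain ⟨c, hc⟩ := ((σ.j_sec g).2 w hw).2 φ hφ hxφ
    refine ⟨-c, ?_⟩
    rw [← σ.map_nhds_j g hw, Filter.eventually_map]
    filter_upwards [hc, dev_eq h1 hw hK, hev] with w' h2 h3 h4
    rw [h4, h3, h2]
    ring
  · obtain ⟨rfl, rfl⟩ := σ.j_eq hw hw'' h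
    exact ⟨0, by simpa using hev⟩

include h0 h1 in
/-- small discs on which `E` is injective -/
lemma exists_inj_nhds {W : ℂ} (hW : W ∈ RW α) : ∃ A, IsOpen A ∧ A ⊆ RW α ∧ InjOn E A ∧ W ∈ A := by
  refine ⟨RW α ∩ {V | |V.im - W.im| < 1}, (isOpen_RW h1).inter (isOpen_lt (by fun_prop)
    continuous_const), inter_subset_left, ?_, hW, by simp⟩
  refine injOn_E h0 inter_subset_left fun V hV V' hV' => ?_
  have h2 : |V.im - W.im| < 1 := hV.2
  have h3 : |V'.im - W.im| < 1 := hV'.2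
  have h4 : |V.im - V'.im| ≤ |V.im - W.im| + |W.im - V'.im| := abs_sub_le _ _ _
  rw [abs_sub_comm W.im] at h4
  linarith [Real.pi_gt_three]

/-- the new translation structure -/
noncomputable def surg [Finite G] : TranslationStructure S where
  sing := M.sing
  charts := {ψ | σ.Compat h1 ψ}
  isClosed_sing := M.isClosed_sing
  discrete_sing := M.discrete_sing
  cover := by
    ext x
    simp only [mem_iUnion, mem_compl_iff, exists_prop]
    constructor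
    · rintro ⟨ψ, hψ, hx⟩
      by_cases hC : x ∈ σ.C
      · obtain ⟨g, w, hw, rfl⟩ := σ.exists_of_mem_C hC
        exact σ.notMem_sing_j g hw
      · exact ((hψ x hx).1 hC).1
    · intro hx
      by_cases hC : x ∈ σ.C
      · obtain ⟨g, w, hw, rfl⟩ := σ.exists_of_mem_C hC
        obtain ⟨A, hA, hAR, hinj, hWA⟩ := exists_inj_nhds h1 h0 ((Phi h1).map_source hw)
        exact ⟨σ.ch h1 h0 g hA hAR hinj, σ.compat_ch h1 h0 g hA hAR hinj,
          (σ.mem_ch_source h1 h0 g hA hAR hinj).2 ⟨w, hw, hWA, rfl⟩⟩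
      · obtain ⟨φ, hφ, hxφ⟩ := M.exists_chart hx
        refine ⟨_, σ.compat_restr h1 hφ, ?_⟩
        rw [OpenPartialHomeomorph.restrOpen_source]
        exact ⟨hxφ, hC⟩
  translation := by
    rintro ψ hψ ψ' hψ' x ⟨hx, hx'⟩
    by_cases hC : x ∈ σ.C
    · obtain ⟨g, w, hw, rfl⟩ := σ.exists_of_mem_C hC
      obtain ⟨c, hc⟩ := (hψ _ hx).2 g w hw rfl
      obtain ⟨c', hc'⟩ := (hψ' _ hx').2 g w hw rfl
      refine ⟨c' - c, ?_⟩
      rw [← σ.map_nhds_j g hw, Filter.eventually_map]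
      filter_upwards [hc, hc'] with w' h2 h3
      rw [h2, h3]
      ring
    · obtain ⟨hs, h2⟩ := (hψ x hx).1 hC
      obtain ⟨-, h3⟩ := (hψ' x hx').1 hC
      obtain ⟨φ, hφ, hxφ⟩ := M.exists_chart hs
      obtain ⟨c, hc⟩ := h2 φ hφ hxφ
      obtain ⟨c', hc'⟩ := h3 φ hφ hxφ
      refine ⟨c' - c, ?_⟩
      filter_upwards [hc, hc'] with y h2 h3
      rw [h2, h3]
      ring
  cone := by
    intro p hp
    obtain ⟨k, hk, h, hph, hp0, hhs, hcone⟩ := M.cone p hp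
    have hpC : p ∉ σ.C := by
      intro hC
      obtain ⟨g, w, hw, rfl⟩ := σ.exists_of_mem_C hC
      exact σ.notMem_sing_j g hw hp
    refine ⟨k, hk, h.restrOpen σ.Cᶜ σ.isClosed_C.isOpen_compl, ?_, hp0, ?_, ?_⟩
    · rw [OpenPartialHomeomorph.restrOpen_source]
      exact ⟨hph, hpC⟩
    · rw [OpenPartialHomeomorph.restrOpen_source]
      ext x
      constructor
      · rintro ⟨⟨h2, -⟩, h3⟩
        rw [← hhs]
        exact ⟨h2, h3⟩
      · intro h2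
        rw [mem_singleton_iff] at h2
        subst h2
        exact ⟨⟨hph, hpC⟩, hp⟩
    · rintro ψ hψ x ⟨hx, hx'⟩
      rw [OpenPartialHomeomorph.restrOpen_source] at hx'
      obtain ⟨hs, h2⟩ := (hψ x hx).1 hx'.2
      obtain ⟨φ, hφ, hxφ⟩ := M.exists_chart hs
      obtain ⟨c, hc⟩ := h2 φ hφ hxφ
      obtain ⟨c', hc'⟩ := hcone φ hφ x ⟨hxφ, hx'.1⟩
      refine ⟨c' + c, ?_⟩
      filter_upwards [hc, hc'] with y h2 h3
      rw [h2, h3]
      show h y ^ k + c' + c = h y ^ k + (c' + c)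
      ring

lemma surg_sing [Finite G] : (σ.surg h1 h0).sing = M.sing := rfl

lemma mem_surg_charts [Finite G] {ψ : OpenPartialHomeomorph S ℂ} :
    ψ ∈ (σ.surg h1 h0).charts ↔ σ.Compat h1 ψ := Iff.rfl

/-- the group acts by translations on the new structure -/
lemma surg_isAffine [Finite G] (g : G) : (σ.surg h1 h0).IsAffine 1 (ρ g) := by
  refine ⟨(σ.aff g).1, fun ψ hψ ψ' hψ' x hx hx' => ?_⟩
  by_cases hC : x ∈ σ.C
  · obtain ⟨g', w, hw, rfl⟩ := σ.exists_of_mem_C hC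
    obtain ⟨c, hc⟩ := (hψ _ hx).2 g' w hw rfl
    have h2 : ∀ w, ρ g (σ.j g' w) = σ.j (g * g') w := by
      intro w
      rw [j, j, map_mul]; rfl
    obtain ⟨c', hc'⟩ := (hψ' _ hx').2 (g * g') w hw (h2 w)
    refine ⟨c' - c, ?_⟩
    rw [← σ.map_nhds_j g' hw, Filter.eventually_map]
    filter_upwards [hc, hc'] with w' h3 h4
    rw [h2, h3, h4]
    ring
  · have hC' : ρ g x ∉ σ.C := fun h => hC (σ.smul_mem_C.1 h)
    obtain ⟨hs, h2⟩ := (hψ x hx).1 hC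
    obtain ⟨hs', h3⟩ := (hψ' _ hx').1 hC'
    obtain ⟨φ, hφ, hxφ⟩ := M.exists_chart hs
    obtain ⟨φ', hφ', hxφ'⟩ := M.exists_chart hs'
    obtain ⟨c, hc⟩ := h2 φ hφ hxφ
    obtain ⟨c', hc'⟩ := h3 φ' hφ' hxφ'
    obtain ⟨d, hd⟩ := (σ.aff g).2 φ hφ φ' hφ' x hxφ hxφ'
    refine ⟨d + c' - c, ?_⟩
    filter_upwards [hc, hd, (ρ g).continuous.continuousAt.eventually hc'] with y h4 h5 h6
    rw [h6, h5, h4]
    ring

/-- planar sections of the developing map give sections of the new structure -/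
lemma surg_isSec [Finite G] (g : G) {V : Set ℂ} (hV : IsOpen V) {s : ℂ → ℂ}
    (hs : ContinuousOn s V) (hsm : ∀ z ∈ V, s z ∈ ball (-3 : ℂ) 4)
    (hsd : ∀ z ∈ V, dev h1 (s z) = z) : (σ.surg h1 h0).IsSec σ.lam V (fun z => σ.j g (s z)) := by
  refine ⟨(σ.j_sec g).1.comp hs hsm, fun z hz => ⟨σ.notMem_sing_j g (hsm z hz),
    fun ψ hψ hx => ?_⟩⟩
  obtain ⟨c, hc⟩ := (hψ _ hx).2 g (s z) (hsm z hz) rfl
  refine ⟨c, ?_⟩
  have hsc : ContinuousAt s z := hs.continuousAt (hV.mem_nhds hz)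
  filter_upwards [hsc.eventually hc, hV.mem_nhds hz] with z' h2 h3
  rw [h2, hsd z' h3]

end delta

end Slot

end Pool.Agent.Helper76.Flat
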