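import Pool.Agent.Helper76.Flat.Finite

set_option autoImplicit false
set_option linter.style.haveILetI false

/-!
The Riemann surface structure underlying a translation structure.
-/

open Set Topology MeasureTheory Filter Metric ComplexConjugate

namespace Pool.Agent.Helper76.Flat

variable {S : Type*} [TopologicalSpace S]

namespace TranslationStructure

variable {M : TranslationStructure S}

/-- the chart `ψ` is holomorphically compatible with `M` at `x` -/
def HoloAt (M : TranslationStructure S) (ψ : OpenPartialHomeomorph S ℂ) (x : S) : Prop :=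
  ∃ φ ∈ M.charts, x ∈ φ.source ∧ ∃ d : ℂ, d ≠ 0 ∧ HasDerivAt (φ ∘ ψ.symm) d (ψ x)

lemma holoAt_of_mem {φ : OpenPartialHomeomorph S ℂ} (hφ : φ ∈ M.charts) {x : S}
    (hx : x ∈ φ.source) : M.HoloAt φ x := by
  refine ⟨φ, hφ, hx, 1, one_ne_zero, ?_⟩
  refine (hasDerivAt_id (φ x)).congr_of_eventuallyEq ?_
  filter_upwards [φ.open_target.mem_nhds (φ.map_source hx)] with z hz
  exact φ.right_inv hz

/-- affine maps are holomorphic at regular points -/
lemma IsAffine.differentiableAt {lam : ℂ} {f : S ≃ₜ S} (hf : M.IsAffine lam f)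
    {ψ ψ' : OpenPartialHomeomorph S ℂ} {x : S} (hx : x ∈ ψ.source) (hfx : f x ∈ ψ'.source)
    (h : M.HoloAt ψ x) (h' : M.HoloAt ψ' (f x)) :
    DifferentiableAt ℂ (ψ' ∘ f ∘ ψ.symm) (ψ x) := by
  obtain ⟨φ, hφ, hxφ, d, hd, hder⟩ := h
  obtain ⟨φ', hφ', hxφ', d', hd', hder'⟩ := h'
  -- `ψ' ∘ φ'.symm` is differentiable at `φ' (f x)`
  have h1 : HasDerivAt (ψ' ∘ φ'.symm) d'⁻¹ (φ' (f x)) := by
    refine HasDerivAt.of_local_left_inverse (f := φ' ∘ ψ'.symm) ?_ ?_ hd' ?_
    · refine ContinuousAt.comp ?_ (φ'.continuousAt_symm (φ'.map_source hxφ'))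
      rw [φ'.left_inv hxφ']
      exact ψ'.continuousAt hfx
    · rw [Function.comp_apply, φ'.left_inv hxφ']
      exact hder'
    · have hc : ContinuousAt φ'.symm (φ' (f x)) := φ'.continuousAt_symm (φ'.map_source hxφ')
      have h2 : ∀ᶠ w in 𝓝 (φ' (f x)), φ'.symm w ∈ ψ'.source := by
        refine hc.eventually ?_
        rw [φ'.left_inv hxφ']
        exact ψ'.open_source.mem_nhds hfx
      filter_upwards [h2, φ'.open_target.mem_nhds (φ'.map_source hxφ')] with w hw hw'
      simp only [Function.comp_apply]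
      rw [ψ'.left_inv hw, φ'.right_inv hw']
  obtain ⟨c, hc⟩ := hf.2 φ hφ φ' hφ' x hxφ hxφ'
  -- `ψ' ∘ f ∘ ψ.symm = (ψ' ∘ φ'.symm) ∘ (lam * · + c) ∘ (φ ∘ ψ.symm)` near `ψ x`
  have hcs : ContinuousAt ψ.symm (ψ x) := ψ.continuousAt_symm (ψ.map_source hx)
  have hval : lam * φ x + c = φ' (f x) := hc.self_of_nhds.symm
  have h3 : HasDerivAt (fun z => lam * (φ ∘ ψ.symm) z + c) (lam * d) (ψ x) :=
    (hder.const_mul lam).add_const c
  have h4 : HasDerivAt (fun z => (ψ' ∘ φ'.symm) (lam * (φ ∘ ψ.symm) z + c)) (d'⁻¹ * (lam * d))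
      (ψ x) := by
    refine HasDerivAt.comp (h₂ := ψ' ∘ φ'.symm) (ψ x) ?_ h3
    have : lam * (φ ∘ ψ.symm) (ψ x) + c = φ' (f x) := by
      rw [Function.comp_apply, ψ.left_inv hx, hval]
    rw [this]
    exact h1
  refine h4.differentiableAt.congr_of_eventuallyEq ?_
  have h5 : ∀ᶠ z in 𝓝 (ψ x), φ' (f (ψ.symm z)) = lam * φ (ψ.symm z) + c := by
    have ht := hcs.tendsto
    rw [ψ.left_inv hx] at ht
    exact ht.eventually hc
  have h6 : ∀ᶠ z in 𝓝 (ψ x), f (ψ.symm z) ∈ φ'.source := by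
    refine (f.continuous.continuousAt.comp hcs).eventually ?_
    rw [Function.comp_apply, ψ.left_inv hx]
    exact φ'.open_source.mem_nhds hxφ'
  filter_upwards [h5, h6] with z hz hz'
  simp only [Function.comp_apply]
  rw [← hz, φ'.left_inv hz']

/-- affine maps are holomorphic in compatible charts -/
lemma IsAffine.differentiableOn {lam : ℂ} {f : S ≃ₜ S} (hf : M.IsAffine lam f)
    {ψ ψ' : OpenPartialHomeomorph S ℂ} (h : ∀ x ∈ ψ.source, x ∉ M.sing → M.HoloAt ψ x)
    (h' : ∀ x ∈ ψ'.source, x ∉ M.sing → M.HoloAt ψ' x) :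
    DifferentiableOn ℂ (ψ' ∘ f ∘ ψ.symm) (ψ.target ∩ ψ.symm ⁻¹' (f ⁻¹' ψ'.source)) := by
  set U := ψ.target ∩ ψ.symm ⁻¹' (f ⁻¹' ψ'.source) with hU
  have hUo : IsOpen U :=
    ψ.continuousOn_symm.isOpen_inter_preimage ψ.open_target (ψ'.open_source.preimage f.continuous)
  have hreg : ∀ z ∈ U, ψ.symm z ∉ M.sing → DifferentiableAt ℂ (ψ' ∘ f ∘ ψ.symm) z := by
    intro z hz hs
    have h1 := hf.differentiableAt (ψ.map_target hz.1) hz.2 (h _ (ψ.map_target hz.1) hs)
      (h' _ hz.2 fun hh => hs ((mem_sing_iff_image hf.1).1 hh))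
    rwa [ψ.right_inv hz.1] at h1
  intro z hz
  by_cases hs : ψ.symm z ∈ M.sing
  · -- removable singularity
    obtain ⟨V, hV, hVs⟩ := M.discrete_sing _ hs
    have hcs : ContinuousAt ψ.symm z := ψ.symm.continuousAt hz.1
    have hW : U ∩ ψ.symm ⁻¹' V ∈ 𝓝 z := inter_mem (hUo.mem_nhds hz) (hcs.preimage_mem_nhds hV)
    have h1 : DifferentiableOn ℂ (ψ' ∘ f ∘ ψ.symm) (U ∩ ψ.symm ⁻¹' V) := by
      rw [← Complex.differentiableOn_compl_singleton_and_continuousAt_iff hW]
      refine ⟨?_, ?_⟩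
      · rintro w ⟨⟨hwU, hwV⟩, hwz⟩
        refine (hreg w hwU fun hws => hwz ?_).differentiableWithinAt
        have h2 : ψ.symm w ∈ V ∩ M.sing := ⟨hwV, hws⟩
        rw [hVs, mem_singleton_iff] at h2
        exact ψ.symm.injOn hwU.1 hz.1 h2
      · have h3 : ContinuousAt (f ∘ ψ.symm) z := f.continuous.continuousAt.comp hcs
        exact ContinuousAt.comp (ψ'.continuousAt hz.2) h3
    exact ((h1 z (mem_of_mem_nhds hW)).differentiableAt hW).differentiableWithinAt
  · exact (hreg z hz hs).differentiableWithinAt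

/-- the underlying Riemann surface structure -/
def toRS (M : TranslationStructure S) : RiemannSurfaceStructure S where
  charts := {ψ | ∀ x ∈ ψ.source, x ∉ M.sing → M.HoloAt ψ x}
  cover := by
    rw [eq_univ_iff_forall]
    intro x
    by_cases hx : x ∈ M.sing
    · obtain ⟨k, hk, h, hph, hp0, hhs, hcone⟩ := M.cone x hx
      refine mem_biUnion (x := h) ?_ hph
      intro y hy hys
      obtain ⟨φ, hφ, hyφ⟩ := M.exists_chart hys
      obtain ⟨c, hc⟩ := hcone φ hφ y ⟨hyφ, hy⟩
      have hne : h y ≠ 0 := by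
        intro h0
        apply hys
        have : y = x := h.injOn hy hph (by rw [h0, hp0])
        rwa [this]
      refine ⟨φ, hφ, hyφ, k * (h y) ^ (k - 1), ?_, ?_⟩
      · exact mul_ne_zero (by exact_mod_cast (by omega : k ≠ 0)) (pow_ne_zero _ hne)
      · have h1 : HasDerivAt (fun z : ℂ => z ^ k + c) (k * (h y) ^ (k - 1)) (h y) :=
          (hasDerivAt_pow k (h y)).add_const c
        refine h1.congr_of_eventuallyEq ?_
        have hcs : ContinuousAt h.symm (h y) := h.continuousAt_symm (h.map_source hy)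
        have h2 : ∀ᶠ z in 𝓝 (h y), φ (h.symm z) = h (h.symm z) ^ k + c := by
          have ht := hcs.tendsto
          rw [h.left_inv hy] at ht
          exact ht.eventually hc
        filter_upwards [h2, h.open_target.mem_nhds (h.map_source hy)] with z hz hz'
        rw [Function.comp_apply, hz, h.right_inv hz']
    · obtain ⟨φ, hφ, hxφ⟩ := M.exists_chart hx
      exact mem_biUnion (x := φ) (fun y hy _ => holoAt_of_mem hφ hy) hxφ
  holomorphic := by
    intro ψ hψ ψ' hψ'
    exact (isAffine_one (M := M)).differentiableOn hψ hψ'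

lemma IsAffine.isHolomorphic {lam : ℂ} {f : S ≃ₜ S} (hf : M.IsAffine lam f) :
    M.toRS.IsHolomorphic f :=
  ⟨f.continuous, fun _ hψ _ hψ' => hf.differentiableOn hψ hψ'⟩

end TranslationStructure

end Pool.Agent.Helper76.Flat
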